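import Pool.Agent.W_MP_78a2de_al.Defs

/-! The chain of primes (helper8). -/

namespace Pool.Agent.W_MP_78a2de_al

open MvPolynomial Filter

namespace ChainAux

theorem head_lt_one {R : Type} [CommRing R] (p : LTSeries (PrimeSpectrum R)) (h : p.length ≠ 0) :
    p.head < p 1 := by
  refine LTSeries.strictMono p ?_
  rw [Fin.lt_def]
  show 0 < 1 % (p.length + 1)
  rw [Nat.mod_eq_of_lt (by omega)]
  exact one_pos

theorem chain_aux {R : Type} [CommRing R] [IsNoetherianRing R] (M : PrimeSpectrum R) (G : Set R)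
    (hG : ∀ g ∈ G, g ∈ M.asIdeal) (hstep : ∀ q : PrimeSpectrum R, q < M → ∃ g ∈ G, g ∉ q.asIdeal) :
    ∀ (n : ℕ) (p : LTSeries (PrimeSpectrum R)), p.length = n → p.last = M →
      ∃ q : ℕ → Ideal R, q 0 = p.head.asIdeal ∧ q n = M.asIdeal ∧ (∀ i ≤ n, (q i).IsPrime) ∧
        ∀ i < n, q i ≤ q (i + 1) ∧ ∃ g ∈ G, g ∉ q i ∧ g ∈ q (i + 1) := by
  intro n
  induction n with
  | zero =>
    intro p hp hlast
    have hhead : p.head = M := by
      rw [← hlast, RelSeries.head, RelSeries.last]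
      congr 1
      ext
      simp [hp]
    exact ⟨fun _ => M.asIdeal, by rw [hhead], rfl, fun _ _ => M.2, fun i hi => absurd hi (by omega)⟩
  | succ n ih =>
    intro p hp hlast
    have hlt : p.head < M := by
      rw [← hlast]
      exact LTSeries.strictMono p (by
        rw [Fin.lt_def]
        simp [hp])
    obtain ⟨g, hgG, hg⟩ := hstep _ hlt
    obtain ⟨p', h1, h2, h3, h4⟩ := PrimeSpectrum.exist_ltSeries_mem_one_of_mem_last p
      (x := g) (by rw [hlast]; exact hG g hgG)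
    have hne : p'.length ≠ 0 := by omega
    obtain ⟨q, hq0, hqn, hqp, hqs⟩ := ih (p'.tail hne) (by rw [RelSeries.tail_length]; omega)
      (by rw [RelSeries.last_tail, ← h4, hlast])
    rw [RelSeries.head_tail] at hq0
    refine ⟨fun i => Nat.casesOn i p.head.asIdeal q, rfl, hqn, ?_, ?_⟩
    · intro i hi
      cases i with
      | zero => exact p.head.2
      | succ i => exact hqp i (by omega)
    · intro i hi
      cases i with
      | zero =>
        refine ⟨?_, g, hgG, hg, ?_⟩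
        · show p.head.asIdeal ≤ q 0
          rw [hq0, h3]
          exact (head_lt_one p' hne).le
        · show g ∈ q 0
          rw [hq0]; exact h1
      | succ i => exact hqs i (by omega)

theorem chain_first {R : Type} [CommRing R] [IsNoetherianRing R] (M : PrimeSpectrum R) (G : Set R)
    (hG : ∀ g ∈ G, g ∈ M.asIdeal) (hstep : ∀ q : PrimeSpectrum R, q < M → ∃ g ∈ G, g ∉ q.asIdeal)
    (n : ℕ) (p : LTSeries (PrimeSpectrum R)) (hp : p.length = n + 1) (hlast : p.last = M)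
    (g : R) (hgG : g ∈ G) (hg : g ∉ p.head.asIdeal) :
      ∃ q : ℕ → Ideal R, q 0 = p.head.asIdeal ∧ q (n + 1) = M.asIdeal ∧ g ∈ q 1 ∧
        (∀ i ≤ n + 1, (q i).IsPrime) ∧
        ∀ i < n + 1, q i ≤ q (i + 1) ∧ ∃ g ∈ G, g ∉ q i ∧ g ∈ q (i + 1) := by
  obtain ⟨p', h1, h2, h3, h4⟩ := PrimeSpectrum.exist_ltSeries_mem_one_of_mem_last p
    (x := g) (by rw [hlast]; exact hG g hgG)
  have hne : p'.length ≠ 0 := by omega
  obtain ⟨q, hq0, hqn, hqp, hqs⟩ := chain_aux M G hG hstep n (p'.tail hne)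
    (by rw [RelSeries.tail_length]; omega) (by rw [RelSeries.last_tail, ← h4, hlast])
  rw [RelSeries.head_tail] at hq0
  have hgq : g ∈ q 0 := by rw [hq0]; exact h1
  refine ⟨fun i => Nat.casesOn i p.head.asIdeal q, rfl, hqn, hgq, ?_, ?_⟩
  · intro i hi
    cases i with
    | zero => exact p.head.2
    | succ i => exact hqp i (by omega)
  · intro i hi
    cases i with
    | zero =>
      refine ⟨?_, g, hgG, hg, hgq⟩
      show p.head.asIdeal ≤ q 0
      rw [hq0, h3]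
      exact (head_lt_one p' hne).le
    | succ i => exact hqs i (by omega)

/-- Partial specialization. -/
noncomputable def spec {d : ℕ} (τ : Fin d → ℂ) (i : ℕ) :
    MvPolynomial (Fin d) ℂ →ₐ[ℂ] MvPolynomial (Fin d) ℂ :=
  aeval fun j => if (j : ℕ) < i then C (τ j) else X j

theorem spec_comp {d : ℕ} (τ : Fin d → ℂ) (i : ℕ) (p : MvPolynomial (Fin d) ℂ) :
    spec τ (i + 1) (spec τ i p) = spec τ (i + 1) p := by
  have : (spec τ (i + 1)).comp (spec τ i) = spec τ (i + 1) := by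
    apply MvPolynomial.algHom_ext
    intro j
    simp only [spec, AlgHom.comp_apply, aeval_X]
    by_cases h : (j : ℕ) < i
    · have h' : (j : ℕ) < i + 1 := by omega
      rw [if_pos h, if_pos h']
      simp
    · rw [if_neg h, aeval_X]
  exact DFunLike.congr_fun this p

theorem spec_zero {d : ℕ} (τ : Fin d → ℂ) (p : MvPolynomial (Fin d) ℂ) : spec τ 0 p = p := by
  have : spec τ 0 = AlgHom.id ℂ _ := by
    apply MvPolynomial.algHom_ext
    intro j
    simp [spec]
  rw [this]; rfl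

theorem spec_last {d : ℕ} (τ : Fin d → ℂ) (p : MvPolynomial (Fin d) ℂ) :
    spec τ d p = C (aeval τ p) := by
  have : spec τ d = (Algebra.ofId ℂ (MvPolynomial (Fin d) ℂ)).comp (aeval τ) := by
    apply MvPolynomial.algHom_ext
    intro j
    simp only [spec, aeval_X, AlgHom.comp_apply, j.2, if_true]
    rfl
  rw [this]; rfl

/-- The standard chain. -/
noncomputable def stdChain {d : ℕ} (τ : Fin d → ℂ) : LTSeries (PrimeSpectrum (MvPolynomial (Fin d) ℂ)) where
  length := d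
  toFun i := ⟨RingHom.ker (spec τ i), RingHom.ker_isPrime _⟩
  step i := by
    show (_ : Ideal (MvPolynomial (Fin d) ℂ)) < _
    refine lt_of_le_of_ne ?_ ?_
    · intro p hp
      rw [RingHom.mem_ker] at hp ⊢
      have : spec τ (i.castSucc : Fin (d + 1)) p = 0 := hp
      show spec τ ((i.succ : Fin (d + 1)) : ℕ) p = 0
      rw [Fin.val_succ, ← spec_comp]
      rw [Fin.val_castSucc] at this
      rw [this, map_zero]
    · intro h
      have h1 : X i - C (τ i) ∈ RingHom.ker (spec τ ((i.succ : Fin (d + 1)) : ℕ)) := by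
        rw [RingHom.mem_ker]
        simp [spec]
      have h2 : X i - C (τ i) ∈ RingHom.ker (spec τ ((i.castSucc : Fin (d + 1)) : ℕ)) := by
        have h' : RingHom.ker (spec τ ((i.castSucc : Fin (d + 1)) : ℕ)) =
          RingHom.ker (spec τ ((i.succ : Fin (d + 1)) : ℕ)) := h
        rw [h']; exact h1
      rw [RingHom.mem_ker] at h2
      simp only [spec, map_sub, aeval_X, Fin.val_castSucc, lt_irrefl, if_false, aeval_C,
        algebraMap_eq] at h2
      have h3 := congrArg (aeval (fun _ => τ i + 1 : Fin d → ℂ)) h2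
      simp at h3

theorem finset_prod_ideal_le {R : Type} [CommRing R] {ι : Type} (s : Finset ι) (f : ι → Ideal R)
    (P : Ideal R) (hP : P.IsPrime) (h : s.inf f ≤ P) : ∃ i ∈ s, f i ≤ P :=
  (Ideal.IsPrime.inf_le' hP).1 h

/-- A prime strictly below the maximal ideal of a point of the torus has infinitely many zeros in
the torus. -/
theorem infinite_zeros {d : ℕ} (τ : Fin d → ℂ) (hτ : ∀ i, τ i ≠ 0)
    (q : Ideal (MvPolynomial (Fin d) ℂ)) (hq : q.IsPrime)
    (hle : q ≤ RingHom.ker (aeval τ : MvPolynomial (Fin d) ℂ →ₐ[ℂ] ℂ))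
    (hfin : {σ : Fin d → ℂ | (∀ i, σ i ≠ 0) ∧ ∀ p ∈ q, aeval σ p = 0}.Finite) :
    q = RingHom.ker (aeval τ : MvPolynomial (Fin d) ℂ →ₐ[ℂ] ℂ) := by
  classical
  let I : (Fin d → ℂ) → Ideal (MvPolynomial (Fin d) ℂ) := fun σ =>
    RingHom.ker (aeval σ : MvPolynomial (Fin d) ℂ →ₐ[ℂ] ℂ)
  have hmax : ∀ σ, (I σ).IsMaximal := by
    intro σ
    apply RingHom.ker_isMaximal_of_surjective
    intro c
    exact ⟨C c, by simp⟩
  have hinf : hfin.toFinset.inf I ≤ q := by
    intro h hh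
    rw [Submodule.mem_finsetInf] at hh
    have h1 : h * ∏ i, X i ∈ vanishingIdeal ℂ (zeroLocus ℂ q) := by
      rw [mem_vanishingIdeal_iff]
      intro σ hσ
      rw [mem_zeroLocus_iff] at hσ
      by_cases hz : ∀ i, σ i ≠ 0
      · have h2 := hh σ (by
          rw [Set.Finite.mem_toFinset]
          exact ⟨hz, hσ⟩)
        have h3 : aeval σ h = 0 := h2
        rw [map_mul, h3, zero_mul]
      · push Not at hz
        obtain ⟨i, hi⟩ := hz
        rw [map_mul, map_prod]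
        simp only [aeval_X]
        rw [Finset.prod_eq_zero (Finset.mem_univ i) hi, mul_zero]
    rw [vanishingIdeal_zeroLocus_eq_radical, hq.radical] at h1
    rcases hq.mem_or_mem h1 with h2 | h2
    · exact h2
    · exfalso
      have h3 := hle h2
      rw [RingHom.mem_ker, map_prod] at h3
      simp only [aeval_X] at h3
      exact (Finset.prod_ne_zero_iff.2 fun i _ => hτ i) h3
  obtain ⟨σ, -, hσ⟩ := finset_prod_ideal_le _ I q hq hinf
  have h1 : I σ = q := (hmax σ).eq_of_le hq.ne_top hσ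
  have h2 : q.IsMaximal := h1 ▸ hmax σ
  exact h2.eq_of_le (hmax τ).ne_top hle

theorem aeval_toric {J : Type} {d : ℕ} (χ : J → Fin d → ℤ) (ζ : J → ℂ)
    (κ : ℤ) (hκ : ∀ j i, 0 ≤ χ j i + κ) (σ : Fin d → ℂ) (hσ : ∀ i, σ i ≠ 0) (j : J) :
    aeval σ (toric χ ζ κ j) = (∏ i, σ i ^ κ) * pt χ ζ σ j := by
  rw [toric, aeval_monomial, pt]
  have h1 : ∀ i, σ i ^ (χ j i + κ).toNat = σ i ^ (χ j i) * σ i ^ κ := by
    intro i
    rw [← zpow_natCast, Int.toNat_of_nonneg (hκ j i), zpow_add₀ (hσ i)]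
  rw [Finsupp.prod_fintype _ _ (fun i => pow_zero _)]
  simp only [Finsupp.equivFunOnFinite_symm_apply_apply, h1, Finset.prod_mul_distrib]
  simp only [Algebra.algebraMap_self, RingHom.id_apply]
  ring

theorem aeval_aeval_sform {J : Type} {d : ℕ} (χ : J → Fin d → ℤ) (ζ : J → ℂ)
    (κ : ℤ) (hκ : ∀ j i, 0 ≤ χ j i + κ) (σ : Fin d → ℂ) (hσ : ∀ i, σ i ≠ 0) (e : J × J × J) :
    aeval σ (aeval (toric χ ζ κ) (sform e)) = 0 ↔ SumEq (pt χ ζ σ) e := by
  have h0 : aeval (toric χ ζ κ) (sform e) = toric χ ζ κ e.1 + toric χ ζ κ e.2.1 - toric χ ζ κ e.2.2 := by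
    simp only [sform, map_sub, map_add, aeval_X]
  rw [h0, map_sub, map_add, aeval_toric χ ζ κ hκ σ hσ, aeval_toric χ ζ κ hκ σ hσ,
    aeval_toric χ ζ κ hκ σ hσ, ← mul_add, ← mul_sub, SumEq, mul_eq_zero, sub_eq_zero]
  constructor
  · rintro (h | h)
    · exact absurd h (Finset.prod_ne_zero_iff.2 fun i _ => zpow_ne_zero _ (hσ i))
    · exact h
  · intro h; exact Or.inr h

end ChainAux

open ChainAux in
theorem toric_chain {J : Type} [Finite J] {d : ℕ} (χ : J → Fin d → ℤ) (ζ : J → ℂ)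
    (hζ : ∀ j, ζ j ≠ 0) (κ : ℤ) (hκ : ∀ j i, 0 ≤ χ j i + κ) (E : Set (J × J × J))
    (τ : Fin d → ℂ) (hτ : τ ∈ zeroSet χ ζ E) (hfin : (zeroSet χ ζ E).Finite)
    (e₁ : J × J × J) (he₁ : e₁ ∈ E) (hne : aeval (toric χ ζ κ) (sform e₁) ≠ 0) :
    ∃ q : ℕ → Ideal (MvPolynomial (Fin d) ℂ), q 0 = ⊥ ∧
      q d = RingHom.ker (aeval τ : MvPolynomial (Fin d) ℂ →ₐ[ℂ] ℂ) ∧
      aeval (toric χ ζ κ) (sform e₁) ∈ q 1 ∧ (∀ i ≤ d, (q i).IsPrime) ∧
      ∀ i < d, q i ≤ q (i + 1) ∧
        ∃ e ∈ E, aeval (toric χ ζ κ) (sform e) ∉ q i ∧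
          aeval (toric χ ζ κ) (sform e) ∈ q (i + 1) := by
  let M : PrimeSpectrum (MvPolynomial (Fin d) ℂ) :=
    ⟨RingHom.ker (aeval τ : MvPolynomial (Fin d) ℂ →ₐ[ℂ] ℂ), RingHom.ker_isPrime _⟩
  let G : Set (MvPolynomial (Fin d) ℂ) := {g | ∃ e ∈ E, g = aeval (toric χ ζ κ) (sform e)}
  have hG : ∀ g ∈ G, g ∈ M.asIdeal := by
    rintro g ⟨e, he, rfl⟩
    exact (aeval_aeval_sform χ ζ κ hκ τ hτ.1 e).2 (hτ.2 e he)
  have hstep : ∀ q : PrimeSpectrum (MvPolynomial (Fin d) ℂ), q < M → ∃ g ∈ G, g ∉ q.asIdeal := by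
    intro q hq
    by_contra hcon
    push Not at hcon
    have h1 : q.asIdeal = M.asIdeal := by
      refine infinite_zeros τ hτ.1 q.asIdeal q.2 hq.le (hfin.subset ?_)
      rintro σ ⟨hσ, hσ'⟩
      refine ⟨hσ, fun e he => ?_⟩
      exact (aeval_aeval_sform χ ζ κ hκ σ hσ e).1 (hσ' _ (hcon _ ⟨e, he, rfl⟩))
    exact hq.ne (PrimeSpectrum.ext h1)
  have hhead : (stdChain τ).head.asIdeal = ⊥ := by
    show RingHom.ker (spec τ ((0 : Fin (d + 1)) : ℕ)) = ⊥
    rw [RingHom.ker_eq_bot_iff_eq_zero]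
    intro p hp
    rw [Fin.val_zero, spec_zero] at hp
    exact hp
  have hlast : (stdChain τ).last = M := by
    apply PrimeSpectrum.ext
    show RingHom.ker (spec τ ((Fin.last d : Fin (d + 1)) : ℕ)) = _
    ext p
    rw [RingHom.mem_ker, Fin.val_last, spec_last]
    show _ ↔ aeval τ p = 0
    simp
  cases d with
  | zero =>
    exfalso
    apply hne
    have h1 := (aeval_aeval_sform χ ζ κ hκ τ hτ.1 e₁).2 (hτ.2 e₁ he₁)
    have h2 := spec_last τ (aeval (toric χ ζ κ) (sform e₁))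
    rw [spec_zero, h1, C_0] at h2
    exact h2
  | succ n =>
    obtain ⟨q, h0, h1, h2, h3, h4⟩ := chain_first M G hG hstep n (stdChain τ) rfl hlast
      (aeval (toric χ ζ κ) (sform e₁)) ⟨e₁, he₁, rfl⟩ (by rw [hhead]; exact hne)
    refine ⟨q, h0.trans hhead, h1, h2, h3, ?_⟩
    intro i hi
    obtain ⟨h5, g, ⟨e, he, rfl⟩, h6, h7⟩ := h4 i hi
    exact ⟨h5, e, he, h6, h7⟩

end Pool.Agent.W_MP_78a2de_al
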