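import Pool.Agent.W_MP_78a2de_al.Defs

namespace Pool.Agent.W_MP_78a2de_al

open MvPolynomial Filter

/-! ### The integral form -/

theorem circ_exists {L : ℕ} (hL : 0 < L) (β γ : ℕ) (ω : ℂ) (hω : IsPrimitiveRoot ω L) :
    ∃ F : MvPolynomial (Fin 3) ℤ,
      map (Int.castRingHom ℂ) F = ∏ s ∈ Finset.range L,
        (X 0 + C (ω ^ (s * β)) * X 1 - C (ω ^ (s * γ)) * X 2) := by
  classical
  set φ : MvPolynomial (Fin 3) ℤ →+* MvPolynomial (Fin 3) ℂ := map (Int.castRingHom ℂ) with hφ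
  set f : Polynomial (MvPolynomial (Fin 3) ℤ) := Polynomial.X ^ L - Polynomial.C 1 with hf
  set g : Polynomial (MvPolynomial (Fin 3) ℤ) :=
    Polynomial.C (X 0) + Polynomial.C (X 1) * Polynomial.X ^ β
      - Polynomial.C (X 2) * Polynomial.X ^ γ with hg
  refine ⟨Polynomial.resultant f g L (max β γ), ?_⟩
  rw [← Polynomial.resultant_map_map]
  have hf' : f.map φ = Polynomial.X ^ L - Polynomial.C 1 := by
    simp [hf]
  have hg' : g.map φ = Polynomial.C (X 0) + Polynomial.C (X 1) * Polynomial.X ^ β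
      - Polynomial.C (X 2) * Polynomial.X ^ γ := by
    simp [hg, hφ]
  have hω' : IsPrimitiveRoot (C ω : MvPolynomial (Fin 3) ℂ) L :=
    hω.map_of_injective (C_injective (Fin 3) ℂ)
  have hprod := X_pow_sub_C_eq_prod hω' hL (one_pow L)
  have hdeg : (g.map φ).natDegree ≤ max β γ := by
    rw [hg']
    compute_degree
  have h1 : (∏ i ∈ Finset.range L,
      (Polynomial.X - Polynomial.C ((C ω : MvPolynomial (Fin 3) ℂ) ^ i * 1))).natDegree = L := by
    rw [← hprod, Polynomial.natDegree_X_pow_sub_C]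
  have h2 := Polynomial.resultant_prod_left (Finset.range L)
    (fun i => Polynomial.X - Polynomial.C ((C ω : MvPolynomial (Fin 3) ℂ) ^ i * 1)) (g.map φ)
    (max β γ) (by simp only [Polynomial.leadingCoeff_X_sub_C]; simp) hdeg
  rw [h1, ← hprod] at h2
  rw [hf', h2]
  refine Finset.prod_congr rfl fun s _ => ?_
  rw [Polynomial.natDegree_X_sub_C, Polynomial.resultant_X_sub_C_left _ _ _ hdeg, hg']
  simp only [Polynomial.eval_sub, Polynomial.eval_add, Polynomial.eval_mul, Polynomial.eval_C,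
    Polynomial.eval_pow, Polynomial.eval_X, mul_one, ← map_pow, ← pow_mul]
  ring

theorem circ_homog {L : ℕ} (β γ : ℕ) (ω : ℂ) :
    (∏ s ∈ Finset.range L, (X 0 + C (ω ^ (s * β)) * X 1 - C (ω ^ (s * γ)) * X 2) :
      MvPolynomial (Fin 3) ℂ).IsHomogeneous L := by
  have h := IsHomogeneous.prod (Finset.range L)
    (fun s => (X 0 + C (ω ^ (s * β)) * X 1 - C (ω ^ (s * γ)) * X 2 : MvPolynomial (Fin 3) ℂ))
    (fun _ => 1) (fun s _ => ((isHomogeneous_X _ _).add (isHomogeneous_C_mul_X _ _)).sub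
      (isHomogeneous_C_mul_X _ _))
  simpa using h

/-! ### The bound on the torus -/

theorem amgm {L : ℕ} (z : ℕ → ℝ) (hz : ∀ i, 0 ≤ z i) (K : ℝ)
    (h : ∑ s ∈ Finset.range L, z s ≤ K * L) : ∏ s ∈ Finset.range L, z s ≤ K ^ L := by
  rcases Nat.eq_zero_or_pos L with rfl | hL
  · simp
  have hL' : (0 : ℝ) < L := by exact_mod_cast hL
  have h1 := Real.geom_mean_le_arith_mean (Finset.range L) (fun _ => 1) z (fun _ _ => zero_le_one)
    (by simpa using hL') (fun i _ => hz i)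
  simp only [Real.rpow_one, Finset.sum_const, Finset.card_range, nsmul_eq_mul, mul_one,
    one_mul] at h1
  have hP : 0 ≤ ∏ s ∈ Finset.range L, z s := Finset.prod_nonneg fun i _ => hz i
  have h2 : (∏ s ∈ Finset.range L, z s) ^ ((L : ℝ)⁻¹) ≤ K := by
    refine h1.trans ?_
    rw [div_le_iff₀ hL']
    exact h
  have h3 : ((∏ s ∈ Finset.range L, z s) ^ ((L : ℝ)⁻¹)) ^ L ≤ K ^ L :=
    pow_le_pow_left₀ (Real.rpow_nonneg hP _) h2 L
  rwa [Real.rpow_inv_natCast_pow hP hL.ne'] at h3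

theorem geom_zero {L : ℕ} {z : ℂ} (hz : z ≠ 1) (hzL : z ^ L = 1) :
    ∑ s ∈ Finset.range L, z ^ s = 0 := by
  rw [geom_sum_eq hz, hzL, sub_self, zero_div]

theorem torus_sum {L : ℕ} (u v : ℂ) (hu : u ^ L = 1) (hv : v ^ L = 1) (hu1 : u ≠ 1)
    (hv1 : v ≠ 1) (huv : u ≠ v) (x y : ℂ) (hx : ‖x‖ = 1) (hy : ‖y‖ = 1) (hL : 0 < L) :
    ∑ s ∈ Finset.range L, ‖1 + u ^ s * x - v ^ s * y‖ ^ 2 = 3 * L := by
  have hun : ‖u‖ = 1 := Complex.norm_eq_one_of_pow_eq_one hu hL.ne'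
  have hvn : ‖v‖ = 1 := Complex.norm_eq_one_of_pow_eq_one hv hL.ne'
  have hcu : (starRingEnd ℂ) u = u⁻¹ := (Complex.inv_eq_conj hun).symm
  have hcv : (starRingEnd ℂ) v = v⁻¹ := (Complex.inv_eq_conj hvn).symm
  have hcx : (starRingEnd ℂ) x = x⁻¹ := (Complex.inv_eq_conj hx).symm
  have hcy : (starRingEnd ℂ) y = y⁻¹ := (Complex.inv_eq_conj hy).symm
  have hu0 : u ≠ 0 := by
    rintro rfl
    simp at hun
  have hv0 : v ≠ 0 := by
    rintro rfl
    simp at hvn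
  have hx0 : x ≠ 0 := by
    rintro rfl
    simp at hx
  have hy0 : y ≠ 0 := by
    rintro rfl
    simp at hy
  have key : ∀ s, ((‖1 + u ^ s * x - v ^ s * y‖ ^ 2 : ℝ) : ℂ) =
      3 + x * u ^ s + x⁻¹ * (u⁻¹) ^ s - y * v ^ s - y⁻¹ * (v⁻¹) ^ s
        - x * y⁻¹ * (u * v⁻¹) ^ s - x⁻¹ * y * (u⁻¹ * v) ^ s := by
    intro s
    rw [Complex.ofReal_pow, ← Complex.mul_conj']
    simp only [map_add, map_sub, map_mul, map_one, map_pow, hcu, hcv, hcx, hcy, mul_pow, inv_pow]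
    have e1 : u ^ s ≠ 0 := pow_ne_zero _ hu0
    have e2 : v ^ s ≠ 0 := pow_ne_zero _ hv0
    field_simp
    ring
  have hz : ∀ z : ℂ, z ≠ 1 → z ^ L = 1 → ∀ k : ℂ, ∑ s ∈ Finset.range L, k * z ^ s = 0 := by
    intro z h1 h2 k
    rw [← Finset.mul_sum, geom_zero h1 h2, mul_zero]
  have hui : u⁻¹ ≠ 1 := by simpa using hu1
  have hvi : v⁻¹ ≠ 1 := by simpa using hv1
  have huL : (u⁻¹) ^ L = 1 := by rw [inv_pow, hu, inv_one]
  have hvL : (v⁻¹) ^ L = 1 := by rw [inv_pow, hv, inv_one]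
  have h1 : u * v⁻¹ ≠ 1 := fun h => huv ((mul_inv_eq_one₀ hv0).1 h)
  have h2 : u⁻¹ * v ≠ 1 := fun h => huv ((inv_mul_eq_one₀ hu0).1 h)
  have h1L : (u * v⁻¹) ^ L = 1 := by rw [mul_pow, hu, hvL, mul_one]
  have h2L : (u⁻¹ * v) ^ L = 1 := by rw [mul_pow, hv, huL, mul_one]
  have hC : ((∑ s ∈ Finset.range L, ‖1 + u ^ s * x - v ^ s * y‖ ^ 2 : ℝ) : ℂ) = 3 * L := by
    rw [Complex.ofReal_sum, Finset.sum_congr rfl fun s _ => key s]
    simp only [Finset.sum_sub_distrib, Finset.sum_add_distrib, hz u hu1 hu, hz _ hui huL,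
      hz v hv1 hv, hz _ hvi hvL, hz _ h1 h1L, hz _ h2 h2L]
    simp [mul_comm]
  exact_mod_cast hC

theorem torus_bound {L : ℕ} (hL : 0 < L) (β γ : ℕ) (hβ : ¬ β ≡ 0 [MOD L]) (hγ : ¬ γ ≡ 0 [MOD L])
    (hβγ : ¬ β ≡ γ [MOD L]) (ω : ℂ) (hω : IsPrimitiveRoot ω L) (x y : ℂ) (hx : ‖x‖ = 1)
    (hy : ‖y‖ = 1) :
    ‖∏ s ∈ Finset.range L, (1 + ω ^ (s * β) * x - ω ^ (s * γ) * y)‖ ≤ Real.sqrt 3 ^ L := by
  have hne : ∀ a b : ℕ, ¬ a ≡ b [MOD L] → ω ^ a ≠ ω ^ b := by
    intro a b hab h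
    apply hab
    have e : ∀ c : ℕ, ω ^ c = ω ^ (c % L) := by
      intro c
      conv_lhs => rw [← Nat.div_add_mod c L, pow_add, pow_mul, hω.pow_eq_one, one_pow, one_mul]
    rw [e a, e b] at h
    exact hω.pow_inj (Nat.mod_lt _ hL) (Nat.mod_lt _ hL) h
  have h1 : ω ^ β ≠ 1 := by simpa using hne β 0 hβ
  have h2 : ω ^ γ ≠ 1 := by simpa using hne γ 0 hγ
  have h3 : ω ^ β ≠ ω ^ γ := hne β γ hβγ
  have hpow : ∀ a : ℕ, (ω ^ a) ^ L = 1 := by
    intro a
    rw [← pow_mul, mul_comm, pow_mul, hω.pow_eq_one, one_pow]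
  have hs := torus_sum (ω ^ β) (ω ^ γ) (hpow β) (hpow γ) h1 h2 h3 x y hx hy hL
  have ham := amgm (L := L) (fun s => ‖1 + (ω ^ β) ^ s * x - (ω ^ γ) ^ s * y‖ ^ 2)
    (fun i => by positivity) 3 hs.le
  rw [Finset.prod_pow] at ham
  have e : ∏ s ∈ Finset.range L, ‖1 + (ω ^ β) ^ s * x - (ω ^ γ) ^ s * y‖ =
      ‖∏ s ∈ Finset.range L, (1 + ω ^ (s * β) * x - ω ^ (s * γ) * y)‖ := by
    rw [norm_prod]
    refine Finset.prod_congr rfl fun s _ => ?_
    rw [← pow_mul, ← pow_mul, mul_comm β s, mul_comm γ s]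
  rw [e] at ham
  refine le_of_sq_le_sq ?_ (by positivity)
  rw [← pow_mul, mul_comm L 2, pow_mul, Real.sq_sqrt (by norm_num)]
  exact ham

/-! ### Coefficients -/

theorem orth {M : ℕ} (hM : 0 < M) {η : ℂ} (hη : IsPrimitiveRoot η M) {a b : ℕ} (ha : a < M)
    (hb : b < M) :
    ∑ i ∈ Finset.range M, (η ^ i) ^ a * ((η⁻¹) ^ i) ^ b = if a = b then (M : ℂ) else 0 := by
  have hη0 : η ≠ 0 := hη.ne_zero hM.ne'
  have e : ∀ i, (η ^ i) ^ a * ((η⁻¹) ^ i) ^ b = (η ^ a * (η⁻¹) ^ b) ^ i := by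
    intro i
    rw [mul_pow, ← pow_mul, ← pow_mul, ← pow_mul, ← pow_mul, mul_comm i a, mul_comm i b]
  rw [Finset.sum_congr rfl fun i _ => e i]
  split_ifs with h
  · subst h
    rw [← mul_pow, mul_inv_cancel₀ hη0]
    simp
  · apply geom_zero
    · intro h1
      apply h
      rw [inv_pow, mul_inv_eq_one₀ (pow_ne_zero _ hη0)] at h1
      exact hη.pow_inj ha hb h1
    · rw [mul_pow, ← pow_mul, ← pow_mul, mul_comm a M, mul_comm b M, pow_mul, pow_mul,
        inv_pow, hη.pow_eq_one]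
      simp

theorem coeff_bound {L : ℕ} (G : MvPolynomial (Fin 3) ℂ) (hG : G.IsHomogeneous L) {B : ℝ}
    (hB : 0 ≤ B)
    (hb : ∀ x y : ℂ, ‖x‖ = 1 → ‖y‖ = 1 → ‖eval ![1, x, y] G‖ ≤ B) (v : Fin 3 →₀ ℕ) :
    ‖coeff v G‖ ≤ B := by
  classical
  by_cases hv : coeff v G = 0
  · rw [hv, norm_zero]
    exact hB
  have hdeg : ∀ d : Fin 3 →₀ ℕ, coeff d G ≠ 0 → d 0 + d 1 + d 2 = L := by
    intro d hd
    have h := hG hd
    rw [Finsupp.weight_apply, Finsupp.sum_fintype _ _ (by simp), Fin.sum_univ_three] at h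
    simpa using h
  set M := L + 1 with hM
  have hMpos : 0 < M := Nat.succ_pos _
  obtain ⟨η, hη⟩ : ∃ η : ℂ, IsPrimitiveRoot η M :=
    ⟨_, Complex.isPrimitiveRoot_exp M hMpos.ne'⟩
  have hηn : ‖η‖ = 1 := Complex.norm_eq_one_of_pow_eq_one hη.pow_eq_one hMpos.ne'
  have hv' := hdeg v hv
  have key : ∑ i ∈ Finset.range M, ∑ j ∈ Finset.range M,
      eval ![1, η ^ i, η ^ j] G * (((η⁻¹) ^ i) ^ (v 1) * ((η⁻¹) ^ j) ^ (v 2)) =
      (M : ℂ) * M * coeff v G := by
    have h1 : ∀ i j : ℕ, eval ![1, η ^ i, η ^ j] G =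
        ∑ d ∈ G.support, coeff d G * ((η ^ i) ^ (d 1) * (η ^ j) ^ (d 2)) := by
      intro i j
      rw [eval_eq']
      refine Finset.sum_congr rfl fun d _ => ?_
      rw [Fin.prod_univ_three]
      simp
    have h2 : ∀ i j : ℕ, eval ![1, η ^ i, η ^ j] G *
        (((η⁻¹) ^ i) ^ (v 1) * ((η⁻¹) ^ j) ^ (v 2)) =
        ∑ d ∈ G.support, coeff d G * (((η ^ i) ^ (d 1) * ((η⁻¹) ^ i) ^ (v 1)) *
          ((η ^ j) ^ (d 2) * ((η⁻¹) ^ j) ^ (v 2))) := by
      intro i j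
      rw [h1, Finset.sum_mul]
      refine Finset.sum_congr rfl fun d _ => ?_
      ring
    have h3 : ∀ i : ℕ, ∑ j ∈ Finset.range M, eval ![1, η ^ i, η ^ j] G *
        (((η⁻¹) ^ i) ^ (v 1) * ((η⁻¹) ^ j) ^ (v 2)) =
        ∑ d ∈ G.support, coeff d G * (((η ^ i) ^ (d 1) * ((η⁻¹) ^ i) ^ (v 1)) *
          if d 2 = v 2 then (M : ℂ) else 0) := by
      intro i
      rw [Finset.sum_congr rfl fun j _ => h2 i j, Finset.sum_comm]
      refine Finset.sum_congr rfl fun d hd => ?_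
      have hd' := hdeg d (mem_support_iff.1 hd)
      rw [← Finset.mul_sum, ← Finset.mul_sum, orth hMpos hη (by omega) (by omega)]
    rw [Finset.sum_congr rfl fun i _ => h3 i, Finset.sum_comm]
    have h4 : ∀ d ∈ G.support, ∑ i ∈ Finset.range M,
        coeff d G * (((η ^ i) ^ (d 1) * ((η⁻¹) ^ i) ^ (v 1)) *
          if d 2 = v 2 then (M : ℂ) else 0) =
        if d = v then (M : ℂ) * M * coeff v G else 0 := by
      intro d hd
      have hd' := hdeg d (mem_support_iff.1 hd)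
      rw [← Finset.mul_sum, ← Finset.sum_mul, orth hMpos hη (by omega) (by omega)]
      by_cases hdv : d = v
      · subst hdv
        simp
        ring
      · rw [if_neg hdv]
        by_cases h5 : d 1 = v 1
        · by_cases h6 : d 2 = v 2
          · exact absurd (Finsupp.ext fun i => by
              fin_cases i
              · change d 0 = v 0
                omega
              · exact h5
              · exact h6) hdv
          · rw [if_neg h6]
            simp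
        · rw [if_neg h5]
          simp
    rw [Finset.sum_congr rfl h4, Finset.sum_ite_eq' , if_pos (mem_support_iff.2 hv)]
  have hnorm : (M : ℝ) * M * ‖coeff v G‖ ≤ (M : ℝ) * M * B := by
    have h5 : ‖(M : ℂ) * M * coeff v G‖ = (M : ℝ) * M * ‖coeff v G‖ := by
      rw [norm_mul, norm_mul, Complex.norm_natCast]
    rw [← h5, ← key]
    have hterm : ∀ i j : ℕ, ‖eval ![1, η ^ i, η ^ j] G *
        (((η⁻¹) ^ i) ^ (v 1) * ((η⁻¹) ^ j) ^ (v 2))‖ ≤ B := by
      intro i j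
      rw [norm_mul]
      have : ‖((η⁻¹) ^ i) ^ (v 1) * ((η⁻¹) ^ j) ^ (v 2)‖ = 1 := by
        simp [norm_pow, norm_inv, hηn]
      rw [this, mul_one]
      exact hb _ _ (by simp [hηn]) (by simp [hηn])
    calc ‖∑ i ∈ Finset.range M, ∑ j ∈ Finset.range M,
      eval ![1, η ^ i, η ^ j] G * (((η⁻¹) ^ i) ^ (v 1) * ((η⁻¹) ^ j) ^ (v 2))‖
        ≤ ∑ i ∈ Finset.range M, ∑ j ∈ Finset.range M, B :=
          norm_sum_le_of_le _ fun i _ => norm_sum_le_of_le _ fun j _ => hterm i j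
      _ = (M : ℝ) * M * B := by
          simp only [Finset.sum_const, Finset.card_range, nsmul_eq_mul]
          ring
  have hMM : (0 : ℝ) < (M : ℝ) * M := by positivity
  exact le_of_mul_le_mul_left hnorm hMM

theorem card_support_le {L : ℕ} {R : Type*} [CommSemiring R] (F : MvPolynomial (Fin 3) R)
    (hF : F.IsHomogeneous L) : F.support.card ≤ (L + 1) ^ 2 := by
  classical
  have hdeg : ∀ d ∈ F.support, d 0 + d 1 + d 2 = L := by
    intro d hd
    have h := hF (mem_support_iff.1 hd)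
    rw [Finsupp.weight_apply, Finsupp.sum_fintype _ _ (by simp), Fin.sum_univ_three] at h
    simpa using h
  have h := Finset.card_le_card_of_injOn (s := F.support)
    (t := Finset.range (L + 1) ×ˢ Finset.range (L + 1)) (fun d => (d 1, d 2))
    (by
      intro d hd
      have := hdeg d hd
      simp only [Finset.coe_product, Finset.coe_range, Set.mem_prod, Set.mem_Iio]
      omega)
    (by
      intro d hd d' hd' h
      have h1 := hdeg d hd
      have h2 := hdeg d' hd'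
      simp only [Prod.mk.injEq] at h
      refine Finsupp.ext fun i => ?_
      fin_cases i
      · change d 0 = d' 0
        omega
      · exact h.1
      · exact h.2)
  rw [Finset.card_product, Finset.card_range, ← sq] at h
  exact h

theorem circ_form {L : ℕ} (hL : 0 < L) (β γ : ℕ) (hβ : ¬ β ≡ 0 [MOD L]) (hγ : ¬ γ ≡ 0 [MOD L])
    (hβγ : ¬ β ≡ γ [MOD L]) (ω : ℂ) (hω : IsPrimitiveRoot ω L) :
    ∃ F : MvPolynomial (Fin 3) ℤ, F.IsHomogeneous L ∧
      map (Int.castRingHom ℂ) F = ∏ s ∈ Finset.range L,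
        (X 0 + C (ω ^ (s * β)) * X 1 - C (ω ^ (s * γ)) * X 2) ∧
      ((∑ v ∈ F.support, |coeff v F| : ℤ) : ℝ) ≤ ((L : ℝ) + 1) ^ 2 * Real.sqrt 3 ^ L := by
  classical
  obtain ⟨F, hF⟩ := circ_exists hL β γ ω hω
  have hcoeff : ∀ v, coeff v (map (Int.castRingHom ℂ) F) = ((coeff v F : ℤ) : ℂ) := by
    intro v
    rw [coeff_map]
    rfl
  have hGh : (map (Int.castRingHom ℂ) F).IsHomogeneous L := by
    rw [hF]
    exact circ_homog β γ ω
  have hFh : F.IsHomogeneous L := by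
    intro d hd
    apply hGh
    rw [hcoeff]
    exact_mod_cast hd
  refine ⟨F, hFh, hF, ?_⟩
  have hcb : ∀ v, |((coeff v F : ℤ) : ℝ)| ≤ Real.sqrt 3 ^ L := by
    intro v
    have h := coeff_bound (map (Int.castRingHom ℂ) F) hGh (B := Real.sqrt 3 ^ L) (by positivity)
      (by
        intro x y hx hy
        rw [hF, eval_prod]
        have h := torus_bound hL β γ hβ hγ hβγ ω hω x y hx hy
        refine le_trans (le_of_eq ?_) h
        congr 1
        refine Finset.prod_congr rfl fun s _ => ?_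
        simp) v
    rw [hcoeff, Complex.norm_intCast] at h
    exact h
  push_cast
  calc ∑ v ∈ F.support, |((coeff v F : ℤ) : ℝ)| ≤ ∑ v ∈ F.support, Real.sqrt 3 ^ L :=
        Finset.sum_le_sum fun v _ => hcb v
    _ = (F.support.card : ℝ) * Real.sqrt 3 ^ L := by
        rw [Finset.sum_const, nsmul_eq_mul]
    _ ≤ ((L : ℝ) + 1) ^ 2 * Real.sqrt 3 ^ L := by
        have h := card_support_le F hFh
        have h' : (F.support.card : ℝ) ≤ ((L : ℝ) + 1) ^ 2 := by exact_mod_cast h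
        exact mul_le_mul_of_nonneg_right h' (by positivity)

end Pool.Agent.W_MP_78a2de_al
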