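import Pool.Agent.W_MP_78a2de_al.Defs

/-!
Elementary properties of the counting function `cnt` and of the rank function `rk`.
-/

namespace Pool.Agent.W_MP_78a2de_al

open MvPolynomial Filter

theorem forms_finite {J : Type} [Finite J] (k H : ℕ) : (forms J k H).Finite := by
  classical
  have hS : {f : J →₀ ℕ | f.degree = k}.Finite := Finsupp.finite_of_degree_eq k
  have : Finite {f : J →₀ ℕ | f.degree = k} := hS
  let Φ : MvPolynomial J ℤ → ({f : J →₀ ℕ | f.degree = k} → ℤ) := fun u v => coeff v.1 u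
  refine Set.Finite.of_finite_image (f := Φ) ?_ ?_
  · refine Set.Finite.subset (Set.Finite.pi' fun _ => Set.finite_Icc (-(H : ℤ)) (H : ℤ)) ?_
    rintro _ ⟨u, hu, rfl⟩ v
    exact ⟨(abs_le.1 (hu.2 v.1)).1, (abs_le.1 (hu.2 v.1)).2⟩
  · intro u hu w hw huw
    ext v
    by_cases hv : v.degree = k
    · exact congrFun huw ⟨v, hv⟩
    · rw [hu.1.coeff_eq_zero hv, hw.1.coeff_eq_zero hv]

theorem cnt_finite {J D : Type} [Finite J] [CommRing D] (y : J → D) (k H : ℕ) :
    ((fun u : MvPolynomial J ℤ => aeval y u) '' forms J k H).Finite :=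
  (forms_finite k H).image _

theorem cnt_pos {J D : Type} [Finite J] [CommRing D] (y : J → D) (k H : ℕ) : 0 < cnt y k H := by
  rw [cnt, Set.ncard_pos (cnt_finite y k H)]
  refine ⟨_, 0, ⟨isHomogeneous_zero _ _ _, fun v => ?_⟩, rfl⟩
  simp

theorem cnt_mono {J D : Type} [Finite J] [CommRing D] (y : J → D) (k : ℕ) {H H' : ℕ}
    (h : H ≤ H') : cnt y k H ≤ cnt y k H' := by
  refine Set.ncard_le_ncard (Set.image_mono ?_) (cnt_finite y k H')
  intro u hu
  exact ⟨hu.1, fun v => (hu.2 v).trans (by exact_mod_cast h)⟩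

theorem map_aeval_int {J D D' : Type} [CommRing D] [CommRing D'] (y : J → D)
    (h : D →+* D') (u : MvPolynomial J ℤ) : h (aeval y u) = aeval (fun j => h (y j)) u :=
  comp_aeval_apply y h.toIntAlgHom u

theorem cnt_map_le {J D D' : Type} [Finite J] [CommRing D] [CommRing D'] (y : J → D)
    (h : D →+* D') (k H : ℕ) : cnt (fun j => h (y j)) k H ≤ cnt y k H := by
  have e : (fun u : MvPolynomial J ℤ => aeval (fun j => h (y j)) u) '' forms J k H =
      h '' ((fun u : MvPolynomial J ℤ => aeval y u) '' forms J k H) := by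
    rw [Set.image_image]
    refine Set.image_congr fun u _ => ?_
    exact (map_aeval_int y h u).symm
  rw [cnt, cnt, e]
  exact Set.ncard_image_le (cnt_finite y k H)

theorem abs_coeff_mul_le {J : Type} (F v : MvPolynomial J ℤ) {Φ H : ℕ}
    (hΦ : ∑ s ∈ F.support, |coeff s F| ≤ (Φ : ℤ)) (hv : ∀ s, |coeff s v| ≤ (H : ℤ))
    (w : J →₀ ℕ) : |coeff w (F * v)| ≤ (Φ * H : ℕ) := by
  classical
  have h1 : coeff w (F * v) = ∑ s ∈ F.support, coeff w (monomial s (coeff s F) * v) := by
    conv_lhs => rw [F.as_sum]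
    rw [Finset.sum_mul, coeff_sum]
  rw [h1]
  refine (Finset.abs_sum_le_sum_abs _ _).trans ?_
  have h2 : ∀ s ∈ F.support, |coeff w (monomial s (coeff s F) * v)| ≤ |coeff s F| * (H : ℤ) := by
    intro s _
    rw [coeff_monomial_mul']
    split_ifs with hs
    · rw [abs_mul]
      exact mul_le_mul_of_nonneg_left (hv _) (abs_nonneg _)
    · rw [abs_zero]; positivity
  refine (Finset.sum_le_sum h2).trans ?_
  rw [← Finset.sum_mul]
  push_cast
  exact mul_le_mul_of_nonneg_right hΦ (by positivity)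

theorem cnt_mul_le {J D D' : Type} [Finite J] [CommRing D] [IsDomain D] [CommRing D']
    (y : J → D) (h : D →+* D') (F : MvPolynomial J ℤ) {L Φ : ℕ}
    (hF : F.IsHomogeneous L) (hΦ : ∑ v ∈ F.support, |coeff v F| ≤ (Φ : ℤ))
    (hF0 : aeval y F ≠ 0) (hF1 : h (aeval y F) = 0) (k H₁ H₂ : ℕ) :
    cnt (fun j => h (y j)) (k + L) H₁ * cnt y k H₂ ≤ cnt y (k + L) (H₁ + Φ * H₂) := by
  classical
  let A := (fun u : MvPolynomial J ℤ => aeval (fun j => h (y j)) u) '' forms J (k + L) H₁
  let B := (fun u : MvPolynomial J ℤ => aeval y u) '' forms J k H₂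
  have hA : ∀ c : D', ∃ u : MvPolynomial J ℤ, c ∈ A →
      (u ∈ forms J (k + L) H₁ ∧ aeval (fun j => h (y j)) u = c) := by
    intro c
    by_cases hc : c ∈ A
    · obtain ⟨u, hu, e⟩ := hc
      exact ⟨u, fun _ => ⟨hu, e⟩⟩
    · exact ⟨0, fun h' => absurd h' hc⟩
  have hB : ∀ c : D, ∃ u : MvPolynomial J ℤ, c ∈ B →
      (u ∈ forms J k H₂ ∧ aeval y u = c) := by
    intro c
    by_cases hc : c ∈ B
    · obtain ⟨u, hu, e⟩ := hc
      exact ⟨u, fun _ => ⟨hu, e⟩⟩
    · exact ⟨0, fun h' => absurd h' hc⟩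
  choose U hU using hA
  choose V hV using hB
  have key : (A ×ˢ B).ncard ≤
      ((fun u : MvPolynomial J ℤ => aeval y u) '' forms J (k + L) (H₁ + Φ * H₂)).ncard := by
    refine Set.ncard_le_ncard_of_injOn (fun q : D' × D => aeval y (U q.1 + F * V q.2)) ?_ ?_
      (cnt_finite y (k + L) (H₁ + Φ * H₂))
    · rintro ⟨c, w⟩ ⟨hc, hw⟩
      refine ⟨U c + F * V w, ⟨(hU c hc).1.1.add ?_, fun s => ?_⟩, rfl⟩
      · rw [add_comm k L]
        exact hF.mul (hV w hw).1.1
      · rw [coeff_add]
        refine (abs_add_le _ _).trans ?_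
        have e1 := (hU c hc).1.2 s
        have e2 := abs_coeff_mul_le F (V w) hΦ (hV w hw).1.2 s
        push_cast at e2 ⊢
        linarith
    · rintro ⟨c, w⟩ ⟨hc, hw⟩ ⟨c', w'⟩ ⟨hc', hw'⟩ he
      simp only [map_add, map_mul] at he
      have hcc : c = c' := by
        have e := congrArg h he
        simp only [map_add, map_mul, hF1, zero_mul, add_zero] at e
        rw [map_aeval_int, map_aeval_int, (hU c hc).2, (hU c' hc').2] at e
        exact e
      subst hcc
      have e2 := mul_left_cancel₀ hF0 (add_left_cancel he)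
      rw [(hV w hw).2, (hV w' hw').2] at e2
      rw [e2]
  rw [Set.ncard_prod] at key
  exact key

/-! ### The rank function -/

theorem hspan_finite {J D : Type} [Finite J] [CommRing D] [Algebra ℚ D] (y : J → D) (k : ℕ) :
    Module.Finite ℚ (hspan y k) := by
  rw [Module.Finite.iff_fg]
  exact (homogeneousSubmodule_fg J ℚ k).map _

theorem hspan_map {J D D' : Type} [CommRing D] [Algebra ℚ D] [CommRing D']
    [Algebra ℚ D'] (y : J → D) (h : D →ₐ[ℚ] D') (k : ℕ) :
    hspan (fun j => h (y j)) k = (hspan y k).map h.toLinearMap := by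
  rw [hspan, hspan, ← Submodule.map_comp]
  congr 1
  refine LinearMap.ext fun u => ?_
  exact (comp_aeval_apply y h u).symm

theorem rk_map_le {J D D' : Type} [Finite J] [CommRing D] [Algebra ℚ D] [CommRing D']
    [Algebra ℚ D'] (y : J → D) (h : D →ₐ[ℚ] D') (k : ℕ) :
    rk (fun j => h (y j)) k ≤ rk y k := by
  have := hspan_finite y k
  rw [rk, rk, hspan_map]
  exact Submodule.finrank_map_le _ _

theorem rk_add_le {J D D' : Type} [Finite J] [CommRing D] [IsDomain D] [Algebra ℚ D] [CommRing D']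
    [Algebra ℚ D'] (y : J → D) (h : D →ₐ[ℚ] D') (F : MvPolynomial J ℤ) {L : ℕ}
    (hF : F.IsHomogeneous L) (hF0 : aeval y F ≠ 0) (hF1 : h (aeval y F) = 0) (k : ℕ) :
    rk (fun j => h (y j)) (k + L) + rk y k ≤ rk y (k + L) := by
  have := hspan_finite y k
  have := hspan_finite y (k + L)
  let V := hspan y (k + L)
  let f : V →ₗ[ℚ] D' := h.toLinearMap.domRestrict V
  have h1 : Module.finrank ℚ (LinearMap.range f) + Module.finrank ℚ (LinearMap.ker f) =
      Module.finrank ℚ V := f.finrank_range_add_finrank_ker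
  have h2 : LinearMap.range f = hspan (fun j => h (y j)) (k + L) := by
    rw [hspan_map, LinearMap.range_domRestrict]
  have hmul : ∀ w ∈ hspan y k, aeval y F * w ∈ V := by
    rintro _ ⟨u, hu, rfl⟩
    refine ⟨map (algebraMap ℤ ℚ) F * u, ?_, ?_⟩
    · rw [add_comm k L]
      exact (hF.map _).mul hu
    · change aeval y (map (algebraMap ℤ ℚ) F * u) = _
      rw [map_mul, aeval_map_algebraMap]
      rfl
  let g : hspan y k →ₗ[ℚ] LinearMap.ker f :=
    { toFun := fun w => ⟨⟨aeval y F * w.1, hmul w.1 w.2⟩, by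
        rw [LinearMap.mem_ker]
        change h (aeval y F * w.1) = 0
        rw [map_mul, hF1, zero_mul]⟩
      map_add' := fun a b => by
        apply Subtype.ext; apply Subtype.ext
        simp [mul_add]
      map_smul' := fun c a => by
        apply Subtype.ext; apply Subtype.ext
        simp }
  have hg : Function.Injective g := by
    intro a b hab
    have e : aeval y F * a.1 = aeval y F * b.1 := congrArg (fun z => z.1.1) hab
    exact Subtype.ext (mul_left_cancel₀ hF0 e)
  have h3 := LinearMap.finrank_le_finrank_of_injective hg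
  rw [h2] at h1
  change Module.finrank ℚ (hspan (fun j => h (y j)) (k + L)) + Module.finrank ℚ (hspan y k) ≤
    Module.finrank ℚ V
  omega

theorem rk_le {J D : Type} [Fintype J] [CommRing D] [Algebra ℚ D] (y : J → D) (k : ℕ) :
    rk y k ≤ (k + 1) ^ Fintype.card J := by
  classical
  have h1 : hspan y k ≤
      Submodule.span ℚ (Set.range fun v : J → Fin (k + 1) => ∏ j, y j ^ (v j : ℕ)) := by
    rintro _ ⟨u, hu, rfl⟩
    change aeval y u ∈ _
    rw [aeval_def, eval₂_eq']
    refine Submodule.sum_mem _ fun d hd => ?_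
    rw [← Algebra.smul_def]
    refine Submodule.smul_mem _ _ (Submodule.subset_span ?_)
    have hdeg : d.degree = k := by
      by_contra hne
      exact (mem_support_iff.1 hd) (IsHomogeneous.coeff_eq_zero hu hne)
    have hle : ∀ j, d j < k + 1 := by
      intro j
      have := Finsupp.le_degree j d
      omega
    exact ⟨fun j => ⟨d j, hle j⟩, rfl⟩
  have : Module.Finite ℚ
      (Submodule.span ℚ (Set.range fun v : J → Fin (k + 1) => ∏ j, y j ^ (v j : ℕ))) :=
    FiniteDimensional.span_of_finite ℚ (Set.finite_range _)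
  refine (Submodule.finrank_mono h1).trans ((finrank_range_le_card _).trans ?_)
  rw [Fintype.card_fun, Fintype.card_fin]

end Pool.Agent.W_MP_78a2de_al
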