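import Pool.Agent.W_MP_78a2de_al.Defs

namespace Pool.Agent.W_MP_78a2de_al

open MvPolynomial Filter

/-- A nontrivial `n`-th root of unity is at distance at least `1 / n` from `1`. -/
theorem one_le_mul_norm_one_sub {n : ℕ} (hn : 0 < n) {z : ℂ} (hz : z ^ n = 1) (h1 : z ≠ 1) :
    1 ≤ (n : ℝ) * ‖1 - z‖ := by
  have hnorm : ‖z‖ = 1 := Complex.norm_eq_one_of_pow_eq_one hz hn.ne'
  have hsum : ∑ i ∈ Finset.range n, z ^ i = 0 := by
    rw [geom_sum_eq h1, hz, sub_self, zero_div]
  have hex : ∃ k ∈ Finset.range n, (z ^ k).re ≤ 0 := by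
    by_contra hcon
    push Not at hcon
    have hpos : 0 < ∑ i ∈ Finset.range n, (z ^ i).re :=
      Finset.sum_pos hcon ⟨0, Finset.mem_range.mpr hn⟩
    have : (∑ i ∈ Finset.range n, z ^ i).re = 0 := by rw [hsum]; simp
    rw [Complex.re_sum] at this
    linarith
  obtain ⟨k, hk, hre⟩ := hex
  have h2 : (1 : ℝ) ≤ ‖1 - z ^ k‖ := by
    have h3 : |(1 - z ^ k).re| ≤ ‖1 - z ^ k‖ := Complex.abs_re_le_norm _
    have h4 : (1 - z ^ k).re = 1 - (z ^ k).re := by simp
    rw [h4] at h3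
    have h5 : 1 - (z ^ k).re ≤ |1 - (z ^ k).re| := le_abs_self _
    linarith
  have h6 : ‖1 - z ^ k‖ ≤ (k : ℝ) * ‖1 - z‖ := by
    rw [← mul_neg_geom_sum z k, norm_mul, mul_comm]
    refine mul_le_mul_of_nonneg_right ?_ (norm_nonneg _)
    calc ‖∑ i ∈ Finset.range k, z ^ i‖ ≤ ∑ i ∈ Finset.range k, ‖z ^ i‖ := norm_sum_le _ _
      _ = ∑ i ∈ Finset.range k, (1 : ℝ) := by
        refine Finset.sum_congr rfl fun i _ => ?_
        rw [norm_pow, hnorm, one_pow]
      _ = k := by simp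
  have h7 : (k : ℝ) ≤ n := by exact_mod_cast (Finset.mem_range.mp hk).le
  nlinarith [norm_nonneg (1 - z), mul_le_mul_of_nonneg_right h7 (norm_nonneg (1 - z))]

theorem two_mul_le_two_pow' {T : ℕ} (hT : 0 < T) : 2 * T ≤ 2 ^ T := by
  induction T with
  | zero => omega
  | succ n ih =>
    rcases Nat.eq_zero_or_pos n with h | h
    · subst h; norm_num
    · have := ih h
      rw [pow_succ]
      have h2 : 2 ≤ 2 ^ n := by
        calc 2 = 2 ^ 1 := by norm_num
          _ ≤ 2 ^ n := Nat.pow_le_pow_right (by norm_num) h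
      omega

/-- The sum of two `2T`-th roots of unity, if nonzero, has logarithm of modulus at most
`T log 2`. -/
theorem abs_log_norm_add_le {T : ℕ} (hT : 0 < T) {z w : ℂ} (hz : z ^ (2 * T) = 1)
    (hw : w ^ (2 * T) = 1) (hne : z + w ≠ 0) : |Real.log ‖z + w‖| ≤ T * Real.log 2 := by
  have h2T : 2 * T ≠ 0 := by omega
  have hzn : ‖z‖ = 1 := Complex.norm_eq_one_of_pow_eq_one hz h2T
  have hwn : ‖w‖ = 1 := Complex.norm_eq_one_of_pow_eq_one hw h2T
  have hz0 : z ≠ 0 := by
    intro h; rw [h] at hzn; simp at hzn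
  have hpos : 0 < ‖z + w‖ := norm_pos_iff.mpr hne
  have hlog2 : 0 < Real.log 2 := Real.log_pos (by norm_num)
  have hT1 : (1 : ℝ) ≤ T := by exact_mod_cast hT
  have hup : Real.log ‖z + w‖ ≤ T * Real.log 2 := by
    have h3 : ‖z + w‖ ≤ 2 := by
      calc ‖z + w‖ ≤ ‖z‖ + ‖w‖ := norm_add_le _ _
        _ = 2 := by rw [hzn, hwn]; norm_num
    have h4 := Real.log_le_log hpos h3
    nlinarith
  have hlow : -(T * Real.log 2) ≤ Real.log ‖z + w‖ := by
    have h5 : ‖z + w‖ = ‖1 - (-(w / z))‖ := by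
      have : z + w = z * (1 - (-(w / z))) := by field_simp; ring
      rw [this, norm_mul, hzn, one_mul]
    have h6 : (-(w / z)) ^ (2 * T) = 1 := by
      rw [Even.neg_pow (even_two_mul T), div_pow, hz, hw, div_one]
    have h7 : -(w / z) ≠ 1 := by
      intro h
      apply hne
      have : w = -z := by
        have h8 : w / z = -1 := by rw [← h]; ring
        rw [div_eq_iff hz0] at h8
        rw [h8]; ring
      rw [this]; ring
    have h8 := one_le_mul_norm_one_sub (by omega : 0 < 2 * T) h6 h7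
    rw [← h5] at h8
    have h9 : ((2 * T : ℕ) : ℝ) ≤ 2 ^ T := by
      exact_mod_cast two_mul_le_two_pow' hT
    have h10 : (1 : ℝ) ≤ 2 ^ T * ‖z + w‖ := by
      refine h8.trans (mul_le_mul_of_nonneg_right h9 (norm_nonneg _))
    have h11 := Real.log_le_log (by norm_num : (0:ℝ) < 1) h10
    rw [Real.log_one, Real.log_mul (by positivity) hpos.ne', Real.log_pow] at h11
    linarith
  exact abs_le.mpr ⟨hlow, hup⟩

/-- Of three positive reals satisfying the triangle inequalities, two are within a factor `2`. -/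
theorem exists_close {A B C : ℝ} (h1 : A ≤ B + C) (h2 : B ≤ A + C) (h3 : C ≤ A + B)
    (hA : 0 < A) (hB : 0 < B) (hC : 0 < C) :
    (A ≤ 2 * B ∧ B ≤ 2 * A) ∨ (A ≤ 2 * C ∧ C ≤ 2 * A) ∨ (B ≤ 2 * C ∧ C ≤ 2 * B) := by
  rcases le_total A B with hab | hab <;> rcases le_total B C with hbc | hbc <;>
    rcases le_total A C with hac | hac
  · right; right; constructor <;> linarith
  · right; right; constructor <;> linarith
  · right; right; constructor <;> linarith
  · left; constructor <;> linarith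
  · right; left; constructor <;> linarith
  · right; left; constructor <;> linarith
  · right; left; constructor <;> linarith
  · left; constructor <;> linarith

theorem abs_log_sub_log_le {A B : ℝ} (hA : 0 < A) (hB : 0 < B) (h1 : A ≤ 2 * B) (h2 : B ≤ 2 * A) :
    |Real.log A - Real.log B| ≤ Real.log 2 := by
  have h3 := Real.log_le_log hA h1
  have h4 := Real.log_le_log hB h2
  rw [Real.log_mul (by norm_num) hB.ne'] at h3
  rw [Real.log_mul (by norm_num) hA.ne'] at h4
  rw [abs_le]; constructor <;> linarith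

variable {J : Type} {d : ℕ}

theorem pt_ne_zero {χ : J → Fin d → ℤ} {ζ : J → ℂ} {σ : Fin d → ℂ} (hζ : ∀ j, ζ j ≠ 0)
    (hσ : ∀ i, σ i ≠ 0) (j : J) : pt χ ζ σ j ≠ 0 := by
  unfold pt
  exact mul_ne_zero (hζ j) (Finset.prod_ne_zero_iff.mpr fun i _ => zpow_ne_zero _ (hσ i))

theorem log_norm_pt {χ : J → Fin d → ℤ} {ζ : J → ℂ} {σ : Fin d → ℂ} (hζ : ∀ j, ‖ζ j‖ = 1)
    (hσ : ∀ i, σ i ≠ 0) (j : J) :
    Real.log ‖pt χ ζ σ j‖ = ∑ i, (χ j i : ℝ) * Real.log ‖σ i‖ := by
  unfold pt
  rw [norm_mul, hζ, one_mul, norm_prod, Real.log_prod]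
  · refine Finset.sum_congr rfl fun i _ => ?_
    rw [norm_zpow, Real.log_zpow]
  · intro i _
    rw [norm_zpow]
    exact zpow_ne_zero _ (norm_ne_zero_iff.mpr (hσ i))

/-- In each sum equation with collinear characters, a vector orthogonal to all the short
differences has the same product with the three characters. -/
theorem dot_eq_of_sumEq {χ : J → Fin d → ℤ} {ζ : J → ℂ} {T : ℕ}
    (hT : 0 < T) (hζ : ∀ j, ζ j ^ (2 * T) = 1) {τ : Fin d → ℂ} (hτ0 : ∀ i, τ i ≠ 0)
    {u : Fin d → ℝ}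
    (hu : ∀ p q : J, |Real.log ‖pt χ ζ τ p‖ - Real.log ‖pt χ ζ τ q‖| ≤ T * Real.log 2 →
      ∑ i, u i * (χ p i : ℝ) = ∑ i, u i * (χ q i : ℝ))
    {e : J × J × J} (he : SumEq (pt χ ζ τ) e) (hcol : ¬ NonCol χ e) :
    ∑ i, u i * (χ e.1 i : ℝ) = ∑ i, u i * (χ e.2.2 i : ℝ) ∧
      ∑ i, u i * (χ e.2.1 i : ℝ) = ∑ i, u i * (χ e.2.2 i : ℝ) := by
  obtain ⟨a, b, c⟩ := e
  simp only [SumEq, NonCol] at he hcol ⊢
  have h2T : 2 * T ≠ 0 := by omega
  have hn1 : ∀ j, ‖ζ j‖ = 1 := fun j => Complex.norm_eq_one_of_pow_eq_one (hζ j) h2T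
  have hz0 : ∀ j, ζ j ≠ 0 := fun j h => by
    have := hn1 j; rw [h] at this; simp at this
  have hp0 : ∀ j, pt χ ζ τ j ≠ 0 := pt_ne_zero hz0 hτ0
  have hpp : ∀ j, 0 < ‖pt χ ζ τ j‖ := fun j => norm_pos_iff.mpr (hp0 j)
  have hlog2 : 0 < Real.log 2 := Real.log_pos (by norm_num)
  have hT1 : (1 : ℝ) ≤ T := by exact_mod_cast hT
  have hTl : Real.log 2 ≤ T * Real.log 2 := by nlinarith
  -- the product with the characters
  set D : J → ℝ := fun j => ∑ i, u i * (χ j i : ℝ) with hD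
  have hDeq : ∀ {p q : J}, χ p = χ q → D p = D q := by
    intro p q h; simp only [hD, h]
  change D a = D c ∧ D b = D c
  have hDu : ∀ p q : J, |Real.log ‖pt χ ζ τ p‖ - Real.log ‖pt χ ζ τ q‖| ≤ T * Real.log 2 →
      D p = D q := hu
  -- monomials
  set Q : J → ℂ := fun j => ∏ i, τ i ^ χ j i with hQ
  have hptQ : ∀ j, pt χ ζ τ j = ζ j * Q j := fun j => rfl
  have hQn : ∀ j, ‖pt χ ζ τ j‖ = ‖Q j‖ := fun j => by rw [hptQ, norm_mul, hn1, one_mul]
  have hQ0 : ∀ j, Q j ≠ 0 := fun j h => hp0 j (by rw [hptQ, h, mul_zero])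
  have hQeq : ∀ {p q : J}, χ p = χ q → Q p = Q q := by
    intro p q h; simp only [hQ, h]
  -- key: `z * Q p = w * Q q` with `z` a nonzero sum of two roots of unity
  have key : ∀ (p q : J) (z w v : ℂ), z ^ (2 * T) = 1 → w ^ (2 * T) = 1 → ‖v‖ = 1 →
      (z + w) * Q p = v * Q q → D p = D q := by
    intro p q z w v hz hw hv h
    have hv0 : v ≠ 0 := fun h0 => by rw [h0] at hv; simp at hv
    have hne : z + w ≠ 0 := by
      intro h0
      rw [h0, zero_mul] at h
      exact mul_ne_zero hv0 (hQ0 q) h.symm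
    have hlog := abs_log_norm_add_le hT hz hw hne
    apply hDu
    rw [hQn, hQn]
    have h3 : ‖z + w‖ * ‖Q p‖ = ‖Q q‖ := by
      rw [← norm_mul, h, norm_mul, hv, one_mul]
    have h4 : Real.log ‖Q q‖ = Real.log ‖z + w‖ + Real.log ‖Q p‖ := by
      rw [← h3, Real.log_mul (norm_ne_zero_iff.mpr hne) (norm_ne_zero_iff.mpr (hQ0 p))]
    rw [h4]
    have h5 : Real.log ‖Q p‖ - (Real.log ‖z + w‖ + Real.log ‖Q p‖) = - Real.log ‖z + w‖ := by ring
    rw [h5, abs_neg]
    exact hlog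
  have hneg : ∀ j, (-ζ j) ^ (2 * T) = 1 := fun j => by
    rw [Even.neg_pow (even_two_mul T), hζ]
  rw [hptQ, hptQ, hptQ] at he
  by_cases hab : χ a = χ b
  · -- two first characters equal
    have h1 : D a = D c := by
      apply key a c (ζ a) (ζ b) (ζ c) (hζ a) (hζ b) (hn1 c)
      rw [add_mul, ← he, hQeq hab]
    exact ⟨h1, by rw [← hDeq hab]; exact h1⟩
  by_cases hac : χ a = χ c
  · have h1 : D c = D b := by
      apply key c b (ζ c) (-ζ a) (ζ b) (hζ c) (hneg a) (hn1 b)
      have : Q c = Q a := (hQeq hac).symm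
      rw [add_mul, neg_mul, ← he, this]; ring
    exact ⟨hDeq hac, h1.symm⟩
  by_cases hbc : χ b = χ c
  · have h1 : D c = D a := by
      apply key c a (ζ c) (-ζ b) (ζ a) (hζ c) (hneg b) (hn1 a)
      have : Q c = Q b := (hQeq hbc).symm
      rw [add_mul, neg_mul, ← he, this]; ring
    exact ⟨h1.symm, hDeq hbc⟩
  -- distinct characters
  rw [LinearIndependent.pair_iff] at hcol
  push Not at hcol
  obtain ⟨s, t, hst, hst0⟩ := hcol
  have hlin : (s : ℝ) * (D b - D a) + (t : ℝ) * (D c - D a) = 0 := by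
    have h1 : ∀ i, (s : ℝ) * ((χ b i : ℝ) - χ a i) + (t : ℝ) * ((χ c i : ℝ) - χ a i) = 0 := by
      intro i
      have := congrFun hst i
      simp only [Pi.add_apply, Pi.smul_apply, Pi.sub_apply, smul_eq_mul, Pi.zero_apply] at this
      exact_mod_cast this
    have h2 : (s : ℝ) * (D b - D a) + (t : ℝ) * (D c - D a)
        = ∑ i, u i * ((s : ℝ) * ((χ b i : ℝ) - χ a i) + (t : ℝ) * ((χ c i : ℝ) - χ a i)) := by
      simp only [hD, ← Finset.sum_sub_distrib, Finset.mul_sum, ← Finset.sum_add_distrib]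
      exact Finset.sum_congr rfl fun i _ => by ring
    rw [h2]
    exact Finset.sum_eq_zero fun i _ => by rw [h1, mul_zero]
  have tri1 : ‖Q a‖ ≤ ‖Q b‖ + ‖Q c‖ := by
    have : ζ a * Q a = ζ c * Q c - ζ b * Q b := by rw [← he]; ring
    calc ‖Q a‖ = ‖ζ a * Q a‖ := by rw [norm_mul, hn1, one_mul]
      _ = ‖ζ c * Q c - ζ b * Q b‖ := by rw [this]
      _ ≤ ‖ζ c * Q c‖ + ‖ζ b * Q b‖ := norm_sub_le _ _
      _ = ‖Q b‖ + ‖Q c‖ := by rw [norm_mul, norm_mul, hn1, hn1]; ring
  have tri2 : ‖Q b‖ ≤ ‖Q a‖ + ‖Q c‖ := by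
    have : ζ b * Q b = ζ c * Q c - ζ a * Q a := by rw [← he]; ring
    calc ‖Q b‖ = ‖ζ b * Q b‖ := by rw [norm_mul, hn1, one_mul]
      _ = ‖ζ c * Q c - ζ a * Q a‖ := by rw [this]
      _ ≤ ‖ζ c * Q c‖ + ‖ζ a * Q a‖ := norm_sub_le _ _
      _ = ‖Q a‖ + ‖Q c‖ := by rw [norm_mul, norm_mul, hn1, hn1]; ring
  have tri3 : ‖Q c‖ ≤ ‖Q a‖ + ‖Q b‖ := by
    calc ‖Q c‖ = ‖ζ c * Q c‖ := by rw [norm_mul, hn1, one_mul]
      _ = ‖ζ a * Q a + ζ b * Q b‖ := by rw [he]
      _ ≤ ‖ζ a * Q a‖ + ‖ζ b * Q b‖ := norm_add_le _ _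
      _ = ‖Q a‖ + ‖Q b‖ := by rw [norm_mul, norm_mul, hn1, hn1]; ring
  have hQp : ∀ j, 0 < ‖Q j‖ := fun j => norm_pos_iff.mpr (hQ0 j)
  have close : ∀ p q, ‖Q p‖ ≤ 2 * ‖Q q‖ → ‖Q q‖ ≤ 2 * ‖Q p‖ → D p = D q := by
    intro p q h1 h2
    apply hDu
    rw [hQn, hQn]
    exact (abs_log_sub_log_le (hQp p) (hQp q) h1 h2).trans hTl
  rcases exists_close tri1 tri2 tri3 (hQp a) (hQp b) (hQp c) with h | h | h
  · -- a, b close
    have h1 := close a b h.1 h.2
    have ht : (t : ℝ) ≠ 0 := by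
      intro ht0
      have ht0' : t = 0 := by exact_mod_cast ht0
      have hs0 : s ≠ 0 := fun hs0 => hst0 hs0 ht0'
      rw [ht0', zero_smul, add_zero] at hst
      rcases smul_eq_zero.mp hst with h0 | h0
      · exact hs0 h0
      · exact hab (sub_eq_zero.mp h0).symm
    have h2 : D c - D a = 0 := by
      have : (t : ℝ) * (D c - D a) = 0 := by
        have h3 : D b - D a = 0 := by rw [h1]; ring
        rw [h3, mul_zero, zero_add] at hlin
        exact hlin
      exact (mul_eq_zero.mp this).resolve_left ht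
    constructor <;> linarith
  · -- a, c close
    have h1 := close a c h.1 h.2
    have hs : (s : ℝ) ≠ 0 := by
      intro hs0
      have hs0' : s = 0 := by exact_mod_cast hs0
      have ht0 : t ≠ 0 := fun ht0 => hst0 hs0' ht0
      rw [hs0', zero_smul, zero_add] at hst
      rcases smul_eq_zero.mp hst with h0 | h0
      · exact ht0 h0
      · exact hac (sub_eq_zero.mp h0).symm
    have h2 : D b - D a = 0 := by
      have : (s : ℝ) * (D b - D a) = 0 := by
        have h3 : D c - D a = 0 := by rw [h1]; ring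
        rw [h3, mul_zero, add_zero] at hlin
        exact hlin
      exact (mul_eq_zero.mp this).resolve_left hs
    constructor <;> linarith
  · -- b, c close
    have h1 := close b c h.1 h.2
    have hs : ((s + t : ℤ) : ℝ) ≠ 0 := by
      intro hs0
      have hs0' : s + t = 0 := by exact_mod_cast hs0
      have hts : t = -s := by omega
      have hs1 : s ≠ 0 := fun h0 => hst0 h0 (by omega)
      rw [hts] at hst
      have h4 : s • (χ b - χ c) = 0 := by
        have h5 : s • (χ b - χ a) + -s • (χ c - χ a) = s • (χ b - χ c) := by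
          rw [neg_smul, ← sub_eq_add_neg, ← smul_sub]
          congr 1
          abel
        rw [← h5]; exact hst
      rcases smul_eq_zero.mp h4 with h0 | h0
      · exact hs1 h0
      · exact hbc (sub_eq_zero.mp h0)
    have h2 : D b - D a = 0 := by
      have : ((s + t : ℤ) : ℝ) * (D b - D a) = 0 := by
        rw [h1] at hlin ⊢
        push_cast
        linarith
      exact (mul_eq_zero.mp this).resolve_left hs
    constructor <;> linarith

/-- If a nonzero real vector has the same product with the three characters of every equation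
of `E`, then the set of common zeros is infinite. -/
theorem infinite_of_dot {χ : J → Fin d → ℤ} {ζ : J → ℂ} {E : Set (J × J × J)} {τ : Fin d → ℂ}
    (hτ : τ ∈ zeroSet χ ζ E) {u : Fin d → ℝ} {i0 : Fin d} (hu0 : u i0 ≠ 0)
    (hu : ∀ e ∈ E, ∑ i, u i * (χ e.1 i : ℝ) = ∑ i, u i * (χ e.2.2 i : ℝ) ∧
      ∑ i, u i * (χ e.2.1 i : ℝ) = ∑ i, u i * (χ e.2.2 i : ℝ)) :
    (zeroSet χ ζ E).Infinite := by
  set F : ℝ → Fin d → ℂ := fun s i => τ i * Complex.exp ((s * u i : ℝ) : ℂ) with hF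
  have hmem : ∀ s, F s ∈ zeroSet χ ζ E := by
    intro s
    refine ⟨fun i => mul_ne_zero (hτ.1 i) (Complex.exp_ne_zero _), fun e he => ?_⟩
    have hpt : ∀ j, pt χ ζ (F s) j
        = pt χ ζ τ j * Complex.exp ((s * ∑ i, u i * (χ j i : ℝ) : ℝ) : ℂ) := by
      intro j
      unfold pt
      rw [mul_assoc]
      congr 1
      rw [Finset.mul_sum]
      push_cast
      rw [Complex.exp_sum, ← Finset.prod_mul_distrib]
      refine Finset.prod_congr rfl fun i _ => ?_
      simp only [hF]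
      rw [mul_zpow, ← Complex.exp_int_mul]
      congr 2
      push_cast
      ring
    have h1 := hτ.2 e he
    obtain ⟨h2, h3⟩ := hu e he
    unfold SumEq at h1 ⊢
    rw [hpt, hpt, hpt, h2, h3, ← add_mul, h1]
  have hinj : Function.Injective F := by
    intro s s' h
    have h1 := congrFun h i0
    simp only [hF] at h1
    have h2 := mul_left_cancel₀ (hτ.1 i0) h1
    rw [← Complex.ofReal_exp, ← Complex.ofReal_exp, Complex.ofReal_inj] at h2
    have h3 := Real.exp_injective h2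
    exact mul_right_cancel₀ hu0 h3
  exact Set.infinite_of_injective_forall_mem hinj hmem

theorem cramer_case {J : Type} [Finite J] {d : ℕ} (χ : J → Fin d → ℤ) (ζ : J → ℂ) {T : ℕ}
    (hT : 0 < T) (hζ : ∀ j, ζ j ^ (2 * T) = 1) (E : Set (J × J × J)) (τ : Fin d → ℂ)
    (hτ : τ ∈ zeroSet χ ζ E) (hfin : (zeroSet χ ζ E).Finite) {B : ℕ}
    (hdet : ∀ p q : Fin d → J, (T : ℤ) * |(Matrix.of fun i => χ (p i) - χ (q i)).det| ≤ B)
    (hcol : ∀ e ∈ E, ¬ NonCol χ e) (l l0 : J) :
    Real.log ‖pt χ ζ τ l / pt χ ζ τ l0‖ ≤ d * B * Real.log 2 := by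
  classical
  have h2T : 2 * T ≠ 0 := by omega
  have hn1 : ∀ j, ‖ζ j‖ = 1 := fun j => Complex.norm_eq_one_of_pow_eq_one (hζ j) h2T
  have hz0 : ∀ j, ζ j ≠ 0 := fun j h => by
    have := hn1 j; rw [h] at this; simp at this
  have hp0 : ∀ j, pt χ ζ τ j ≠ 0 := pt_ne_zero hz0 hτ.1
  have hlog2 : 0 < Real.log 2 := Real.log_pos (by norm_num)
  -- the set of short differences
  set S : Set (Fin d → ℚ) := {v | ∃ p q : J,
    |Real.log ‖pt χ ζ τ p‖ - Real.log ‖pt χ ζ τ q‖| ≤ T * Real.log 2 ∧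
      v = fun i => ((χ p i - χ q i : ℤ) : ℚ)} with hS
  have hspan : Submodule.span ℚ S = ⊤ := by
    by_contra hne
    obtain ⟨f, hf0, hf⟩ := Submodule.exists_le_ker_of_lt_top _ (lt_top_iff_ne_top.mpr hne)
    have hfv : ∀ v : Fin d → ℚ, f v = ∑ i, f (Pi.single i 1) * v i := by
      intro v
      have h1 : v = ∑ i, v i • (Pi.single i (1 : ℚ) : Fin d → ℚ) := by
        ext j
        simp [Finset.sum_apply, Pi.single_apply]
      conv_lhs => rw [h1]
      rw [map_sum]
      refine Finset.sum_congr rfl fun i _ => ?_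
      rw [map_smul, smul_eq_mul, mul_comm]
    have hex : ∃ i0, f (Pi.single i0 1) ≠ 0 := by
      by_contra hcon
      push Not at hcon
      apply hf0
      ext v
      simp [hcon]
    obtain ⟨i0, hi0⟩ := hex
    set u : Fin d → ℝ := fun i => ((f (Pi.single i 1) : ℚ) : ℝ) with hu
    have hu0 : u i0 ≠ 0 := by
      simp only [hu]
      exact_mod_cast hi0
    have hort : ∀ p q : J, |Real.log ‖pt χ ζ τ p‖ - Real.log ‖pt χ ζ τ q‖| ≤ T * Real.log 2 →
        ∑ i, u i * (χ p i : ℝ) = ∑ i, u i * (χ q i : ℝ) := by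
      intro p q h
      have hmem : (fun i => ((χ p i - χ q i : ℤ) : ℚ)) ∈ Submodule.span ℚ S :=
        Submodule.subset_span ⟨p, q, h, rfl⟩
      have h1 := hf hmem
      rw [LinearMap.mem_ker, hfv] at h1
      have h2 : ∑ i, u i * ((χ p i : ℝ) - (χ q i : ℝ)) = 0 := by
        have h3 : ((∑ i, f (Pi.single i 1) * ((χ p i - χ q i : ℤ) : ℚ) : ℚ) : ℝ) = 0 := by
          rw [h1]; norm_num
        push_cast at h3
        simpa only [hu] using h3
      have h4 : ∑ i, u i * (χ p i : ℝ) - ∑ i, u i * (χ q i : ℝ) = 0 := by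
        rw [← Finset.sum_sub_distrib, ← h2]
        exact Finset.sum_congr rfl fun i _ => by ring
      linarith
    exact infinite_of_dot hτ hu0 (fun e he =>
      dot_eq_of_sumEq hT hζ hτ.1 hort (hτ.2 e he) (hcol e he)) hfin
  -- extract a basis
  obtain ⟨b, hbS, hbspan, hbli⟩ := exists_linearIndependent ℚ S
  have hbtop : ⊤ ≤ Submodule.span ℚ (Set.range ((↑) : b → Fin d → ℚ)) := by
    rw [Subtype.range_coe, hbspan, hspan]
  set bas : Module.Basis b ℚ (Fin d → ℚ) := Module.Basis.mk hbli hbtop with hbas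
  haveI : Finite b := Module.Finite.finite_basis bas
  haveI : Fintype b := Fintype.ofFinite b
  have hcard : Fintype.card b = d := by
    rw [← Module.finrank_eq_card_basis bas]
    simp
  set eqv : Fin d ≃ b := (Fintype.equivFinOfCardEq hcard).symm with heqv
  have hchoose : ∀ i : Fin d, ∃ p q : J,
      |Real.log ‖pt χ ζ τ p‖ - Real.log ‖pt χ ζ τ q‖| ≤ T * Real.log 2 ∧
      ((eqv i : b) : Fin d → ℚ) = fun k => ((χ p k - χ q k : ℤ) : ℚ) := by
    intro i
    exact hbS (eqv i).2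
  choose p q hpq hv using hchoose
  set M : Matrix (Fin d) (Fin d) ℤ := Matrix.of fun i => χ (p i) - χ (q i) with hM
  have hli : LinearIndependent ℚ (fun i => (M.map (Int.castRingHom ℚ)).row i) := by
    have h1 : (fun i => (M.map (Int.castRingHom ℚ)).row i) = fun i => ((eqv i : b) : Fin d → ℚ) := by
      funext i
      rw [hv i]
      ext k
      simp [hM, Matrix.row]
    rw [h1]
    exact hbli.comp eqv eqv.injective
  have hdetM : M.det ≠ 0 := by
    have h1 : IsUnit (M.map (Int.castRingHom ℚ)) :=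
      Matrix.linearIndependent_rows_iff_isUnit.mp hli
    have h2 := (Matrix.isUnit_iff_isUnit_det _).mp h1
    intro h0
    have h3 : (M.map (Int.castRingHom ℚ)).det = ((M.det : ℤ) : ℚ) := by
      have := RingHom.map_det (Int.castRingHom ℚ) M
      simpa using this.symm
    rw [h3, h0] at h2
    simp at h2
  have hdet1 : (1 : ℝ) ≤ |(M.det : ℝ)| := by
    have : (1 : ℤ) ≤ |M.det| := Int.one_le_abs hdetM
    exact_mod_cast this
  -- Cramer
  set η : Fin d → ℤ := χ l - χ l0 with hη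
  set Lf : (Fin d → ℤ) → ℝ := fun v => ∑ k, (v k : ℝ) * Real.log ‖τ k‖ with hLf
  have hLdiff : ∀ p q : J, Lf (χ p - χ q) = Real.log ‖pt χ ζ τ p‖ - Real.log ‖pt χ ζ τ q‖ := by
    intro p q
    rw [log_norm_pt hn1 hτ.1, log_norm_pt hn1 hτ.1, ← Finset.sum_sub_distrib]
    refine Finset.sum_congr rfl fun k _ => ?_
    simp only [Pi.sub_apply]
    push_cast
    ring
  have hcr : ∀ k, ∑ i, (M.updateRow i η).det * M i k = M.det * η k := by
    intro k
    have h1 := congrFun (Matrix.mulVec_cramer M.transpose η) k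
    simp only [Matrix.mulVec, dotProduct, Matrix.transpose_apply, Matrix.det_transpose,
      Pi.smul_apply, smul_eq_mul, Matrix.cramer_transpose_apply] at h1
    rw [← h1]
    exact Finset.sum_congr rfl fun i _ => mul_comm _ _
  have hL : (M.det : ℝ) * Lf η = ∑ i, ((M.updateRow i η).det : ℝ) * Lf (fun k => M i k) := by
    simp only [hLf, Finset.mul_sum]
    rw [Finset.sum_comm]
    refine Finset.sum_congr rfl fun k _ => ?_
    have h1 : (M.det : ℝ) * (η k : ℝ) = ∑ i, ((M.updateRow i η).det : ℝ) * (M i k : ℝ) := by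
      have := hcr k
      exact_mod_cast this.symm
    calc (M.det : ℝ) * ((η k : ℝ) * Real.log ‖τ k‖)
        = ((M.det : ℝ) * (η k : ℝ)) * Real.log ‖τ k‖ := by ring
      _ = (∑ i, ((M.updateRow i η).det : ℝ) * (M i k : ℝ)) * Real.log ‖τ k‖ := by rw [h1]
      _ = ∑ i, ((M.updateRow i η).det : ℝ) * ((M i k : ℝ) * Real.log ‖τ k‖) := by
        rw [Finset.sum_mul]
        exact Finset.sum_congr rfl fun i _ => by ring
  have hdetB : ∀ i, (T : ℝ) * |((M.updateRow i η).det : ℝ)| ≤ B := by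
    intro i
    have h1 := hdet (Function.update p i l) (Function.update q i l0)
    have h2 : (Matrix.of fun k => χ (Function.update p i l k) - χ (Function.update q i l0 k))
        = M.updateRow i η := by
      ext k j
      by_cases hk : k = i
      · subst hk
        simp [hη, Matrix.updateRow]
      · simp [hM, Matrix.updateRow_ne hk, Function.update_of_ne hk]
    rw [h2] at h1
    exact_mod_cast h1
  have hfinal : |Lf η| ≤ d * B * Real.log 2 := by
    have h1 : |Lf η| ≤ |(M.det : ℝ)| * |Lf η| := le_mul_of_one_le_left (abs_nonneg _) hdet1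
    have h2 : |(M.det : ℝ)| * |Lf η| = |∑ i, ((M.updateRow i η).det : ℝ) * Lf (fun k => M i k)| := by
      rw [← abs_mul, hL]
    have h3 : |∑ i, ((M.updateRow i η).det : ℝ) * Lf (fun k => M i k)|
        ≤ ∑ i : Fin d, (B : ℝ) * Real.log 2 := by
      refine (Finset.abs_sum_le_sum_abs _ _).trans (Finset.sum_le_sum fun i _ => ?_)
      rw [abs_mul]
      have h4 : |Lf (fun k => M i k)| ≤ T * Real.log 2 := by
        have h5 : (fun k => M i k) = χ (p i) - χ (q i) := by
          ext k; simp [hM]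
        rw [h5, hLdiff]
        exact hpq i
      calc |((M.updateRow i η).det : ℝ)| * |Lf (fun k => M i k)|
          ≤ |((M.updateRow i η).det : ℝ)| * (T * Real.log 2) :=
            mul_le_mul_of_nonneg_left h4 (abs_nonneg _)
        _ = (T * |((M.updateRow i η).det : ℝ)|) * Real.log 2 := by ring
        _ ≤ B * Real.log 2 := mul_le_mul_of_nonneg_right (hdetB i) hlog2.le
    rw [h2] at h1
    refine h1.trans (h3.trans (le_of_eq ?_))
    simp
    ring
  rw [norm_div, Real.log_div (norm_ne_zero_iff.mpr (hp0 l)) (norm_ne_zero_iff.mpr (hp0 l0)),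
    ← hLdiff]
  exact (le_abs_self _).trans hfinal

end Pool.Agent.W_MP_78a2de_al
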