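import Mathlib

/-!
Definitions for the proof of the modulus bound for finite systems of sum and product equations
(problem MP_78a2de_al).
-/

namespace Pool.Agent.W_MP_78a2de_al

open MvPolynomial Filter

/-! ### Points of a torus coset -/

/-- The `j`-th coordinate of the point with parameter `σ` of the torus coset given by
characters `χ` and roots of unity `ζ`. -/
noncomputable def pt {J : Type} {d : ℕ} (χ : J → Fin d → ℤ) (ζ : J → ℂ) (σ : Fin d → ℂ)
    (j : J) : ℂ :=
  ζ j * ∏ i, σ i ^ χ j i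

/-- The sum equation `x_a + x_b = x_c`, `e = (a, b, c)`, holds at `x`. -/
def SumEq {J : Type} (x : J → ℂ) (e : J × J × J) : Prop :=
  x e.1 + x e.2.1 = x e.2.2

/-- Common zeros, in the torus, of the sum equations in `E`. -/
def zeroSet {J : Type} {d : ℕ} (χ : J → Fin d → ℤ) (ζ : J → ℂ) (E : Set (J × J × J)) :
    Set (Fin d → ℂ) :=
  {σ | (∀ i, σ i ≠ 0) ∧ ∀ e ∈ E, SumEq (pt χ ζ σ) e}

/-- The three characters of the sum equation `e` are affinely independent. -/
def NonCol {J : Type} {d : ℕ} (χ : J → Fin d → ℤ) (e : J × J × J) : Prop :=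
  LinearIndependent ℤ ![χ e.2.1 - χ e.1, χ e.2.2 - χ e.1]

/-! ### Classes of monomials -/

/-- The monomials of degree `k` on the torus coset, up to sign. -/
def clSet {J : Type} [Fintype J] {d : ℕ} (χ : J → Fin d → ℤ) (ζ : J → ℂ) (k : ℕ) :
    Set ((Fin d → ℤ) × ℂ) :=
  (fun v : J → ℕ => (∑ j, v j • χ j, (∏ j, ζ j ^ v j) ^ 2)) '' {v | ∑ j, v j = k}

/-! ### Iterated partial sums -/

/-- `a`-fold partial sums. -/
def Sg : ℕ → (ℕ → ℝ) → ℕ → ℝ
  | 0, f => f
  | (a + 1), f => fun N => ∑ n ∈ Finset.range (N + 1), Sg a f n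

/-! ### Counting values of integral forms -/

/-- Integral forms of degree `k` with coefficients at most `H` in absolute value. -/
def forms (J : Type) (k H : ℕ) : Set (MvPolynomial J ℤ) :=
  {u | u.IsHomogeneous k ∧ ∀ v, |coeff v u| ≤ (H : ℤ)}

/-- The number of values at `y` of integral forms of degree `k` with coefficients at most `H`. -/
noncomputable def cnt {J D : Type} [CommRing D] (y : J → D) (k H : ℕ) : ℕ :=
  ((fun u : MvPolynomial J ℤ => aeval y u) '' forms J k H).ncard

/-- Values at `y` of rational forms of degree `k`. -/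
noncomputable def hspan {J D : Type} [CommRing D] [Algebra ℚ D] (y : J → D) (k : ℕ) :
    Submodule ℚ D :=
  (homogeneousSubmodule J ℚ k).map (aeval y).toLinearMap

/-- The dimension of the space of values at `y` of rational forms of degree `k`. -/
noncomputable def rk {J D : Type} [CommRing D] [Algebra ℚ D] (y : J → D) (k : ℕ) : ℕ :=
  Module.finrank ℚ (hspan y k)

/-- Asymptotic bound for the counting function (summed `a` times, at all scales
`2 ^ (c (√N + 1))`). -/
def Bd {J D : Type} [CommRing D] (y : J → D) (a m : ℕ) (A : ℝ) : Prop :=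
  ∀ c : ℕ, ∀ δ : ℝ, 0 < δ → ∀ᶠ N : ℕ in atTop,
    Sg a (fun k => Real.log (cnt y k (2 ^ (c * (Nat.sqrt N + 1))))) N
      ≤ (A + δ) * (N : ℝ) ^ (m + 1) / (m + 1).factorial

/-- Asymptotic bound for the rank function (summed `a` times). -/
def Rk {J D : Type} [CommRing D] [Algebra ℚ D] (y : J → D) (a m : ℕ) (B : ℝ) : Prop :=
  ∀ δ : ℝ, 0 < δ → ∀ᶠ N : ℕ in atTop,
    Sg a (fun k => (rk y k : ℝ)) N ≤ (B + δ) * (N : ℝ) ^ m / m.factorial

/-- The toric coordinate functions: `y_j = ζ_j τ ^ (χ_j + κ)`, where `κ` is a shift making all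
exponents natural numbers. -/
noncomputable def toric {J : Type} {d : ℕ} (χ : J → Fin d → ℤ) (ζ : J → ℂ) (κ : ℤ) (j : J) :
    MvPolynomial (Fin d) ℂ :=
  monomial (Finsupp.equivFunOnFinite.symm fun i => (χ j i + κ).toNat) (ζ j)

/-- The integral form `X_a + X_b - X_c`. -/
noncomputable def sform {J : Type} (e : J × J × J) : MvPolynomial J ℤ :=
  X e.1 + X e.2.1 - X e.2.2

end Pool.Agent.W_MP_78a2de_al
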