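import Pool.Agent.W_MP_78a2de_al.Defs
import Pool.Agent.W_MP_78a2de_al_h8.Network

/-! Determinant bound by positive and negative row masses (helper8). -/

namespace Pool.Agent.W_MP_78a2de_al

open MvPolynomial Filter

open Pool.Agent.W_MP_78a2de_al_h8 in
theorem det_network_real {n : ℕ} (a b : Fin n → Option (Fin n)) :
    |(Matrix.of fun i j => ((vec (a i) j : ℤ) : ℝ) - ((vec (b i) j : ℤ) : ℝ)).det| ≤ 1 := by
  have h := det_network_fin n a b
  have h2 := (Int.castRingHom ℝ).map_det (Matrix.of fun i => vec (a i) - vec (b i))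
  have h3 : (Int.castRingHom ℝ).mapMatrix (Matrix.of fun i => vec (a i) - vec (b i)) =
      Matrix.of fun i j => ((vec (a i) j : ℤ) : ℝ) - ((vec (b i) j : ℤ) : ℝ) := by
    ext i j
    simp [RingHom.mapMatrix_apply]
  rw [h3] at h2
  rw [← h2, eq_intCast, ← Int.cast_abs]
  exact_mod_cast h

open Pool.Agent.W_MP_78a2de_al_h8 in
theorem det_le_of_rows {n : ℕ} (A : Matrix (Fin n) (Fin n) ℝ) (α : Fin n → ℝ)
    (hp : ∀ i, ∑ j, max (A i j) 0 ≤ α i) (hn : ∀ i, ∑ j, max (-A i j) 0 ≤ α i) :
    |A.det| ≤ ∏ i, α i := by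
  classical
  have hα0 : ∀ i, 0 ≤ α i := fun i =>
    le_trans (Finset.sum_nonneg fun j _ => le_max_right _ _) (hp i)
  by_cases hz : ∃ i, α i = 0
  · obtain ⟨i, hi⟩ := hz
    have hrow : A i = 0 := by
      funext j
      have h1 : ∑ j, max (A i j) 0 = 0 :=
        le_antisymm (hi ▸ hp i) (Finset.sum_nonneg fun j _ => le_max_right _ _)
      have h2 : ∑ j, max (-A i j) 0 = 0 :=
        le_antisymm (hi ▸ hn i) (Finset.sum_nonneg fun j _ => le_max_right _ _)
      have h3 := (Finset.sum_eq_zero_iff_of_nonneg (fun j _ => le_max_right _ _)).1 h1 j (Finset.mem_univ j)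
      have h4 := (Finset.sum_eq_zero_iff_of_nonneg (fun j _ => le_max_right _ _)).1 h2 j (Finset.mem_univ j)
      have h5 : A i j ≤ 0 := by rw [← h3]; exact le_max_left _ _
      have h6 : -A i j ≤ 0 := by rw [← h4]; exact le_max_left _ _
      have : A i j = 0 := by linarith
      simpa using this
    rw [Matrix.det_eq_zero_of_row_eq_zero i (fun j => congrFun hrow j), abs_zero]
    exact Finset.prod_nonneg fun i _ => hα0 i
  push Not at hz
  have hα : ∀ i, 0 < α i := fun i => lt_of_le_of_ne (hα0 i) (Ne.symm (hz i))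
  let P : Fin n → Option (Fin n) → ℝ := fun i o => o.elim (α i - ∑ j, max (A i j) 0) (fun j => max (A i j) 0)
  let M : Fin n → Option (Fin n) → ℝ := fun i o => o.elim (α i - ∑ j, max (-A i j) 0) (fun j => max (-A i j) 0)
  have hP0 : ∀ i o, 0 ≤ P i o := by
    intro i o
    cases o with
    | none => exact sub_nonneg.2 (hp i)
    | some j => exact le_max_right _ _
  have hM0 : ∀ i o, 0 ≤ M i o := by
    intro i o
    cases o with
    | none => exact sub_nonneg.2 (hn i)
    | some j => exact le_max_right _ _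
  have hPs : ∀ i, ∑ o, P i o = α i := by
    intro i; rw [Fintype.sum_option]; simp [P]
  have hMs : ∀ i, ∑ o, M i o = α i := by
    intro i; rw [Fintype.sum_option]; simp [M]
  let w : Fin n → Option (Fin n) × Option (Fin n) → ℝ := fun i g => P i g.1 * M i g.2 / α i
  have hw0 : ∀ i g, 0 ≤ w i g := fun i g => div_nonneg (mul_nonneg (hP0 _ _) (hM0 _ _)) (hα0 i)
  have hws : ∀ i, ∑ g, w i g = α i := by
    intro i
    simp only [w]
    rw [← Finset.sum_div, Fintype.sum_prod_type]
    simp only [← Finset.mul_sum, ← Finset.sum_mul, hPs, hMs]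
    field_simp
  let R : Option (Fin n) × Option (Fin n) → Fin n → ℝ := fun g j => ((vec g.1 j : ℤ) : ℝ) - ((vec g.2 j : ℤ) : ℝ)
  have hvecP : ∀ i j, ∑ o, P i o * ((vec o j : ℤ) : ℝ) = max (A i j) 0 := by
    intro i j
    rw [Fintype.sum_option]
    simp only [vec_none, Pi.zero_apply, Int.cast_zero, mul_zero, zero_add, vec_some]
    rw [Finset.sum_eq_single j]
    · simp [P]
    · intro k _ hk; simp [Pi.single_eq_of_ne (Ne.symm hk)]
    · simp
  have hvecM : ∀ i j, ∑ o, M i o * ((vec o j : ℤ) : ℝ) = max (-A i j) 0 := by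
    intro i j
    rw [Fintype.sum_option]
    simp only [vec_none, Pi.zero_apply, Int.cast_zero, mul_zero, zero_add, vec_some]
    rw [Finset.sum_eq_single j]
    · simp [M]
    · intro k _ hk; simp [Pi.single_eq_of_ne (Ne.symm hk)]
    · simp
  have hA : A = fun i => ∑ g, w i g • R g := by
    funext i j
    rw [Finset.sum_apply, Fintype.sum_prod_type]
    simp only [Pi.smul_apply, smul_eq_mul, w, R]
    have e1 : ∀ p q : Option (Fin n), P i p * M i q / α i * (((vec p j : ℤ) : ℝ) - ((vec q j : ℤ) : ℝ))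
        = (P i p * ((vec p j : ℤ) : ℝ)) * (M i q) / α i - P i p * (M i q * ((vec q j : ℤ) : ℝ)) / α i := by
      intro p q; ring
    simp only [e1, Finset.sum_sub_distrib]
    simp only [← Finset.sum_div, ← Finset.mul_sum, ← Finset.sum_mul, hPs, hMs, hvecP, hvecM]
    have hαi := (hα i).ne'
    field_simp
    have : max (A i j) 0 - max (-A i j) 0 = A i j := by
      rcases le_total 0 (A i j) with h | h
      · rw [max_eq_left h, max_eq_right (by linarith)]; ring
      · rw [max_eq_right h, max_eq_left (by linarith)]; ring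
    linarith
  have hdet : A.det = ∑ g : Fin n → Option (Fin n) × Option (Fin n), (∏ i, w i (g i)) *
      (Matrix.of fun i => R (g i)).det := by
    have h1 : A.det = (Matrix.detRowAlternating : (Fin n → ℝ) [⋀^Fin n]→ₗ[ℝ] ℝ).toMultilinearMap
        (fun i => ∑ g, w i g • R g) := by
      conv_lhs => rw [hA]
      rfl
    rw [h1, MultilinearMap.map_sum]
    refine Finset.sum_congr rfl fun g _ => ?_
    rw [MultilinearMap.map_smul_univ, smul_eq_mul]
    rfl
  rw [hdet]
  calc |∑ g : Fin n → Option (Fin n) × Option (Fin n), (∏ i, w i (g i)) * (Matrix.of fun i => R (g i)).det|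
      ≤ ∑ g : Fin n → Option (Fin n) × Option (Fin n), |(∏ i, w i (g i)) * (Matrix.of fun i => R (g i)).det| :=
        Finset.abs_sum_le_sum_abs _ _
    _ ≤ ∑ g : Fin n → Option (Fin n) × Option (Fin n), ∏ i, w i (g i) := by
        refine Finset.sum_le_sum fun g _ => ?_
        rw [abs_mul, abs_of_nonneg (Finset.prod_nonneg fun i _ => hw0 _ _)]
        have := det_network_real (fun i => (g i).1) (fun i => (g i).2)
        exact mul_le_of_le_one_right (Finset.prod_nonneg fun i _ => hw0 _ _) this
    _ = ∏ i, ∑ g, w i g := by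
        rw [Finset.prod_univ_sum]
        simp
    _ = ∏ i, α i := Finset.prod_congr rfl fun i _ => hws i

end Pool.Agent.W_MP_78a2de_al
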