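import Pool.Agent.W_MP_78a2de_al.Defs

/-!
End of the chain: the counting function of a point bounds the ratios of its coordinates.
-/

namespace Pool.Agent.W_MP_78a2de_al

open MvPolynomial Filter

namespace EndBound

theorem forms_fin {J : Type} [Finite J] (k H : ℕ) : (forms J k H).Finite := by
  classical
  have hS : {v : J →₀ ℕ | v.degree ≤ k}.Finite := Finsupp.finite_of_degree_le k
  have : Finite {v : J →₀ ℕ | v.degree ≤ k} := hS
  let g : MvPolynomial J ℤ → ({v : J →₀ ℕ | v.degree ≤ k} → ℤ) := fun u v => coeff v.1 u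
  have hT : (Set.pi Set.univ (fun _ : {v : J →₀ ℕ | v.degree ≤ k} =>
      Set.Icc (-(H : ℤ)) (H : ℤ))).Finite := Set.Finite.pi' (fun _ => Set.finite_Icc _ _) |>.subset
        (by intro f hf i; exact hf i (Set.mem_univ i))
  refine Set.Finite.of_finite_image (f := g) (hT.subset ?_) ?_
  · rintro _ ⟨u, hu, rfl⟩ v -
    have := hu.2 v.1
    rw [abs_le] at this
    exact ⟨this.1, this.2⟩
  · intro u hu u' hu' h
    ext v
    by_cases hv : v.degree ≤ k
    · exact congrFun h ⟨v, hv⟩
    · have h1 : coeff v u = 0 := by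
        by_contra hc
        have h3 : v.degree = k := by
          rw [Finsupp.degree_eq_weight_one]
          exact hu.1 hc
        exact hv h3.le
      have h2 : coeff v u' = 0 := by
        by_contra hc
        have h3 : v.degree = k := by
          rw [Finsupp.degree_eq_weight_one]
          exact hu'.1 hc
        exact hv h3.le
      rw [h1, h2]

/-- Digit expansions to a large complex base are unique. -/
theorem digits_zero (β : ℂ) (q : ℕ) (hq : (q : ℝ) + 1 ≤ ‖β‖) (d : ℕ → ℤ)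
    (hd : ∀ j, |d j| ≤ (q : ℤ)) :
    ∀ K, ∑ j ∈ Finset.range K, (d j : ℂ) * β ^ j = 0 → ∀ j < K, d j = 0 := by
  intro K
  induction K with
  | zero => intro _ j hj; omega
  | succ K ih =>
    intro h
    rw [Finset.sum_range_succ] at h
    have h1 : ‖(d K : ℂ) * β ^ K‖ = ‖∑ j ∈ Finset.range K, (d j : ℂ) * β ^ j‖ := by
      rw [eq_neg_of_add_eq_zero_right h, norm_neg]
    have h2 : ‖∑ j ∈ Finset.range K, (d j : ℂ) * β ^ j‖ ≤ q * ∑ j ∈ Finset.range K, ‖β‖ ^ j := by
      rw [Finset.mul_sum]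
      refine (norm_sum_le _ _).trans (Finset.sum_le_sum fun j _ => ?_)
      rw [norm_mul, norm_pow, Complex.norm_intCast]
      refine mul_le_mul_of_nonneg_right ?_ (by positivity)
      have := hd j
      exact_mod_cast this
    have h3 : (q : ℝ) * ∑ j ∈ Finset.range K, ‖β‖ ^ j < ‖β‖ ^ K := by
      have hg := geom_sum_mul ‖β‖ K
      have hnn : 0 ≤ ∑ j ∈ Finset.range K, ‖β‖ ^ j := Finset.sum_nonneg fun _ _ => by positivity
      have : (q : ℝ) * ∑ j ∈ Finset.range K, ‖β‖ ^ j
          ≤ (∑ j ∈ Finset.range K, ‖β‖ ^ j) * (‖β‖ - 1) := by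
        rw [mul_comm]
        exact mul_le_mul_of_nonneg_left (by linarith) hnn
      linarith
    have hK : d K = 0 := by
      by_contra hne
      have h4 : (1 : ℝ) ≤ |(d K : ℝ)| := by
        have := Int.one_le_abs hne
        exact_mod_cast this
      have h5 : ‖β‖ ^ K ≤ ‖(d K : ℂ) * β ^ K‖ := by
        rw [norm_mul, norm_pow, Complex.norm_intCast]
        nlinarith [pow_nonneg (norm_nonneg β) K]
      linarith
    have h0 : ∑ j ∈ Finset.range K, (d j : ℂ) * β ^ j = 0 := by
      rw [hK] at h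
      simpa using h
    intro j hj
    rcases Nat.lt_succ_iff_lt_or_eq.mp hj with hj | rfl
    · exact ih h0 j hj
    · exact hK

/-- The exponent of the `j`-th digit. -/
noncomputable def mon {J : Type} (l l0 : J) (k t j : ℕ) : J →₀ ℕ :=
  Finsupp.single l0 (k - t * j) + Finsupp.single l (t * j)

theorem mon_inj {J : Type} {l l0 : J} (hl : l ≠ l0) {k t : ℕ} (ht : 1 ≤ t) {i j : ℕ}
    (h : mon l l0 k t i = mon l l0 k t j) : i = j := by
  classical
  have := DFunLike.congr_fun h l
  simp only [mon, Finsupp.add_apply, Finsupp.single_eq_same,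
    Finsupp.single_eq_of_ne hl, zero_add] at this
  exact Nat.eq_of_mul_eq_mul_left (by omega) this

/-- The digit form. -/
noncomputable def dform {J : Type} (l l0 : J) (k t : ℕ) {q : ℕ} (c : Fin (k / t + 1) → Fin (q + 1)) :
    MvPolynomial J ℤ :=
  ∑ j : Fin (k / t + 1), monomial (mon l l0 k t j) ((c j : ℕ) : ℤ)

theorem dform_mem {J : Type} {l l0 : J} (hl : l ≠ l0) {k t : ℕ} (ht : 1 ≤ t) {q H : ℕ}
    (hH : q ≤ H) (c : Fin (k / t + 1) → Fin (q + 1)) : dform l l0 k t c ∈ forms J k H := by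
  classical
  constructor
  · refine IsHomogeneous.sum _ _ _ fun j _ => ?_
    refine isHomogeneous_monomial _ ?_
    have h1 : t * (j : ℕ) ≤ k := by
      have h2 : (j : ℕ) ≤ k / t := Nat.lt_succ_iff.mp j.2
      calc t * (j : ℕ) ≤ t * (k / t) := Nat.mul_le_mul_left _ h2
        _ ≤ k := Nat.mul_div_le k t
    simp only [mon, map_add, Finsupp.degree_single]
    omega
  · intro v
    simp only [dform, coeff_sum, coeff_monomial]
    by_cases hv : ∃ j : Fin (k / t + 1), mon l l0 k t j = v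
    · obtain ⟨j, hj⟩ := hv
      rw [Finset.sum_eq_single j]
      · rw [if_pos hj]
        have h1 : (c j : ℕ) ≤ q := Nat.lt_succ_iff.mp (c j).2
        rw [abs_of_nonneg (by positivity)]
        exact_mod_cast h1.trans hH
      · intro i _ hi
        rw [if_neg]
        intro h
        exact hi (Fin.ext (mon_inj hl ht (h.trans hj.symm)))
      · intro h; exact absurd (Finset.mem_univ _) h
    · push Not at hv
      rw [Finset.sum_eq_zero fun j _ => if_neg (hv j)]
      simp

theorem aeval_dform {J : Type} (y : J → ℂ) {l l0 : J} (h0 : y l0 ≠ 0) {k t : ℕ}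
    {q : ℕ} (c : Fin (k / t + 1) → Fin (q + 1)) :
    aeval y (dform l l0 k t c) =
      y l0 ^ k * ∑ j : Fin (k / t + 1), ((c j : ℕ) : ℂ) * ((y l / y l0) ^ t) ^ (j : ℕ) := by
  classical
  simp only [dform, map_sum, Finset.mul_sum]
  refine Finset.sum_congr rfl fun j _ => ?_
  have h1 : t * (j : ℕ) ≤ k := by
    have h2 : (j : ℕ) ≤ k / t := Nat.lt_succ_iff.mp j.2
    calc t * (j : ℕ) ≤ t * (k / t) := Nat.mul_le_mul_left _ h2
      _ ≤ k := Nat.mul_div_le k t
  rw [aeval_monomial, mon, Finsupp.prod_add_index' (by simp) (by intros; rw [pow_add]),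
    Finsupp.prod_single_index (by simp), Finsupp.prod_single_index (by simp)]
  rw [← pow_mul, div_pow]
  have h2 : y l0 ^ k = y l0 ^ (k - t * (j : ℕ)) * y l0 ^ (t * (j : ℕ)) := by
    rw [← pow_add]; congr 1; omega
  rw [h2]
  have h3 : y l0 ^ (t * (j : ℕ)) ≠ 0 := pow_ne_zero _ h0
  simp only [algebraMap_int_eq, eq_intCast, Int.cast_natCast]
  field_simp

theorem pow_le_cnt {J : Type} [Finite J] (y : J → ℂ) {l l0 : J} (hl : l ≠ l0) (h0 : y l0 ≠ 0)
    {t : ℕ} (ht : 1 ≤ t) {q : ℕ} (hq : (q : ℝ) + 1 ≤ ‖y l / y l0‖ ^ t) (k H : ℕ) (hH : q ≤ H) :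
    (q + 1) ^ (k / t + 1) ≤ cnt y k H := by
  classical
  have hinj : Function.Injective (fun c : Fin (k / t + 1) → Fin (q + 1) =>
      aeval y (dform l l0 k t c)) := by
    intro c c' h
    simp only [aeval_dform y h0] at h
    have h1 := mul_left_cancel₀ (pow_ne_zero k h0) h
    have h2 : ∑ j ∈ Finset.range (k / t + 1),
        (((if h : j < k / t + 1 then ((c ⟨j, h⟩ : ℕ) : ℤ) - ((c' ⟨j, h⟩ : ℕ) : ℤ) else 0 : ℤ)) : ℂ)
          * ((y l / y l0) ^ t) ^ j = 0 := by
      rw [Finset.sum_range]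
      simp only [Fin.is_lt, dite_true, Fin.eta]
      push_cast
      simp only [sub_mul, Finset.sum_sub_distrib]
      rw [h1, sub_self]
    have h3 := digits_zero ((y l / y l0) ^ t) q (by rw [norm_pow]; exact hq)
      (fun j => if h : j < k / t + 1 then ((c ⟨j, h⟩ : ℕ) : ℤ) - ((c' ⟨j, h⟩ : ℕ) : ℤ) else 0)
      (by
        intro j
        by_cases hj : j < k / t + 1
        · simp only [hj, dite_true]
          have a1 := (c ⟨j, hj⟩).2
          have a2 := (c' ⟨j, hj⟩).2
          rw [abs_le]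
          constructor <;> omega
        · simp [hj]) (k / t + 1) h2
    funext j
    have h4 := h3 j j.2
    simp only [Fin.is_lt, dite_true, Fin.eta] at h4
    exact Fin.ext (by omega)
  have hcard : (Set.range (fun c : Fin (k / t + 1) → Fin (q + 1) =>
      aeval y (dform l l0 k t c))).ncard = (q + 1) ^ (k / t + 1) := by
    rw [Set.ncard_range_of_injective hinj]
    simp
  rw [← hcard, cnt]
  refine Set.ncard_le_ncard ?_ ((forms_fin k H).image _)
  rintro _ ⟨c, rfl⟩
  exact ⟨_, dform_mem hl ht hH c, rfl⟩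

theorem Sg_mono {f g : ℕ → ℝ} (h : ∀ n, f n ≤ g n) : ∀ a N, Sg a f N ≤ Sg a g N := by
  intro a
  induction a with
  | zero => exact h
  | succ a ih => intro N; exact Finset.sum_le_sum fun n _ => ih n

theorem Sg_lin (r : ℝ) : ∀ a N, Sg a (fun k => r * (k : ℝ)) N = r * ((N + a).choose (a + 1) : ℝ) := by
  intro a
  induction a with
  | zero => intro N; simp [Sg]
  | succ a ih =>
    intro N
    simp only [Sg, ih]
    rw [← Finset.mul_sum]
    congr 1
    induction N with
    | zero => simp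
    | succ N ihN =>
      rw [Finset.sum_range_succ, ihN]
      have : (N + 1 + (a + 1)).choose (a + 1 + 1)
          = (N + (a + 1)).choose (a + 1) + (N + (a + 1)).choose (a + 1 + 1) := by
        rw [show N + 1 + (a + 1) = (N + (a + 1)) + 1 by ring, Nat.choose_succ_succ]
      rw [this]
      push_cast
      rw [show N + 1 + a = N + (a + 1) by ring]
      ring

theorem pow_le_choose (N a : ℕ) :
    (N : ℝ) ^ (a + 1) / (a + 1).factorial ≤ ((N + a).choose (a + 1) : ℝ) := by
  rw [div_le_iff₀ (by positivity)]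
  have h1 := Nat.pow_succ_le_ascFactorial N (a + 1)
  rcases Nat.eq_zero_or_pos N with rfl | hN
  · simp
  · have h2 := Nat.ascFactorial_eq_factorial_mul_choose' N (a + 1)
    rw [h2, show N + (a + 1) - 1 = N + a by omega] at h1
    rw [mul_comm]
    exact_mod_cast h1

end EndBound

open EndBound

theorem end_bound {J : Type} [Finite J] {m : ℕ} {A : ℝ} (hA : 0 ≤ A) (y : J → ℂ)
    (hbd : Bd y m m A) (l l0 : J) (h0 : y l0 ≠ 0) : Real.log ‖y l / y l0‖ ≤ A := by
  classical
  by_cases hα : ‖y l / y l0‖ ≤ 1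
  · exact (Real.log_nonpos (norm_nonneg _) hα).trans hA
  push Not at hα
  have hl : l ≠ l0 := by
    rintro rfl
    rw [div_self h0, norm_one] at hα
    exact lt_irrefl _ hα
  set α := ‖y l / y l0‖ with hαdef
  -- key bound for every `t`
  have key : ∀ t : ℕ, 1 ≤ t → Real.log (⌊α ^ t⌋₊ : ℝ) / t ≤ A := by
    intro t ht
    have hpow1 : 1 ≤ α ^ t := one_le_pow₀ hα.le
    have hfl : 1 ≤ ⌊α ^ t⌋₊ := by
      rw [Nat.one_le_floor_iff]; exact hpow1
    obtain ⟨q, hq⟩ : ∃ q, ⌊α ^ t⌋₊ = q + 1 := ⟨⌊α ^ t⌋₊ - 1, by omega⟩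
    have hq1 : (q : ℝ) + 1 ≤ α ^ t := by
      have := Nat.floor_le (show 0 ≤ α ^ t by positivity)
      rw [hq] at this
      exact_mod_cast this
    have ht0 : (0 : ℝ) < t := by exact_mod_cast ht
    set ρ := Real.log ((⌊α ^ t⌋₊ : ℕ) : ℝ) / t with hρ
    refine le_of_forall_pos_le_add fun δ hδ => ?_
    have h1 := hbd q δ hδ
    obtain ⟨N, hN, hN1⟩ := (h1.and (eventually_ge_atTop 1)).exists
    have h2 : Sg m (fun k => ρ * (k : ℝ)) N
        ≤ Sg m (fun k => Real.log (cnt y k (2 ^ (q * (Nat.sqrt N + 1))))) N := by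
      refine Sg_mono (fun k => ?_) m N
      have hH : q ≤ 2 ^ (q * (Nat.sqrt N + 1)) := by
        calc q ≤ 2 ^ q := Nat.lt_two_pow_self.le
          _ ≤ 2 ^ (q * (Nat.sqrt N + 1)) :=
            Nat.pow_le_pow_right (by norm_num) (Nat.le_mul_of_pos_right _ (Nat.succ_pos _))
      have h3 := pow_le_cnt y hl h0 ht hq1 k _ hH
      have h4 : ((k / t + 1 : ℕ) : ℝ) * Real.log ((q + 1 : ℕ) : ℝ)
          ≤ Real.log (cnt y k (2 ^ (q * (Nat.sqrt N + 1)))) := by
        rw [← Real.log_pow]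
        refine Real.log_le_log (by positivity) ?_
        exact_mod_cast h3
      refine le_trans ?_ h4
      rw [hρ, hq]
      have h5 : (k : ℝ) / t ≤ ((k / t + 1 : ℕ) : ℝ) := by
        rw [div_le_iff₀ ht0]
        have := Nat.lt_mul_div_succ k (show 0 < t by omega)
        have h6 : (k : ℝ) ≤ ((t * (k / t + 1) : ℕ) : ℝ) := by exact_mod_cast this.le
        push_cast at h6 ⊢
        linarith
      have h7 : 0 ≤ Real.log ((q + 1 : ℕ) : ℝ) := Real.log_nonneg (by push_cast; linarith [(Nat.cast_nonneg q : (0:ℝ) ≤ q)])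
      calc Real.log ((q + 1 : ℕ) : ℝ) / t * k = (k : ℝ) / t * Real.log ((q + 1 : ℕ) : ℝ) := by ring
        _ ≤ _ := mul_le_mul_of_nonneg_right h5 h7
    rw [Sg_lin] at h2
    have hρ0 : 0 ≤ ρ := by
      rw [hρ]
      exact div_nonneg (Real.log_nonneg (by exact_mod_cast hfl)) ht0.le
    have h8 := mul_le_mul_of_nonneg_left (pow_le_choose N m) hρ0
    have h9 := (h8.trans h2).trans hN
    have hNpos : 0 < (N : ℝ) ^ (m + 1) / (m + 1).factorial := by
      have : (0 : ℝ) < N := by exact_mod_cast hN1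
      positivity
    rw [mul_div_assoc] at h9
    exact le_of_mul_le_mul_right h9 hNpos
  -- conclude
  by_contra hcon
  push Not at hcon
  have hlogα : 0 < Real.log α - A := by linarith
  obtain ⟨t, ht⟩ := exists_nat_gt (Real.log 2 / (Real.log α - A))
  have ht' : 1 ≤ t := by
    have : (0 : ℝ) < t := lt_of_le_of_lt (div_nonneg (Real.log_nonneg (by norm_num)) hlogα.le) ht
    exact_mod_cast this
  have ht0 : (0 : ℝ) < t := by exact_mod_cast ht'
  have hk := key t ht'
  have hpow1 : 1 ≤ α ^ t := one_le_pow₀ hα.le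
  have hfl : (1 : ℝ) ≤ (⌊α ^ t⌋₊ : ℝ) := by
    have : 1 ≤ ⌊α ^ t⌋₊ := by rw [Nat.one_le_floor_iff]; exact hpow1
    exact_mod_cast this
  have h1 : α ^ t ≤ 2 * (⌊α ^ t⌋₊ : ℝ) := by
    have := (Nat.lt_floor_add_one (α ^ t)).le
    linarith
  have h2 : t * Real.log α ≤ Real.log 2 + Real.log (⌊α ^ t⌋₊ : ℝ) := by
    rw [← Real.log_pow, ← Real.log_mul (by norm_num) (by positivity)]
    exact Real.log_le_log (by positivity) h1
  rw [div_le_iff₀ ht0] at hk
  rw [div_lt_iff₀ hlogα] at ht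
  nlinarith

end Pool.Agent.W_MP_78a2de_al
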