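import Pool.Agent.W_MP_78a2de_al.Defs

/-!
Residue forms (first cut): preparation.
-/

namespace Pool.Agent.W_MP_78a2de_al

namespace RF

open MvPolynomial Filter

section sep

/-- A polynomial functional not vanishing on a nonzero vector, up to finitely many `N`. -/
theorem sep_poly {d : ℕ} (v : Fin d → ℤ) (hv : v ≠ 0) :
    ∃ P : Polynomial ℤ, P ≠ 0 ∧ ∀ N : ℕ, P.eval (N : ℤ) = ∑ i : Fin d, (N : ℤ) ^ (i : ℕ) * v i := by
  refine ⟨∑ i : Fin d, Polynomial.monomial (i : ℕ) (v i), ?_, ?_⟩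
  · intro h0
    apply hv
    funext i
    have := congrArg (fun P => Polynomial.coeff P (i : ℕ)) h0
    simp only [Polynomial.finsetSum_coeff, Polynomial.coeff_monomial, Polynomial.coeff_zero] at this
    rw [Finset.sum_eq_single i] at this
    · simpa using this
    · intro j _ hj
      rw [if_neg]
      intro h
      exact hj (Fin.ext h)
    · simp
  · intro N
    simp [Polynomial.eval_finsetSum, mul_comm]

theorem exists_sep {d : ℕ} (v₁ v₂ v₃ : Fin d → ℤ) (h₁ : v₁ ≠ 0) (h₂ : v₂ ≠ 0) (h₃ : v₃ ≠ 0) :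
    ∃ g : Fin d → ℕ, ∑ i, (g i : ℤ) * v₁ i ≠ 0 ∧ ∑ i, (g i : ℤ) * v₂ i ≠ 0 ∧
      ∑ i, (g i : ℤ) * v₃ i ≠ 0 := by
  obtain ⟨P₁, hP₁, e₁⟩ := sep_poly v₁ h₁
  obtain ⟨P₂, hP₂, e₂⟩ := sep_poly v₂ h₂
  obtain ⟨P₃, hP₃, e₃⟩ := sep_poly v₃ h₃
  have hP : P₁ * P₂ * P₃ ≠ 0 := mul_ne_zero (mul_ne_zero hP₁ hP₂) hP₃
  have : ∃ N : ℕ, (P₁ * P₂ * P₃).eval (N : ℤ) ≠ 0 := by
    by_contra hcon
    push Not at hcon
    apply hP
    apply Polynomial.eq_zero_of_infinite_isRoot
    apply (Set.infinite_range_of_injective (Nat.cast_injective (R := ℤ))).mono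
    rintro _ ⟨N, rfl⟩
    exact hcon N
  obtain ⟨N, hN⟩ := this
  rw [Polynomial.eval_mul, Polynomial.eval_mul] at hN
  refine ⟨fun i => N ^ (i : ℕ), ?_, ?_, ?_⟩
  · have := left_ne_zero_of_mul (left_ne_zero_of_mul hN)
    rw [e₁] at this
    simpa using this
  · have := right_ne_zero_of_mul (left_ne_zero_of_mul hN)
    rw [e₂] at this
    simpa using this
  · have := right_ne_zero_of_mul hN
    rw [e₃] at this
    simpa using this

end sep

section sig

/-- The automorphism `τ_i ↦ u_i τ_i`. -/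
noncomputable def sig {d : ℕ} (u : Fin d → ℂ) :
    MvPolynomial (Fin d) ℂ →ₐ[ℂ] MvPolynomial (Fin d) ℂ :=
  aeval (fun i => C (u i) * X i)

theorem sig_monomial {d : ℕ} (u : Fin d → ℂ) (m : Fin d →₀ ℕ) (z : ℂ) :
    sig u (monomial m z) = C (∏ i, u i ^ m i) * monomial m z := by
  unfold sig
  rw [aeval_monomial, monomial_eq, Finsupp.prod_fintype _ _ (by simp),
    Finsupp.prod_fintype _ _ (by simp)]
  simp only [mul_pow, Finset.prod_mul_distrib, map_prod, map_pow, algebraMap_eq]
  ring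

end sig

section orth

theorem addChar_sum {ι A M : Type} [AddCommMonoid A] [CommMonoid M] (ψ : AddChar A M)
    (s : Finset ι) (f : ι → A) : ψ (∑ i ∈ s, f i) = ∏ i ∈ s, ψ (f i) := by
  classical
  induction s using Finset.induction_on with
  | empty => simp
  | insert a s ha ih => rw [Finset.sum_insert ha, Finset.prod_insert ha, AddChar.map_add_eq_mul, ih]

theorem stdAddChar_weight {J : Type} {L : ℕ} [NeZero L] (r : J → ZMod L) (s : ZMod L)
    (v : J →₀ ℕ) :
    ZMod.stdAddChar (s * Finsupp.weight r v) = v.prod fun j n => (ZMod.stdAddChar (s * r j) : ℂ) ^ n := by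
  rw [Finsupp.weight_apply, Finsupp.sum, Finset.mul_sum, addChar_sum, Finsupp.prod]
  refine Finset.prod_congr rfl fun j _ => ?_
  rw [mul_smul_comm, AddChar.map_nsmul_eq_pow]

theorem sig_eval {J : Type} {L : ℕ} [NeZero L] {A : Type} [CommRing A] [Algebra ℂ A]
    (σ : ZMod L → A →ₐ[ℂ] A) (y : J → A) (r : J → ZMod L)
    (hσ : ∀ s j, σ s (y j) = algebraMap ℂ A (ZMod.stdAddChar (s * r j)) * y j) (s : ZMod L)
    (v : J →₀ ℕ) (c : ℤ) :
    σ s (aeval y (monomial v c)) =
      algebraMap ℂ A (ZMod.stdAddChar (s * Finsupp.weight r v)) * aeval y (monomial v c) := by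
  rw [aeval_monomial, map_mul, stdAddChar_weight, Finsupp.prod, Finsupp.prod, map_prod, map_prod]
  have h1 : σ s (algebraMap ℤ A c) = algebraMap ℤ A c := by simp
  rw [h1, mul_left_comm, ← Finset.prod_mul_distrib]
  congr 1
  refine Finset.prod_congr rfl fun j _ => ?_
  rw [map_pow, hσ, mul_pow, map_pow]

theorem orth {J : Type} {L : ℕ} [NeZero L] {A : Type} [CommRing A] [Algebra ℂ A]
    (σ : ZMod L → A →ₐ[ℂ] A) (y : J → A) (r : J → ZMod L)
    (hσ : ∀ s j, σ s (y j) = algebraMap ℂ A (ZMod.stdAddChar (s * r j)) * y j) (t : ZMod L)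
    (P : MvPolynomial J ℤ) :
    ∑ s, algebraMap ℂ A (ZMod.stdAddChar (-(s * t))) * σ s (aeval y P) =
      (L : A) * aeval y (weightedHomogeneousComponent r t P) := by
  classical
  induction P using MvPolynomial.induction_on' with
  | monomial v c =>
    simp_rw [sig_eval σ y r hσ, ← mul_assoc, ← Finset.sum_mul, ← map_mul, ← map_sum,
      ← AddChar.map_add_eq_mul]
    have h1 : ∑ s : ZMod L, (ZMod.stdAddChar (-(s * t) + s * Finsupp.weight r v) : ℂ) =
        if Finsupp.weight r v = t then (L : ℂ) else 0 := by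
      have := AddChar.sum_mulShift (ψ := (ZMod.stdAddChar : AddChar (ZMod L) ℂ))
        (Finsupp.weight r v - t) (ZMod.isPrimitive_stdAddChar L)
      simp only [ZMod.card, sub_eq_zero] at this
      have h3 : (if Finsupp.weight r v = t then (L : ℂ) else 0) =
          ((if Finsupp.weight r v = t then L else 0 : ℕ) : ℂ) := by
        split_ifs <;> simp
      rw [h3, ← this]
      refine Finset.sum_congr rfl fun s _ => ?_
      congr 1
      ring
    rw [h1]
    have h2 : weightedHomogeneousComponent r t (monomial v c) =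
        if Finsupp.weight r v = t then monomial v c else 0 := by
      ext w
      rw [coeff_weightedHomogeneousComponent, coeff_monomial]
      by_cases hvw : v = w
      · subst hvw
        by_cases hw : Finsupp.weight r v = t <;> simp [hw]
      · by_cases hw : Finsupp.weight r v = t
        · simp [hw, coeff_monomial, hvw]
        · simp [hw, hvw]
    rw [h2]
    by_cases hw : Finsupp.weight r v = t
    · simp [hw]
    · simp [hw]
  | add P Q hP hQ =>
    simp only [map_add, mul_add, Finset.sum_add_distrib, hP, hQ]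

/-- The core of the injection. -/
theorem core {J : Type} {L : ℕ} [NeZero L] {A : Type} [CommRing A] [Algebra ℂ A]
    (σ : ZMod L → A →ₐ[ℂ] A) (y : J → A) (r : J → ZMod L)
    (hσ : ∀ s j, σ s (y j) = algebraMap ℂ A (ZMod.stdAddChar (s * r j)) * y j)
    (h0 : ∀ z, σ 0 z = z) (q : Ideal A) (hq : q.IsPrime) (F : A) (hF : ∀ s, σ s F = F)
    (hFq : F ∈ q) (G : MvPolynomial J ℤ) (hG : ∀ s ≠ 0, σ s (aeval y G) ∈ q)
    (hG0 : aeval y G ∉ q) (D : ZMod L → MvPolynomial J ℤ)
    (hD : aeval y (∑ t, weightedHomogeneousComponent r t (D t * G)) ∈ Ideal.span {F})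
    (t : ZMod L) : aeval y (D t) ∈ q := by
  classical
  set V := ∑ t, weightedHomogeneousComponent r t (D t * G) with hV
  have hVt : weightedHomogeneousComponent r t V = weightedHomogeneousComponent r t (D t * G) := by
    ext w
    rw [coeff_weightedHomogeneousComponent, coeff_weightedHomogeneousComponent, hV, coeff_sum]
    by_cases hw : Finsupp.weight r w = t
    · rw [if_pos hw, if_pos hw, Finset.sum_eq_single t]
      · rw [coeff_weightedHomogeneousComponent, if_pos hw]
      · intro t' _ ht'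
        rw [coeff_weightedHomogeneousComponent, if_neg]
        rw [hw]
        exact fun h => ht' h.symm
      · simp
    · rw [if_neg hw, if_neg hw]
  have hV1 := orth σ y r hσ t V
  rw [hVt, ← orth σ y r hσ t (D t * G)] at hV1
  have hmem : ∑ s, algebraMap ℂ A (ZMod.stdAddChar (-(s * t))) * σ s (aeval y V) ∈ q := by
    refine Ideal.sum_mem _ fun s _ => Ideal.mul_mem_left _ _ ?_
    obtain ⟨z, hz⟩ := Ideal.mem_span_singleton'.1 hD
    rw [← hz, map_mul, hF]
    exact Ideal.mul_mem_left _ _ hFq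
  rw [hV1, ← Finset.add_sum_erase _ _ (Finset.mem_univ (0 : ZMod L))] at hmem
  have hrest : ∑ s ∈ Finset.univ.erase (0 : ZMod L),
      algebraMap ℂ A (ZMod.stdAddChar (-(s * t))) * σ s (aeval y (D t * G)) ∈ q := by
    refine Ideal.sum_mem _ fun s hs => Ideal.mul_mem_left _ _ ?_
    rw [map_mul, map_mul]
    exact Ideal.mul_mem_left _ _ (hG s (Finset.ne_of_mem_erase hs))
  have h1 := (Ideal.add_mem_iff_left _ hrest).1 hmem
  rw [h0, zero_mul, neg_zero, AddChar.map_zero_eq_one, map_one, one_mul, map_mul] at h1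
  exact (hq.mem_or_mem h1).resolve_right hG0

end orth

section count

theorem finite_degree {J : Type} [Finite J] (k : ℕ) : {v : J →₀ ℕ | v.degree = k}.Finite := by
  classical
  have := Fintype.ofFinite J
  refine Set.Finite.subset (Set.finite_Iic (Finsupp.equivFunOnFinite.symm fun _ : J => k)) ?_
  intro v hv
  rw [Set.mem_Iic]
  intro j
  rw [Finsupp.equivFunOnFinite_symm_apply_apply]
  change v.degree = k at hv
  rw [← hv]
  exact Finsupp.le_degree j v

theorem finite_forms_aux {J : Type} [Finite J] (k H : ℕ) : (forms J k H).Finite := by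
  classical
  have hfin := finite_degree (J := J) k
  have : Finite {v : J →₀ ℕ | v.degree = k} := hfin
  have h1 : (Set.pi Set.univ fun _ : {v : J →₀ ℕ | v.degree = k} =>
      Set.Icc (-(H : ℤ)) H).Finite := Set.Finite.pi fun _ => Set.finite_Icc _ _
  refine Set.Finite.of_injOn (f := fun (u : MvPolynomial J ℤ)
    (v : {v : J →₀ ℕ | v.degree = k}) => coeff (v : J →₀ ℕ) u) ?_ ?_ h1
  · intro u hu v _
    exact abs_le.1 (hu.2 v)
  · intro u hu u' hu' h
    ext v
    by_cases hv : v.degree = k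
    · exact congrFun h ⟨v, hv⟩
    · rw [hu.1.coeff_eq_zero hv, hu'.1.coeff_eq_zero hv]

theorem abs_coeff_mul_le {J : Type} (u G : MvPolynomial J ℤ) {H : ℤ} (hH : 0 ≤ H)
    (hu : ∀ v, |coeff v u| ≤ H) (v : J →₀ ℕ) :
    |coeff v (u * G)| ≤ (∑ w ∈ G.support, |coeff w G|) * H := by
  classical
  conv_lhs => rw [G.as_sum, Finset.mul_sum, coeff_sum]
  refine (Finset.abs_sum_le_sum_abs _ _).trans ?_
  rw [Finset.sum_mul]
  refine Finset.sum_le_sum fun w _ => ?_
  rw [coeff_mul_monomial']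
  split_ifs
  · rw [abs_mul, mul_comm]
    exact mul_le_mul_of_nonneg_left (hu _) (abs_nonneg _)
  · rw [abs_zero]
    positivity

theorem cnt_pow_le {J : Type} [Finite J] {L : ℕ} [NeZero L] {D₁ D₂ : Type} [CommRing D₁]
    [CommRing D₂] (y₁ : J → D₁) (y₂ : J → D₂) (r : J → ZMod L) (G : MvPolynomial J ℤ)
    (hG : G.IsHomogeneous (L - 1))
    (hcore : ∀ D : ZMod L → MvPolynomial J ℤ,
      aeval y₂ (∑ t, weightedHomogeneousComponent r t (D t * G)) = 0 → ∀ t, aeval y₁ (D t) = 0)
    (k H : ℕ) :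
    cnt y₁ k H ^ L ≤ cnt y₂ (k + (L - 1)) ((∑ w ∈ G.support, |coeff w G|).toNat * H) := by
  classical
  set M : ℕ := (∑ w ∈ G.support, |coeff w G|).toNat with hM
  have hMz : ((M : ℕ) : ℤ) = ∑ w ∈ G.support, |coeff w G| :=
    Int.toNat_of_nonneg (Finset.sum_nonneg fun _ _ => abs_nonneg _)
  set S := (fun u : MvPolynomial J ℤ => aeval y₁ u) '' forms J k H with hS
  set T := (fun u : MvPolynomial J ℤ => aeval y₂ u) '' forms J (k + (L - 1)) (M * H) with hT
  have hTfin : T.Finite := (finite_forms_aux _ _).image _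
  have : Finite T := hTfin
  have hrep : ∀ w : S, ∃ u ∈ forms J k H, aeval y₁ u = (w : D₁) := fun w => w.2
  choose rep hrep1 hrep2 using hrep
  set U : (ZMod L → S) → MvPolynomial J ℤ := fun w =>
    ∑ t, weightedHomogeneousComponent r t (rep (w t) * G) with hU
  have hUcoeff : ∀ w v, coeff v (U w) = coeff v (rep (w (Finsupp.weight r v)) * G) := by
    intro w v
    rw [hU]
    simp only
    rw [coeff_sum, Finset.sum_eq_single (Finsupp.weight r v)]
    · rw [coeff_weightedHomogeneousComponent, if_pos rfl]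
    · intro t' _ ht'
      rw [coeff_weightedHomogeneousComponent, if_neg]
      exact fun h => ht' h.symm
    · simp
  have hUmem : ∀ w, U w ∈ forms J (k + (L - 1)) (M * H) := by
    intro w
    refine ⟨?_, ?_⟩
    · intro v hv
      rw [hUcoeff] at hv
      exact ((hrep1 _).1.mul hG) hv
    · intro v
      rw [hUcoeff]
      push_cast
      rw [hMz]
      exact abs_coeff_mul_le _ _ (by positivity) (hrep1 _).2 v
  have hinj : Function.Injective
      (fun w : ZMod L → S => (⟨aeval y₂ (U w), U w, hUmem w, rfl⟩ : T)) := by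
    intro w w' h
    have h1 : aeval y₂ (U w) = aeval y₂ (U w') := congrArg Subtype.val h
    have h2 : aeval y₂ (∑ t, weightedHomogeneousComponent r t
        ((rep (w t) - rep (w' t)) * G)) = 0 := by
      have h3 : ∑ t, weightedHomogeneousComponent r t ((rep (w t) - rep (w' t)) * G) =
          U w - U w' := by
        rw [hU]
        simp only [sub_mul, map_sub, Finset.sum_sub_distrib]
      rw [h3, map_sub, h1, sub_self]
    have h4 := hcore (fun t => rep (w t) - rep (w' t)) h2
    funext t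
    have h5 := h4 t
    simp only [map_sub, hrep2] at h5
    exact Subtype.ext (sub_eq_zero.1 h5)
  have hcard := Nat.card_le_card_of_injective _ hinj
  rw [Nat.card_fun, Nat.card_eq_fintype_card (α := ZMod L), ZMod.card] at hcard
  exact hcard

end count

section bad

theorem unit_norm_aux {l z : ℂ} (hz : ‖z‖ = 1) (hz1 : z ≠ 1) (hl : l ≠ 0)
    (h : ‖1 + l * z‖ = ‖1 + l‖) : z = (starRingEnd ℂ) l / l := by
  have h1 : z.re ^ 2 + z.im ^ 2 = 1 := by
    have := Complex.sq_norm z
    rw [hz, Complex.normSq_apply] at this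
    nlinarith
  have h2 : (1 + l * z).re ^ 2 + (1 + l * z).im ^ 2 = (1 + l).re ^ 2 + (1 + l).im ^ 2 := by
    have e1 := Complex.sq_norm (1 + l * z)
    have e2 := Complex.sq_norm (1 + l)
    rw [Complex.normSq_apply] at e1 e2
    rw [h] at e1
    nlinarith
  simp only [Complex.add_re, Complex.one_re, Complex.mul_re, Complex.add_im, Complex.one_im,
    Complex.mul_im, zero_add] at h2
  have h3 : l.re * z.re - l.im * z.im = l.re := by
    have : 2 * (l.re * z.re - l.im * z.im) + (l.re ^ 2 + l.im ^ 2) * (z.re ^ 2 + z.im ^ 2) =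
      2 * l.re + (l.re ^ 2 + l.im ^ 2) := by nlinarith
    rw [h1] at this
    linarith
  have h4 : (l.re * z.im + l.im * z.re) ^ 2 = l.im ^ 2 := by
    have : (l.re * z.re - l.im * z.im) ^ 2 + (l.re * z.im + l.im * z.re) ^ 2 =
      (l.re ^ 2 + l.im ^ 2) * (z.re ^ 2 + z.im ^ 2) := by ring
    rw [h1, h3] at this
    linarith
  rw [eq_div_iff hl]
  rcases sq_eq_sq_iff_eq_or_eq_neg.1 h4 with h5 | h5
  · exfalso
    apply hz1
    have : l * z = l * 1 := by
      apply Complex.ext
      · simpa using h3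
      · simpa using h5
    exact mul_left_cancel₀ hl this
  · apply Complex.ext
    · simp only [Complex.mul_re, Complex.conj_re]
      linarith
    · simp only [Complex.mul_im, Complex.conj_im]
      linarith

theorem smul_mem_cancel {A : Type} [CommRing A] [Algebra ℂ A] (q : Ideal A) {c : ℂ} (hc : c ≠ 0)
    {x : A} (hx : algebraMap ℂ A c * x ∈ q) : x ∈ q := by
  have := q.mul_mem_left (algebraMap ℂ A c⁻¹) hx
  rwa [← mul_assoc, ← map_mul, inv_mul_cancel₀ hc, map_one, one_mul] at this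

theorem bad_prime {A : Type} [CommRing A] [Algebra ℂ A] (q : Ideal A) (ya yb yc : A)
    (ha : ya ∉ q) (hf : ya + yb - yc ∈ q) :
    ∃ L₁ : ℕ, ∀ L > L₁, L.Prime → ∀ z w : ℂ, z ^ L = 1 → w ^ L = 1 → z ≠ 1 → w ≠ 1 → z ≠ w →
      ya + algebraMap ℂ A z * yb - algebraMap ℂ A w * yc ∉ q := by
  have key : ∀ z w : ℂ, z ≠ w → ya + algebraMap ℂ A z * yb - algebraMap ℂ A w * yc ∈ q →
      yb - algebraMap ℂ A (-(1 - w) / (z - w)) * ya ∈ q := by
    intro z w hzw hmem
    have hzw' : z - w ≠ 0 := sub_ne_zero.2 hzw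
    apply smul_mem_cancel q hzw'
    have h1 : algebraMap ℂ A (z - w) * (yb - algebraMap ℂ A (-(1 - w) / (z - w)) * ya) =
        (ya + algebraMap ℂ A z * yb - algebraMap ℂ A w * yc) -
          algebraMap ℂ A w * (ya + yb - yc) := by
      rw [mul_sub, ← mul_assoc, ← map_mul, mul_div_cancel₀ _ hzw', map_neg, map_sub, map_sub,
        map_one]
      ring
    rw [h1]
    exact q.sub_mem hmem (q.mul_mem_left _ hf)
  by_cases hl : ∃ l : ℂ, yb - algebraMap ℂ A l * ya ∈ q
  · obtain ⟨l, hl⟩ := hl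
    refine ⟨orderOf ((starRingEnd ℂ) l / l), ?_⟩
    intro L hL hLp z w hz hw hz1 hw1 hzw hmem
    have h1 := key z w hzw hmem
    have h2 : l = -(1 - w) / (z - w) := by
      by_contra hne
      apply ha
      apply smul_mem_cancel q (sub_ne_zero.2 hne)
      have h3 := q.sub_mem h1 hl
      have h4 : yb - algebraMap ℂ A (-(1 - w) / (z - w)) * ya - (yb - algebraMap ℂ A l * ya) =
        algebraMap ℂ A (l - -(1 - w) / (z - w)) * ya := by
        rw [map_sub]
        ring
      rwa [h4] at h3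
    have hzw' : z - w ≠ 0 := sub_ne_zero.2 hzw
    have hl0 : l ≠ 0 := by
      rw [h2]
      apply div_ne_zero _ hzw'
      rw [neg_ne_zero]
      exact sub_ne_zero.2 (Ne.symm hw1)
    have h5 : 1 + l * z = (1 + l) * w := by
      have : l * (z - w) = -(1 - w) := by
        rw [h2, div_mul_cancel₀ _ hzw']
      linear_combination this
    have hznorm : ‖z‖ = 1 := Complex.norm_eq_one_of_pow_eq_one hz hLp.ne_zero
    have hwnorm : ‖w‖ = 1 := Complex.norm_eq_one_of_pow_eq_one hw hLp.ne_zero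
    have h6 : ‖1 + l * z‖ = ‖1 + l‖ := by
      rw [h5, norm_mul, hwnorm, mul_one]
    have h7 := unit_norm_aux hznorm hz1 hl0 h6
    have : Fact L.Prime := ⟨hLp⟩
    have h8 : orderOf z = L := orderOf_eq_prime hz hz1
    rw [← h7, h8] at hL
    exact lt_irrefl _ hL
  · refine ⟨0, ?_⟩
    intro L _ _ z w _ _ _ _ hzw hmem
    exact hl ⟨_, key z w hzw hmem⟩

theorem monomial_not_mem {d : ℕ} (q : Ideal (MvPolynomial (Fin d) ℂ)) (hq : q.IsPrime)
    (hX : ∀ i, X i ∉ q) (m : Fin d →₀ ℕ) {z : ℂ} (hz : z ≠ 0) : monomial m z ∉ q := by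
  intro h
  rw [monomial_eq, Finsupp.prod] at h
  rcases hq.mem_or_mem h with h | h
  · apply hq.ne_top
    rw [Ideal.eq_top_iff_one]
    have := q.mul_mem_left (C z⁻¹) h
    rwa [← C_mul, inv_mul_cancel₀ hz, C_1] at this
  · rw [hq.prod_mem_iff] at h
    obtain ⟨i, _, hi⟩ := h
    exact hX i (hq.mem_of_pow_mem _ hi)

end bad

section fac

/-- The linear form `X_0 + z X_1 - w X_2`. -/
noncomputable def lf (z w : ℂ) : MvPolynomial (Fin 3) ℂ := X 0 + C z * X 1 - C w * X 2

theorem lf_homogeneous (z w : ℂ) : (lf z w).IsHomogeneous 1 := by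
  unfold lf
  refine IsHomogeneous.sub (IsHomogeneous.add (isHomogeneous_X _ _) ?_) ?_
  · exact (isHomogeneous_X _ _).C_mul z
  · exact (isHomogeneous_X _ _).C_mul w

theorem dvd_of_subst (F : MvPolynomial (Fin 3) ℤ)
    (h : aeval ![X 0, X 1, (X 0 + X 1 : MvPolynomial (Fin 3) ℤ)] F = 0) :
    ((X 0 + X 1 - X 2 : MvPolynomial (Fin 3) ℤ)) ∣ F := by
  rw [← Ideal.mem_span_singleton, ← Ideal.Quotient.eq_zero_iff_mem]
  have h1 : (Ideal.Quotient.mkₐ ℤ (Ideal.span {(X 0 + X 1 - X 2 : MvPolynomial (Fin 3) ℤ)})) =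
      (Ideal.Quotient.mkₐ ℤ (Ideal.span {(X 0 + X 1 - X 2 : MvPolynomial (Fin 3) ℤ)})).comp
        (aeval ![X 0, X 1, (X 0 + X 1 : MvPolynomial (Fin 3) ℤ)]) := by
    apply MvPolynomial.algHom_ext
    intro i
    fin_cases i
    · simp
    · simp
    · simp only [AlgHom.comp_apply, aeval_X]
      change Ideal.Quotient.mk _ (X 2) = Ideal.Quotient.mk _ (X 0 + X 1)
      rw [Ideal.Quotient.eq, ← neg_mem_iff, neg_sub]
      exact Ideal.subset_span rfl
  have h2 := DFunLike.congr_fun h1 F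
  rw [AlgHom.comp_apply, h, map_zero] at h2
  exact h2

theorem sum_form_ne_zero : (X 0 + X 1 - X 2 : MvPolynomial (Fin 3) ℂ) ≠ 0 := by
  intro h
  have := congrArg (fun p => eval ![1, 0, 0] p) h
  simp at this

theorem exists_cofactor {L : ℕ} [NeZero L] (β γ : ZMod L) (F : MvPolynomial (Fin 3) ℤ)
    (hF : map (Int.castRingHom ℂ) F =
      ∏ s : ZMod L, lf (ZMod.stdAddChar (s * β)) (ZMod.stdAddChar (s * γ))) :
    ∃ G : MvPolynomial (Fin 3) ℤ, F = (X 0 + X 1 - X 2) * G ∧
      map (Int.castRingHom ℂ) G = ∏ s ∈ Finset.univ.erase (0 : ZMod L),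
        lf (ZMod.stdAddChar (s * β)) (ZMod.stdAddChar (s * γ)) ∧ G.IsHomogeneous (L - 1) := by
  classical
  have hinj : Function.Injective (Int.castRingHom ℂ) := Int.cast_injective
  have h0 : aeval ![X 0, X 1, (X 0 + X 1 : MvPolynomial (Fin 3) ℤ)] F = 0 := by
    apply map_injective _ hinj
    rw [map_zero]
    have h1 : map (Int.castRingHom ℂ) (aeval ![X 0, X 1, (X 0 + X 1 : MvPolynomial (Fin 3) ℤ)] F)
        = aeval ![X 0, X 1, (X 0 + X 1 : MvPolynomial (Fin 3) ℂ)] (map (Int.castRingHom ℂ) F) := by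
      rw [aeval_eq_bind₁, aeval_eq_bind₁, map_bind₁]
      congr 2
      funext i
      fin_cases i <;> simp
    rw [h1, hF, map_prod]
    apply Finset.prod_eq_zero (Finset.mem_univ (0 : ZMod L))
    simp [lf]
  obtain ⟨G, hG⟩ := dvd_of_subst F h0
  have hG1 : map (Int.castRingHom ℂ) G = ∏ s ∈ Finset.univ.erase (0 : ZMod L),
        lf (ZMod.stdAddChar (s * β)) (ZMod.stdAddChar (s * γ)) := by
    have h2 := hF
    rw [hG, map_mul, ← Finset.mul_prod_erase _ _ (Finset.mem_univ (0 : ZMod L))] at h2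
    have h3 : lf (ZMod.stdAddChar ((0 : ZMod L) * β)) (ZMod.stdAddChar ((0 : ZMod L) * γ)) =
        X 0 + X 1 - X 2 := by
      simp [lf]
    rw [h3] at h2
    simp only [map_add, map_sub, map_X] at h2
    exact mul_left_cancel₀ sum_form_ne_zero h2
  refine ⟨G, hG, hG1, ?_⟩
  have h4 : (map (Int.castRingHom ℂ) G).IsHomogeneous (L - 1) := by
    rw [hG1]
    have := IsHomogeneous.prod (Finset.univ.erase (0 : ZMod L))
      (fun s => lf (ZMod.stdAddChar (s * β)) (ZMod.stdAddChar (s * γ))) (fun _ => 1)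
      (fun s _ => lf_homogeneous _ _)
    rw [Finset.sum_const, Finset.card_erase_of_mem (Finset.mem_univ _), Finset.card_univ,
      ZMod.card, smul_eq_mul, mul_one] at this
    exact this
  intro v hv
  apply h4
  rw [coeff_map]
  simpa using hv

end fac

end RF

end Pool.Agent.W_MP_78a2de_al
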