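import Pool.Agent.W_MP_78a2de_al.Circ
import Pool.Agent.W_MP_78a2de_al.ResFormA

/-!
Residue forms: the first cut.
-/

namespace Pool.Agent.W_MP_78a2de_al

open MvPolynomial Filter

namespace RF

theorem primitive_stdAddChar_one (L : ℕ) [NeZero L] :
    IsPrimitiveRoot (ZMod.stdAddChar (1 : ZMod L) : ℂ) L := by
  have h := ZMod.stdAddChar_coe (N := L) 1
  rw [Int.cast_one] at h
  rw [h]
  have := Complex.isPrimitiveRoot_exp L (NeZero.ne L)
  simpa using this

theorem stdAddChar_pow {L : ℕ} [NeZero L] (n : ℕ) :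
    (ZMod.stdAddChar (1 : ZMod L) : ℂ) ^ n = ZMod.stdAddChar (n : ZMod L) := by
  rw [← AddChar.map_nsmul_eq_pow, nsmul_eq_mul, mul_one]

theorem prod_range_zmod {L : ℕ} [NeZero L] {M : Type} [CommMonoid M] (f : ZMod L → M) :
    ∏ s ∈ Finset.range L, f (s : ZMod L) = ∏ s : ZMod L, f s := by
  refine Finset.prod_nbij' (fun s => (s : ZMod L)) ZMod.val ?_ ?_ ?_ ?_ ?_
  · intro s _; exact Finset.mem_univ _
  · intro s _; exact Finset.mem_range.2 (ZMod.val_lt s)
  · intro s hs; exact ZMod.val_cast_of_lt (Finset.mem_range.1 hs)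
  · intro s _; exact ZMod.natCast_zmod_val s
  · intro s _; rfl

theorem circ_form' {L : ℕ} [NeZero L] (β γ : ZMod L) (hβ : β ≠ 0) (hγ : γ ≠ 0) (hβγ : β ≠ γ) :
    ∃ F : MvPolynomial (Fin 3) ℤ, F.IsHomogeneous L ∧
      map (Int.castRingHom ℂ) F =
        ∏ s : ZMod L, lf (ZMod.stdAddChar (s * β)) (ZMod.stdAddChar (s * γ)) ∧
      ((∑ v ∈ F.support, |coeff v F| : ℤ) : ℝ) ≤ ((L : ℝ) + 1) ^ 2 * Real.sqrt 3 ^ L := by
  obtain ⟨F, h1, h2, h3⟩ := circ_form (L := L) (Nat.pos_of_ne_zero (NeZero.ne L)) β.val γ.val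
    (by
      intro h
      rw [← ZMod.natCast_eq_natCast_iff, ZMod.natCast_zmod_val] at h
      exact hβ (by simpa using h))
    (by
      intro h
      rw [← ZMod.natCast_eq_natCast_iff, ZMod.natCast_zmod_val] at h
      exact hγ (by simpa using h))
    (by
      intro h
      rw [← ZMod.natCast_eq_natCast_iff, ZMod.natCast_zmod_val, ZMod.natCast_zmod_val] at h
      exact hβγ h)
    (ZMod.stdAddChar (1 : ZMod L)) (primitive_stdAddChar_one L)
  refine ⟨F, h1, ?_, h3⟩
  rw [h2, ← prod_range_zmod]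
  refine Finset.prod_congr rfl fun s _ => ?_
  rw [lf, stdAddChar_pow, stdAddChar_pow, Nat.cast_mul, Nat.cast_mul, ZMod.natCast_zmod_val,
    ZMod.natCast_zmod_val]

theorem rename_sum {J : Type} (ι : Fin 3 → J) (hι : Function.Injective ι)
    (F : MvPolynomial (Fin 3) ℤ) :
    ∑ v ∈ (rename ι F).support, |coeff v (rename ι F)| = ∑ v ∈ F.support, |coeff v F| := by
  classical
  rw [support_rename_of_injective hι, Finset.sum_image]
  · refine Finset.sum_congr rfl fun v _ => ?_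
    rw [coeff_rename_mapDomain _ hι]
  · intro v _ w _ h
    exact Finsupp.mapDomain_injective hι h

theorem aeval_rename_three {J : Type} {A : Type} [CommRing A] [Algebra ℂ A] (y : J → A)
    (a b c : J) (F : MvPolynomial (Fin 3) ℤ) :
    aeval y (rename ![a, b, c] F) = aeval ![y a, y b, y c] (map (Int.castRingHom ℂ) F) := by
  rw [aeval_rename]
  have h1 : (aeval ![y a, y b, y c] (map (Int.castRingHom ℂ) F) : A) =
      aeval ![y a, y b, y c] F := by
    rw [← algebraMap_int_eq]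
    exact aeval_map_algebraMap ℂ _ F
  rw [h1]
  congr 2
  funext i
  fin_cases i <;> rfl

theorem inj_three {J : Type} {a b c : J} (hab : a ≠ b) (hac : a ≠ c) (hbc : b ≠ c) :
    Function.Injective ![a, b, c] := by
  intro i j hij
  fin_cases i <;> fin_cases j
  · rfl
  · exact absurd hij hab
  · exact absurd hij hac
  · exact absurd hij.symm hab
  · rfl
  · exact absurd hij hbc
  · exact absurd hij.symm hac
  · exact absurd hij.symm hbc
  · rfl

theorem aeval_lf {A : Type} [CommRing A] [Algebra ℂ A] (ya yb yc : A) (z w : ℂ) :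
    aeval ![ya, yb, yc] (lf z w) = ya + algebraMap ℂ A z * yb - algebraMap ℂ A w * yc := by
  simp [lf]

attribute [local instance 10000] Ring.toIntAlgebra in
theorem exists_residue_form_aux {J : Type} [Finite J] {d : ℕ} (χ : J → Fin d → ℤ) (ζ : J → ℂ)
    (hζ : ∀ j, ζ j ≠ 0) (κ : ℤ) (hκ : ∀ j i, 0 ≤ χ j i + κ) (e : J × J × J)
    (h1 : χ e.1 ≠ χ e.2.1) (h2 : χ e.1 ≠ χ e.2.2) (h3 : χ e.2.1 ≠ χ e.2.2)
    (q : Ideal (MvPolynomial (Fin d) ℂ)) (hq : q.IsPrime) (hX : ∀ i, X i ∉ q)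
    (hf : aeval (toric χ ζ κ) (sform e) ∈ q) :
    ∃ L₀ : ℕ, ∀ L ≥ L₀, L.Prime → ∃ (F : MvPolynomial J ℤ) (C : ℕ), F.IsHomogeneous L ∧
      aeval (toric χ ζ κ) F ≠ 0 ∧
      ((∑ v ∈ F.support, |coeff v F| : ℤ) : ℝ) ≤ ((L : ℝ) + 1) ^ 2 * Real.sqrt 3 ^ L ∧
      ∀ k H : ℕ, cnt (fun j => Ideal.Quotient.mk q (toric χ ζ κ j)) k H ^ L ≤
        cnt (fun j => Ideal.Quotient.mk (Ideal.span {aeval (toric χ ζ κ) F}) (toric χ ζ κ j))
          (k + (L - 1)) (C * H) := by
  classical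
  obtain ⟨a, b, c⟩ := e
  simp only at h1 h2 h3
  set m : J → (Fin d →₀ ℕ) := fun j => Finsupp.equivFunOnFinite.symm fun i => (χ j i + κ).toNat
    with hm
  set y := toric χ ζ κ with hy
  have hym : ∀ j, y j = monomial (m j) (ζ j) := fun j => rfl
  have hmint : ∀ j i, ((m j i : ℕ) : ℤ) = χ j i + κ := by
    intro j i
    rw [hm]
    simp only [Finsupp.equivFunOnFinite_symm_apply_apply]
    exact Int.toNat_of_nonneg (hκ j i)
  have hmne : ∀ j j', χ j ≠ χ j' → m j ≠ m j' := by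
    intro j j' hne h
    apply hne
    funext i
    have e1 := hmint j i
    have e2 := hmint j' i
    rw [h] at e1
    linarith
  obtain ⟨g, hg1, hg2, hg3⟩ := exists_sep (χ b - χ a) (χ c - χ a) (χ b - χ c)
    (sub_ne_zero.2 h1.symm) (sub_ne_zero.2 h2.symm) (sub_ne_zero.2 h3)
  have hanq : y a ∉ q := by
    rw [hym]
    exact monomial_not_mem q hq hX _ (hζ a)
  have hfq : y a + y b - y c ∈ q := by simpa [sform] using hf
  obtain ⟨L₁, hL₁⟩ := bad_prime q (y a) (y b) (y c) hanq hfq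
  set n1 := ∑ i, (g i : ℤ) * (χ b - χ a) i with hn1
  set n2 := ∑ i, (g i : ℤ) * (χ c - χ a) i with hn2
  set n3 := ∑ i, (g i : ℤ) * (χ b - χ c) i with hn3
  refine ⟨L₁ + 1 + n1.natAbs + n2.natAbs + n3.natAbs + 1, fun L hL hLp => ?_⟩
  have : NeZero L := ⟨hLp.ne_zero⟩
  have : Fact L.Prime := ⟨hLp⟩
  set r : J → ZMod L := fun j => ∑ i, (m j i) • (g i : ZMod L) with hr
  have hrsub : ∀ j j', r j - r j' = ((∑ i, (g i : ℤ) * (χ j - χ j') i : ℤ) : ZMod L) := by
    intro j j'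
    rw [hr]
    simp only
    rw [← Finset.sum_sub_distrib, Int.cast_sum]
    refine Finset.sum_congr rfl fun i _ => ?_
    have e1 : (χ j - χ j') i = ((m j i : ℕ) : ℤ) - ((m j' i : ℕ) : ℤ) := by
      rw [hmint, hmint, Pi.sub_apply]
      ring
    rw [e1]
    push_cast
    rw [nsmul_eq_mul, nsmul_eq_mul]
    ring
  have hcast : ∀ n : ℤ, n ≠ 0 → n.natAbs < L → ((n : ℤ) : ZMod L) ≠ 0 := by
    intro n hn hnL h
    rw [ZMod.intCast_zmod_eq_zero_iff_dvd] at h
    apply hn
    apply Int.eq_zero_of_abs_lt_dvd h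
    rw [Int.abs_eq_natAbs]
    exact_mod_cast hnL
  set β := r b - r a with hβ_def
  set γ := r c - r a with hγ_def
  have hβ : β ≠ 0 := by
    rw [hβ_def, hrsub]
    exact hcast _ hg1 (by omega)
  have hγ : γ ≠ 0 := by
    rw [hγ_def, hrsub]
    exact hcast _ hg2 (by omega)
  have hβγ : β ≠ γ := by
    intro h
    have h' : r b - r c = 0 := by
      rw [hβ_def, hγ_def] at h
      rw [sub_eq_zero]
      exact sub_left_injective h
    rw [hrsub] at h'
    exact hcast _ hg3 (by omega) h'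
  obtain ⟨F', hF'1, hF'2, hF'3⟩ := circ_form' β γ hβ hγ hβγ
  obtain ⟨G', hG'1, hG'2, hG'3⟩ := exists_cofactor β γ F' hF'2
  have hι : Function.Injective ![a, b, c] := by
    have hab : a ≠ b := fun h => h1 (by rw [h])
    have hac : a ≠ c := fun h => h2 (by rw [h])
    have hbc : b ≠ c := fun h => h3 (by rw [h])
    exact inj_three hab hac hbc
  set f : ZMod L → MvPolynomial (Fin d) ℂ := fun s =>
    y a + algebraMap ℂ _ (ZMod.stdAddChar (s * β)) * y b -
      algebraMap ℂ _ (ZMod.stdAddChar (s * γ)) * y c with hf_def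
  have hFy : aeval y (rename ![a, b, c] F') = ∏ s, f s := by
    rw [aeval_rename_three, hF'2, map_prod]
    refine Finset.prod_congr rfl fun s _ => ?_
    rw [aeval_lf]
  have hGy : aeval y (rename ![a, b, c] G') = ∏ s ∈ Finset.univ.erase 0, f s := by
    rw [aeval_rename_three, hG'2, map_prod]
    refine Finset.prod_congr rfl fun s _ => ?_
    rw [aeval_lf]
  set σ : ZMod L → MvPolynomial (Fin d) ℂ →ₐ[ℂ] MvPolynomial (Fin d) ℂ := fun s =>
    sig (fun i => ZMod.stdAddChar (s * (g i : ZMod L))) with hσ_def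
  have hσ : ∀ s j, σ s (y j) = algebraMap ℂ _ (ZMod.stdAddChar (s * r j)) * y j := by
    intro s j
    rw [hσ_def, hym]
    simp only
    rw [sig_monomial, algebraMap_eq, hr]
    simp only
    rw [Finset.mul_sum, addChar_sum]
    congr 2
    refine Finset.prod_congr rfl fun i _ => ?_
    rw [mul_smul_comm, AddChar.map_nsmul_eq_pow]
  have h0 : ∀ z, σ 0 z = z := by
    intro z
    have : σ 0 = AlgHom.id ℂ _ := by
      apply MvPolynomial.algHom_ext
      intro i
      simp [hσ_def, sig]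
    rw [this]
    rfl
  have hσf : ∀ s' s, σ s' (f s) = algebraMap ℂ _ (ZMod.stdAddChar (s' * r a)) * f (s + s') := by
    intro s' s
    rw [hf_def]
    simp only
    rw [map_sub, map_add, map_mul (σ s'), map_mul (σ s'), AlgHom.commutes, AlgHom.commutes, hσ, hσ,
      hσ]
    have e1 : (ZMod.stdAddChar (s' * r b) : ℂ) * ZMod.stdAddChar (s * β) =
        ZMod.stdAddChar (s' * r a) * ZMod.stdAddChar ((s + s') * β) := by
      rw [← AddChar.map_add_eq_mul, ← AddChar.map_add_eq_mul]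
      congr 1
      rw [hβ_def]
      ring
    have e2 : (ZMod.stdAddChar (s' * r c) : ℂ) * ZMod.stdAddChar (s * γ) =
        ZMod.stdAddChar (s' * r a) * ZMod.stdAddChar ((s + s') * γ) := by
      rw [← AddChar.map_add_eq_mul, ← AddChar.map_add_eq_mul]
      congr 1
      rw [hγ_def]
      ring
    have e1' := congrArg (algebraMap ℂ (MvPolynomial (Fin d) ℂ)) e1
    have e2' := congrArg (algebraMap ℂ (MvPolynomial (Fin d) ℂ)) e2
    rw [map_mul (algebraMap ℂ (MvPolynomial (Fin d) ℂ)),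
      map_mul (algebraMap ℂ (MvPolynomial (Fin d) ℂ))] at e1' e2'
    linear_combination y b * e1' - y c * e2'
  have hf0 : f 0 ∈ q := by
    have : f 0 = y a + y b - y c := by
      rw [hf_def]
      simp
    rw [this]
    exact hfq
  have hfs : ∀ s ≠ 0, f s ∉ q := by
    intro s hs
    have hpow : ∀ x : ZMod L, (ZMod.stdAddChar x : ℂ) ^ L = 1 := by
      intro x
      rw [← AddChar.map_nsmul_eq_pow, nsmul_eq_mul, CharP.cast_eq_zero, zero_mul,
        AddChar.map_zero_eq_one]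
    have hne1 : ∀ x : ZMod L, x ≠ 0 → (ZMod.stdAddChar x : ℂ) ≠ 1 := by
      intro x hx h
      apply hx
      apply ZMod.injective_stdAddChar
      rw [h, AddChar.map_zero_eq_one]
    refine hL₁ L (by omega) hLp _ _ (hpow _) (hpow _) (hne1 _ (mul_ne_zero hs hβ))
      (hne1 _ (mul_ne_zero hs hγ)) ?_
    intro h
    exact hβγ (mul_left_cancel₀ hs (ZMod.injective_stdAddChar h))
  have hGq : aeval y (rename ![a, b, c] G') ∉ q := by
    rw [hGy, hq.prod_mem_iff]
    rintro ⟨s, hs, hsq⟩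
    exact hfs s (Finset.ne_of_mem_erase hs) hsq
  have hFq : aeval y (rename ![a, b, c] F') ∈ q := by
    rw [hFy]
    exact hq.prod_mem_iff.2 ⟨0, Finset.mem_univ _, hf0⟩
  have hσF : ∀ s, σ s (aeval y (rename ![a, b, c] F')) = aeval y (rename ![a, b, c] F') := by
    intro s'
    rw [hFy, map_prod]
    simp only [hσf]
    rw [Finset.prod_mul_distrib, Finset.prod_const, Finset.card_univ, ZMod.card, ← map_pow,
      ← AddChar.map_nsmul_eq_pow, nsmul_eq_mul, CharP.cast_eq_zero, zero_mul,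
      AddChar.map_zero_eq_one, map_one, one_mul]
    exact Fintype.prod_equiv (Equiv.addRight s') _ _ fun _ => rfl
  have hσG : ∀ s ≠ 0, σ s (aeval y (rename ![a, b, c] G')) ∈ q := by
    intro s' hs'
    rw [hGy, map_prod]
    refine hq.prod_mem_iff.2 ⟨-s', ?_, ?_⟩
    · exact Finset.mem_erase.2 ⟨neg_ne_zero.2 hs', Finset.mem_univ _⟩
    · rw [hσf, neg_add_cancel]
      exact q.mul_mem_left _ hf0
  refine ⟨rename ![a, b, c] F', (∑ w ∈ (rename ![a, b, c] G').support,
    |coeff w (rename ![a, b, c] G')|).toNat, hF'1.rename_isHomogeneous, ?_, ?_, ?_⟩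
  · rw [hFy, Finset.prod_ne_zero_iff]
    intro s _ hs
    have := congrArg (coeff (m a)) hs
    rw [hf_def] at this
    simp only [hym, algebraMap_eq, coeff_sub, coeff_add, coeff_C_mul, coeff_monomial,
      if_neg (hmne b a h1.symm), if_neg (hmne c a h2.symm), mul_zero, add_zero, sub_zero,
      coeff_zero, if_true] at this
    exact hζ a this
  · rw [rename_sum _ hι]
    exact hF'3
  · intro k H
    apply cnt_pow_le _ _ r
    · exact hG'3.rename_isHomogeneous
    · intro D hD t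
      have e1 : ∀ (I : Ideal (MvPolynomial (Fin d) ℂ)) (P : MvPolynomial J ℤ),
          aeval (fun j => Ideal.Quotient.mk I (y j)) P = Ideal.Quotient.mk I (aeval y P) := by
        intro I P
        have := (comp_aeval_apply (R := ℤ) (f := y) (Ideal.Quotient.mkₐ ℤ I) P)
        exact this.symm
      rw [e1, Ideal.Quotient.eq_zero_iff_mem] at hD ⊢
      exact core σ y r hσ h0 q hq _ hσF hFq _ hσG hGq D hD t

end RF

theorem exists_residue_form {J : Type} [Finite J] {d : ℕ} (χ : J → Fin d → ℤ) (ζ : J → ℂ)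
    (hζ : ∀ j, ζ j ≠ 0) (κ : ℤ) (hκ : ∀ j i, 0 ≤ χ j i + κ) (e : J × J × J)
    (h1 : χ e.1 ≠ χ e.2.1) (h2 : χ e.1 ≠ χ e.2.2) (h3 : χ e.2.1 ≠ χ e.2.2)
    (q : Ideal (MvPolynomial (Fin d) ℂ)) (hq : q.IsPrime) (hX : ∀ i, X i ∉ q)
    (hf : aeval (toric χ ζ κ) (sform e) ∈ q) :
    ∃ L₀ : ℕ, ∀ L ≥ L₀, L.Prime → ∃ (F : MvPolynomial J ℤ) (C : ℕ), F.IsHomogeneous L ∧
      aeval (toric χ ζ κ) F ≠ 0 ∧
      ((∑ v ∈ F.support, |coeff v F| : ℤ) : ℝ) ≤ ((L : ℝ) + 1) ^ 2 * Real.sqrt 3 ^ L ∧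
      ∀ k H : ℕ, cnt (fun j => Ideal.Quotient.mk q (toric χ ζ κ j)) k H ^ L ≤
        cnt (fun j => Ideal.Quotient.mk (Ideal.span {aeval (toric χ ζ κ) F}) (toric χ ζ κ j))
          (k + (L - 1)) (C * H) :=
  RF.exists_residue_form_aux χ ζ hζ κ hκ e h1 h2 h3 q hq hX hf

end Pool.Agent.W_MP_78a2de_al
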