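import Pool.Agent.W_MP_78a2de_al.Defs

namespace Pool.Agent.W_MP_78a2de_al

open MvPolynomial Filter

namespace Sc

theorem auerbach {S V : Type} [Finite S] [AddCommGroup V] [Module ℚ V] (w : S → V)
    (hw : ⊤ ≤ Submodule.span ℚ (Set.range w)) :
    ∃ (f : Fin (Module.finrank ℚ V) → S) (b : Module.Basis (Fin (Module.finrank ℚ V)) ℚ V),
      (∀ j, b j = w (f j)) ∧ ∀ s j, |b.repr (w s) j| ≤ 1 := by
  classical
  have hfd : FiniteDimensional ℚ V := by
    refine ⟨?_⟩
    rw [← eq_top_iff.mpr hw]
    exact Submodule.fg_span (Set.finite_range w)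
  obtain ⟨g, hg, hgs, hgl⟩ := Submodule.exists_fun_fin_finrank_span_eq ℚ (Set.range w)
  have htop : Submodule.span ℚ (Set.range w) = ⊤ := eq_top_iff.mpr hw
  have hfr : Module.finrank ℚ (Submodule.span ℚ (Set.range w)) = Module.finrank ℚ V := by
    rw [htop, finrank_top]
  let e := Module.finBasis ℚ V
  -- a family with non-zero determinant
  have hex : ∃ f0 : Fin (Module.finrank ℚ V) → S, e.det (fun j => w (f0 j)) ≠ 0 := by
    choose f1 hf1 using fun i => (Set.mem_range.mp (hg i))
    refine ⟨fun j => f1 (Fin.cast hfr.symm j), ?_⟩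
    have h1 : (fun j => w (f1 (Fin.cast hfr.symm j))) = g ∘ (Fin.cast hfr.symm) := by
      funext j; simp [hf1]
    rw [h1]
    have h2 : LinearIndependent ℚ (g ∘ (Fin.cast hfr.symm)) :=
      hgl.comp _ (Fin.cast_injective _)
    have h3 : Submodule.span ℚ (Set.range (g ∘ (Fin.cast hfr.symm))) = ⊤ := by
      have hsur : Function.Surjective (Fin.cast hfr.symm) := (finCongr hfr.symm).surjective
      rw [Set.range_comp, Set.range_eq_univ.mpr hsur, Set.image_univ, hgs, htop]
    exact (e.is_basis_iff_det.mp ⟨h2, h3⟩).ne_zero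
  obtain ⟨f0, hf0⟩ := hex
  have : Nonempty (Fin (Module.finrank ℚ V) → S) := ⟨f0⟩
  obtain ⟨f, hf⟩ := Finite.exists_max
    (fun f : Fin (Module.finrank ℚ V) → S => |e.det (fun j => w (f j))|)
  have hfne : e.det (fun j => w (f j)) ≠ 0 := by
    have := hf f0
    have h2 : 0 < |e.det (fun j => w (f0 j))| := abs_pos.mpr hf0
    exact abs_pos.mp (lt_of_lt_of_le h2 this)
  obtain ⟨hli, hsp⟩ := e.is_basis_iff_det.mpr (isUnit_iff_ne_zero.mpr hfne)
  refine ⟨f, Module.Basis.mk hli (le_of_eq hsp.symm), ?_, ?_⟩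
  · intro j; simp
  · intro s j
    have key := congrArg (fun L => L (w s)) (e.det_smul_mk_coord_eq_det_update hli
      (le_of_eq hsp.symm) j)
    simp only [LinearMap.smul_apply, smul_eq_mul, MultilinearMap.toLinearMap_apply,
      Module.Basis.coord_apply] at key
    have hup : Function.update (fun j => w (f j)) j (w s) =
        fun i => w (Function.update f j s i) := by
      funext i
      by_cases hij : i = j
      · subst hij; simp
      · simp [hij]
    rw [hup] at key
    have h3 := hf (Function.update f j s)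
    have h4 : |e.det (fun j => w (f j))| *
        |(Module.Basis.mk hli (le_of_eq hsp.symm)).repr (w s) j| ≤
        |e.det (fun j => w (f j))| := by
      rw [← abs_mul, key]
      exact h3
    have h5 : 0 < |e.det (fun j => w (f j))| := abs_pos.mpr hfne
    exact le_of_mul_le_mul_left (by linarith) h5

theorem mem_small {S D ι : Type} [Fintype S] [DecidableEq S] [AddCommGroup D] [Module ℚ D]
    (ev : (S → ℚ) →ₗ[ℚ] D) (g : ι → S → ℤ) (G : ℕ) (hG : ∀ i s, |g i s| ≤ (G : ℤ))
    (hgk : ∀ i, ev (fun s => (g i s : ℚ)) = 0)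
    (hker : LinearMap.ker ev ≤ Submodule.span ℚ (Set.range fun (i : ι) (s : S) => (g i s : ℚ)))
    {r : ℕ} (f : Fin r → S) (hf : Function.Injective f) (b : Module.Basis (Fin r) ℚ D)
    (hb : ∀ j, b j = ev (Pi.single (f j) 1)) (H : ℕ)
    (hH : 2 * Fintype.card S * G ≤ H) (u : S → ℤ)
    (hβ : ∀ j, |b.repr (ev fun s => (u s : ℚ)) j| ≤ (H : ℚ) / 2) :
    ∃ u' : S → ℤ, (∀ s, |u' s| ≤ (H : ℤ)) ∧ ev (fun s => (u' s : ℚ)) = ev (fun s => (u s : ℚ)) := by
  classical
  set β : Fin r → ℚ := fun j => b.repr (ev fun s => (u s : ℚ)) j with hβdef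
  set z : S → ℚ := (fun s => (u s : ℚ)) - ∑ j, β j • (Pi.single (f j) 1 : S → ℚ) with hz
  have hzk : z ∈ LinearMap.ker ev := by
    rw [LinearMap.mem_ker, hz, map_sub, map_sum]
    have : ∑ j, ev (β j • (Pi.single (f j) 1 : S → ℚ)) = ∑ j, β j • b j := by
      refine Finset.sum_congr rfl fun j _ => ?_
      rw [map_smul, hb]
    rw [this, hβdef, b.sum_repr, sub_self]
  obtain ⟨c, hcard, hsub, hsum⟩ :=
    (Submodule.mem_span_set_iff_exists_finsupp_le_finrank).mp (hker hzk)
  have hcard' : c.support.card ≤ Fintype.card S := by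
    refine hcard.trans ((Submodule.finrank_le _).trans ?_)
    rw [Module.finrank_fintype_fun_eq_card]
  have hch : ∀ v : c.support, ∃ i : ι, (fun s => (g i s : ℚ)) = v.1 := fun v => hsub v.2
  choose i hi using hch
  refine ⟨fun s => u s - ∑ v : c.support, ⌊c v.1⌋ * g (i v) s, ?_, ?_⟩
  · intro s
    have h1 : ((u s - ∑ v : c.support, ⌊c v.1⌋ * g (i v) s : ℤ) : ℚ) =
        ∑ j, β j * (Pi.single (f j) (1 : ℚ) : S → ℚ) s +
          ∑ v : c.support, Int.fract (c v.1) * (g (i v) s : ℚ) := by
      have h2 := congrFun hsum s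
      have h3 : (c.sum fun mi r => r • mi) s = ∑ v : c.support, c v.1 * (g (i v) s : ℚ) := by
        rw [Finsupp.sum, Finset.sum_apply, ← Finset.sum_coe_sort]
        refine Finset.sum_congr rfl fun v _ => ?_
        rw [Pi.smul_apply, smul_eq_mul, ← hi v]
      rw [h3, hz] at h2
      simp only [Pi.sub_apply, Finset.sum_apply, Pi.smul_apply, smul_eq_mul] at h2
      have h4 : ∑ v : c.support, Int.fract (c v.1) * (g (i v) s : ℚ) =
          ∑ v : c.support, c v.1 * (g (i v) s : ℚ) -
            ∑ v : c.support, (⌊c v.1⌋ : ℚ) * (g (i v) s : ℚ) := by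
        rw [← Finset.sum_sub_distrib]
        refine Finset.sum_congr rfl fun v _ => ?_
        rw [← sub_mul, Int.self_sub_floor]
      rw [h4, h2]
      push_cast
      ring
    have h5 : |∑ j, β j * (Pi.single (f j) (1 : ℚ) : S → ℚ) s| ≤ (H : ℚ) / 2 := by
      by_cases hs : ∃ j, f j = s
      · obtain ⟨j, rfl⟩ := hs
        rw [Finset.sum_eq_single j]
        · simpa using hβ j
        · intro j' _ hj'
          have : f j ≠ f j' := fun h => hj' (hf h).symm
          simp [this]
        · simp
      · rw [Finset.sum_eq_zero]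
        · simp only [abs_zero]; positivity
        · intro j _
          have : s ≠ f j := fun h => hs ⟨j, h.symm⟩
          simp [this]
    have h6 : |∑ v : c.support, Int.fract (c v.1) * (g (i v) s : ℚ)| ≤
        (Fintype.card S : ℚ) * G := by
      refine (Finset.abs_sum_le_sum_abs _ _).trans ?_
      have h7 : ∀ v ∈ (Finset.univ : Finset c.support),
          |Int.fract (c v.1) * (g (i v) s : ℚ)| ≤ (G : ℚ) := by
        intro v _
        rw [abs_mul, abs_of_nonneg (Int.fract_nonneg _)]
        have h8 : |(g (i v) s : ℚ)| ≤ (G : ℚ) := by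
          have := hG (i v) s
          exact_mod_cast this
        calc Int.fract (c v.1) * |(g (i v) s : ℚ)| ≤ 1 * (G : ℚ) :=
              mul_le_mul (Int.fract_lt_one _).le h8 (abs_nonneg _) zero_le_one
          _ = G := one_mul _
      refine (Finset.sum_le_sum h7).trans ?_
      rw [Finset.sum_const, nsmul_eq_mul, Finset.card_univ, Fintype.card_coe]
      have : (c.support.card : ℚ) ≤ Fintype.card S := by exact_mod_cast hcard'
      exact mul_le_mul_of_nonneg_right this (by positivity)
    have h9 : (2 : ℚ) * Fintype.card S * G ≤ H := by exact_mod_cast hH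
    have h10 : |((u s - ∑ v : c.support, ⌊c v.1⌋ * g (i v) s : ℤ) : ℚ)| ≤ (H : ℚ) := by
      rw [h1]
      refine (abs_add_le _ _).trans ?_
      linarith
    exact_mod_cast h10
  · have h1 : (fun s => ((u s - ∑ v : c.support, ⌊c v.1⌋ * g (i v) s : ℤ) : ℚ)) =
        (fun s => (u s : ℚ)) - ∑ v : c.support, (⌊c v.1⌋ : ℚ) • fun s => (g (i v) s : ℚ) := by
      funext s
      simp only [Pi.sub_apply, Finset.sum_apply, Pi.smul_apply, smul_eq_mul]
      push_cast
      ring
    rw [h1, map_sub, map_sum]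
    simp only [map_smul, hgk, smul_zero, Finset.sum_const_zero, sub_zero]

theorem abs_scale {S D ι : Type} [Fintype S] [AddCommGroup D] [Module ℚ D]
    (ev : (S → ℚ) →ₗ[ℚ] D) (hev : Function.Surjective ev) (g : ι → S → ℤ) (G : ℕ)
    (hG : ∀ i s, |g i s| ≤ (G : ℤ))
    (hgk : ∀ i, ev (fun s => (g i s : ℚ)) = 0)
    (hker : LinearMap.ker ev ≤ Submodule.span ℚ (Set.range fun (i : ι) (s : S) => (g i s : ℚ)))
    (H H' : ℕ) (hH : 2 * Fintype.card S * G ≤ H) (hpos : 0 < H) (hHH' : H ≤ H') :
    (((fun u : S → ℤ => ev (fun s => (u s : ℚ))) '' {u | ∀ s, |u s| ≤ (H' : ℤ)}).ncard : ℝ) ≤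
      (((fun u : S → ℤ => ev (fun s => (u s : ℚ))) '' {u | ∀ s, |u s| ≤ (H : ℤ)}).ncard : ℝ) *
        (7 * (Fintype.card S + 1) * H' / H) ^ (Module.finrank ℚ D) := by
  classical
  set W : ℕ → Set D := fun H => (fun u : S → ℤ => ev (fun s => (u s : ℚ))) ''
    {u | ∀ s, |u s| ≤ (H : ℤ)} with hW
  have hfin : ∀ H, (W H).Finite := by
    intro H
    apply Set.Finite.image
    have : {u : S → ℤ | ∀ s, |u s| ≤ (H : ℤ)} = Set.Icc (fun _ => -(H : ℤ)) (fun _ => (H : ℤ)) := by
      ext u
      simp only [Set.mem_ofPred_eq, Set.mem_Icc, Pi.le_def, abs_le]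
      exact ⟨fun h => ⟨fun s => (h s).1, fun s => (h s).2⟩, fun h s => ⟨h.1 s, h.2 s⟩⟩
    rw [this]
    exact Set.finite_Icc _ _
  set w : S → D := fun s => ev (Pi.single s 1) with hw
  have hspan : ⊤ ≤ Submodule.span ℚ (Set.range w) := by
    intro x _
    obtain ⟨p, rfl⟩ := hev x
    have : p = ∑ s, p s • (Pi.single s 1 : S → ℚ) := by
      funext t
      simp [Pi.single_apply]
    rw [this, map_sum]
    refine Submodule.sum_mem _ fun s _ => ?_
    rw [map_smul]
    exact Submodule.smul_mem _ _ (Submodule.subset_span ⟨s, rfl⟩)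
  obtain ⟨f, b, hb, hrep⟩ := auerbach w hspan
  have hfinj : Function.Injective f := by
    intro j j' h
    apply b.injective
    rw [hb, hb, h]
  -- coordinates of values
  have hcoord : ∀ (H : ℕ) (x : D), x ∈ W H → ∀ j, |b.repr x j| ≤ (Fintype.card S : ℚ) * H := by
    rintro H x ⟨u, hu, rfl⟩ j
    have h1 : (fun s => (u s : ℚ)) = ∑ s, (u s : ℚ) • (Pi.single s 1 : S → ℚ) := by
      funext t
      simp [Pi.single_apply]
    have h2 : b.repr (ev (fun s => (u s : ℚ))) j = ∑ s, (u s : ℚ) * b.repr (w s) j := by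
      rw [h1, map_sum, map_sum, Finsupp.finsetSum_apply]
      refine Finset.sum_congr rfl fun s _ => ?_
      rw [map_smul, map_smul, Finsupp.smul_apply, smul_eq_mul]
    simp only
    rw [h2]
    refine (Finset.abs_sum_le_sum_abs _ _).trans ?_
    have h3 : ∀ s ∈ (Finset.univ : Finset S), |(u s : ℚ) * b.repr (w s) j| ≤ (H : ℚ) := by
      intro s _
      rw [abs_mul]
      have h4 : |(u s : ℚ)| ≤ (H : ℚ) := by
        have := hu s
        exact_mod_cast this
      calc |(u s : ℚ)| * |b.repr (w s) j| ≤ (H : ℚ) * 1 :=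
            mul_le_mul h4 (hrep s j) (abs_nonneg _) (by positivity)
        _ = H := mul_one _
    refine (Finset.sum_le_sum h3).trans ?_
    rw [Finset.sum_const, nsmul_eq_mul, Finset.card_univ]
  have hHq : (0 : ℚ) < H := by exact_mod_cast hpos
  set B : ℕ := 2 * Fintype.card S * H' / H + 1 with hB
  set cell : D → Fin (Module.finrank ℚ D) → ℤ := fun x j => ⌊b.repr x j * (2 / H)⌋ with hcell
  set T : Finset (Fin (Module.finrank ℚ D) → ℤ) := Fintype.piFinset fun _ => Finset.Icc (-(B : ℤ)) B with hT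
  have hmaps : ∀ x ∈ (hfin H').toFinset, cell x ∈ T := by
    intro x hx
    rw [Set.Finite.mem_toFinset] at hx
    rw [hT, Fintype.mem_piFinset]
    intro j
    have h1 := hcoord H' x hx j
    have h2 : |b.repr x j * (2 / (H : ℚ))| ≤ B := by
      rw [abs_mul, abs_of_pos (by positivity : (0 : ℚ) < 2 / H)]
      have h3 : |b.repr x j| * (2 / (H : ℚ)) ≤ (Fintype.card S : ℚ) * H' * (2 / H) :=
        mul_le_mul_of_nonneg_right h1 (by positivity)
      have h4 : (2 * Fintype.card S * H' : ℕ) < B * H := by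
        rw [hB, add_mul, one_mul]
        have := Nat.div_add_mod (2 * Fintype.card S * H') H
        have h5 := Nat.mod_lt (2 * Fintype.card S * H') hpos
        nlinarith [Nat.mul_comm H (2 * Fintype.card S * H' / H)]
      have h5 : (2 * Fintype.card S * H' : ℚ) < B * H := by exact_mod_cast h4
      have h6 : (Fintype.card S : ℚ) * H' * (2 / H) = (2 * Fintype.card S * H') / H := by ring
      rw [h6] at h3
      refine h3.trans ?_
      rw [div_le_iff₀ hHq]
      exact h5.le
    rw [abs_le] at h2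
    rw [Finset.mem_Icc]
    constructor
    · apply Int.le_floor.mpr
      push_cast
      exact h2.1
    · apply Int.cast_le (R := ℚ).mp
      refine (Int.floor_le _).trans ?_
      push_cast
      exact h2.2
  have hfib : ∀ t ∈ T, ((hfin H').toFinset.filter fun x => cell x = t).card ≤ (W H).ncard := by
    intro t _
    rcases ((hfin H').toFinset.filter fun x => cell x = t).eq_empty_or_nonempty with h0 | ⟨x0, hx0⟩
    · rw [h0]; simp
    · rw [← Set.ncard_coe_finset]
      rw [Finset.mem_filter, Set.Finite.mem_toFinset] at hx0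
      obtain ⟨⟨u0, hu0, hx0u⟩, hc0⟩ := hx0
      refine Set.ncard_le_ncard_of_injOn (fun x => x - x0) ?_ ?_ (hfin H)
      · intro x hx
        rw [Finset.mem_coe, Finset.mem_filter, Set.Finite.mem_toFinset] at hx
        obtain ⟨⟨u, hu, hxu⟩, hc⟩ := hx
        have hdiff : x - x0 = ev (fun s => ((u s - u0 s : ℤ) : ℚ)) := by
          rw [← hxu, ← hx0u]
          simp only
          rw [← map_sub]
          congr 1
          funext s
          simp
        have hβ : ∀ j, |b.repr (ev fun s => ((u s - u0 s : ℤ) : ℚ)) j| ≤ (H : ℚ) / 2 := by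
          intro j
          rw [← hdiff, map_sub, Finsupp.sub_apply]
          have h1 : cell x j = cell x0 j := by rw [hc, hc0]
          simp only [hcell] at h1
          have h2 := Int.abs_sub_lt_one_of_floor_eq_floor h1
          rw [← sub_mul, abs_mul, abs_of_pos (by positivity : (0 : ℚ) < 2 / H)] at h2
          have h3 : |b.repr x j - b.repr x0 j| * 2 < H := by
            have := (lt_div_iff₀ (by positivity : (0 : ℚ) < 2 / H)).mpr h2
            rw [one_div_div] at this
            linarith
          linarith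
        obtain ⟨u', hu', heq⟩ := mem_small ev g G hG hgk hker f hfinj b hb H hH
          (fun s => u s - u0 s) hβ
        refine ⟨u', hu', ?_⟩
        simp only
        rw [heq, ← hdiff]
      · intro x _ y _ hxy
        simpa using hxy
  have hcount := Finset.card_le_mul_card_image_of_maps_to hmaps _ hfib
  have hTc : T.card = (2 * B + 1) ^ (Module.finrank ℚ D) := by
    rw [hT, Fintype.card_piFinset_const, Int.card_Icc]
    congr 1
    omega
  rw [hTc, ← Set.ncard_eq_toFinset_card (W H') (hfin H')] at hcount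
  have h1 : ((W H').ncard : ℝ) ≤ (W H).ncard * ((2 * B + 1 : ℕ) : ℝ) ^ (Module.finrank ℚ D) := by exact_mod_cast hcount
  refine h1.trans ?_
  apply mul_le_mul_of_nonneg_left _ (by positivity)
  apply pow_le_pow_left₀ (by positivity)
  have hHr : (0 : ℝ) < H := by exact_mod_cast hpos
  have h2 : (1 : ℝ) ≤ (H' : ℝ) / H := by
    rw [le_div_iff₀ hHr, one_mul]; exact_mod_cast hHH'
  have h3 : ((2 * Fintype.card S * H' / H : ℕ) : ℝ) ≤ (2 * Fintype.card S * H' : ℝ) / H := by
    refine Nat.cast_div_le.trans ?_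
    push_cast
    exact le_rfl
  have h4 : (2 * Fintype.card S * H' : ℝ) / H = 2 * Fintype.card S * ((H' : ℝ) / H) := by ring
  have h5 : (7 * ((Fintype.card S : ℝ) + 1) * H' / H) =
      7 * ((Fintype.card S : ℝ) + 1) * ((H' : ℝ) / H) := by ring
  rw [h5, hB]
  push_cast
  rw [h4] at h3
  have h6 : (0 : ℝ) ≤ Fintype.card S := by positivity
  have h7 : (0 : ℝ) ≤ (Fintype.card S : ℝ) * ((H' : ℝ) / H) := by positivity
  nlinarith


/-- Monomials of degree `k`. -/
abbrev Mon (J : Type) (k : ℕ) : Type := {v : J →₀ ℕ // v.degree = k}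

theorem mon_inj (J : Type) (k : ℕ) : Function.Injective
    (fun (v : Mon J k) (j : J) => (⟨v.1 j, Nat.lt_succ_of_le
      ((Finsupp.le_degree j v.1).trans (le_of_eq v.2))⟩ : Fin (k + 1))) := by
  intro v w h
  apply Subtype.ext
  ext j
  have := congrFun h j
  simpa using this

instance mon_finite (J : Type) [Finite J] (k : ℕ) : Finite (Mon J k) :=
  Finite.of_injective _ (mon_inj J k)

theorem mon_card (J : Type) [Fintype J] (k : ℕ) [Fintype (Mon J k)] :
    Fintype.card (Mon J k) ≤ (k + 1) ^ Fintype.card J := by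
  classical
  have := Fintype.card_le_of_injective _ (mon_inj J k)
  simpa using this

/-- The form with given coefficients. -/
noncomputable def toPoly {J : Type} {k : ℕ} [Fintype (Mon J k)] {R : Type} [CommSemiring R]
    (u : Mon J k → R) : MvPolynomial J R := ∑ s, monomial s.1 (u s)

theorem coeff_toPoly {J : Type} {k : ℕ} [Fintype (Mon J k)] {R : Type} [CommSemiring R]
    (u : Mon J k → R) (s : Mon J k) : coeff s.1 (toPoly u) = u s := by
  classical
  rw [toPoly, coeff_sum, Finset.sum_eq_single s]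
  · simp
  · intro t _ hts
    rw [coeff_monomial, if_neg]
    exact fun h => hts (Subtype.ext h)
  · simp

theorem toPoly_hom {J : Type} {k : ℕ} [Fintype (Mon J k)] {R : Type} [CommSemiring R]
    (u : Mon J k → R) : (toPoly u).IsHomogeneous k := by
  rw [toPoly]
  apply IsHomogeneous.sum
  intro s _
  exact isHomogeneous_monomial _ s.2

theorem toPoly_coeff {J : Type} {k : ℕ} [Fintype (Mon J k)] {R : Type} [CommSemiring R]
    (p : MvPolynomial J R) (hp : p.IsHomogeneous k) :
    toPoly (fun s : Mon J k => coeff s.1 p) = p := by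
  ext v
  by_cases hv : v.degree = k
  · exact coeff_toPoly _ ⟨v, hv⟩
  · rw [(toPoly_hom _).coeff_eq_zero hv, hp.coeff_eq_zero hv]

/-- The evaluation as a linear map onto the values of rational forms. -/
noncomputable def evk {J D : Type} [CommRing D] [Algebra ℚ D] (y : J → D) (k : ℕ)
    [Fintype (Mon J k)] : (Mon J k → ℚ) →ₗ[ℚ] hspan y k where
  toFun p := ⟨aeval y (toPoly p), ⟨toPoly p, toPoly_hom p, rfl⟩⟩
  map_add' p q := by
    apply Subtype.ext
    simp only [toPoly, Pi.add_apply, map_add, Finset.sum_add_distrib, Submodule.coe_add]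
  map_smul' c p := by
    apply Subtype.ext
    simp only [toPoly, Pi.smul_apply, RingHom.id_apply, Submodule.coe_smul, map_sum,
      Finset.smul_sum]
    refine Finset.sum_congr rfl fun s _ => ?_
    rw [← map_smul, ← smul_monomial]

theorem evk_surj {J D : Type} [CommRing D] [Algebra ℚ D] (y : J → D) (k : ℕ)
    [Fintype (Mon J k)] : Function.Surjective (evk y k) := by
  rintro ⟨x, p, hp, rfl⟩
  refine ⟨fun s => coeff s.1 p, ?_⟩
  apply Subtype.ext
  change aeval y (toPoly _) = aeval y p
  rw [toPoly_coeff p hp]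

theorem evk_int {J D : Type} [CommRing D] [Algebra ℚ D] (y : J → D) (k : ℕ)
    [Fintype (Mon J k)] (u : Mon J k → ℤ) :
    (evk y k (fun s => (u s : ℚ)) : D) = aeval y (toPoly u) := by
  change aeval y (toPoly _) = _
  simp only [toPoly, map_sum, aeval_monomial]
  refine Finset.sum_congr rfl fun s _ => ?_
  simp

theorem cnt_eq {J D : Type} [CommRing D] [Algebra ℚ D] (y : J → D) (k H : ℕ)
    [Fintype (Mon J k)] :
    cnt y k H = ((fun u : Mon J k → ℤ => evk y k (fun s => (u s : ℚ))) ''
      {u | ∀ s, |u s| ≤ (H : ℤ)}).ncard := by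
  rw [cnt, ← Set.ncard_image_of_injective _ (Subtype.val_injective (p := fun x => x ∈ hspan y k)),
    Set.image_image]
  congr 1
  ext x
  constructor
  · rintro ⟨p, ⟨hp, hc⟩, rfl⟩
    refine ⟨fun s => coeff s.1 p, fun s => hc _, ?_⟩
    simp only
    rw [evk_int, toPoly_coeff p hp]
  · rintro ⟨u, hu, rfl⟩
    refine ⟨toPoly u, ⟨toPoly_hom u, ?_⟩, ?_⟩
    · intro v
      by_cases hv : v.degree = k
      · rw [show v = (⟨v, hv⟩ : Mon J k).1 from rfl, coeff_toPoly]
        exact hu _
      · rw [(toPoly_hom _).coeff_eq_zero hv]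
        simp
    · simp only
      rw [evk_int]

/-- Integral multiple of a rational polynomial. -/
theorem exists_int_mul {J : Type} (p : MvPolynomial J ℚ) :
    ∃ (N : ℤ) (q : MvPolynomial J ℤ), N ≠ 0 ∧
      MvPolynomial.map (Int.castRingHom ℚ) q = (N : ℚ) • p := by
  classical
  obtain ⟨b, hb⟩ := IsLocalization.exist_integer_multiples_of_finset (nonZeroDivisors ℤ)
    (p.support.image fun v => coeff v p)
  have h1 : ∀ v : J →₀ ℕ, ∃ n : ℤ, (n : ℚ) = (b : ℤ) * coeff v p ∧ (v ∉ p.support → n = 0) := by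
    intro v
    by_cases hv : v ∈ p.support
    · obtain ⟨n, hn⟩ := hb (coeff v p) (Finset.mem_image_of_mem _ hv)
      refine ⟨n, ?_, fun h => absurd hv h⟩
      simpa using hn
    · refine ⟨0, ?_, fun _ => rfl⟩
      rw [notMem_support_iff.mp hv]
      simp
  choose n hn hn0 using h1
  refine ⟨b, ∑ v ∈ p.support, monomial v (n v), nonZeroDivisors.coe_ne_zero b, ?_⟩
  ext v
  rw [coeff_map, coeff_smul, coeff_sum]
  simp only [coeff_monomial, Finset.sum_ite_eq']
  by_cases hv : v ∈ p.support
  · rw [if_pos hv]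
    simp [hn]
  · rw [if_neg hv, notMem_support_iff.mp hv]
    simp

/-- Bounded integral generators of the kernels in all degrees. -/
theorem exists_gen {J D : Type} [Finite J] [CommRing D] [Algebra ℚ D] (y : J → D) :
    ∃ G : ℕ, ∀ (k : ℕ) [Fintype (Mon J k)], ∃ (ι : Type) (g : ι → Mon J k → ℤ),
      (∀ i s, |g i s| ≤ (G : ℤ)) ∧ (∀ i, evk y k (fun s => (g i s : ℚ)) = 0) ∧
      LinearMap.ker (evk y k) ≤
        Submodule.span ℚ (Set.range fun (i : ι) (s : Mon J k) => (g i s : ℚ)) := by
  classical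
  set A : Set (MvPolynomial J ℚ) := {p | ∃ d, p.IsHomogeneous d ∧ aeval y p = 0} with hA
  obtain ⟨s', hs', hspan⟩ := (Submodule.fg_span_iff_fg_span_finset_subset
    (R := MvPolynomial J ℚ) A).mp (IsNoetherian.noetherian _)
  have hdeg : ∀ p : s', ∃ d, p.1.IsHomogeneous d ∧ aeval y p.1 = 0 := fun p => hs' p.2
  choose d hd hd0 using hdeg
  have hint : ∀ p : s', ∃ (N : ℤ) (q : MvPolynomial J ℤ), N ≠ 0 ∧
      MvPolynomial.map (Int.castRingHom ℚ) q = (N : ℚ) • p.1 := fun p => exists_int_mul p.1
  choose N q hN hq using hint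
  refine ⟨∑ p : s', ∑ v ∈ (q p).support, (coeff v (q p)).natAbs, ?_⟩
  intro k _
  refine ⟨{x : s' × (J →₀ ℕ) // x.2.degree + d x.1 = k},
    fun x s => coeff s.1 (monomial x.1.2 1 * q x.1.1), ?_, ?_, ?_⟩
  · intro x s
    simp only
    rw [coeff_monomial_mul']
    split_ifs with h
    · rw [one_mul]
      have h1 : ∀ v, (coeff v (q x.1.1)).natAbs ≤
          ∑ p : s', ∑ v ∈ (q p).support, (coeff v (q p)).natAbs := by
        intro v
        by_cases hv : v ∈ (q x.1.1).support
        · refine (Finset.single_le_sum (f := fun v => (coeff v (q x.1.1)).natAbs)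
            (fun _ _ => Nat.zero_le _) hv).trans ?_
          exact Finset.single_le_sum
            (f := fun p : s' => ∑ v ∈ (q p).support, (coeff v (q p)).natAbs)
            (fun _ _ => Nat.zero_le _) (Finset.mem_univ x.1.1)
        · rw [notMem_support_iff.mp hv]
          simp
      rw [Int.abs_eq_natAbs]
      exact_mod_cast h1 _
    · rw [abs_zero]
      exact Int.natCast_nonneg _
  · intro x
    have hqhom : (q x.1.1).IsHomogeneous (d x.1.1) := by
      apply IsHomogeneous.of_map (f := Int.castRingHom ℚ) (RingHom.injective_int _)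
      rw [hq, ← C_mul']
      exact (hd x.1.1).C_mul _
    have hhom : (monomial x.1.2 1 * q x.1.1).IsHomogeneous k := by
      have h1 := (isHomogeneous_monomial (1 : ℤ) (rfl : x.1.2.degree = x.1.2.degree)).mul hqhom
      have h2 : x.1.2.degree + d x.1.1 = k := x.2
      intro v hv
      rw [← h2]
      exact h1 hv
    apply Subtype.ext
    rw [evk_int, toPoly_coeff _ hhom, map_mul]
    have : aeval y (q x.1.1) = (0 : D) := by
      have h1 : aeval y (q x.1.1) = aeval y (MvPolynomial.map (Int.castRingHom ℚ) (q x.1.1)) := by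
        simp only [aeval_def, eval₂_map]
        congr 1
        exact RingHom.ext_int _ _
      rw [h1, hq, map_smul, hd0, smul_zero]
    rw [this, mul_zero]
    rfl
  · intro z hz
    rw [LinearMap.mem_ker] at hz
    have hz1 : aeval y (toPoly z) = 0 := congrArg Subtype.val hz
    have hz2 : toPoly z ∈ Submodule.span (MvPolynomial J ℚ) A :=
      Submodule.subset_span ⟨k, toPoly_hom z, hz1⟩
    rw [hspan, Submodule.mem_span_finset] at hz2
    obtain ⟨h, _, hsum⟩ := hz2
    have key : ∀ (p : s') (f : MvPolynomial J ℚ), (fun s : Mon J k => coeff s.1 (f * p.1)) ∈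
        Submodule.span ℚ (Set.range fun (i : {x : s' × (J →₀ ℕ) // x.2.degree + d x.1 = k})
          (s : Mon J k) => ((coeff s.1 (monomial i.1.2 1 * q i.1.1) : ℤ) : ℚ)) := by
      intro p f
      induction f using MvPolynomial.induction_on' with
      | monomial t c =>
        by_cases htk : t.degree + d p = k
        · have h1 : (fun s : Mon J k => coeff s.1 (monomial t c * p.1)) =
              (c * (N p : ℚ)⁻¹) • fun s : Mon J k =>
                ((coeff s.1 (monomial t 1 * q p) : ℤ) : ℚ) := by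
            funext s
            have h2 : ((coeff s.1 (monomial t 1 * q p) : ℤ) : ℚ) =
                coeff s.1 (monomial t 1 * ((N p : ℚ) • p.1)) := by
              rw [← hq p]
              have h5 := coeff_map (Int.castRingHom ℚ) (monomial t 1 * q p) s.1
              rw [map_mul, map_monomial, map_one] at h5
              exact h5.symm
            simp only [Pi.smul_apply, smul_eq_mul]
            rw [h2, mul_smul_comm, coeff_smul, smul_eq_mul]
            have h3 : (monomial t c : MvPolynomial J ℚ) = c • monomial t 1 := by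
              rw [smul_monomial, smul_eq_mul, mul_one]
            rw [h3, smul_mul_assoc, coeff_smul, smul_eq_mul]
            have h4 : (N p : ℚ) ≠ 0 := by exact_mod_cast hN p
            field_simp
          rw [h1]
          exact Submodule.smul_mem _ _ (Submodule.subset_span ⟨⟨(p, t), htk⟩, rfl⟩)
        · have h1 : (fun s : Mon J k => coeff s.1 (monomial t c * p.1)) = 0 := by
            funext s
            have h2 : (monomial t c * p.1).IsHomogeneous (t.degree + d p) :=
              (isHomogeneous_monomial _ rfl).mul (hd p)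
            exact h2.coeff_eq_zero (fun h => htk (h.symm.trans s.2))
          rw [h1]
          exact Submodule.zero_mem _
      | add a b ha hb =>
        have h1 : (fun s : Mon J k => coeff s.1 ((a + b) * p.1)) =
            (fun s : Mon J k => coeff s.1 (a * p.1)) + fun s : Mon J k => coeff s.1 (b * p.1) := by
          funext s
          simp [add_mul]
        rw [h1]
        exact Submodule.add_mem _ ha hb
    have h1 : z = ∑ p ∈ s'.attach, fun s : Mon J k => coeff s.1 (h p.1 * p.1) := by
      funext s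
      rw [← coeff_toPoly z s, ← hsum, coeff_sum, Finset.sum_apply, ← Finset.sum_attach]
      simp only [smul_eq_mul]
    rw [h1]
    exact Submodule.sum_mem _ fun p _ => key p _


end Sc

theorem scale {J D : Type} [Finite J] [CommRing D] [Algebra ℚ D] (y : J → D) :
    ∃ C : ℕ, 0 < C ∧ ∀ k H H' : ℕ, C * (k + 1) ^ C ≤ H → H ≤ H' →
      Real.log (cnt y k H') ≤
        Real.log (cnt y k H) + rk y k * Real.log ((C : ℝ) * ((k : ℝ) + 1) ^ C * H' / H) := by
  classical
  have := Fintype.ofFinite J
  obtain ⟨G, hG⟩ := Sc.exists_gen y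
  refine ⟨14 * (G + 1) + Fintype.card J, by omega, ?_⟩
  intro k H H' hH hHH'
  have := Fintype.ofFinite (Sc.Mon J k)
  set C := 14 * (G + 1) + Fintype.card J with hC
  obtain ⟨ι, g, hg1, hg2, hg3⟩ := hG k
  have hcard := Sc.mon_card J k
  have hpow : (k + 1) ^ Fintype.card J ≤ (k + 1) ^ C :=
    Nat.pow_le_pow_right (Nat.succ_pos k) (by omega)
  have hpow1 : 1 ≤ (k + 1) ^ C := Nat.one_le_pow _ _ (Nat.succ_pos k)
  have hcard' : Fintype.card (Sc.Mon J k) ≤ (k + 1) ^ C := hcard.trans hpow
  have h1 : 2 * Fintype.card (Sc.Mon J k) * G ≤ H := by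
    refine le_trans ?_ hH
    have : 2 * G ≤ C := by omega
    calc 2 * Fintype.card (Sc.Mon J k) * G = 2 * G * Fintype.card (Sc.Mon J k) := by ring
      _ ≤ C * (k + 1) ^ C := Nat.mul_le_mul this hcard'
  have h2 : 0 < H := by
    refine lt_of_lt_of_le ?_ hH
    have : 0 < C := by omega
    positivity
  have h3 := Sc.abs_scale (Sc.evk y k) (Sc.evk_surj y k) g G hg1 hg2 hg3 H H' h1 h2 hHH'
  rw [← Sc.cnt_eq, ← Sc.cnt_eq] at h3
  have hHr : (0 : ℝ) < H := by exact_mod_cast h2
  have hq1 : (1 : ℝ) ≤ (H' : ℝ) / H := by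
    rw [le_div_iff₀ hHr, one_mul]; exact_mod_cast hHH'
  have h4 : (7 * ((Fintype.card (Sc.Mon J k) : ℝ) + 1) * H' / H) ≤
      (C : ℝ) * ((k : ℝ) + 1) ^ C * H' / H := by
    rw [mul_div_assoc, mul_div_assoc]
    apply mul_le_mul_of_nonneg_right _ (by linarith)
    have h5 : 7 * (Fintype.card (Sc.Mon J k) + 1) ≤ C * (k + 1) ^ C := by
      have : 14 ≤ C := by omega
      calc 7 * (Fintype.card (Sc.Mon J k) + 1) ≤ 7 * ((k + 1) ^ C + (k + 1) ^ C) := by omega
        _ = 14 * (k + 1) ^ C := by ring
        _ ≤ C * (k + 1) ^ C := Nat.mul_le_mul_right _ this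
    exact_mod_cast h5
  have h6 : (1 : ℝ) ≤ 7 * ((Fintype.card (Sc.Mon J k) : ℝ) + 1) * H' / H := by
    rw [mul_div_assoc]
    have : (1 : ℝ) ≤ 7 * ((Fintype.card (Sc.Mon J k) : ℝ) + 1) := by
      have : (0 : ℝ) ≤ Fintype.card (Sc.Mon J k) := by positivity
      linarith
    nlinarith
  have h7 : (1 : ℝ) ≤ (C : ℝ) * ((k : ℝ) + 1) ^ C * H' / H := h6.trans h4
  have h8 : 0 ≤ (rk y k : ℝ) * Real.log ((C : ℝ) * ((k : ℝ) + 1) ^ C * H' / H) :=
    mul_nonneg (by positivity) (Real.log_nonneg h7)
  rcases Nat.eq_zero_or_pos (cnt y k H') with h0 | hpos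
  · rw [h0]
    simp only [Nat.cast_zero, Real.log_zero]
    exact add_nonneg (Real.log_natCast_nonneg _) h8
  · have hposr : (0 : ℝ) < cnt y k H' := by exact_mod_cast hpos
    have h9 : (cnt y k H : ℝ) ≠ 0 := by
      intro h
      rw [h, zero_mul] at h3
      linarith
    refine (Real.log_le_log hposr h3).trans ?_
    rw [Real.log_mul h9 (by positivity), Real.log_pow]
    have h10 : Real.log (7 * ((Fintype.card (Sc.Mon J k) : ℝ) + 1) * H' / H) ≤
        Real.log ((C : ℝ) * ((k : ℝ) + 1) ^ C * H' / H) :=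
      Real.log_le_log (by linarith) h4
    have h11 : (Module.finrank ℚ (hspan y k) : ℝ) = rk y k := rfl
    rw [h11]
    have := mul_le_mul_of_nonneg_left h10 (by positivity : (0 : ℝ) ≤ rk y k)
    linarith


end Pool.Agent.W_MP_78a2de_al
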