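import Pool.Agent.W_MP_78a2de_al.Defs
import Pool.Agent.W_MP_78a2de_al.Count
import Pool.Agent.W_MP_78a2de_al.Scale

/-!
The step: dividing by one more form (growth of the counting function and of the rank).
-/

namespace Pool.Agent.W_MP_78a2de_al

open MvPolynomial Filter

namespace StepAux

/-! ### Iterated sums -/

theorem Sg_mono {a : ℕ} {f g : ℕ → ℝ} : ∀ {N : ℕ}, (∀ k ≤ N, f k ≤ g k) → Sg a f N ≤ Sg a g N := by
  induction a with
  | zero => intro N h; exact h N le_rfl
  | succ a ih =>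
    intro N h
    simp only [Sg]
    apply Finset.sum_le_sum
    intro n hn
    apply ih
    intro k hk
    exact h k (by have := Finset.mem_range.1 hn; omega)

theorem Sg_zero (a N : ℕ) : Sg a (fun _ => 0) N = 0 := by
  induction a generalizing N with
  | zero => rfl
  | succ a ih => simp [Sg, ih]

theorem Sg_nonneg {a : ℕ} {f : ℕ → ℝ} {N : ℕ} (h : ∀ k ≤ N, 0 ≤ f k) : 0 ≤ Sg a f N := by
  have := Sg_mono (a := a) h
  rwa [Sg_zero] at this

theorem Sg_add (a : ℕ) (f g : ℕ → ℝ) (N : ℕ) :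
    Sg a (fun k => f k + g k) N = Sg a f N + Sg a g N := by
  induction a generalizing N with
  | zero => rfl
  | succ a ih => simp [Sg, ih, Finset.sum_add_distrib]

theorem Sg_mul (a : ℕ) (c : ℝ) (f : ℕ → ℝ) (N : ℕ) :
    Sg a (fun k => c * f k) N = c * Sg a f N := by
  induction a generalizing N with
  | zero => rfl
  | succ a ih => simp [Sg, ih, Finset.mul_sum]

theorem Sg_sub (a : ℕ) (f g : ℕ → ℝ) (N : ℕ) :
    Sg a (fun k => f k - g k) N = Sg a f N - Sg a g N := by
  induction a generalizing N with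
  | zero => rfl
  | succ a ih => simp [Sg, ih, Finset.sum_sub_distrib]

theorem Sg_succ (a : ℕ) (f : ℕ → ℝ) (N : ℕ) :
    Sg (a + 1) f N = ∑ n ∈ Finset.range (N + 1), Sg a f n := rfl

/-- Shift to the right by `L`. -/
def shiftL (L : ℕ) (f : ℕ → ℝ) (k : ℕ) : ℝ := if k < L then 0 else f (k - L)

theorem sum_shift (L : ℕ) (g : ℕ → ℝ) (N : ℕ) :
    ∑ n ∈ Finset.range (N + L), (if n < L then 0 else g (n - L)) = ∑ n ∈ Finset.range N, g n := by
  induction N with
  | zero =>
    rw [Finset.range_zero, Finset.sum_empty, zero_add]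
    apply Finset.sum_eq_zero
    intro n hn
    rw [if_pos (Finset.mem_range.1 hn)]
  | succ N ih =>
    rw [show N + 1 + L = N + L + 1 by ring, Finset.sum_range_succ, ih, Finset.sum_range_succ,
      if_neg (by omega), Nat.add_sub_cancel]

theorem Sg_shift (a L : ℕ) (f : ℕ → ℝ) (N : ℕ) :
    Sg a (shiftL L f) N = if N < L then 0 else Sg a f (N - L) := by
  induction a generalizing N with
  | zero => rfl
  | succ a ih =>
    rw [Sg_succ]
    simp only [ih]
    split_ifs with h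
    · apply Finset.sum_eq_zero
      intro n hn
      rw [if_pos (by have := Finset.mem_range.1 hn; omega)]
    · have : N + 1 = (N - L + 1) + L := by omega
      rw [this, sum_shift, Sg_succ]

theorem Sg_window {a L N : ℕ} (hL : L ≤ N) (f : ℕ → ℝ) {M : ℝ}
    (h : ∀ n, N < n + L → n ≤ N → Sg a f n ≤ M) :
    Sg (a + 1) f N - Sg (a + 1) f (N - L) ≤ L * M := by
  rw [Sg_succ, Sg_succ]
  have : N + 1 = (N - L + 1) + L := by omega
  rw [this, Finset.sum_range_add, add_sub_cancel_left]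
  calc ∑ x ∈ Finset.range L, Sg a f (N - L + 1 + x) ≤ ∑ _x ∈ Finset.range L, M := by
        apply Finset.sum_le_sum
        intro x hx
        have := Finset.mem_range.1 hx
        exact h _ (by omega) (by omega)
    _ = L * M := by simp

/-! ### Asymptotics -/

theorem pow_sum_le (m N : ℕ) : ((m : ℝ) + 1) * ∑ n ∈ Finset.range (N + 1), (n : ℝ) ^ m
    ≤ ((N : ℝ) + 1) ^ (m + 1) := by
  induction N with
  | zero =>
    rcases Nat.eq_zero_or_pos m with rfl | hm
    · simp
    · simp [zero_pow hm.ne']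
  | succ N ih =>
    rw [Finset.sum_range_succ, mul_add]
    have h1 : ((m : ℝ) + 1) * ((N + 1 : ℕ) : ℝ) ^ m + ((N + 1 : ℕ) : ℝ) ^ (m + 1) ≤
        (((N + 1 : ℕ) : ℝ) + 1) ^ (m + 1) := by
      have h2 := one_add_mul_le_pow (a := (1 : ℝ) / ((N + 1 : ℕ) : ℝ)) (by
        have : (0 : ℝ) ≤ 1 / ((N + 1 : ℕ) : ℝ) := by positivity
        linarith) (m + 1)
      have hpos : (0 : ℝ) < ((N + 1 : ℕ) : ℝ) := by positivity
      have h3 : (((N + 1 : ℕ) : ℝ) + 1) ^ (m + 1) =
          (1 + 1 / ((N + 1 : ℕ) : ℝ)) ^ (m + 1) * ((N + 1 : ℕ) : ℝ) ^ (m + 1) := by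
        rw [← mul_pow]
        congr 1
        field_simp
      have h4 : ((m : ℝ) + 1) * ((N + 1 : ℕ) : ℝ) ^ m + ((N + 1 : ℕ) : ℝ) ^ (m + 1) =
          (1 + ((m + 1 : ℕ) : ℝ) * (1 / ((N + 1 : ℕ) : ℝ))) * ((N + 1 : ℕ) : ℝ) ^ (m + 1) := by
        rw [pow_succ]
        field_simp
        push_cast
        ring
      rw [h3, h4]
      exact mul_le_mul_of_nonneg_right h2 (by positivity)
    push_cast at ih h1 ⊢
    linarith

theorem tendsto_ratio (k : ℕ) :
    Tendsto (fun N : ℕ => (((N : ℝ) + 1) ^ k) / (N : ℝ) ^ k) atTop (nhds 1) := by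
  have h1 : Tendsto (fun N : ℕ => (1 + 1 / (N : ℝ)) ^ k) atTop (nhds ((1 + 0) ^ k)) :=
    (tendsto_const_nhds.add tendsto_one_div_atTop_nhds_zero_nat).pow k
  rw [add_zero, one_pow] at h1
  refine h1.congr' ?_
  filter_upwards [eventually_gt_atTop 0] with N hN
  have : (0 : ℝ) < N := by exact_mod_cast hN
  rw [← div_pow]
  congr 1
  field_simp

/-- Partial sums of a function of growth `B n^m/m!`. -/
theorem sum_growth {f : ℕ → ℝ} {B : ℝ} {m : ℕ} (hf : ∀ n, 0 ≤ f n)
    (h : ∀ δ : ℝ, 0 < δ → ∀ᶠ n : ℕ in atTop, f n ≤ (B + δ) * (n : ℝ) ^ m / m.factorial)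
    (δ : ℝ) (hδ : 0 < δ) :
    ∀ᶠ N : ℕ in atTop, ∑ n ∈ Finset.range (N + 1), f n
      ≤ (B + δ) * (N : ℝ) ^ (m + 1) / (m + 1).factorial := by
  have hδ4 : 0 < δ / 4 := by linarith
  obtain ⟨N₀, hN₀⟩ := eventually_atTop.1 (h (δ / 4) hδ4)
  have hB : 0 ≤ B + δ / 4 := by
    have h1 := hN₀ (N₀ + 1) (by omega)
    have h2 := (hf (N₀ + 1)).trans h1
    by_contra hneg
    push Not at hneg
    have h3 : (0 : ℝ) < ((N₀ + 1 : ℕ) : ℝ) ^ m / m.factorial := by positivity
    have h4 : (B + δ / 4) * ((N₀ + 1 : ℕ) : ℝ) ^ m / m.factorial < 0 := by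
      rw [mul_div_assoc]
      exact mul_neg_of_neg_of_pos hneg h3
    linarith
  set K := ∑ n ∈ Finset.range N₀, f n with hK
  have hK0 : 0 ≤ K := Finset.sum_nonneg fun n _ => hf n
  have hbound : ∀ N : ℕ, ∑ n ∈ Finset.range (N + 1), f n ≤
      K + (B + δ / 4) * ((N : ℝ) + 1) ^ (m + 1) / (m + 1).factorial := by
    intro N
    have h1 : ∀ n ∈ Finset.range (N + 1), f n ≤
        (if n < N₀ then f n else 0) + (B + δ / 4) * (n : ℝ) ^ m / m.factorial := by
      intro n _
      split_ifs with hn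
      · have : 0 ≤ (B + δ / 4) * (n : ℝ) ^ m / m.factorial := by positivity
        linarith
      · rw [zero_add]
        exact hN₀ n (by omega)
    refine (Finset.sum_le_sum h1).trans ?_
    rw [Finset.sum_add_distrib]
    apply add_le_add
    · rw [← Finset.sum_filter, hK]
      apply Finset.sum_le_sum_of_subset_of_nonneg
      · intro n hn
        exact Finset.mem_range.2 (Finset.mem_filter.1 hn).2
      · intro n _ _
        exact hf n
    · have h2 := pow_sum_le m N
      have h3 : ∑ n ∈ Finset.range (N + 1), (B + δ / 4) * (n : ℝ) ^ m / m.factorial =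
          (B + δ / 4) * (((m : ℝ) + 1) * ∑ n ∈ Finset.range (N + 1), (n : ℝ) ^ m) /
            (m + 1).factorial := by
        rw [Finset.mul_sum, Finset.mul_sum, Finset.sum_div]
        apply Finset.sum_congr rfl
        intro n _
        rw [Nat.factorial_succ]
        push_cast
        field_simp
      rw [h3]
      gcongr
  have hlim : Tendsto (fun N : ℕ => K * (m + 1).factorial / (N : ℝ) ^ (m + 1) +
      (B + δ / 4) * ((((N : ℝ) + 1) ^ (m + 1)) / (N : ℝ) ^ (m + 1))) atTop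
      (nhds (0 + (B + δ / 4) * 1)) := by
    apply Tendsto.add
    · apply Tendsto.div_atTop tendsto_const_nhds
      exact (tendsto_pow_atTop (by omega)).comp tendsto_natCast_atTop_atTop
    · exact (tendsto_ratio (m + 1)).const_mul _
  rw [zero_add, mul_one] at hlim
  have hev := hlim.eventually_lt_const (show B + δ / 4 < B + δ by linarith)
  filter_upwards [hev, eventually_gt_atTop 0] with N hN hN0
  refine (hbound N).trans ?_
  have hNpos : (0 : ℝ) < (N : ℝ) ^ (m + 1) := by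
    have : (0 : ℝ) < N := by exact_mod_cast hN0
    positivity
  have hfac : (0 : ℝ) < (m + 1).factorial := by positivity
  have h5 : K + (B + δ / 4) * ((N : ℝ) + 1) ^ (m + 1) / (m + 1).factorial =
      (K * (m + 1).factorial / (N : ℝ) ^ (m + 1) +
      (B + δ / 4) * ((((N : ℝ) + 1) ^ (m + 1)) / (N : ℝ) ^ (m + 1))) *
        ((N : ℝ) ^ (m + 1) / (m + 1).factorial) := by
    field_simp
  rw [h5]
  refine (mul_le_mul_of_nonneg_right hN.le (by positivity)).trans (le_of_eq ?_)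
  ring

theorem Rk_nonneg {J D : Type} [CommRing D] [Algebra ℚ D] {y : J → D} {a m : ℕ} {B : ℝ}
    (h : Rk y a m B) : 0 ≤ B := by
  by_contra hneg
  push Not at hneg
  obtain ⟨N, hN⟩ := ((h (-B / 2) (by linarith)).and (eventually_gt_atTop 0)).exists
  have h1 : 0 ≤ Sg a (fun k => (rk y k : ℝ)) N := Sg_nonneg fun _ _ => by positivity
  have h2 : (B + -B / 2) * (N : ℝ) ^ m / m.factorial < 0 := by
    rw [mul_div_assoc]
    apply mul_neg_of_neg_of_pos (by linarith)
    have : (0 : ℝ) < N := by exact_mod_cast hN.2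
    positivity
  linarith [hN.1]

theorem log_cnt_nonneg {J D : Type} [Finite J] [CommRing D] (y : J → D) (k H : ℕ) :
    0 ≤ Real.log (cnt y k H) := by
  apply Real.log_nonneg
  exact_mod_cast cnt_pos y k H

theorem Bd_nonneg {J D : Type} [Finite J] [CommRing D] {y : J → D} {a m : ℕ} {A : ℝ}
    (h : Bd y a m A) : 0 ≤ A := by
  by_contra hneg
  push Not at hneg
  obtain ⟨N, hN⟩ := ((h 0 (-A / 2) (by linarith)).and (eventually_gt_atTop 0)).exists
  have h1 : 0 ≤ Sg a (fun k => Real.log (cnt y k (2 ^ (0 * (Nat.sqrt N + 1))))) N :=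
    Sg_nonneg fun _ _ => log_cnt_nonneg _ _ _
  have h2 : (A + -A / 2) * (N : ℝ) ^ (m + 1) / (m + 1).factorial < 0 := by
    rw [mul_div_assoc]
    apply mul_neg_of_neg_of_pos (by linarith)
    have : (0 : ℝ) < N := by exact_mod_cast hN.2
    positivity
  linarith [hN.1]

/-- The rank part of the step. -/
theorem rk_step {J D D' : Type} [Finite J] [CommRing D] [IsDomain D] [Algebra ℚ D] [CommRing D']
    [Algebra ℚ D'] (y : J → D) (h : D →ₐ[ℚ] D') (F : MvPolynomial J ℤ) {L : ℕ}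
    (hF : F.IsHomogeneous L) (hF0 : aeval y F ≠ 0) (hF1 : h (aeval y F) = 0) {a m : ℕ} {B : ℝ}
    (hB : Rk y a m B) : Rk (fun j => h (y j)) (a + 1) m (L * B) := by
  intro δ hδ
  have hB0 := Rk_nonneg hB
  set δ' := δ / (L + 1) with hδ'
  have hδ'0 : 0 < δ' := by positivity
  obtain ⟨N₀, hN₀⟩ := eventually_atTop.1 (hB δ' hδ'0)
  filter_upwards [eventually_ge_atTop (N₀ + L)] with N hN
  have h1 : Sg (a + 1) (fun k => (rk (fun j => h (y j)) k : ℝ)) N ≤
      Sg (a + 1) (fun k => (rk y k : ℝ) - shiftL L (fun k => (rk y k : ℝ)) k) N := by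
    apply Sg_mono
    intro k _
    unfold shiftL
    split_ifs with hk
    · rw [sub_zero]
      exact_mod_cast rk_map_le y h k
    · have h2 := rk_add_le y h F hF hF0 hF1 (k - L)
      rw [Nat.sub_add_cancel (by omega)] at h2
      rw [le_sub_iff_add_le]
      beta_reduce
      exact_mod_cast h2
  rw [Sg_sub, Sg_shift, if_neg (by omega)] at h1
  have h3 : Sg (a + 1) (fun k => (rk y k : ℝ)) N - Sg (a + 1) (fun k => (rk y k : ℝ)) (N - L) ≤
      L * ((B + δ') * (N : ℝ) ^ m / m.factorial) := by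
    apply Sg_window (by omega)
    intro n hn hn'
    refine (hN₀ n (by omega)).trans ?_
    gcongr
  refine h1.trans (h3.trans ?_)
  rw [← mul_div_assoc, ← mul_assoc]
  gcongr
  have : (L : ℝ) * δ' ≤ δ := by
    rw [hδ', mul_div_assoc', div_le_iff₀ (by positivity)]
    nlinarith
  linarith

/-- The scales used in the step. -/
def scales (H₁ H₀ Φ : ℕ) : ℕ → ℕ
  | 0 => H₀
  | (j + 1) => H₁ + Φ * scales H₁ H₀ Φ j

theorem scales_mono (H₁ H₀ Φ : ℕ) (hΦ : 1 ≤ Φ) : Monotone (scales H₁ H₀ Φ) := by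
  apply monotone_nat_of_le_succ
  intro j
  simp only [scales]
  nlinarith [Nat.zero_le (scales H₁ H₀ Φ j), Nat.zero_le H₁]

theorem scales_le (H₁ H₀ Φ : ℕ) (hΦ : 1 ≤ Φ) {ε : ℝ} (hε : 0 ≤ ε) (hH : (H₁ : ℝ) ≤ ε * H₀)
    (j : ℕ) : (scales H₁ H₀ Φ j : ℝ) ≤ (Φ + ε) ^ j * H₀ := by
  induction j with
  | zero => simp [scales]
  | succ j ih =>
    simp only [scales]
    push_cast
    have h1 : (H₀ : ℝ) ≤ scales H₁ H₀ Φ j := by
      exact_mod_cast scales_mono H₁ H₀ Φ hΦ (Nat.zero_le j)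
    calc (H₁ : ℝ) + Φ * scales H₁ H₀ Φ j ≤ ε * scales H₁ H₀ Φ j + Φ * scales H₁ H₀ Φ j := by
          have := mul_le_mul_of_nonneg_left h1 hε
          linarith
      _ = (Φ + ε) * scales H₁ H₀ Φ j := by ring
      _ ≤ (Φ + ε) * ((Φ + ε) ^ j * H₀) := by gcongr
      _ = (Φ + ε) ^ (j + 1) * H₀ := by ring

/-- The key inequality of the step at a fixed level `N`. -/
theorem step_key {J D D' : Type} [Finite J] [CommRing D] [IsDomain D] [CommRing D']
    (y : J → D) (h : D →+* D') (F : MvPolynomial J ℤ) {L Φ : ℕ} (hΦ1 : 1 ≤ Φ)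
    (hF : F.IsHomogeneous L) (hΦ : ∑ v ∈ F.support, |coeff v F| ≤ (Φ : ℤ))
    (hF0 : aeval y F ≠ 0) (hF1 : h (aeval y F) = 0) (a N H₁ H₀ j₀ : ℕ) (hH : H₁ ≤ H₀)
    (hN : L ≤ N) {M : ℝ}
    (hM : ∀ n, N < n + L → n ≤ N →
      Sg a (fun k => Real.log (cnt y k (scales H₁ H₀ Φ j₀))) n ≤ M) :
    j₀ * Sg (a + 1) (fun k => Real.log (cnt (fun j => h (y j)) k H₁)) N ≤
      Sg (a + 1) (fun k => Real.log (cnt y k (scales H₁ H₀ Φ j₀))) N -
        Sg (a + 1) (fun k => Real.log (cnt y k H₀)) N + j₀ * (L * M) := by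
  have hlog : ∀ {m n : ℕ}, 0 < m → m ≤ n → Real.log m ≤ Real.log n := by
    intro m n hm hmn
    apply Real.log_le_log
    · exact_mod_cast hm
    · exact_mod_cast hmn
  have hstep : ∀ j < j₀, Sg (a + 1) (fun k => Real.log (cnt (fun j => h (y j)) k H₁)) N ≤
      (Sg (a + 1) (fun k => Real.log (cnt y k (scales H₁ H₀ Φ (j + 1)))) N -
        Sg (a + 1) (fun k => Real.log (cnt y k (scales H₁ H₀ Φ j))) N) + L * M := by
    intro j hj
    have h1 : Sg (a + 1) (fun k => Real.log (cnt (fun j => h (y j)) k H₁)) N ≤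
        Sg (a + 1) (fun k => Real.log (cnt y k (scales H₁ H₀ Φ (j + 1))) -
          shiftL L (fun k => Real.log (cnt y k (scales H₁ H₀ Φ j))) k) N := by
      apply Sg_mono
      intro k _
      unfold shiftL
      split_ifs with hk
      · rw [sub_zero]
        apply hlog (cnt_pos _ _ _)
        refine (cnt_map_le y h k H₁).trans (cnt_mono y k ?_)
        exact hH.trans (scales_mono H₁ H₀ Φ hΦ1 (Nat.zero_le (j + 1)))
      · have h2 := cnt_mul_le y h F hF hΦ hF0 hF1 (k - L) H₁ (scales H₁ H₀ Φ j)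
        rw [Nat.sub_add_cancel (by omega)] at h2
        rw [le_sub_iff_add_le]
        beta_reduce
        rw [← Real.log_mul (by exact_mod_cast (cnt_pos _ _ _).ne')
          (by exact_mod_cast (cnt_pos _ _ _).ne'), ← Nat.cast_mul]
        exact hlog (Nat.mul_pos (cnt_pos _ _ _) (cnt_pos _ _ _)) h2
    rw [Sg_sub, Sg_shift, if_neg (by omega)] at h1
    have h3 : Sg (a + 1) (fun k => Real.log (cnt y k (scales H₁ H₀ Φ j))) N -
        Sg (a + 1) (fun k => Real.log (cnt y k (scales H₁ H₀ Φ j))) (N - L) ≤ L * M := by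
      apply Sg_window hN
      intro n hn hn'
      refine le_trans (Sg_mono fun k _ => ?_) (hM n hn hn')
      exact hlog (cnt_pos _ _ _) (cnt_mono y k (scales_mono H₁ H₀ Φ hΦ1 hj.le))
    linarith
  have hsum := Finset.sum_le_sum fun j (hj : j ∈ Finset.range j₀) =>
    hstep j (Finset.mem_range.1 hj)
  rw [Finset.sum_add_distrib, Finset.sum_range_sub
    (fun j => Sg (a + 1) (fun k => Real.log (cnt y k (scales H₁ H₀ Φ j))) N)] at hsum
  simp only [Finset.sum_const, Finset.card_range, nsmul_eq_mul] at hsum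
  exact hsum

theorem sqrt_bound {N n : ℕ} (h : N ≤ 4 * n) : Nat.sqrt N + 1 ≤ 2 * (Nat.sqrt n + 1) := by
  have h1 : n < (Nat.sqrt n + 1) * (Nat.sqrt n + 1) := Nat.lt_succ_sqrt n
  have h2 : Nat.sqrt N < 2 * (Nat.sqrt n + 1) := by
    rw [Nat.sqrt_lt]
    nlinarith
  omega

theorem tendsto_sqrt : Tendsto Nat.sqrt atTop atTop := by
  apply tendsto_atTop_atTop.2
  intro b
  refine ⟨b * b, fun n hn => ?_⟩
  exact Nat.le_sqrt.2 hn

theorem log_small (C : ℕ) {η : ℝ} (hη : 0 < η) :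
    ∀ᶠ N : ℕ in atTop, Real.log ((C : ℝ) * ((N : ℝ) + 1) ^ C) ≤ η * ((Nat.sqrt N : ℝ) + 1) := by
  rcases Nat.eq_zero_or_pos C with rfl | hC
  · filter_upwards with N
    simp only [Nat.cast_zero, zero_mul, Real.log_zero]
    positivity
  have h1 : Tendsto (fun s : ℕ => (s : ℝ) + 1) atTop atTop :=
    tendsto_atTop_add_const_right _ _ tendsto_natCast_atTop_atTop
  have h2 : ∀ᶠ s : ℕ in atTop, Real.log ((s : ℝ) + 1) ≤ η / (4 * C) * ((s : ℝ) + 1) := by
    have h3 := (Real.isLittleO_log_id_atTop.def (show 0 < η / (4 * C) by positivity))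
    filter_upwards [h1.eventually h3] with s hs
    simp only [id, Real.norm_eq_abs] at hs
    refine (le_abs_self _).trans (hs.trans ?_)
    rw [abs_of_nonneg (by positivity)]
  have h3 : ∀ᶠ s : ℕ in atTop, Real.log C ≤ η / 2 * ((s : ℝ) + 1) := by
    have := (h1.const_mul_atTop (show 0 < η / 2 by positivity)).eventually_ge_atTop (Real.log C)
    exact this
  filter_upwards [tendsto_sqrt.eventually h2, tendsto_sqrt.eventually h3] with N hN2 hN3
  have hC' : (0 : ℝ) < C := by exact_mod_cast hC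
  rw [Real.log_mul hC'.ne' (by positivity), Real.log_pow]
  have h4 : Real.log ((N : ℝ) + 1) ≤ 2 * Real.log ((Nat.sqrt N : ℝ) + 1) := by
    have h5 : (N : ℝ) + 1 ≤ ((Nat.sqrt N : ℝ) + 1) ^ 2 := by
      have := Nat.lt_succ_sqrt N
      rw [pow_two]
      exact_mod_cast this
    have h6 := Real.log_le_log (by positivity) h5
    rw [Real.log_pow] at h6
    exact_mod_cast h6
  have h7 : (C : ℝ) * Real.log ((N : ℝ) + 1) ≤ η / 2 * ((Nat.sqrt N : ℝ) + 1) := by
    calc (C : ℝ) * Real.log ((N : ℝ) + 1) ≤ C * (2 * Real.log ((Nat.sqrt N : ℝ) + 1)) := by gcongr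
      _ ≤ C * (2 * (η / (4 * C) * ((Nat.sqrt N : ℝ) + 1))) := by gcongr
      _ = η / 2 * ((Nat.sqrt N : ℝ) + 1) := by
        field_simp
        ring
  linarith

end StepAux

open StepAux

theorem Bd.map {J D D' : Type} [Finite J] [CommRing D] [CommRing D'] (y : J → D) (h : D →+* D')
    {a m : ℕ} {A : ℝ} (hA : Bd y a m A) : Bd (fun j => h (y j)) a m A := by
  intro c δ hδ
  filter_upwards [hA c δ hδ] with N hN
  refine (Sg_mono fun k _ => ?_).trans hN
  apply Real.log_le_log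
  · exact_mod_cast cnt_pos _ _ _
  · exact_mod_cast cnt_map_le y h _ _

theorem step {J D D' : Type} [Finite J] [CommRing D] [IsDomain D] [Algebra ℚ D] [CommRing D']
    [Algebra ℚ D'] (y : J → D) (h : D →ₐ[ℚ] D') (F : MvPolynomial J ℤ) {L Φ : ℕ} (_hL : 1 ≤ L)
    (hF : F.IsHomogeneous L) (hΦ : ∑ v ∈ F.support, |coeff v F| ≤ (Φ : ℤ))
    (hF0 : aeval y F ≠ 0) (hF1 : h (aeval y F) = 0) {a m : ℕ} {A B : ℝ}
    (hA : Bd y a m A) (hB : Rk y a m B) :
    Bd (fun j => h (y j)) (a + 1) m (L * A + B * Real.log Φ) ∧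
      Rk (fun j => h (y j)) (a + 1) m (L * B) := by
  refine ⟨?_, rk_step y h F hF hF0 hF1 hB⟩
  have hA0 := Bd_nonneg hA
  have hB0 := Rk_nonneg hB
  have hΦ1 : 1 ≤ Φ := by
    by_contra hlt
    have : Φ = 0 := by omega
    rw [this, Nat.cast_zero] at hΦ
    apply hF0
    have hFz : F = 0 := by
      by_contra hne
      obtain ⟨v, hv⟩ := (support_nonempty.2 hne)
      have h1 := Finset.single_le_sum (f := fun v => |coeff v F|) (fun _ _ => abs_nonneg _) hv
      have h2 : 0 < |coeff v F| := abs_pos.2 (mem_support_iff.1 hv)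
      beta_reduce at h1
      omega
    rw [hFz, map_zero]
  have hlogΦ : 0 ≤ Real.log Φ := Real.log_nonneg (by exact_mod_cast hΦ1)
  obtain ⟨C, hC0, hC⟩ := scale y
  intro c δ hδ
  -- choice of the error
  set η := min 1 (δ / (B + Real.log Φ + 1 + L + 1)) with hη
  have hden : 0 < B + Real.log Φ + 1 + L + 1 := by positivity
  have hη0 : 0 < η := lt_min one_pos (by positivity)
  have hη1 : η ≤ 1 := min_le_left _ _
  have hηδ : η * (B + Real.log Φ + 1 + L + 1) ≤ δ := by
    rw [← le_div_iff₀ hden]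
    exact min_le_right _ _
  set c' := 2 * (c + 1 + Φ) with hc'
  obtain ⟨N₁, hN₁⟩ := eventually_atTop.1 (hA c' η hη0)
  have hR := sum_growth (f := fun n => Sg a (fun k => (rk y k : ℝ)) n) (B := B) (m := m)
    (fun n => Sg_nonneg fun _ _ => by positivity) (fun δ hδ => hB δ hδ) η hη0
  have hε : ∀ᶠ N : ℕ in atTop, (1 / 2 : ℝ) ^ (Nat.sqrt N + 1) ≤ η / 2 := by
    have h1 : Tendsto (fun s : ℕ => (1 / 2 : ℝ) ^ (s + 1)) atTop (nhds 0) :=
      (tendsto_pow_atTop_nhds_zero_of_lt_one (by norm_num) (by norm_num)).comp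
        (tendsto_add_atTop_nat 1)
    have h2 := h1.eventually_le_const (show (0 : ℝ) < η / 2 by positivity)
    exact tendsto_sqrt.eventually h2
  filter_upwards [hR, hε, log_small C (show 0 < η / 2 by positivity),
    log_small C (Real.log_pos (show (1 : ℝ) < 2 by norm_num)),
    eventually_ge_atTop (N₁ + 2 * L + 1)] with N hRN hεN hl1 hl2 hNN
  set s := Nat.sqrt N with hs
  set H₁ := 2 ^ (c * (s + 1)) with hH₁
  set H₀ := 2 ^ ((c + 1) * (s + 1)) with hH₀
  set g : ℝ := (N : ℝ) ^ (m + 1) / (m + 1).factorial with hg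
  have hg0 : 0 ≤ g := by positivity
  set ε : ℝ := (1 / 2 : ℝ) ^ (s + 1) with hεdef
  have hε0 : 0 < ε := by positivity
  have hε1 : ε ≤ 1 := pow_le_one₀ (by norm_num) (by norm_num)
  have hH : H₁ ≤ H₀ := Nat.pow_le_pow_right (by norm_num) (by nlinarith)
  have hHε : (H₁ : ℝ) ≤ ε * H₀ := by
    rw [hH₁, hH₀, hεdef]
    push_cast
    rw [add_mul, one_mul, pow_add, one_div, inv_pow]
    apply le_of_eq
    field_simp
    ring
  have hH₀pos : (0 : ℝ) < H₀ := by
    rw [hH₀]
    positivity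
  have hle := scales_le H₁ H₀ Φ hΦ1 hε0.le hHε (s + 1)
  have hge : H₀ ≤ scales H₁ H₀ Φ (s + 1) := scales_mono H₁ H₀ Φ hΦ1 (Nat.zero_le _)
  have hnat : scales H₁ H₀ Φ (s + 1) ≤ 2 ^ ((c + 1 + Φ) * (s + 1)) := by
    have h1 : (scales H₁ H₀ Φ (s + 1) : ℝ) ≤ ((2 ^ ((c + 1 + Φ) * (s + 1)) : ℕ) : ℝ) := by
      refine hle.trans ?_
      have h2 : (Φ : ℝ) + ε ≤ 2 ^ Φ := by
        have : Φ + 1 ≤ 2 ^ Φ := Nat.lt_two_pow_self
        have : (Φ : ℝ) + 1 ≤ 2 ^ Φ := by exact_mod_cast this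
        linarith
      calc ((Φ : ℝ) + ε) ^ (s + 1) * H₀ ≤ (2 ^ Φ) ^ (s + 1) * H₀ := by gcongr
        _ = ((2 ^ ((c + 1 + Φ) * (s + 1)) : ℕ) : ℝ) := by
          rw [hH₀]
          push_cast
          rw [← pow_mul, ← pow_add]
          congr 1
          ring
    exact_mod_cast h1
  have hM : ∀ n, N < n + L → n ≤ N →
      Sg a (fun k => Real.log (cnt y k (scales H₁ H₀ Φ (s + 1)))) n ≤ (A + η) * g := by
    intro n hn hn'
    have h1 := hN₁ n (by omega)
    refine le_trans (Sg_mono fun k _ => ?_) (h1.trans ?_)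
    · apply Real.log_le_log
      · exact_mod_cast cnt_pos _ _ _
      · have : scales H₁ H₀ Φ (s + 1) ≤ 2 ^ (c' * (Nat.sqrt n + 1)) := by
          refine hnat.trans (Nat.pow_le_pow_right (by norm_num) ?_)
          have := sqrt_bound (N := N) (n := n) (by omega)
          rw [hc']
          calc (c + 1 + Φ) * (s + 1) ≤ (c + 1 + Φ) * (2 * (Nat.sqrt n + 1)) := by gcongr
            _ = 2 * (c + 1 + Φ) * (Nat.sqrt n + 1) := by ring
        exact_mod_cast cnt_mono y k this
    · rw [hg, ← mul_div_assoc]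
      gcongr
  have hkey := step_key y (h : D →+* D') F hΦ1 hF hΦ hF0 hF1 a N H₁ H₀ (s + 1) hH (by omega) hM
  -- the scale part
  have hlogH : Real.log ((C : ℝ) * ((N : ℝ) + 1) ^ C * scales H₁ H₀ Φ (s + 1) / H₀) ≤
      (s + 1) * (Real.log Φ + η) := by
    have hC' : (0 : ℝ) < C := by exact_mod_cast hC0
    have hΦ' : (0 : ℝ) < Φ := by exact_mod_cast hΦ1
    have h1 : (C : ℝ) * ((N : ℝ) + 1) ^ C * scales H₁ H₀ Φ (s + 1) / H₀ ≤
        ((C : ℝ) * ((N : ℝ) + 1) ^ C) * (Φ + ε) ^ (s + 1) := by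
      rw [div_le_iff₀ hH₀pos, mul_assoc ((C : ℝ) * ((N : ℝ) + 1) ^ C)]
      gcongr
    have hpos : 0 < (C : ℝ) * ((N : ℝ) + 1) ^ C * scales H₁ H₀ Φ (s + 1) / H₀ := by
      have : (0 : ℝ) < scales H₁ H₀ Φ (s + 1) := hH₀pos.trans_le (by exact_mod_cast hge)
      positivity
    refine (Real.log_le_log hpos h1).trans ?_
    rw [Real.log_mul (by positivity) (by positivity), Real.log_pow]
    have h2 : Real.log (Φ + ε) ≤ Real.log Φ + ε := by
      have h3 : (Φ : ℝ) + ε ≤ Φ * Real.exp ε := by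
        have h4 := Real.add_one_le_exp ε
        have h5 : (1 : ℝ) ≤ Φ := by exact_mod_cast hΦ1
        nlinarith
      calc Real.log (Φ + ε) ≤ Real.log (Φ * Real.exp ε) := Real.log_le_log (by positivity) h3
        _ = Real.log Φ + ε := by rw [Real.log_mul hΦ'.ne' (Real.exp_pos _).ne', Real.log_exp]
    push_cast
    have h6 : ((s : ℝ) + 1) * Real.log (Φ + ε) ≤ ((s : ℝ) + 1) * (Real.log Φ + η / 2) := by
      apply mul_le_mul_of_nonneg_left _ (by positivity)
      linarith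
    linarith
  have hscale : Sg (a + 1) (fun k => Real.log (cnt y k (scales H₁ H₀ Φ (s + 1)))) N -
      Sg (a + 1) (fun k => Real.log (cnt y k H₀)) N ≤
      (s + 1) * (Real.log Φ + η) * ((B + η) * g) := by
    rw [← Sg_sub]
    have h1 : Sg (a + 1) (fun k => Real.log (cnt y k (scales H₁ H₀ Φ (s + 1))) -
        Real.log (cnt y k H₀)) N ≤
        Sg (a + 1) (fun k => (s + 1) * (Real.log Φ + η) * (rk y k : ℝ)) N := by
      apply Sg_mono
      intro k hk
      have hkN : (k : ℝ) ≤ N := by exact_mod_cast hk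
      have hC' : (0 : ℝ) < C := by exact_mod_cast hC0
      have hCH : C * (k + 1) ^ C ≤ H₀ := by
        have h2 : ((C : ℝ) * ((N : ℝ) + 1) ^ C) ≤ H₀ := by
          rw [← Real.log_le_log_iff (by positivity) hH₀pos]
          refine hl2.trans ?_
          rw [hH₀]
          push_cast
          rw [Real.log_pow]
          push_cast
          have := Real.log_pos (show (1 : ℝ) < 2 by norm_num)
          have h3 : ((s : ℝ) + 1) ≤ (c + 1) * (s + 1) :=
            le_mul_of_one_le_left (by positivity) (by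
              have := Nat.cast_nonneg (α := ℝ) c
              linarith)
          calc Real.log 2 * ((s : ℝ) + 1) = ((s : ℝ) + 1) * Real.log 2 := mul_comm _ _
            _ ≤ (c + 1) * (s + 1) * Real.log 2 := mul_le_mul_of_nonneg_right h3 this.le
        have h3 : ((C * (k + 1) ^ C : ℕ) : ℝ) ≤ H₀ := by
          refine le_trans ?_ h2
          push_cast
          gcongr
        exact_mod_cast h3
      have h4 := hC k H₀ (scales H₁ H₀ Φ (s + 1)) hCH hge
      have h5 : Real.log ((C : ℝ) * ((k : ℝ) + 1) ^ C * scales H₁ H₀ Φ (s + 1) / H₀) ≤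
          (s + 1) * (Real.log Φ + η) := by
        refine le_trans (Real.log_le_log ?_ ?_) hlogH
        · have : (0 : ℝ) < scales H₁ H₀ Φ (s + 1) := hH₀pos.trans_le (by exact_mod_cast hge)
          positivity
        · gcongr
      have h6 : (rk y k : ℝ) * Real.log ((C : ℝ) * ((k : ℝ) + 1) ^ C *
          scales H₁ H₀ Φ (s + 1) / H₀) ≤ rk y k * ((s + 1) * (Real.log Φ + η)) :=
        mul_le_mul_of_nonneg_left h5 (by positivity)
      linarith
    refine h1.trans ?_
    rw [Sg_mul]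
    apply mul_le_mul_of_nonneg_left _ (by positivity)
    rw [Sg_succ, hg, ← mul_div_assoc]
    exact hRN
  have hs1 : (0 : ℝ) < (s : ℝ) + 1 := by positivity
  have hX : Sg (a + 1) (fun k => Real.log (cnt (fun j => h (y j)) k H₁)) N ≤
      (Real.log Φ + η) * ((B + η) * g) + L * ((A + η) * g) := by
    have h1 : ((s : ℝ) + 1) * Sg (a + 1) (fun k => Real.log (cnt (fun j => h (y j)) k H₁)) N ≤
        (s + 1) * ((Real.log Φ + η) * ((B + η) * g) + L * ((A + η) * g)) := by
      have h2 := hkey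
      push_cast at h2
      linarith
    exact le_of_mul_le_mul_left h1 hs1
  refine hX.trans ?_
  rw [mul_div_assoc, ← hg]
  have h7 : (Real.log Φ + η) * (B + η) + L * (A + η) ≤ L * A + B * Real.log Φ + δ := by
    nlinarith
  nlinarith

end Pool.Agent.W_MP_78a2de_al
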