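import Pool.Agent.W_MP_78a2de_al.EndBound
import Pool.Agent.W_MP_78a2de_al.ResForm
import Pool.Agent.W_MP_78a2de_al.Step

namespace Pool.Agent.W_MP_78a2de_al

open MvPolynomial Filter

namespace FirstC

theorem cnt_pos' {J D : Type} [Finite J] [CommRing D] (y : J → D) (k H : ℕ) : 0 < cnt y k H := by
  rw [cnt, Set.ncard_pos ((EndBound.forms_fin k H).image _)]
  refine ⟨_, 0, ⟨isHomogeneous_zero _ _ _, fun v => ?_⟩, rfl⟩
  simp

theorem cnt_mono' {J D : Type} [Finite J] [CommRing D] (y : J → D) (k : ℕ) {H H' : ℕ}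
    (h : H ≤ H') : cnt y k H ≤ cnt y k H' := by
  refine Set.ncard_le_ncard (Set.image_mono ?_) ((EndBound.forms_fin k H').image _)
  intro u hu
  exact ⟨hu.1, fun v => (hu.2 v).trans (by exact_mod_cast h)⟩

theorem log_cnt_nonneg {J D : Type} [CommRing D] (y : J → D) (k H : ℕ) :
    0 ≤ Real.log (cnt y k H) := Real.log_natCast_nonneg _

theorem Sg_nonneg {f : ℕ → ℝ} (hf : ∀ n, 0 ≤ f n) (a N : ℕ) : 0 ≤ Sg a f N := by
  induction a generalizing N with
  | zero => exact hf N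
  | succ a ih => exact Finset.sum_nonneg fun n _ => ih n

theorem Sg_shift {f : ℕ → ℝ} (hf : ∀ n, 0 ≤ f n) (s a N : ℕ) :
    Sg a (fun k => f (k + s)) N ≤ Sg a f (N + s) := by
  induction a generalizing N with
  | zero => exact le_rfl
  | succ a ih =>
    simp only [Sg]
    calc ∑ n ∈ Finset.range (N + 1), Sg a (fun k => f (k + s)) n
        ≤ ∑ n ∈ Finset.range (N + 1), Sg a f (n + s) := Finset.sum_le_sum fun n _ => ih n
      _ = ∑ n ∈ Finset.Ico s (N + 1 + s), Sg a f n := by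
          rw [Finset.sum_Ico_eq_sum_range]
          have : N + 1 + s - s = N + 1 := by omega
          rw [this]
          exact Finset.sum_congr rfl fun n _ => by rw [add_comm]
      _ ≤ ∑ n ∈ Finset.range (N + s + 1), Sg a f n := by
          refine Finset.sum_le_sum_of_subset_of_nonneg ?_ fun n _ _ => Sg_nonneg hf a n
          intro n hn
          simp only [Finset.mem_Ico] at hn
          simp only [Finset.mem_range]
          omega

theorem Sg_const_mul (c : ℝ) (f : ℕ → ℝ) (a N : ℕ) :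
    Sg a (fun k => c * f k) N = c * Sg a f N := by
  induction a generalizing N with
  | zero => rfl
  | succ a ih =>
    simp only [Sg]
    rw [Finset.mul_sum]
    exact Finset.sum_congr rfl fun n _ => ih n

theorem B_nonneg {J D : Type} [CommRing D] [Algebra ℚ D] {y : J → D} {a m : ℕ} {B : ℝ}
    (h : Rk y a m B) : 0 ≤ B := by
  refine le_of_forall_pos_le_add fun δ hδ => ?_
  obtain ⟨N, hN1, hN2⟩ := ((h δ hδ).and (eventually_ge_atTop 1)).exists
  have h0 : 0 ≤ Sg a (fun k => (rk y k : ℝ)) N := Sg_nonneg (fun n => Nat.cast_nonneg _) a N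
  have h1 : 0 ≤ (B + δ) * (N : ℝ) ^ m / m.factorial := h0.trans hN1
  have h2 : (0 : ℝ) < (N : ℝ) ^ m / m.factorial := by
    have : (0 : ℝ) < N := by exact_mod_cast hN2
    positivity
  rw [mul_div_assoc] at h1
  exact nonneg_of_mul_nonneg_left h1 h2

/-- choice of the prime -/
theorem exists_prime {c : ℝ} (hc : Real.log 3 / 2 < c) (L₀ : ℕ) :
    ∃ L : ℕ, L₀ ≤ L ∧ L.Prime ∧ 2 * Real.log ((L : ℝ) + 1) + L * (Real.log 3 / 2) ≤ L * c := by
  have h1 : Tendsto (fun x : ℝ => Real.log x / x) atTop (nhds 0) :=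
    Real.isLittleO_log_id_atTop.tendsto_div_nhds_zero
  have h2 : Tendsto (fun n : ℕ => Real.log ((n : ℝ) + 1) / ((n : ℝ) + 1)) atTop (nhds 0) := by
    refine h1.comp ?_
    exact tendsto_atTop_add_const_right _ _ tendsto_natCast_atTop_atTop
  set ε := c - Real.log 3 / 2 with hε
  have hε0 : 0 < ε := by linarith
  have h3 : ∀ᶠ n : ℕ in atTop, Real.log ((n : ℝ) + 1) / ((n : ℝ) + 1) < ε / 4 :=
    h2.eventually (gt_mem_nhds (by linarith))
  obtain ⟨n0, hn0⟩ := (h3.and (eventually_ge_atTop 1)).exists_forall_of_atTop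
  obtain ⟨L, hL1, hL2⟩ := Nat.exists_infinite_primes (max L₀ n0)
  refine ⟨L, (le_max_left _ _).trans hL1, hL2, ?_⟩
  obtain ⟨h4, h5⟩ := hn0 L ((le_max_right _ _).trans hL1)
  have hL : (1 : ℝ) ≤ L := by exact_mod_cast h5
  rw [div_lt_iff₀ (by linarith)] at h4
  have h6 : c = ε + Real.log 3 / 2 := by rw [hε]; ring
  rw [h6]
  nlinarith

end FirstC

open FirstC

theorem first_cut {J : Type} [Finite J] {d : ℕ} (χ : J → Fin d → ℤ) (ζ : J → ℂ)
    (hζ : ∀ j, ζ j ≠ 0) (κ : ℤ) (hκ : ∀ j i, 0 ≤ χ j i + κ) (e : J × J × J)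
    (h1 : χ e.1 ≠ χ e.2.1) (h2 : χ e.1 ≠ χ e.2.2) (h3 : χ e.2.1 ≠ χ e.2.2)
    (q : Ideal (MvPolynomial (Fin d) ℂ)) (hq : q.IsPrime) (hX : ∀ i, X i ∉ q)
    (hf : aeval (toric χ ζ κ) (sform e) ∈ q)
    {a m : ℕ} {B : ℝ} (hA : Bd (toric χ ζ κ) a m 0) (hR : Rk (toric χ ζ κ) a m B)
    {c : ℝ} (hc : Real.log 3 / 2 < c) :
    Bd (fun j => Ideal.Quotient.mk q (toric χ ζ κ j)) (a + 1) m (B * c) := by
  have hB := B_nonneg hR
  have hlog3 : 0 < Real.log 3 := Real.log_pos (by norm_num)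
  have hc0 : 0 < c := by linarith
  obtain ⟨L₀, hL₀⟩ := exists_residue_form χ ζ hζ κ hκ e h1 h2 h3 q hq hX hf
  obtain ⟨L, hLL₀, hLp, hLc⟩ := exists_prime hc L₀
  obtain ⟨F, C, hFh, hF0, hFn, hcnt⟩ := hL₀ L hLL₀ hLp
  have hL1 : 1 ≤ L := hLp.one_lt.le
  have hLR : (0 : ℝ) < L := by exact_mod_cast hL1
  set y := toric χ ζ κ with hy
  set I : Ideal (MvPolynomial (Fin d) ℂ) := Ideal.span {aeval y F} with hI
  obtain ⟨Φ, hΦ⟩ : ∃ Φ : ℕ, ∑ v ∈ F.support, |coeff v F| = (Φ : ℤ) :=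
    ⟨_, (Int.toNat_of_nonneg (Finset.sum_nonneg fun v _ => abs_nonneg _)).symm⟩
  have hΦ1 : 1 ≤ Φ := by
    have hFne : F ≠ 0 := by
      rintro rfl
      exact hF0 (map_zero _)
    obtain ⟨v, hv⟩ := (MvPolynomial.support_nonempty).mpr hFne
    have h4 : |coeff v F| ≤ ∑ v ∈ F.support, |coeff v F| :=
      Finset.single_le_sum (f := fun v => |coeff v F|) (fun v _ => abs_nonneg _) hv
    have h5 : 1 ≤ |coeff v F| := Int.one_le_abs (mem_support_iff.mp hv)
    rw [hΦ] at h4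
    omega
  have hΦR : (1 : ℝ) ≤ Φ := by exact_mod_cast hΦ1
  have hlogΦ : Real.log Φ ≤ L * c := by
    refine le_trans ?_ hLc
    have h4 : (Φ : ℝ) ≤ ((L : ℝ) + 1) ^ 2 * Real.sqrt 3 ^ L := by
      rw [hΦ] at hFn
      exact_mod_cast hFn
    refine (Real.log_le_log (by linarith) h4).trans (le_of_eq ?_)
    rw [Real.log_mul (by positivity) (by positivity), Real.log_pow, Real.log_pow,
      Real.log_sqrt (by norm_num)]
    push_cast
    ring
  obtain ⟨hBd, -⟩ := step y (Ideal.Quotient.mkₐ ℚ I) F hL1 hFh hΦ.le hF0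
    (by
      rw [Ideal.Quotient.mkₐ_eq_mk, Ideal.Quotient.eq_zero_iff_mem]
      exact Ideal.subset_span rfl) hA hR
  -- now the estimate
  intro c₀ δ hδ
  have hBc : 0 ≤ B * c := mul_nonneg hB hc0.le
  -- ratio
  have hratio : ∀ᶠ N : ℕ in atTop,
      (((N + (L - 1) : ℕ) : ℝ)) ^ (m + 1) ≤ ((B * c + δ) / (B * c + δ / 2)) * (N : ℝ) ^ (m + 1) := by
    have ht : Tendsto (fun N : ℕ => ((((N + (L - 1) : ℕ) : ℝ)) / N) ^ (m + 1)) atTop (nhds 1) := by
      have h4 : Tendsto (fun N : ℕ => (((N + (L - 1) : ℕ) : ℝ)) / N) atTop (nhds 1) := by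
        have h5 : Tendsto (fun N : ℕ => (1 : ℝ) + ((L - 1 : ℕ) : ℝ) / N) atTop (nhds (1 + 0)) :=
          tendsto_const_nhds.add (tendsto_const_div_atTop_nhds_zero_nat _)
        rw [add_zero] at h5
        refine h5.congr' ?_
        filter_upwards [eventually_ge_atTop 1] with N hN
        have : (N : ℝ) ≠ 0 := by
          have : (0 : ℝ) < N := by exact_mod_cast hN
          exact this.ne'
        push_cast
        field_simp
      simpa using h4.pow (m + 1)
    have hgt : (1 : ℝ) < (B * c + δ) / (B * c + δ / 2) := by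
      rw [one_lt_div (by linarith)]
      linarith
    filter_upwards [ht.eventually (gt_mem_nhds hgt), eventually_ge_atTop 1] with N hN hN1
    have hN0 : (0 : ℝ) < N := by exact_mod_cast hN1
    rw [div_pow, div_lt_iff₀ (by positivity)] at hN
    exact hN.le
  have hBd' := hBd (c₀ + C) (L * (δ / 2)) (by positivity)
  have hshift : Tendsto (fun N : ℕ => N + (L - 1)) atTop atTop := tendsto_add_atTop_nat _
  filter_upwards [hratio, hshift.eventually hBd'] with N hN1 hN2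
  set H : ℕ := 2 ^ (c₀ * (Nat.sqrt N + 1)) with hH
  set H' : ℕ := 2 ^ ((c₀ + C) * (Nat.sqrt (N + (L - 1)) + 1)) with hH'
  have hHH : C * H ≤ H' := by
    have hC : C ≤ 2 ^ C := Nat.lt_two_pow_self.le
    calc C * H ≤ 2 ^ C * 2 ^ (c₀ * (Nat.sqrt N + 1)) := Nat.mul_le_mul_right _ hC
      _ = 2 ^ (C + c₀ * (Nat.sqrt N + 1)) := by rw [pow_add]
      _ ≤ H' := by
          refine Nat.pow_le_pow_right (by norm_num) ?_
          have h4 : Nat.sqrt N ≤ Nat.sqrt (N + (L - 1)) := Nat.sqrt_le_sqrt (by omega)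
          nlinarith
  have hpt : ∀ k, L * Real.log (cnt (fun j => Ideal.Quotient.mk q (y j)) k H) ≤
      Real.log (cnt (fun j => Ideal.Quotient.mk I (y j)) (k + (L - 1)) H') := by
    intro k
    rw [← Real.log_pow]
    refine Real.log_le_log ?_ ?_
    · have := cnt_pos' (fun j => Ideal.Quotient.mk q (y j)) k H
      positivity
    · have h4 := (hcnt k H).trans
        (cnt_mono' (fun j => Ideal.Quotient.mk I (y j)) (k + (L - 1)) hHH)
      exact_mod_cast h4
  have h5 : L * Sg (a + 1) (fun k => Real.log (cnt (fun j => Ideal.Quotient.mk q (y j)) k H)) N ≤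
      Sg (a + 1) (fun k => Real.log (cnt (fun j => Ideal.Quotient.mk I (y j)) k H'))
        (N + (L - 1)) := by
    rw [← Sg_const_mul]
    refine (EndBound.Sg_mono hpt (a + 1) N).trans ?_
    exact Sg_shift (f := fun k => Real.log (cnt (fun j => Ideal.Quotient.mk I (y j)) k H'))
      (fun n => log_cnt_nonneg _ _ _) (L - 1) (a + 1) N
  have h6 : L * Sg (a + 1) (fun k => Real.log (cnt (fun j => Ideal.Quotient.mk q (y j)) k H)) N ≤
      (L * 0 + B * Real.log Φ + L * (δ / 2)) * ((N + (L - 1) : ℕ) : ℝ) ^ (m + 1) /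
        (m + 1).factorial := h5.trans hN2
  have h7 : L * 0 + B * Real.log Φ + L * (δ / 2) ≤ L * (B * c + δ / 2) := by
    have := mul_le_mul_of_nonneg_left hlogΦ hB
    linarith
  have h8 : L * Sg (a + 1) (fun k => Real.log (cnt (fun j => Ideal.Quotient.mk q (y j)) k H)) N ≤
      L * ((B * c + δ) * (N : ℝ) ^ (m + 1) / (m + 1).factorial) := by
    refine h6.trans ?_
    have hfac : (0 : ℝ) < (m + 1).factorial := by exact_mod_cast Nat.factorial_pos _
    rw [← mul_div_assoc (L : ℝ) ((B * c + δ) * (N : ℝ) ^ (m + 1)),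
      div_le_div_iff_of_pos_right hfac]
    calc (L * 0 + B * Real.log Φ + L * (δ / 2)) * ((N + (L - 1) : ℕ) : ℝ) ^ (m + 1)
        ≤ (L * (B * c + δ / 2)) * (((B * c + δ) / (B * c + δ / 2)) * (N : ℝ) ^ (m + 1)) :=
          mul_le_mul h7 hN1 (by positivity) (by positivity)
      _ = L * ((B * c + δ) * (N : ℝ) ^ (m + 1)) := by
          have : B * c + δ / 2 ≠ 0 := by positivity
          field_simp
  exact le_of_mul_le_mul_left h8 hLR

end Pool.Agent.W_MP_78a2de_al
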