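import Pool.Agent.W_MP_78a2de_al.Defs
import Pool.Agent.W_MP_78a2de_al_h8.Sumset

/-! Growth of the set of classes of monomials (helper8). -/

namespace Pool.Agent.W_MP_78a2de_al

open MvPolynomial Filter

namespace GrowthAux

open Pool.Agent.W_MP_78a2de_al_h8

theorem Sg_mono' (a : ℕ) {f g : ℕ → ℝ} (h : ∀ n, f n ≤ g n) (N : ℕ) : Sg a f N ≤ Sg a g N := by
  induction a generalizing N with
  | zero => exact h N
  | succ a ih => exact Finset.sum_le_sum fun n _ => ih n

theorem Sg_smul' (a : ℕ) (r : ℝ) (f : ℕ → ℝ) (N : ℕ) : Sg a (fun n => r * f n) N = r * Sg a f N := by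
  induction a generalizing N with
  | zero => rfl
  | succ a ih =>
    simp only [Sg]
    rw [Finset.mul_sum]
    exact Finset.sum_congr rfl fun n _ => ih n

theorem Sg_succ' (a : ℕ) (f : ℕ → ℝ) (N : ℕ) :
    Sg (a + 1) f N = Sg a (fun n => ∑ i ∈ Finset.range (n + 1), f i) N := by
  induction a generalizing N with
  | zero => rfl
  | succ a ih =>
    rw [Sg]
    simp only [ih]
    rfl

variable {m : ℕ}

theorem classes_mono_deg (Γ : Submodule ℤ (Fin m → ℤ)) {n n' : ℕ} (h : n ≤ n') :
    classes Γ n ⊆ classes Γ n' := by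
  intro x hx
  rw [mem_classes] at hx ⊢
  obtain ⟨α, h1, rfl⟩ := hx
  exact ⟨α, h1.trans h, rfl⟩

theorem classes_step' (Γ : Submodule ℤ (Fin m → ℤ)) (u v : Fin m →₀ ℕ) (hu : u.degree ≤ 2)
    (hv : v.degree ≤ 2) (hw : ∀ n : ℤ, n • (toInt u - toInt v : Fin m → ℤ) ∈ Γ → n = 0) (N : ℕ) :
    T2 (fun n => (classes (Γ ⊔ Submodule.span ℤ {toInt u - toInt v}) n).card) N ≤
      (classes Γ N).card := by
  classical
  set Γ' := Γ ⊔ Submodule.span ℤ {(toInt u - toInt v : Fin m → ℤ)} with hΓ'
  let φ : (Fin m → ℤ) ⧸ Γ →ₗ[ℤ] (Fin m → ℤ) ⧸ Γ' := Submodule.mapQ Γ Γ' LinearMap.id le_sup_left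
  have hφ : ∀ x, φ (Γ.mkQ x) = Γ'.mkQ x := fun x => rfl
  have himg : ∀ n, (classes Γ n).image φ.toAddMonoidHom = classes Γ' n := by
    intro n
    ext x
    simp only [mem_classes, Finset.mem_image]
    constructor
    · rintro ⟨_, ⟨α, h1, rfl⟩, rfl⟩
      exact ⟨α, h1, rfl⟩
    · rintro ⟨α, h1, rfl⟩
      exact ⟨_, ⟨α, h1, rfl⟩, rfl⟩
  have hadd : ∀ (o : Fin m →₀ ℕ) (_ : o.degree ≤ 2) (n : ℕ), ∀ x ∈ classes Γ n,
      x + Γ.mkQ (toInt o) ∈ classes Γ (n + 2) := by
    intro o ho n x hx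
    rw [mem_classes] at hx ⊢
    obtain ⟨α, h1, rfl⟩ := hx
    refine ⟨α + o, ?_, ?_⟩
    · rw [map_add]
      omega
    · rw [toInt_add, map_add]
  have key := sumset_step (classes Γ) (Γ.mkQ (toInt u)) (Γ.mkQ (toInt v)) (hadd u hu) (hadd v hv) ?_
    φ.toAddMonoidHom ?_ N
  · simp only [himg] at key
    exact key
  · intro n hn
    apply hw n
    rw [← map_sub, ← map_smul] at hn
    exact (Submodule.Quotient.mk_eq_zero _).1 hn
  · show φ (Γ.mkQ (toInt u) - Γ.mkQ (toInt v)) = 0
    rw [← map_sub, hφ]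
    exact (Submodule.Quotient.mk_eq_zero _).2 (Submodule.mem_sup_right (Submodule.mem_span_singleton_self _))

theorem sum_range_eq_T2 (x : ℕ → ℕ) : ∀ N, ∑ k ∈ Finset.range (N + 2), x k = T2 x (N + 1) + T2 x N := by
  have hT : ∀ N, T2 x (N + 2) = x (N + 2) + T2 x N := by
    intro N
    simp only [T2]
    rw [show (N + 2) / 2 + 1 = (N / 2 + 1) + 1 by omega, Finset.sum_range_succ']
    rw [add_comm]
    congr 1
    refine Finset.sum_congr rfl fun i _ => ?_
    congr 1
    omega
  intro N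
  induction N with
  | zero => simp [T2, Finset.sum_range_succ]; ring
  | succ N ih =>
    rw [Finset.sum_range_succ, ih, hT]
    ring

theorem partial_le (x y : ℕ → ℕ) (hxy : ∀ N, T2 x N ≤ y N) (hy : Monotone y) (N : ℕ) :
    ∑ k ∈ Finset.range (N + 1), x k ≤ 2 * y N := by
  cases N with
  | zero =>
    have := hxy 0
    simp [T2] at this ⊢
    omega
  | succ N =>
    rw [sum_range_eq_T2]
    have h1 := hxy (N + 1)
    have h2 := hxy N
    have h3 : y N ≤ y (N + 1) := hy (Nat.le_succ N)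
    omega

/-- `ℕ`-valued vector as finitely supported function. -/
noncomputable def fs (u : Fin m → ℕ) : Fin m →₀ ℕ := Finsupp.equivFunOnFinite.symm u

theorem toInt_fs (u : Fin m → ℕ) : toInt (fs u) = fun j => (u j : ℤ) := by
  funext j; simp [toInt, fs]

theorem degree_fs (u : Fin m → ℕ) : (fs u).degree = ∑ j, u j := by
  rw [Finsupp.degree_eq_sum]; simp [fs]

theorem chain (n : ℕ) (u v : Fin n → Fin m → ℕ) (hu : ∀ i, ∑ j, u i j ≤ 2)
    (hv : ∀ i, ∑ j, v i j ≤ 2)
    (hind : LinearIndependent ℤ (fun (i : Fin n) (j : Fin m) => (u i j : ℤ) - v i j)) (N : ℕ) :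
    Sg n (fun k => ((classes (Submodule.span ℤ
      (Set.range fun (i : Fin n) (j : Fin m) => (u i j : ℤ) - v i j)) k).card : ℝ)) N ≤
      2 ^ n * ((N + m).choose m : ℝ) := by
  induction n with
  | zero =>
    simp only [Sg, pow_zero, one_mul]
    have : (classes (Submodule.span ℤ (Set.range fun (i : Fin 0) (j : Fin m) => (u i j : ℤ) - v i j)) N).card
        ≤ (monos (Fin m) N).card := by
      classical
      exact Finset.card_image_le
    have h2 := this.trans (card_monos_le N)
    rw [Fintype.card_fin] at h2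
    exact_mod_cast h2
  | succ n ih =>
    have h1 : LinearIndependent ℤ (fun (i : Fin n) (j : Fin m) => (u i.castSucc j : ℤ) - v i.castSucc j) :=
      hind.comp _ (Fin.castSucc_injective n)
    have ih' := ih (fun i => u i.castSucc) (fun i => v i.castSucc) (fun i => hu _) (fun i => hv _) h1
    rw [Sg_succ']
    set Γ := Submodule.span ℤ (Set.range fun (i : Fin n) (j : Fin m) =>
      (u i.castSucc j : ℤ) - v i.castSucc j) with hΓ
    set Γ' := Submodule.span ℤ (Set.range fun (i : Fin (n + 1)) (j : Fin m) =>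
      (u i j : ℤ) - v i j) with hΓ'
    have hΓΓ' : Γ' = Γ ⊔ Submodule.span ℤ {toInt (fs (u (Fin.last n))) - toInt (fs (v (Fin.last n)))} := by
      rw [hΓ, hΓ', ← Submodule.span_union]
      congr 1
      ext x
      simp only [Set.mem_range, Set.mem_union, Set.mem_singleton_iff, toInt_fs]
      constructor
      · rintro ⟨i, rfl⟩
        refine Fin.lastCases ?_ (fun j => ?_) i
        · right; rfl
        · left; exact ⟨j, rfl⟩
      · rintro (⟨j, rfl⟩ | rfl)
        · exact ⟨_, rfl⟩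
        · exact ⟨Fin.last n, rfl⟩
    have hstep : ∀ N, T2 (fun k => (classes Γ' k).card) N ≤ (classes Γ N).card := by
      intro N
      rw [hΓΓ']
      refine classes_step' Γ _ _ ?_ ?_ ?_ N
      · rw [degree_fs]; exact hu _
      · rw [degree_fs]; exact hv _
      · intro a ha
        rw [toInt_fs, toInt_fs] at ha
        obtain ⟨c, hc⟩ := (Submodule.mem_span_range_iff_exists_fun ℤ).1 ha
        have h4 := Fintype.linearIndependent_iff.1 hind (Fin.snoc c (-a)) (by
          rw [Fin.sum_univ_castSucc]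
          simp only [Fin.snoc_castSucc, Fin.snoc_last, neg_smul]
          rw [hc, ← sub_eq_add_neg]
          exact sub_self _) (Fin.last n)
        rw [Fin.snoc_last] at h4
        omega
    have hpart : ∀ k, (∑ i ∈ Finset.range (k + 1), ((classes Γ' i).card : ℝ)) ≤
        2 * ((classes Γ k).card : ℝ) := by
      intro k
      have := partial_le _ _ hstep (fun a b hab => Finset.card_le_card (classes_mono_deg Γ hab)) k
      exact_mod_cast this
    calc Sg n (fun k => ∑ i ∈ Finset.range (k + 1), ((classes Γ' i).card : ℝ)) N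
        ≤ Sg n (fun k => 2 * ((classes Γ k).card : ℝ)) N := Sg_mono' n hpart N
      _ = 2 * Sg n (fun k => ((classes Γ k).card : ℝ)) N := Sg_smul' n 2 _ N
      _ ≤ 2 * (2 ^ n * ((N + m).choose m : ℝ)) := by
          exact mul_le_mul_of_nonneg_left ih' (by norm_num)
      _ = 2 ^ (n + 1) * ((N + m).choose m : ℝ) := by ring

end GrowthAux

open Pool.Agent.W_MP_78a2de_al_h8 GrowthAux in
theorem growth {m n : ℕ} (u v : Fin n → Fin m → ℕ) (hu : ∀ i, ∑ j, u i j ≤ 2)
    (hv : ∀ i, ∑ j, v i j ≤ 2)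
    (hind : LinearIndependent ℤ (fun (i : Fin n) (j : Fin m) => (u i j : ℤ) - v i j))
    {S : Type} (c : (Fin m → ℤ) → S)
    (hc : ∀ w i, c (w + fun j => (u i j : ℤ) - v i j) = c w) (N : ℕ) :
    Sg n (fun k => (((fun w : Fin m → ℕ => c (fun j => (w j : ℤ))) ''
      {w | ∑ j, w j ≤ k}).ncard : ℝ)) N ≤ 2 ^ n * ((N + m).choose m : ℝ) := by
  classical
  refine le_trans (Sg_mono' n (fun k => ?_) N) (chain n u v hu hv hind N)
  set Γ := Submodule.span ℤ (Set.range fun (i : Fin n) (j : Fin m) => (u i j : ℤ) - v i j) with hΓ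
  have hcΓ : ∀ x ∈ Γ, ∀ w, c (w + x) = c w := by
    intro x hx
    induction hx using Submodule.span_induction with
    | mem x hx =>
      obtain ⟨i, rfl⟩ := hx
      intro w; exact hc w i
    | zero => intro w; rw [add_zero]
    | add x y _ _ hx hy => intro w; rw [← add_assoc, hy, hx]
    | smul a x _ hx =>
      intro w
      have hnat : ∀ (n : ℕ) (w : Fin m → ℤ), c (w + (n : ℤ) • x) = c w := by
        intro n
        induction n with
        | zero => intro w; simp
        | succ n ih =>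
          intro w
          rw [Nat.cast_succ, add_smul, one_smul, ← add_assoc, hx, ih]
      rcases Int.eq_nat_or_neg a with ⟨n, rfl | rfl⟩
      · exact hnat n w
      · have := hnat n (w + (-(n : ℤ)) • x)
        rw [neg_smul, neg_add_cancel_right] at this
        rw [neg_smul]
        exact this.symm
  let F : ((Fin m → ℤ) ⧸ Γ) → S := fun q => c (Quotient.out q)
  have hF : ∀ w : Fin m → ℤ, F (Γ.mkQ w) = c w := by
    intro w
    have h1 : Γ.mkQ (Quotient.out (Γ.mkQ w)) = Γ.mkQ w := Quotient.out_eq _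
    have h2 : Quotient.out (Γ.mkQ w) - w ∈ Γ := by
      have := (Submodule.Quotient.eq Γ).1 h1
      exact this
    have h3 := hcΓ _ h2 w
    rw [add_sub_cancel] at h3
    exact h3
  have hsub : ((fun w : Fin m → ℕ => c (fun j => (w j : ℤ))) '' {w | ∑ j, w j ≤ k}) ⊆
      (((classes Γ k).image F : Finset S) : Set S) := by
    rintro _ ⟨w, hw, rfl⟩
    rw [Finset.coe_image]
    refine ⟨Γ.mkQ (toInt (fs w)), ?_, ?_⟩
    · rw [Finset.mem_coe, mem_classes]
      exact ⟨fs w, by rw [degree_fs]; exact hw, rfl⟩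
    · rw [hF, toInt_fs]
  have h1 := Set.ncard_le_ncard hsub (Finset.finite_toSet _)
  rw [Set.ncard_coe_finset] at h1
  exact_mod_cast h1.trans Finset.card_image_le

end Pool.Agent.W_MP_78a2de_al
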