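import Pool.Agent.W_MP_78a2de_al.Defs

/-!
Splitting `ℤ^m` along the span of an independent family of vectors.
-/

namespace Pool.Agent.W_MP_78a2de_al

open MvPolynomial Filter

theorem lattice_split {m n : ℕ} (lam : Fin n → Fin m → ℤ) (hind : LinearIndependent ℤ lam) :
    ∃ (d T : ℕ) (π : (Fin m → ℤ) →ₗ[ℤ] (Fin d → ℤ)) (s : (Fin d → ℤ) →ₗ[ℤ] (Fin m → ℤ)),
      n + d = m ∧ 0 < T ∧ (∀ w, π (s w) = w) ∧ (∀ i, π (lam i) = 0) ∧
      (∀ w, π w = 0 → (T : ℤ) • w ∈ Submodule.span ℤ (Set.range lam)) ∧
      ∃ e : Fin n ⊕ Fin d ≃ Fin m, ∀ r : Fin d → Fin m → ℤ,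
        (T : ℤ) * |(Matrix.of fun i => π (r i)).det| =
          |(Matrix.of fun i => Sum.elim lam r (e.symm i)).det| := by
  classical
  obtain ⟨n', snf⟩ := Submodule.smithNormalForm (Pi.basisFun ℤ (Fin m))
    (Submodule.span ℤ (Set.range lam))
  have hn : n' = n := by
    have h1 := Module.finrank_eq_card_basis snf.bN
    have h2 := Module.finrank_eq_card_basis (Module.Basis.span hind)
    simp only [Fintype.card_fin] at h1 h2
    omega
  subst hn
  -- the complement of the range
  have hcard : Fintype.card {i : Fin m // i ∉ Set.range snf.f} = m - n' := by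
    have h := Fintype.card_subtype_compl (fun i : Fin m => i ∈ Set.range snf.f)
    rw [h, Fintype.card_fin]
    congr 1
    have := Set.card_range_of_injective snf.f.injective
    rw [Fintype.card_fin] at this
    convert this using 1
  have hle : n' ≤ m := by
    have := Fintype.card_le_of_embedding snf.f
    simpa using this
  let g : Fin (m - n') ≃ {i : Fin m // i ∉ Set.range snf.f} :=
    (Fintype.equivFinOfCardEq hcard).symm
  let e : Fin n' ⊕ Fin (m - n') ≃ Fin m := by
    refine Equiv.ofBijective (Sum.elim snf.f (fun j => (g j : Fin m))) ⟨?_, ?_⟩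
    · rintro (i | i) (j | j) h
      · simp only [Sum.elim_inl] at h
        rw [snf.f.injective h]
      · simp only [Sum.elim_inl, Sum.elim_inr] at h
        exact absurd ⟨i, h⟩ (g j).2
      · simp only [Sum.elim_inl, Sum.elim_inr] at h
        exact absurd ⟨j, h.symm⟩ (g i).2
      · simp only [Sum.elim_inr] at h
        rw [g.injective (Subtype.ext h)]
    · intro i
      by_cases hi : i ∈ Set.range snf.f
      · obtain ⟨j, hj⟩ := hi
        exact ⟨Sum.inl j, hj⟩
      · refine ⟨Sum.inr (g.symm ⟨i, hi⟩), ?_⟩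
        simp
  have hel : ∀ i, e (Sum.inl i) = snf.f i := fun i => rfl
  have her : ∀ i, e (Sum.inr i) = (g i : Fin m) := fun i => rfl
  -- the basis adapted to the splitting
  let B : Module.Basis (Fin n' ⊕ Fin (m - n')) ℤ (Fin m → ℤ) := snf.bM.reindex e.symm
  have hBr : ∀ w i, B.repr w i = snf.bM.repr w (e i) := by
    intro w i
    simp [B]
  have hB0 : ∀ w ∈ Submodule.span ℤ (Set.range lam), ∀ j, B.repr w (Sum.inr j) = 0 := by
    intro w hw j
    rw [hBr, her]
    exact snf.repr_eq_zero_of_notMem_range ⟨w, hw⟩ (g j).2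
  have ha : ∀ i, snf.a i ≠ 0 := by
    intro i h
    have h1 := snf.snf i
    rw [h, zero_smul] at h1
    exact snf.bN.ne_zero i (Subtype.ext h1)
  let π : (Fin m → ℤ) →ₗ[ℤ] (Fin (m - n') → ℤ) :=
    (LinearMap.funLeft ℤ ℤ Sum.inr) ∘ₗ B.equivFun.toLinearMap
  have hπ : ∀ w j, π w j = B.repr w (Sum.inr j) := by
    intro w j
    simp [π, LinearMap.funLeft_apply]
  let s : (Fin (m - n') → ℤ) →ₗ[ℤ] (Fin m → ℤ) :=
    (Fintype.linearCombination ℤ (fun j => B (Sum.inr j)))
  have hs : ∀ w, s w = ∑ j, w j • B (Sum.inr j) := by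
    intro w
    simp [s, Fintype.linearCombination_apply]
  have hlam : ∀ i, lam i ∈ Submodule.span ℤ (Set.range lam) := fun i =>
    Submodule.subset_span ⟨i, rfl⟩
  refine ⟨m - n', (∏ i, snf.a i).natAbs, π, s, by omega, ?_, ?_, ?_, ?_, e, ?_⟩
  · rw [Int.natAbs_pos]
    exact Finset.prod_ne_zero_iff.mpr fun i _ => ha i
  · intro w
    ext j
    rw [hπ, hs]
    rw [map_sum, Finsupp.coe_finsetSum, Finset.sum_apply]
    rw [Finset.sum_eq_single j]
    · rw [map_smul, Module.Basis.repr_self, Finsupp.smul_apply, Finsupp.single_eq_same, smul_eq_mul,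
        mul_one]
    · intro c _ hc
      rw [map_smul, Module.Basis.repr_self, Finsupp.smul_apply, Finsupp.single_apply, if_neg,
        smul_zero]
      exact fun h => hc (Sum.inr_injective h)
    · intro h
      exact absurd (Finset.mem_univ j) h
  · intro i
    ext j
    rw [hπ, hB0 _ (hlam i)]
    rfl
  · intro w hw
    have h1 : w = ∑ i, B.repr w i • B i := (B.sum_repr w).symm
    have h2 : w = ∑ i, B.repr w (Sum.inl i) • B (Sum.inl i) := by
      rw [Fintype.sum_sum_type] at h1
      have h3 : ∑ j, B.repr w (Sum.inr j) • B (Sum.inr j) = 0 := by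
        refine Finset.sum_eq_zero fun j _ => ?_
        rw [← hπ, hw]
        simp
      rw [h3, add_zero] at h1
      exact h1
    rw [h2, Finset.smul_sum]
    refine Submodule.sum_mem _ fun i _ => ?_
    have h4 : (snf.a i) ∣ (((∏ i, snf.a i).natAbs : ℕ) : ℤ) := by
      rw [Int.natCast_natAbs, dvd_abs]
      exact Finset.dvd_prod_of_mem _ (Finset.mem_univ i)
    obtain ⟨c, hc⟩ := h4
    have h5 : B (Sum.inl i) = snf.bM (snf.f i) := by
      simp [B, hel]
    have h6 : (((∏ i, snf.a i).natAbs : ℕ) : ℤ) • B.repr w (Sum.inl i) • B (Sum.inl i)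
        = (c * B.repr w (Sum.inl i)) • ((snf.bN i : Fin m → ℤ)) := by
      rw [hc, snf.snf i, h5, smul_smul, smul_smul]
      congr 1
      ring
    rw [h6]
    exact Submodule.smul_mem _ _ (snf.bN i).2
  · intro r
    -- the matrix of all vectors in the adapted basis
    have habs : ∀ x : ℤ, IsUnit x → |x| = 1 := fun x hx => Int.isUnit_iff_abs_eq.mp hx
    have h1 : |(Matrix.of fun i => Sum.elim lam r (e.symm i)).det| =
        |(B.toMatrix (Sum.elim lam r)).det| := by
      have h2 : (Matrix.of fun i => Sum.elim lam r (e.symm i)).det =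
          (Pi.basisFun ℤ (Fin m)).det (Sum.elim lam r ∘ e.symm) := by
        rw [Module.Basis.det_apply, ← Matrix.det_transpose]
        congr 1
      have h3 := congrArg (fun f => f (Sum.elim lam r ∘ e.symm))
        (AlternatingMap.eq_smul_basis_det (B.reindex e) (Pi.basisFun ℤ (Fin m)).det)
      simp only [AlternatingMap.smul_apply, smul_eq_mul] at h3
      rw [h2, h3, abs_mul, habs _ ((Pi.basisFun ℤ (Fin m)).isUnit_det _), one_mul,
        Module.Basis.det_reindex, Function.comp_assoc, Equiv.symm_comp_self, Function.comp_id,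
        Module.Basis.det_apply]
    have h2 : B.toMatrix (Sum.elim lam r) =
        Matrix.fromBlocks (Matrix.of fun i j => B.repr (lam j) (Sum.inl i))
          (Matrix.of fun i j => B.repr (r j) (Sum.inl i)) 0
          (Matrix.of fun i j => π (r j) i) := by
      ext (i | i) (j | j)
      · rfl
      · rfl
      · simp only [Module.Basis.toMatrix_apply, Sum.elim_inl, Matrix.fromBlocks_apply₂₁,
          Matrix.zero_apply]
        exact hB0 _ (hlam j) i
      · simp only [Module.Basis.toMatrix_apply, Sum.elim_inr, Matrix.fromBlocks_apply₂₂,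
          Matrix.of_apply, hπ]
    have h3 : (Matrix.of fun i j => π (r j) i).det = (Matrix.of fun i => π (r i)).det := by
      rw [← Matrix.det_transpose]
      rfl
    -- the top left block
    have h4 : (Matrix.of fun i j => B.repr (lam j) (Sum.inl i)) =
        Matrix.diagonal snf.a * snf.bN.toMatrix (Module.Basis.span hind) := by
      ext i j
      rw [Matrix.diagonal_mul, Matrix.of_apply, hBr, hel, Module.Basis.toMatrix_apply]
      have h5 := snf.repr_apply_embedding_eq_repr_smul (Module.Basis.span hind j) (i := i)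
      rw [map_smul, Finsupp.smul_apply, smul_eq_mul] at h5
      have h6 : ((Module.Basis.span hind j : Submodule.span ℤ (Set.range lam)) : Fin m → ℤ)
          = lam j := by
        rw [Module.Basis.span_apply hind j]
      rw [h6] at h5
      exact h5
    rw [h1, h2, Matrix.det_fromBlocks_zero₂₁, h3, h4, Matrix.det_mul, Matrix.det_diagonal,
      abs_mul, abs_mul, ← Module.Basis.det_apply, habs _ (snf.bN.isUnit_det _), mul_one,
      Int.natCast_natAbs]

end Pool.Agent.W_MP_78a2de_al
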