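import Pool.Agent.W_MP_78a2de_al.Defs

namespace Pool.Agent.W_MP_78a2de_al

open MvPolynomial Filter

/-- Evaluation `ℤ[W] → ℂ`, `W ↦ ω`. -/
noncomputable def evW (ω : ℂ) : Polynomial ℤ →+* ℂ := Polynomial.eval₂RingHom (Int.castRingHom ℂ) ω

/-! ### Hadamard's inequality -/

theorem hadamard_sq {n : ℕ} (A : Matrix (Fin n) (Fin n) ℂ) :
    ‖A.det‖ ^ 2 ≤ ∏ i, ∑ j, ‖A i j‖ ^ 2 := by
  classical
  set v : Fin n → EuclideanSpace ℂ (Fin n) := fun i => WithLp.toLp 2 (A i) with hv
  have hfr : Module.finrank ℂ (EuclideanSpace ℂ (Fin n)) = Fintype.card (Fin n) := by simp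
  set b := InnerProductSpace.gramSchmidtOrthonormalBasis hfr v with hbdef
  have hb : b.toBasis.det v = ∏ i, inner ℂ (b i) (v i) :=
    InnerProductSpace.gramSchmidtOrthonormalBasis_det hfr v
  set e := EuclideanSpace.basisFun (Fin n) ℂ with he
  have h1 : e.toBasis.toMatrix b.toBasis * b.toBasis.toMatrix v = e.toBasis.toMatrix v :=
    Module.Basis.toMatrix_mul_toMatrix _ _ _
  have h2 : e.toBasis.toMatrix v = A.transpose := by
    ext i j
    simp [Module.Basis.toMatrix_apply, he, hv]
  have h3 : ‖(e.toBasis.toMatrix b.toBasis).det‖ = 1 := by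
    have := e.det_to_matrix_orthonormalBasis b
    simpa [Module.Basis.det_apply] using this
  have h4 : ‖A.det‖ = ∏ i, ‖(inner ℂ (b i) (v i) : ℂ)‖ := by
    rw [← Matrix.det_transpose A, ← h2, ← h1, Matrix.det_mul, norm_mul, h3, one_mul]
    rw [Module.Basis.det_apply] at hb
    rw [hb, norm_prod]
  rw [h4, ← Finset.prod_pow]
  apply Finset.prod_le_prod
  · intro i _; positivity
  · intro i _
    have h5 : ‖(inner ℂ (b i) (v i) : ℂ)‖ ≤ ‖v i‖ := by
      have := norm_inner_le_norm (𝕜 := ℂ) (b i) (v i)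
      rwa [b.norm_eq_one, one_mul] at this
    calc ‖(inner ℂ (b i) (v i) : ℂ)‖ ^ 2 ≤ ‖v i‖ ^ 2 := by gcongr
      _ = ∑ j, ‖A i j‖ ^ 2 := by
        rw [EuclideanSpace.norm_sq_eq]

/-! ### The Mahler measure of a determinant -/

open MeasureTheory Set Real in
theorem logMahler_det_le {n : ℕ} (P : Matrix (Fin n) (Fin n) (Polynomial ℂ)) (c : Fin n → ℝ)
    (hc : ∀ i, 1 ≤ c i) (hrow : ∀ i, ∑ j, ((P i j).sum fun _ a => ‖a‖ ^ 2) ≤ c i)
    (hdet : P.det ≠ 0) :
    P.det.logMahlerMeasure ≤ 1 / 2 * ∑ i, Real.log (c i) := by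
  have hcpos : ∀ i, 0 < c i := fun i => lt_of_lt_of_le one_pos (hc i)
  set S : Fin n → ℂ → ℝ := fun i z => ∑ j, ‖(P i j).eval z‖ ^ 2 with hS
  set g : ℂ → ℝ := fun z => ∑ i, (1 / 2 * ((c i)⁻¹ * S i z + (Real.log (c i) - 1))) with hg
  have hSc : ∀ i, Continuous (S i) := by
    intro i
    simp only [hS]
    fun_prop
  have hgc : Continuous g := by
    simp only [hg]
    fun_prop
  have hevdet : ∀ z : ℂ, P.det.eval z = (P.map (Polynomial.eval z)).det := by
    intro z
    have := RingHom.map_det (Polynomial.evalRingHom z) P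
    simpa [RingHom.mapMatrix_apply] using this
  -- pointwise bound
  have hpt : ∀ z : ℂ, P.det.eval z ≠ 0 → Real.log ‖P.det.eval z‖ ≤ g z := by
    intro z hz
    have h1 : ‖P.det.eval z‖ ^ 2 ≤ ∏ i, S i z := by
      rw [hevdet]
      exact hadamard_sq _
    have hprod : 0 < ∏ i, S i z := lt_of_lt_of_le (by positivity) h1
    have hSpos : ∀ i, 0 < S i z := by
      intro i
      have h0 : 0 ≤ S i z := by simp only [hS]; positivity
      rcases h0.lt_or_eq with h | h
      · exact h
      · exfalso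
        have : ∏ i, S i z = 0 := Finset.prod_eq_zero (Finset.mem_univ i) h.symm
        linarith
    have h2 : 2 * Real.log ‖P.det.eval z‖ ≤ ∑ i, Real.log (S i z) := by
      rw [← Real.log_prod (fun i _ => (hSpos i).ne')]
      calc 2 * Real.log ‖P.det.eval z‖ = Real.log (‖P.det.eval z‖ ^ 2) := by
            rw [Real.log_pow]; norm_num
        _ ≤ _ := Real.log_le_log (by positivity) h1
    have h3 : ∀ i, Real.log (S i z) ≤ (c i)⁻¹ * S i z + (Real.log (c i) - 1) := by
      intro i
      have h4 := Real.log_le_sub_one_of_pos (mul_pos (inv_pos.mpr (hcpos i)) (hSpos i))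
      rw [Real.log_mul (inv_pos.mpr (hcpos i)).ne' (hSpos i).ne', Real.log_inv] at h4
      linarith
    have h4 : ∑ i, Real.log (S i z) ≤ ∑ i, ((c i)⁻¹ * S i z + (Real.log (c i) - 1)) :=
      Finset.sum_le_sum fun i _ => h3 i
    simp only [hg, ← Finset.mul_sum]
    linarith
  -- averages
  have hmono : circleAverage (fun z => Real.log ‖P.det.eval z‖) 0 1 ≤ circleAverage g 0 1 := by
    rw [circleAverage_def, circleAverage_def, smul_eq_mul, smul_eq_mul]
    gcongr
    apply intervalIntegral.integral_mono_ae_restrict (by positivity)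
      P.det.intervalIntegrable_mahlerMeasure
      (Continuous.intervalIntegrable (hgc.comp (continuous_circleMap 0 1)) _ _)
    rw [EventuallyLE, eventually_iff_exists_mem]
    use {x : ℝ | Polynomial.eval (circleMap 0 1 x) P.det ≠ 0}
    constructor
    · rw [mem_ae_iff, compl_def, Measure.restrict_apply' (by simp)]
      apply (Finite.of_sdiff _ <| finite_singleton (2 * π)).measure_zero
      simp only [ne_eq, mem_ofPred_eq, Decidable.not_not, inter_sdiff_assoc, Icc_sdiff_right]
      rw [ofPred_inter_eq_sep]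
      apply Finite.of_finite_image (f := circleMap 0 1)
        ((Multiset.finite_toSet P.det.roots).subset _)
        <| fun _ h _ k l ↦ injOn_circleMap_of_abs_sub_le' one_ne_zero (by linarith) h.1 k.1 l
      simp [hdet]
    · intro x hx
      exact hpt _ hx
  have havg : circleAverage g 0 1 ≤ 1 / 2 * ∑ i, Real.log (c i) := by
    have hci : ∀ f : ℂ → ℝ, Continuous f → CircleIntegrable f 0 1 := by
      intro f hf
      exact hf.continuousOn.circleIntegrable'
    have h1 : circleAverage g 0 1 =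
        ∑ i, (1 / 2 * ((c i)⁻¹ * circleAverage (S i) 0 1 + (Real.log (c i) - 1))) := by
      simp only [hg]
      rw [circleAverage_fun_sum (fun i _ => hci _ (by fun_prop))]
      refine Finset.sum_congr rfl fun i _ => ?_
      have e1 : circleAverage (fun z => 1 / 2 * ((c i)⁻¹ * S i z + (Real.log (c i) - 1))) 0 1 =
          1 / 2 * circleAverage (fun z => (c i)⁻¹ * S i z + (Real.log (c i) - 1)) 0 1 := by
        have := circleAverage_fun_smul (c := 0) (R := 1) (a := (1 / 2 : ℝ))
          (f := fun z => (c i)⁻¹ * S i z + (Real.log (c i) - 1))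
        simpa [smul_eq_mul] using this
      have e2 : circleAverage (fun z => (c i)⁻¹ * S i z + (Real.log (c i) - 1)) 0 1 =
          circleAverage (fun z => (c i)⁻¹ * S i z) 0 1 +
            circleAverage (fun _ => (Real.log (c i) - 1)) 0 1 :=
        circleAverage_fun_add (hci _ (by fun_prop)) (hci _ (by fun_prop))
      have e3 : circleAverage (fun z => (c i)⁻¹ * S i z) 0 1 =
          (c i)⁻¹ * circleAverage (S i) 0 1 := by
        have := circleAverage_fun_smul (c := 0) (R := 1) (a := (c i)⁻¹) (f := S i)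
        simpa [smul_eq_mul] using this
      rw [e1, e2, e3, circleAverage_const]
    rw [h1, Finset.mul_sum]
    apply Finset.sum_le_sum
    intro i _
    have h2 : circleAverage (S i) 0 1 ≤ c i := by
      refine le_trans (le_of_eq ?_) (hrow i)
      simp only [hS]
      rw [circleAverage_fun_sum (fun j _ => hci _ (by fun_prop))]
      refine Finset.sum_congr rfl fun j _ => ?_
      rw [← Polynomial.sum_sq_norm_coeff_eq_circleAverage, Polynomial.sum_def]
    have h3 : (c i)⁻¹ * circleAverage (S i) 0 1 ≤ 1 := by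
      rw [inv_mul_le_iff₀ (hcpos i)]; linarith
    linarith
  rw [Polynomial.logMahlerMeasure_def]
  exact hmono.trans havg

/-! ### Conjugates of a cyclotomic integer -/

theorem one_le_prod_evW {N : ℕ} (hN : 0 < N) (r : Polynomial ℤ) (ω : ℂ)
    (hω : IsPrimitiveRoot ω N) (hr : evW ω r ≠ 0) :
    (∀ ω' : ℂ, IsPrimitiveRoot ω' N → evW ω' r ≠ 0) ∧
      1 ≤ ∏ ω' ∈ primitiveRoots N ℂ, ‖evW ω' r‖ := by
  have : NeZero N := ⟨hN.ne'⟩
  have hcyc : IsCyclotomicExtension {N} ℚ (CyclotomicField N ℚ) :=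
    CyclotomicField.isCyclotomicExtension N ℚ
  set ζ : CyclotomicField N ℚ := IsCyclotomicExtension.zeta N ℚ (CyclotomicField N ℚ) with hζdef
  have hζ : IsPrimitiveRoot ζ N := IsCyclotomicExtension.zeta_spec N ℚ (CyclotomicField N ℚ)
  have hirr : Irreducible (Polynomial.cyclotomic N ℚ) := Polynomial.cyclotomic.irreducible_rat hN
  let eqv := hζ.embeddingsEquivPrimitiveRoots ℂ hirr
  let x : CyclotomicField N ℚ := Polynomial.aeval ζ r
  have hσ : ∀ σ : CyclotomicField N ℚ →ₐ[ℚ] ℂ, σ x = evW (eqv σ : ℂ) r := by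
    intro σ
    have h1 : ((eqv σ : primitiveRoots N ℂ) : ℂ) = σ ζ := rfl
    rw [h1]
    change (σ : CyclotomicField N ℚ →+* ℂ) (Polynomial.eval₂ (algebraMap ℤ (CyclotomicField N ℚ)) ζ r) =
      Polynomial.eval₂ (Int.castRingHom ℂ) (σ ζ) r
    rw [Polynomial.hom_eval₂]
    congr 1
    exact RingHom.ext_int _ _
  have hsurj : ∀ ω' : ℂ, IsPrimitiveRoot ω' N → ∃ σ : CyclotomicField N ℚ →ₐ[ℚ] ℂ, (eqv σ : ℂ) = ω' := by
    intro ω' hω'
    refine ⟨eqv.symm ⟨ω', (mem_primitiveRoots hN).mpr hω'⟩, ?_⟩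
    simp
  have hx : x ≠ 0 := by
    intro hx
    obtain ⟨σ, hσ'⟩ := hsurj ω hω
    apply hr
    rw [← hσ', ← hσ, hx, map_zero]
  refine ⟨?_, ?_⟩
  · intro ω' hω' h0
    obtain ⟨σ, hσ'⟩ := hsurj ω' hω'
    rw [← hσ', ← hσ] at h0
    exact hx ((map_eq_zero_iff σ σ.toRingHom.injective).mp h0)
  · have hint : IsIntegral ℤ x := by
      have hζi : IsIntegral ℤ ζ := hζ.isIntegral hN
      have : x ∈ Algebra.adjoin ℤ {ζ} := Polynomial.aeval_mem_adjoin_singleton _ _
      exact (Algebra.IsIntegral.adjoin (by simpa using hζi)).isIntegral ⟨x, this⟩ |>.map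
        (Algebra.adjoin ℤ {ζ}).val
    have hnorm := Algebra.norm_eq_prod_embeddings ℚ (E := ℂ) x
    have hnint : IsIntegral ℤ (Algebra.norm ℚ x) := Algebra.isIntegral_norm ℚ hint
    obtain ⟨k, hk⟩ := IsIntegrallyClosed.isIntegral_iff.mp hnint
    have hn0 : Algebra.norm ℚ x ≠ 0 := Algebra.norm_ne_zero_iff.mpr hx
    have hk0 : k ≠ 0 := by
      rintro rfl
      simp at hk
      exact hn0 hk.symm
    have hprod : ∏ ω' ∈ primitiveRoots N ℂ, evW ω' r = (k : ℂ) := by
      rw [← Finset.prod_coe_sort, ← Fintype.prod_equiv eqv (fun σ => σ x) _ (fun σ => hσ σ), ← hnorm,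
        ← hk]
      simp
    rw [← norm_prod, hprod]
    have : (1 : ℝ) ≤ |(k : ℝ)| := by
      have := Int.one_le_abs hk0
      exact_mod_cast this
    simpa using this

theorem mahler_det {n N : ℕ} (hN : 0 < N) (M : Matrix (Fin n) (Fin n) (Polynomial (Polynomial ℤ)))
    (c : Fin n → ℝ) (hc : ∀ i, 1 ≤ c i)
    (hrow : ∀ ω : ℂ, IsPrimitiveRoot ω N → ∀ i,
      ∑ j, (((M i j).map (evW ω)).sum fun _ a => ‖a‖ ^ 2) ≤ c i)
    (ω : ℂ) (hω : IsPrimitiveRoot ω N) (hdet : M.det.map (evW ω) ≠ 0) (z : ℂ)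
    (hz : (M.det.map (evW ω)).eval z = 0) :
    Real.log ‖z‖ ≤ N.totient / 2 * ∑ i, Real.log (c i) := by
  classical
  set R : ℂ → Polynomial ℂ := fun w => M.det.map (evW w) with hR
  set D := (R ω).natDegree with hD
  set r : Polynomial ℤ := M.det.coeff D with hr
  have hcoeff : ∀ w : ℂ, (R w).coeff D = evW w r := by
    intro w
    simp [hR, hr, Polynomial.coeff_map]
  have hrω : evW ω r ≠ 0 := by
    rw [← hcoeff, hD, Polynomial.coeff_natDegree]
    exact Polynomial.leadingCoeff_ne_zero.mpr hdet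
  obtain ⟨hne, hprod⟩ := one_le_prod_evW hN r ω hω hrω
  -- all conjugates have the same degree
  have hdeg : ∀ w : ℂ, IsPrimitiveRoot w N → (R w).natDegree = D := by
    intro w hw
    apply le_antisymm
    · rw [Polynomial.natDegree_le_iff_coeff_eq_zero]
      intro k hk
      by_contra hcon
      have h1 : evW w (M.det.coeff k) ≠ 0 := by
        simpa [hR, Polynomial.coeff_map] using hcon
      have h2 := (one_le_prod_evW hN _ w hw h1).1 ω hω
      apply h2
      have : (R ω).coeff k = 0 := Polynomial.coeff_eq_zero_of_natDegree_lt hk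
      simpa [hR, Polynomial.coeff_map] using this
    · apply Polynomial.le_natDegree_of_ne_zero
      rw [hcoeff]
      exact hne w hw
  have hlc : ∀ w : ℂ, IsPrimitiveRoot w N → (R w).leadingCoeff = evW w r := by
    intro w hw
    rw [Polynomial.leadingCoeff, hdeg w hw, hcoeff]
  have hRne : ∀ w : ℂ, IsPrimitiveRoot w N → R w ≠ 0 := by
    intro w hw h0
    have := hlc w hw
    rw [h0, Polynomial.leadingCoeff_zero] at this
    exact hne w hw this.symm
  -- upper bound
  have hup : ∀ w : ℂ, IsPrimitiveRoot w N →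
      (R w).logMahlerMeasure ≤ 1 / 2 * ∑ i, Real.log (c i) := by
    intro w hw
    have hmap : R w = ((Polynomial.mapRingHom (evW w)).mapMatrix M).det := by
      rw [← RingHom.map_det]
      rfl
    rw [hmap]
    apply logMahler_det_le _ c hc
    · intro i
      simpa using hrow w hw i
    · rw [← hmap]
      exact hRne w hw
  -- lower bound
  have hposlog : ∀ p : Polynomial ℂ, 0 ≤ (p.roots.map (fun a => Real.posLog ‖a‖)).sum := by
    intro p
    apply Multiset.sum_nonneg
    intro y hy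
    obtain ⟨a, _, rfl⟩ := Multiset.mem_map.mp hy
    exact Real.posLog_nonneg
  have hlow : ∀ w : ℂ, IsPrimitiveRoot w N → Real.log ‖evW w r‖ ≤ (R w).logMahlerMeasure := by
    intro w hw
    rw [Polynomial.logMahlerMeasure_eq_log_leadingCoeff_add_sum_log_roots, hlc w hw]
    linarith [hposlog (R w)]
  have hlowω : Real.log ‖evW ω r‖ + Real.log ‖z‖ ≤ (R ω).logMahlerMeasure := by
    rw [Polynomial.logMahlerMeasure_eq_log_leadingCoeff_add_sum_log_roots, hlc ω hω]
    have hzroot : z ∈ (R ω).roots := by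
      rw [Polynomial.mem_roots hdet]
      exact hz
    have h1 : Real.posLog ‖z‖ ≤ ((R ω).roots.map (fun a => Real.posLog ‖a‖)).sum := by
      apply Multiset.single_le_sum
      · intro y hy
        obtain ⟨a, _, rfl⟩ := Multiset.mem_map.mp hy
        exact Real.posLog_nonneg
      · exact Multiset.mem_map_of_mem _ hzroot
    have h2 : Real.log ‖z‖ ≤ Real.posLog ‖z‖ := le_max_right _ _
    linarith
  -- sum over all primitive roots
  have hωmem : ω ∈ primitiveRoots N ℂ := (mem_primitiveRoots hN).mpr hω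
  have hsum1 : ∑ w ∈ primitiveRoots N ℂ, Real.log ‖evW w r‖ + Real.log ‖z‖ ≤
      ∑ w ∈ primitiveRoots N ℂ, (R w).logMahlerMeasure := by
    rw [← Finset.add_sum_erase _ _ hωmem, ← Finset.add_sum_erase _ _ hωmem]
    have h3 : ∑ w ∈ (primitiveRoots N ℂ).erase ω, Real.log ‖evW w r‖ ≤
        ∑ w ∈ (primitiveRoots N ℂ).erase ω, (R w).logMahlerMeasure := by
      apply Finset.sum_le_sum
      intro w hw
      exact hlow w ((mem_primitiveRoots hN).mp (Finset.mem_of_mem_erase hw))
    linarith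
  have hsum2 : ∑ w ∈ primitiveRoots N ℂ, (R w).logMahlerMeasure ≤
      N.totient * (1 / 2 * ∑ i, Real.log (c i)) := by
    calc ∑ w ∈ primitiveRoots N ℂ, (R w).logMahlerMeasure
        ≤ ∑ w ∈ primitiveRoots N ℂ, (1 / 2 * ∑ i, Real.log (c i)) :=
          Finset.sum_le_sum fun w hw => hup w ((mem_primitiveRoots hN).mp hw)
      _ = _ := by
          rw [Finset.sum_const, Complex.card_primitiveRoots, nsmul_eq_mul]
  have hsum3 : 0 ≤ ∑ w ∈ primitiveRoots N ℂ, Real.log ‖evW w r‖ := by
    rw [← Real.log_prod]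
    · exact Real.log_nonneg hprod
    · intro w hw
      exact norm_ne_zero_iff.mpr (hne w ((mem_primitiveRoots hN).mp hw))
  have : N.totient / 2 * ∑ i, Real.log (c i) = N.totient * (1 / 2 * ∑ i, Real.log (c i)) := by ring
  rw [this]
  linarith

end Pool.Agent.W_MP_78a2de_al
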