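import Pool.Agent.W_MP_78a2de_al.Defs

/-! The toric coordinates satisfy the first asymptotic bounds (helper34). -/

namespace Pool.Agent.W_MP_78a2de_al

open MvPolynomial Filter

namespace StartAux

theorem Sg_mono_le (a : ℕ) {f g : ℕ → ℝ} (N : ℕ) (h : ∀ n ≤ N, f n ≤ g n) :
    Sg a f N ≤ Sg a g N := by
  induction a generalizing N with
  | zero => exact h N le_rfl
  | succ a ih =>
    refine Finset.sum_le_sum fun n hn => ih n fun i hi => h i ?_
    have := Finset.mem_range.mp hn
    omega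

theorem Sg_smul (a : ℕ) (r : ℝ) (f : ℕ → ℝ) (N : ℕ) : Sg a (fun n => r * f n) N = r * Sg a f N := by
  induction a generalizing N with
  | zero => rfl
  | succ a ih =>
    simp only [Sg]
    rw [Finset.mul_sum]
    exact Finset.sum_congr rfl fun n _ => ih n

/-- The exponent vectors of degree `k`. -/
noncomputable def Dk (J : Type) [Fintype J] (k : ℕ) : Finset (J → ℕ) := by
  classical
  exact (Fintype.piFinset (fun _ : J => Finset.range (k + 1))).filter (fun v => ∑ j, v j = k)

theorem mem_Dk {J : Type} [Fintype J] {k : ℕ} {v : J → ℕ} : v ∈ Dk J k ↔ ∑ j, v j = k := by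
  classical
  unfold Dk
  rw [Finset.mem_filter, Fintype.mem_piFinset]
  refine ⟨fun h => h.2, fun h => ⟨fun j => ?_, h⟩⟩
  rw [Finset.mem_range]
  have := Finset.single_le_sum (fun i _ => Nat.zero_le (v i)) (Finset.mem_univ j)
  omega

theorem card_Dk (J : Type) [Fintype J] (k : ℕ) : (Dk J k).card ≤ (k + 1) ^ Fintype.card J := by
  classical
  unfold Dk
  refine (Finset.card_filter_le _ _).trans ?_
  rw [Fintype.card_piFinset]
  simp

theorem aeval_eq_sum {J : Type} [Fintype J] {R D : Type} [CommRing R] [CommRing D] [Algebra R D]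
    (y : J → D) {k : ℕ} {u : MvPolynomial J R} (hu : u.IsHomogeneous k) :
    aeval y u = ∑ v ∈ Dk J k, coeff (Finsupp.equivFunOnFinite.symm v) u • ∏ j, y j ^ v j := by
  classical
  rw [aeval_def, eval₂_eq']
  have h1 : u.support ⊆ (Dk J k).map Finsupp.equivFunOnFinite.symm.toEmbedding := by
    intro d hd
    rw [Finset.mem_map]
    refine ⟨Finsupp.equivFunOnFinite d, ?_, by simp⟩
    rw [mem_Dk]
    have h2 := hu (mem_support_iff.mp hd)
    rw [Finsupp.weight_apply] at h2
    rw [← h2, Finsupp.sum_fintype _ _ (by simp)]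
    simp
  rw [Finset.sum_subset h1]
  · rw [Finset.sum_map]
    refine Finset.sum_congr rfl fun v _ => ?_
    rw [Algebra.smul_def]
    simp
  · intro d _ hd
    rw [notMem_support_iff] at hd
    simp [hd]

theorem toric_prod {J : Type} [Fintype J] {d : ℕ} (χ : J → Fin d → ℤ) (ζ : J → ℂ) (κ : ℤ)
    (v : J → ℕ) :
    ∏ j, toric χ ζ κ j ^ v j =
      monomial (∑ j, v j • Finsupp.equivFunOnFinite.symm fun i => (χ j i + κ).toNat)
        (∏ j, ζ j ^ v j) := by
  classical
  have h : ∀ j, toric χ ζ κ j ^ v j =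
      monomial (v j • Finsupp.equivFunOnFinite.symm fun i => (χ j i + κ).toNat) (ζ j ^ v j) := by
    intro j
    rw [toric, monomial_pow]
  simp only [h]
  have h3 : ∀ (s : Finset J) (f : J → (Fin d →₀ ℕ)) (g : J → ℂ),
      ∏ j ∈ s, (monomial (f j) (g j) : MvPolynomial (Fin d) ℂ) =
        monomial (∑ j ∈ s, f j) (∏ j ∈ s, g j) := by
    intro s f g
    induction s using Finset.induction_on with
    | empty => simp
    | insert a s ha ih =>
      rw [Finset.prod_insert ha, Finset.sum_insert ha, Finset.prod_insert ha, ih, monomial_mul]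
  exact h3 _ _ _

/-- The class of an exponent vector. -/
noncomputable def cl {J : Type} [Fintype J] {d : ℕ} (χ : J → Fin d → ℤ) (ζ : J → ℂ) (v : J → ℕ) :
    (Fin d → ℤ) × ℂ :=
  (∑ j, v j • χ j, (∏ j, ζ j ^ v j) ^ 2)

theorem toric_prod_eq {J : Type} [Fintype J] {d : ℕ} (χ : J → Fin d → ℤ) (ζ : J → ℂ) (κ : ℤ)
    (hκ : ∀ j i, 0 ≤ χ j i + κ) {k : ℕ} {v w : J → ℕ} (hv : ∑ j, v j = k) (hw : ∑ j, w j = k)
    (h : cl χ ζ v = cl χ ζ w) :
    ∏ j, toric χ ζ κ j ^ v j = ∏ j, toric χ ζ κ j ^ w j ∨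
      ∏ j, toric χ ζ κ j ^ v j = - ∏ j, toric χ ζ κ j ^ w j := by
  classical
  rw [toric_prod, toric_prod]
  have he : (∑ j, v j • Finsupp.equivFunOnFinite.symm fun i => (χ j i + κ).toNat : Fin d →₀ ℕ) =
      ∑ j, w j • Finsupp.equivFunOnFinite.symm fun i => (χ j i + κ).toNat := by
    ext i
    have h1 : ∑ j, v j • χ j = ∑ j, w j • χ j := congrArg Prod.fst h
    have h2 := congrFun h1 i
    rw [Finset.sum_apply, Finset.sum_apply] at h2
    have h2' : ∑ j, (v j : ℤ) * χ j i = ∑ j, (w j : ℤ) * χ j i := by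
      simpa using h2
    simp only [Finsupp.coe_finsetSum, Finsupp.coe_smul, Finset.sum_apply, Pi.smul_apply,
      Finsupp.equivFunOnFinite_symm_apply_apply, smul_eq_mul]
    have h3 : ∀ u : J → ℕ, ∑ j, u j = k →
        ((∑ j, u j * (χ j i + κ).toNat : ℕ) : ℤ) = (∑ j, (u j : ℤ) * χ j i) + k * κ := by
      intro u hu
      push_cast
      have h4 : ∀ j, ((u j : ℤ) * ((χ j i + κ).toNat : ℤ)) = (u j : ℤ) * χ j i + (u j : ℤ) * κ := by
        intro j
        rw [Int.toNat_of_nonneg (hκ j i)]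
        ring
      rw [Finset.sum_congr rfl fun j _ => h4 j, Finset.sum_add_distrib, ← Finset.sum_mul, ← hu]
      push_cast
      ring
    have h5 := h3 v hv
    have h6 := h3 w hw
    have h7 : ((∑ j, v j * (χ j i + κ).toNat : ℕ) : ℤ) = (∑ j, w j * (χ j i + κ).toNat : ℕ) := by
      rw [h5, h6, h2']
    exact_mod_cast h7
  have h1 : (∏ j, ζ j ^ v j) ^ 2 = (∏ j, ζ j ^ w j) ^ 2 := congrArg Prod.snd h
  rcases sq_eq_sq_iff_eq_or_eq_neg.mp h1 with h2 | h2
  · left; rw [he, h2]
  · right; rw [he, h2, ← map_neg]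

theorem exists_repr {J : Type} [Fintype J] {d : ℕ} (χ : J → Fin d → ℤ) (ζ : J → ℂ) (κ : ℤ)
    (hκ : ∀ j i, 0 ≤ χ j i + κ) (k : ℕ) :
    ∃ (r : (Fin d → ℤ) × ℂ → MvPolynomial (Fin d) ℂ) (ε : (J → ℕ) → ℤ),
      ∀ v ∈ Dk J k, |ε v| = 1 ∧ ∏ j, toric χ ζ κ j ^ v j = ε v • r (cl χ ζ v) := by
  classical
  let r : (Fin d → ℤ) × ℂ → MvPolynomial (Fin d) ℂ := fun c =>
    if h : ∃ v : J → ℕ, ∑ j, v j = k ∧ cl χ ζ v = c then ∏ j, toric χ ζ κ j ^ (h.choose j) else 0
  have hr : ∀ v ∈ Dk J k, ∃ e : ℤ, |e| = 1 ∧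
      ∏ j, toric χ ζ κ j ^ v j = e • r (cl χ ζ v) := by
    intro v hv
    rw [mem_Dk] at hv
    have h : ∃ w : J → ℕ, ∑ j, w j = k ∧ cl χ ζ w = cl χ ζ v := ⟨v, hv, rfl⟩
    have hr' : r (cl χ ζ v) = ∏ j, toric χ ζ κ j ^ (h.choose j) := by
      simp only [r]
      rw [dif_pos h]
    rw [hr']
    rcases toric_prod_eq χ ζ κ hκ hv h.choose_spec.1 h.choose_spec.2.symm with h1 | h1
    · exact ⟨1, by simp, by rw [h1, one_smul]⟩
    · exact ⟨-1, by simp, by rw [h1, neg_smul, one_smul]⟩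
  choose! ε hε using hr
  exact ⟨r, ε, hε⟩

theorem clSet_eq {J : Type} [Fintype J] {d : ℕ} (χ : J → Fin d → ℤ) (ζ : J → ℂ) (k : ℕ)
    [DecidableEq ((Fin d → ℤ) × ℂ)] :
    clSet χ ζ k = ((Dk J k).image (cl χ ζ) : Finset ((Fin d → ℤ) × ℂ)) := by
  ext c
  simp only [clSet, Set.mem_image, Finset.coe_image, Finset.mem_coe, mem_Dk]
  rfl

theorem cnt_le {J : Type} [Fintype J] {d : ℕ} (χ : J → Fin d → ℤ) (ζ : J → ℂ) (κ : ℤ)
    (hκ : ∀ j i, 0 ≤ χ j i + κ) (k H : ℕ) :
    cnt (toric χ ζ κ) k H ≤ (2 * ((k + 1) ^ Fintype.card J * H) + 1) ^ (clSet χ ζ k).ncard := by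
  classical
  obtain ⟨r, ε, hr⟩ := exists_repr χ ζ κ hκ k
  set C : Finset ((Fin d → ℤ) × ℂ) := (Dk J k).image (cl χ ζ) with hC
  set M : ℕ := (k + 1) ^ Fintype.card J * H with hM
  have hC' : (clSet χ ζ k).ncard = C.card := by
    rw [clSet_eq, Set.ncard_coe_finset]
  let P : Finset (C → ℤ) := Fintype.piFinset (fun _ : C => Finset.Icc (-(M : ℤ)) M)
  have hP : P.card = (2 * M + 1) ^ C.card := by
    simp only [P]
    rw [Fintype.card_piFinset]
    simp only [Int.card_Icc, Finset.prod_const, Finset.card_univ, Fintype.card_coe]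
    congr 1
    omega
  have hsub : (fun u : MvPolynomial J ℤ => aeval (toric χ ζ κ) u) '' forms J k H ⊆
      ((P.image fun n : C → ℤ => ∑ c : C, n c • r c) : Finset (MvPolynomial (Fin d) ℂ)) := by
    rintro _ ⟨u, ⟨hu1, hu2⟩, rfl⟩
    simp only [Finset.coe_image, Set.mem_image, Finset.mem_coe]
    refine ⟨fun c => ∑ v ∈ (Dk J k).filter (fun v => cl χ ζ v = c),
      coeff (Finsupp.equivFunOnFinite.symm v) u * ε v, ?_, ?_⟩
    · simp only [P]
      rw [Fintype.mem_piFinset]
      intro c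
      rw [Finset.mem_Icc, ← abs_le]
      refine (Finset.abs_sum_le_sum_abs _ _).trans ?_
      have h1 : ∀ v ∈ (Dk J k).filter (fun v => cl χ ζ v = c),
          |coeff (Finsupp.equivFunOnFinite.symm v) u * ε v| ≤ (H : ℤ) := by
        intro v hv
        rw [abs_mul, (hr v (Finset.mem_filter.mp hv).1).1, mul_one]
        exact hu2 _
      refine (Finset.sum_le_card_nsmul _ _ _ h1).trans ?_
      rw [nsmul_eq_mul, hM]
      have h2 : (((Dk J k).filter (fun v => cl χ ζ v = c)).card : ℤ) ≤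
          (((k + 1) ^ Fintype.card J : ℕ) : ℤ) := by
        exact_mod_cast (Finset.card_filter_le _ _).trans (card_Dk J k)
      push_cast at h2 ⊢
      exact mul_le_mul_of_nonneg_right h2 (by positivity)
    · rw [aeval_eq_sum _ hu1]
      have h1 : ∀ v ∈ Dk J k, cl χ ζ v ∈ C := fun v hv => Finset.mem_image_of_mem _ hv
      rw [← Finset.sum_fiberwise_of_maps_to h1]
      rw [← Finset.sum_coe_sort C]
      refine Finset.sum_congr rfl fun c _ => ?_
      rw [Finset.sum_smul]
      refine Finset.sum_congr rfl fun v hv => ?_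
      rw [Finset.mem_filter] at hv
      rw [(hr v hv.1).2, hv.2, mul_smul]
  unfold cnt
  rw [hC', ← hP]
  calc _ ≤ (((P.image fun n : C → ℤ => ∑ c : C, n c • r c) :
        Finset (MvPolynomial (Fin d) ℂ)) : Set (MvPolynomial (Fin d) ℂ)).ncard :=
        Set.ncard_le_ncard hsub (Finset.finite_toSet _)
    _ = (P.image fun n : C → ℤ => ∑ c : C, n c • r c).card := Set.ncard_coe_finset _
    _ ≤ P.card := Finset.card_image_le

theorem rk_le {J : Type} [Fintype J] {d : ℕ} (χ : J → Fin d → ℤ) (ζ : J → ℂ) (κ : ℤ)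
    (hκ : ∀ j i, 0 ≤ χ j i + κ) (k : ℕ) :
    rk (toric χ ζ κ) k ≤ (clSet χ ζ k).ncard := by
  classical
  obtain ⟨r, ε, hr⟩ := exists_repr χ ζ κ hκ k
  set C : Finset ((Fin d → ℤ) × ℂ) := (Dk J k).image (cl χ ζ) with hC
  have hC' : (clSet χ ζ k).ncard = C.card := by
    rw [clSet_eq, Set.ncard_coe_finset]
  have hsub : hspan (toric χ ζ κ) k ≤
      Submodule.span ℚ ((C.image r : Finset (MvPolynomial (Fin d) ℂ)) :
        Set (MvPolynomial (Fin d) ℂ)) := by
    rintro _ ⟨u, hu, rfl⟩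
    have hu' : u.IsHomogeneous k := hu
    change aeval (toric χ ζ κ) u ∈ _
    rw [aeval_eq_sum _ hu']
    refine Submodule.sum_mem _ fun v hv => Submodule.smul_mem _ _ ?_
    rw [(hr v hv).2]
    refine zsmul_mem ?_ _
    refine Submodule.subset_span ?_
    rw [Finset.mem_coe]
    exact Finset.mem_image_of_mem _ (Finset.mem_image_of_mem _ hv)
  rw [hC']
  have : Module.Finite ℚ (Submodule.span ℚ ((C.image r : Finset (MvPolynomial (Fin d) ℂ)) :
        Set (MvPolynomial (Fin d) ℂ))) := Module.Finite.span_finset ℚ _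
  unfold rk
  calc _ ≤ Module.finrank ℚ (Submodule.span ℚ ((C.image r : Finset (MvPolynomial (Fin d) ℂ)) :
        Set (MvPolynomial (Fin d) ℂ))) := Submodule.finrank_mono hsub
    _ ≤ (C.image r).card := finrank_span_finset_le_card _
    _ ≤ C.card := Finset.card_image_le

theorem choose_bound (N m : ℕ) :
    ((N + m).choose m : ℝ) ≤ ((N : ℝ) + m) ^ m / m.factorial := by
  have := Nat.choose_le_pow_div (α := ℝ) m (N + m)
  push_cast at this
  exact this

theorem tendsto_ratio (m : ℕ) :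
    Tendsto (fun N : ℕ => (((N : ℝ) + m) / N) ^ m) atTop (nhds 1) := by
  have h1 : Tendsto (fun N : ℕ => ((N : ℝ) + m) / N) atTop (nhds 1) := by
    have h2 : Tendsto (fun N : ℕ => 1 + (m : ℝ) / N) atTop (nhds (1 + 0)) :=
      tendsto_const_nhds.add (tendsto_const_div_atTop_nhds_zero_nat _)
    rw [add_zero] at h2
    refine h2.congr' ?_
    filter_upwards [eventually_gt_atTop 0] with N hN
    have : (N : ℝ) ≠ 0 := by positivity
    field_simp
  simpa using h1.pow m

/-- logarithm bound -/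
theorem tendsto_log (p c : ℕ) :
    Tendsto (fun N : ℕ => Real.log ((2 * ((N + 1) ^ p * 2 ^ (c * (Nat.sqrt N + 1))) + 1 : ℕ) : ℝ) / N)
      atTop (nhds 0) := by
  have hup : ∀ N : ℕ, 0 < N →
      Real.log ((2 * ((N + 1) ^ p * 2 ^ (c * (Nat.sqrt N + 1))) + 1 : ℕ) : ℝ) / N ≤
        Real.log 4 / N + p * (Real.log (N + 1) / N) + c * Real.log 2 * ((Real.sqrt N + 1) / N) := by
    intro N hN
    have hN' : (0 : ℝ) < N := by exact_mod_cast hN
    have h1 : Real.log ((2 * ((N + 1) ^ p * 2 ^ (c * (Nat.sqrt N + 1))) + 1 : ℕ) : ℝ) ≤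
        Real.log (4 * ((N + 1 : ℝ) ^ p * 2 ^ (c * (Nat.sqrt N + 1)))) := by
      refine Real.log_le_log (by positivity) ?_
      push_cast
      have : (1 : ℝ) ≤ (N + 1 : ℝ) ^ p * 2 ^ (c * (Nat.sqrt N + 1)) := by
        have h2 : (1 : ℝ) ≤ (N + 1 : ℝ) ^ p := one_le_pow₀ (by linarith)
        have h3 : (1 : ℝ) ≤ 2 ^ (c * (Nat.sqrt N + 1)) := one_le_pow₀ (by norm_num)
        nlinarith
      linarith
    have h2 : Real.log (4 * ((N + 1 : ℝ) ^ p * 2 ^ (c * (Nat.sqrt N + 1)))) =
        Real.log 4 + p * Real.log (N + 1) + c * Real.log 2 * (Nat.sqrt N + 1) := by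
      rw [Real.log_mul (by norm_num) (by positivity), Real.log_mul (by positivity) (by positivity),
        Real.log_pow, Real.log_pow]
      push_cast
      ring
    have h3 : (Nat.sqrt N : ℝ) ≤ Real.sqrt N := Real.nat_sqrt_le_real_sqrt
    have h4 : (c : ℝ) * Real.log 2 * (Nat.sqrt N + 1) ≤ c * Real.log 2 * (Real.sqrt N + 1) := by
      refine mul_le_mul_of_nonneg_left (by linarith) ?_
      have := Real.log_nonneg (by norm_num : (1 : ℝ) ≤ 2)
      positivity
    have h5 : Real.log ((2 * ((N + 1) ^ p * 2 ^ (c * (Nat.sqrt N + 1))) + 1 : ℕ) : ℝ) ≤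
        Real.log 4 + p * Real.log (N + 1) + c * Real.log 2 * (Real.sqrt N + 1) := by linarith
    calc _ ≤ (Real.log 4 + p * Real.log (N + 1) + c * Real.log 2 * (Real.sqrt N + 1)) / N :=
          div_le_div_of_nonneg_right h5 hN'.le
      _ = _ := by ring
  have hlo : ∀ N : ℕ,
      0 ≤ Real.log ((2 * ((N + 1) ^ p * 2 ^ (c * (Nat.sqrt N + 1))) + 1 : ℕ) : ℝ) / N := by
    intro N
    refine div_nonneg (Real.log_natCast_nonneg _) (by positivity)
  have hlim : Tendsto (fun N : ℕ => Real.log 4 / N + p * (Real.log (N + 1) / N) +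
      c * Real.log 2 * ((Real.sqrt N + 1) / N)) atTop (nhds (0 + p * 0 + c * Real.log 2 * 0)) := by
    refine ((tendsto_const_div_atTop_nhds_zero_nat _).add (Tendsto.const_mul _ ?_)).add
      (Tendsto.const_mul _ ?_)
    · have h1 : Tendsto (fun x : ℝ => Real.log x / (1 * x + (-1))) atTop (nhds 0) :=
        Real.tendsto_pow_log_div_mul_add_atTop 1 (-1) 1 one_ne_zero |>.congr fun x => by simp
      have h2 : Tendsto (fun N : ℕ => ((N : ℝ) + 1)) atTop atTop :=
        tendsto_atTop_add_const_right _ _ tendsto_natCast_atTop_atTop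
      refine (h1.comp h2).congr fun N => ?_
      simp
    · have h1 : Tendsto (fun x : ℝ => (Real.sqrt x + 1) / x) atTop (nhds 0) := by
        have h2 : Tendsto (fun x : ℝ => (Real.sqrt x)⁻¹ + x⁻¹) atTop (nhds (0 + 0)) :=
          (tendsto_inv_atTop_zero.comp Real.tendsto_sqrt_atTop).add tendsto_inv_atTop_zero
        rw [add_zero] at h2
        refine h2.congr' ?_
        filter_upwards [eventually_gt_atTop 0] with x hx
        have h3 : Real.sqrt x ≠ 0 := (Real.sqrt_pos.mpr hx).ne'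
        have h4 : Real.sqrt x * Real.sqrt x = x := Real.mul_self_sqrt hx.le
        rw [add_div, one_div]
        congr 1
        nth_rewrite 3 [← h4]
        field_simp
      exact h1.comp tendsto_natCast_atTop_atTop
  rw [mul_zero, mul_zero, add_zero, add_zero] at hlim
  refine squeeze_zero' (Eventually.of_forall hlo) ?_ hlim
  filter_upwards [eventually_gt_atTop 0] with N hN
  exact hup N hN

end StartAux

open StartAux in
/-- The toric coordinates satisfy the first asymptotic bounds. -/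
theorem toric_start {J : Type} [Fintype J] {d : ℕ} (χ : J → Fin d → ℤ) (ζ : J → ℂ) (κ : ℤ)
    (hκ : ∀ j i, 0 ≤ χ j i + κ) {a m : ℕ}
    {B : ℝ} (hg : ∀ N, Sg a (fun k => ((clSet χ ζ k).ncard : ℝ)) N ≤ B * ((N + m).choose m : ℝ)) :
    Bd (toric χ ζ κ) a m 0 ∧ Rk (toric χ ζ κ) a m B := by
  classical
  have hSg0 : ∀ (b : ℕ) (f : ℕ → ℝ), Sg b f 0 = f 0 := by
    intro b f
    induction b with
    | zero => rfl
    | succ b ih => simp [Sg, ih]
  have hB : 0 ≤ B := by
    have h1 := hg 0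
    rw [hSg0] at h1
    simp only [Nat.zero_add, Nat.choose_self, Nat.cast_one, mul_one] at h1
    exact le_trans (by positivity) h1
  have hr := tendsto_ratio m
  constructor
  · intro c δ hδ
    have hl := tendsto_log (Fintype.card J) c
    have hlim : Tendsto (fun N : ℕ => (B * (m + 1)) *
        ((Real.log ((2 * ((N + 1) ^ (Fintype.card J) * 2 ^ (c * (Nat.sqrt N + 1))) + 1 : ℕ) : ℝ) / N)
          * (((N : ℝ) + m) / N) ^ m)) atTop (nhds ((B * (m + 1)) * (0 * 1))) :=
      (hl.mul hr).const_mul _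
    rw [zero_mul, mul_zero] at hlim
    filter_upwards [hlim.eventually_le_const hδ, eventually_gt_atTop 0] with N hN hN0
    have hN' : (0 : ℝ) < N := by exact_mod_cast hN0
    set L : ℝ := Real.log
      ((2 * ((N + 1) ^ (Fintype.card J) * 2 ^ (c * (Nat.sqrt N + 1))) + 1 : ℕ) : ℝ) with hL
    have hL0 : 0 ≤ L := Real.log_natCast_nonneg _
    have h1 : Sg a (fun k => Real.log (cnt (toric χ ζ κ) k (2 ^ (c * (Nat.sqrt N + 1))))) N ≤
        Sg a (fun k => L * ((clSet χ ζ k).ncard : ℝ)) N := by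
      refine Sg_mono_le a N fun k hk => ?_
      have h2 := cnt_le χ ζ κ hκ k (2 ^ (c * (Nat.sqrt N + 1)))
      rcases Nat.eq_zero_or_pos (cnt (toric χ ζ κ) k (2 ^ (c * (Nat.sqrt N + 1)))) with h3 | h3
      · rw [h3]
        simp only [Nat.cast_zero, Real.log_zero]
        positivity
      · calc Real.log (cnt (toric χ ζ κ) k (2 ^ (c * (Nat.sqrt N + 1))))
            ≤ Real.log (((2 * ((k + 1) ^ Fintype.card J * 2 ^ (c * (Nat.sqrt N + 1))) + 1) ^
                (clSet χ ζ k).ncard : ℕ) : ℝ) :=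
              Real.log_le_log (by exact_mod_cast h3) (by exact_mod_cast h2)
          _ = ((clSet χ ζ k).ncard : ℝ) * Real.log
                ((2 * ((k + 1) ^ Fintype.card J * 2 ^ (c * (Nat.sqrt N + 1))) + 1 : ℕ) : ℝ) := by
              push_cast
              rw [Real.log_pow]
          _ ≤ ((clSet χ ζ k).ncard : ℝ) * L := by
              refine mul_le_mul_of_nonneg_left ?_ (by positivity)
              rw [hL]
              refine Real.log_le_log (by positivity) ?_
              have h4 : (k + 1) ^ Fintype.card J ≤ (N + 1) ^ Fintype.card J :=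
                Nat.pow_le_pow_left (by omega) _
              have h5 : 2 * ((k + 1) ^ Fintype.card J * 2 ^ (c * (Nat.sqrt N + 1))) + 1 ≤
                  2 * ((N + 1) ^ Fintype.card J * 2 ^ (c * (Nat.sqrt N + 1))) + 1 := by
                have := Nat.mul_le_mul_right (2 ^ (c * (Nat.sqrt N + 1))) h4
                omega
              exact_mod_cast h5
          _ = L * ((clSet χ ζ k).ncard : ℝ) := mul_comm _ _
    refine h1.trans ?_
    rw [Sg_smul, zero_add]
    have h6 : L * Sg a (fun k => ((clSet χ ζ k).ncard : ℝ)) N ≤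
        L * (B * (((N : ℝ) + m) ^ m / m.factorial)) :=
      mul_le_mul_of_nonneg_left
        ((hg N).trans (mul_le_mul_of_nonneg_left (choose_bound N m) hB)) hL0
    refine h6.trans ?_
    have hf : (0 : ℝ) < (m + 1).factorial := by exact_mod_cast Nat.factorial_pos _
    have hf' : (0 : ℝ) < m.factorial := by exact_mod_cast Nat.factorial_pos _
    have h7 := mul_le_mul_of_nonneg_right hN
      (by positivity : (0 : ℝ) ≤ (N : ℝ) ^ (m + 1) / (m + 1).factorial)
    have h8 : B * (m + 1) * (L / N * (((N : ℝ) + m) / N) ^ m) *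
        ((N : ℝ) ^ (m + 1) / (m + 1).factorial) = L * (B * (((N : ℝ) + m) ^ m / m.factorial)) := by
      rw [Nat.factorial_succ, div_pow, pow_succ]
      push_cast
      field_simp
    rw [h8] at h7
    rw [mul_div_assoc]
    exact h7
  · intro δ hδ
    have hlim : Tendsto (fun N : ℕ => B * (((N : ℝ) + m) / N) ^ m) atTop (nhds (B * 1)) :=
      hr.const_mul _
    rw [mul_one] at hlim
    filter_upwards [hlim.eventually_le_const (by linarith : B < B + δ),
      eventually_gt_atTop 0] with N hN hN0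
    have hN' : (0 : ℝ) < N := by exact_mod_cast hN0
    have hf' : (0 : ℝ) < m.factorial := by exact_mod_cast Nat.factorial_pos _
    have h1 : Sg a (fun k => (rk (toric χ ζ κ) k : ℝ)) N ≤
        Sg a (fun k => ((clSet χ ζ k).ncard : ℝ)) N :=
      Sg_mono_le a N fun k _ => by exact_mod_cast rk_le χ ζ κ hκ k
    refine h1.trans ((hg N).trans ((mul_le_mul_of_nonneg_left (choose_bound N m) hB).trans ?_))
    have h7 := mul_le_mul_of_nonneg_right hN
      (by positivity : (0 : ℝ) ≤ (N : ℝ) ^ m / m.factorial)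
    have h8 : B * (((N : ℝ) + m) / N) ^ m * ((N : ℝ) ^ m / m.factorial) =
        B * (((N : ℝ) + m) ^ m / m.factorial) := by
      rw [div_pow]
      field_simp
    rw [h8] at h7
    rw [mul_div_assoc]
    exact h7

end Pool.Agent.W_MP_78a2de_al
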