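import Pool.Agent.W_MP_78a2de_al.Defs

/-!
# Two of the sum equations already have finitely many common zeros
-/

namespace Pool.Agent.W_MP_78a2de_al

open MvPolynomial Filter

namespace PairAux

/-! ### an isogeny making the equation a Fermat equation -/

/-- the isogeny -/
noncomputable def phi (u v : Fin 2 → ℤ) (ε : ℤ) (x y : ℂ) : Fin 2 → ℂ :=
  ![x ^ (ε * v 1) * y ^ (-(ε * u 1)), x ^ (-(ε * v 0)) * y ^ (ε * u 0)]

lemma phi_ne_zero (u v : Fin 2 → ℤ) (ε : ℤ) {x y : ℂ} (hx : x ≠ 0) (hy : y ≠ 0) (i : Fin 2) :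
    phi u v ε x y i ≠ 0 := by
  fin_cases i
  · simp only [phi, Fin.zero_eta, Matrix.cons_val_zero]
    exact mul_ne_zero (zpow_ne_zero _ hx) (zpow_ne_zero _ hy)
  · simp only [phi, Fin.mk_one, Matrix.cons_val_one, Matrix.cons_val_zero]
    exact mul_ne_zero (zpow_ne_zero _ hx) (zpow_ne_zero _ hy)

lemma prod_phi (u v w : Fin 2 → ℤ) (ε : ℤ) {x y : ℂ} (hx : x ≠ 0) (hy : y ≠ 0) :
    ∏ i, phi u v ε x y i ^ w i =
      x ^ (ε * (v 1 * w 0 - v 0 * w 1)) * y ^ (ε * (u 0 * w 1 - u 1 * w 0)) := by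
  rw [Fin.prod_univ_two]
  simp only [phi, Matrix.cons_val_zero, Matrix.cons_val_one]
  rw [mul_zpow, mul_zpow, ← zpow_mul, ← zpow_mul, ← zpow_mul, ← zpow_mul]
  have e1 : ε * (v 1 * w 0 - v 0 * w 1) = ε * v 1 * w 0 + -(ε * v 0) * w 1 := by ring
  have e2 : ε * (u 0 * w 1 - u 1 * w 0) = -(ε * u 1) * w 0 + ε * u 0 * w 1 := by ring
  rw [e1, e2, zpow_add₀ hx, zpow_add₀ hy]
  ring

lemma phi_surj (u v : Fin 2 → ℤ) (ε : ℤ) {N : ℕ} (hN : 0 < N)
    (hD : ε * (u 0 * v 1 - u 1 * v 0) = N) (σ : Fin 2 → ℂ) (hσ : ∀ i, σ i ≠ 0) :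
    ∃ x y : ℂ, x ≠ 0 ∧ y ≠ 0 ∧ phi u v ε x y = σ := by
  have hDc : (ε : ℂ) * (u 0 * v 1 - u 1 * v 0) = N := by exact_mod_cast hD
  have hNc : (N : ℂ) ≠ 0 := by exact_mod_cast hN.ne'
  set p : ℂ := (u 0 * Complex.log (σ 0) + u 1 * Complex.log (σ 1)) / N with hp
  set q : ℂ := (v 0 * Complex.log (σ 0) + v 1 * Complex.log (σ 1)) / N with hq
  refine ⟨Complex.exp p, Complex.exp q, Complex.exp_ne_zero _, Complex.exp_ne_zero _, ?_⟩
  have key : ∀ a b : ℤ, Complex.exp p ^ a * Complex.exp q ^ b = Complex.exp (a * p + b * q) := by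
    intro a b
    rw [Complex.exp_add, ← Complex.exp_int_mul, ← Complex.exp_int_mul]
  funext i
  fin_cases i
  · simp only [phi, Fin.zero_eta, Matrix.cons_val_zero]
    rw [key]
    have : (((ε * v 1 : ℤ) : ℂ)) * p + ((-(ε * u 1) : ℤ) : ℂ) * q = Complex.log (σ 0) := by
      rw [hp, hq]
      push_cast
      field_simp
      linear_combination Complex.log (σ 0) * hDc
    rw [this, Complex.exp_log (hσ 0)]
  · simp only [phi, Fin.mk_one, Matrix.cons_val_one, Matrix.cons_val_zero]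
    rw [key]
    have : (((-(ε * v 0) : ℤ) : ℂ)) * p + ((ε * u 0 : ℤ) : ℂ) * q = Complex.log (σ 1) := by
      rw [hp, hq]
      push_cast
      field_simp
      linear_combination Complex.log (σ 1) * hDc
    rw [this, Complex.exp_log (hσ 1)]

lemma det_ne_zero {u v : Fin 2 → ℤ} (h : LinearIndependent ℤ ![u, v]) :
    u 0 * v 1 - u 1 * v 0 ≠ 0 := by
  intro hD
  rw [LinearIndependent.pair_iff] at h
  have h1 := h (v 1) (-(u 1)) (by
    funext i
    fin_cases i
    · simp; linarith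
    · simp; ring)
  have h2 := h (v 0) (-(u 0)) (by
    funext i
    fin_cases i
    · simp; ring
    · simp; linarith)
  have h3 := h 1 0 (by
    funext i
    fin_cases i
    · simp; linarith [h2.2]
    · simp; linarith [h1.2])
  exact one_ne_zero h3.1

/-! ### the Fermat polynomial -/

section algebra

open Polynomial

/-- the polynomial `Y ^ N + κ0 + κ1 X ^ N` over `ℂ[X]` -/
noncomputable def FF (N : ℕ) (κ0 κ1 : ℂ) : Polynomial (Polynomial ℂ) :=
  Polynomial.X ^ N + Polynomial.C (Polynomial.C κ0 + Polynomial.C κ1 * Polynomial.X ^ N)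

variable {N : ℕ} {κ0 κ1 : ℂ}

lemma FF_monic (hN : 0 < N) : (FF N κ0 κ1).Monic := Polynomial.monic_X_pow_add_C _ hN.ne'

lemma evalEval_FF (x y : ℂ) :
    (FF N κ0 κ1).evalEval x y = y ^ N + (κ0 + κ1 * x ^ N) := by
  simp [FF, Polynomial.evalEval]

lemma FF_irreducible (hN : 0 < N) (h0 : κ0 ≠ 0) (h1 : κ1 ≠ 0) : Irreducible (FF N κ0 κ1) := by
  obtain ⟨ρ, hρ⟩ := IsAlgClosed.exists_pow_nat_eq (-κ0 / κ1) hN
  have hroot : κ0 + κ1 * ρ ^ N = 0 := by
    rw [hρ]; field_simp; ring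
  have hρ0 : ρ ≠ 0 := by
    rintro rfl
    rw [zero_pow hN.ne', mul_zero, add_zero] at hroot
    exact h0 hroot
  set h : Polynomial ℂ := Polynomial.C κ0 + Polynomial.C κ1 * Polynomial.X ^ N with hh
  have hF : FF N κ0 κ1 = Polynomial.X ^ N + Polynomial.C h := rfl
  have hprime : (Ideal.span {(Polynomial.X - Polynomial.C ρ : Polynomial ℂ)}).IsPrime :=
    (Ideal.span_singleton_prime (Polynomial.X_sub_C_ne_zero ρ)).2 (Polynomial.prime_X_sub_C ρ)
  have hdeg : (FF N κ0 κ1).degree = N := Polynomial.degree_X_pow_add_C hN h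
  refine Polynomial.irreducible_of_eisenstein_criterion hprime ?_ ?_ ?_ ?_ ?_
  · rw [(FF_monic hN).leadingCoeff]
    exact fun hmem => hprime.ne_top ((Ideal.eq_top_iff_one _).2 hmem)
  · intro n hn
    rw [hdeg] at hn
    have hn' : n < N := by exact_mod_cast hn
    rw [hF, Polynomial.coeff_add, Polynomial.coeff_X_pow, if_neg hn'.ne, zero_add]
    rcases Nat.eq_zero_or_pos n with rfl | hnpos
    · rw [Polynomial.coeff_C_zero, Ideal.mem_span_singleton, Polynomial.dvd_iff_isRoot,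
        Polynomial.IsRoot, hh]
      simpa using hroot
    · rw [Polynomial.coeff_C_of_ne_zero hnpos.ne']
      exact Ideal.zero_mem _
  · rw [hdeg]
    exact_mod_cast hN
  · rw [hF, Polynomial.coeff_add, Polynomial.coeff_X_pow, if_neg (by omega), zero_add,
      Polynomial.coeff_C_zero, Ideal.span_singleton_pow, Ideal.mem_span_singleton]
    rintro ⟨g, hg⟩
    have hd : Polynomial.derivative h = Polynomial.derivative
        ((Polynomial.X - Polynomial.C ρ) ^ 2 * g) := by rw [hg]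
    have hd1 : (Polynomial.derivative h).eval ρ = κ1 * (N * ρ ^ (N - 1)) := by
      rw [hh]; simp [Polynomial.derivative_X_pow]
    have hd2 : (Polynomial.derivative ((Polynomial.X - Polynomial.C ρ) ^ 2 * g)).eval ρ = 0 := by
      rw [Polynomial.derivative_mul, Polynomial.derivative_pow]
      simp
    rw [hd, hd2] at hd1
    have hNc : (N : ℂ) ≠ 0 := by exact_mod_cast hN.ne'
    have : κ1 * (N * ρ ^ (N - 1)) ≠ 0 := mul_ne_zero h1 (mul_ne_zero hNc (pow_ne_zero _ hρ0))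
    exact this hd1.symm
  · exact (FF_monic hN).isPrimitive

lemma finite_common (hN : 0 < N) (h0 : κ0 ≠ 0) (h1 : κ1 ≠ 0) (G : Polynomial (Polynomial ℂ))
    (hG : ¬ FF N κ0 κ1 ∣ G) :
    {z : ℂ × ℂ | (FF N κ0 κ1).evalEval z.1 z.2 = 0 ∧ G.evalEval z.1 z.2 = 0}.Finite := by
  have hirr := FF_irreducible hN h0 h1
  have hmon := FF_monic (κ0 := κ0) (κ1 := κ1) hN
  have hinj : Function.Injective (algebraMap (Polynomial ℂ) (FractionRing (Polynomial ℂ))) :=
    IsFractionRing.injective _ _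
  have hirrK := (hmon.irreducible_iff_irreducible_map_fraction_map
    (K := FractionRing (Polynomial ℂ))).1 hirr
  have hnd : ¬ (FF N κ0 κ1).map (algebraMap (Polynomial ℂ) (FractionRing (Polynomial ℂ))) ∣
      G.map (algebraMap (Polynomial ℂ) (FractionRing (Polynomial ℂ))) := by
    rw [Polynomial.map_dvd_map _ hinj hmon]
    exact hG
  obtain ⟨a, b, hab⟩ := hirrK.coprime_iff_not_dvd.2 hnd
  obtain ⟨b₁, hm₁, hb₁⟩ := IsLocalization.integerNormalization_spec
    (nonZeroDivisors (Polynomial ℂ)) a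
  obtain ⟨b₂, hm₂, hb₂⟩ := IsLocalization.integerNormalization_spec
    (nonZeroDivisors (Polynomial ℂ)) b
  set a' := IsLocalization.integerNormalization (nonZeroDivisors (Polynomial ℂ)) a
  set b' := IsLocalization.integerNormalization (nonZeroDivisors (Polynomial ℂ)) b
  set δ : Polynomial ℂ := (b₁ : Polynomial ℂ) * b₂ with hδ
  have hδ0 : δ ≠ 0 := mul_ne_zero (nonZeroDivisors.ne_zero hm₁) (nonZeroDivisors.ne_zero hm₂)
  have hid : Polynomial.C (b₂ : Polynomial ℂ) * a' * FF N κ0 κ1 +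
      Polynomial.C (b₁ : Polynomial ℂ) * b' * G = Polynomial.C δ := by
    apply Polynomial.map_injective _ hinj
    simp only [Polynomial.map_add, Polynomial.map_mul, Polynomial.map_C, hb₁, hb₂]
    rw [Algebra.smul_def, Algebra.smul_def, hδ, map_mul, Polynomial.C_mul]
    simp only [Polynomial.algebraMap_apply] at *
    linear_combination Polynomial.C (algebraMap (Polynomial ℂ) (FractionRing (Polynomial ℂ)) b₁) *
      Polynomial.C (algebraMap (Polynomial ℂ) (FractionRing (Polynomial ℂ)) b₂) * hab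
  have hfin1 : {x : ℂ | δ.IsRoot x}.Finite := Polynomial.finite_setOfPred_isRoot hδ0
  have hfin2 : ∀ x : ℂ, {y : ℂ | y ^ N + (κ0 + κ1 * x ^ N) = 0}.Finite := by
    intro x
    have hm : (Polynomial.X ^ N + Polynomial.C (κ0 + κ1 * x ^ N) : Polynomial ℂ) ≠ 0 :=
      (Polynomial.monic_X_pow_add_C _ hN.ne').ne_zero
    refine (Polynomial.finite_setOfPred_isRoot hm).subset ?_
    intro y hy
    simpa [Polynomial.IsRoot] using hy
  refine (hfin1.biUnion fun x _ => (hfin2 x).image fun y => (x, y)).subset ?_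
  rintro ⟨x, y⟩ ⟨hz1, hz2⟩
  simp only at hz1 hz2
  have hx : δ.IsRoot x := by
    have := congrArg (fun p => Polynomial.evalEval x y p) hid
    simp only [Polynomial.evalEval_add, Polynomial.evalEval_mul, hz1, hz2, mul_zero, add_zero,
      Polynomial.evalEval_C] at this
    exact this.symm
  rw [evalEval_FF] at hz1
  exact Set.mem_biUnion hx ⟨y, hz1, rfl⟩

end algebra

end PairAux

open PairAux in
theorem finite_pair {J : Type} [Finite J] (χ : J → Fin 2 → ℤ) (ζ : J → ℂ) (hζ : ∀ j, ζ j ≠ 0)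
    (E : Set (J × J × J)) (hfin : (zeroSet χ ζ E).Finite) (e : J × J × J) (he : e ∈ E)
    (hnc : NonCol χ e) : ∃ e' ∈ E, (zeroSet χ ζ {e, e'}).Finite := by
  set u : Fin 2 → ℤ := χ e.2.1 - χ e.1 with hu
  set v : Fin 2 → ℤ := χ e.2.2 - χ e.1 with hv
  have hD0 : u 0 * v 1 - u 1 * v 0 ≠ 0 := det_ne_zero hnc
  set D : ℤ := u 0 * v 1 - u 1 * v 0 with hD
  set ε : ℤ := D.sign with hε
  set N : ℕ := D.natAbs with hN
  have hNpos : 0 < N := Int.natAbs_pos.2 hD0
  have hεD : ε * (u 0 * v 1 - u 1 * v 0) = N := by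
    rw [← hD, hε, Int.sign_mul_self_eq_natAbs]
  -- exponents
  set P : (Fin 2 → ℤ) → ℤ := fun w => ε * (v 1 * w 0 - v 0 * w 1) with hP
  set R : (Fin 2 → ℤ) → ℤ := fun w => ε * (u 0 * w 1 - u 1 * w 0) with hR
  have hpt : ∀ (j : J) {x y : ℂ}, x ≠ 0 → y ≠ 0 →
      pt χ ζ (phi u v ε x y) j = ζ j * (x ^ P (χ j) * y ^ R (χ j)) := by
    intro j x y hx hy
    rw [pt, prod_phi u v (χ j) ε hx hy]
  set κ0 : ℂ := -(ζ e.1 / ζ e.2.2) with hκ0
  set κ1 : ℂ := -(ζ e.2.1 / ζ e.2.2) with hκ1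
  have hκ0' : κ0 ≠ 0 := neg_ne_zero.2 (div_ne_zero (hζ _) (hζ _))
  have hκ1' : κ1 ≠ 0 := neg_ne_zero.2 (div_ne_zero (hζ _) (hζ _))
  have hPb : P (χ e.2.1) = P (χ e.1) + N := by
    have h1 : P (χ e.2.1) - P (χ e.1) = ε * (u 0 * v 1 - u 1 * v 0) := by
      simp only [hP, hu, hv, Pi.sub_apply]; ring
    linarith
  have hPc : P (χ e.2.2) = P (χ e.1) := by
    have h1 : P (χ e.2.2) - P (χ e.1) = 0 := by
      simp only [hP, hu, hv, Pi.sub_apply]; ring
    linarith
  have hRb : R (χ e.2.1) = R (χ e.1) := by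
    have h1 : R (χ e.2.1) - R (χ e.1) = 0 := by
      simp only [hR, hu, hv, Pi.sub_apply]; ring
    linarith
  have hRc : R (χ e.2.2) = R (χ e.1) + N := by
    have h1 : R (χ e.2.2) - R (χ e.1) = ε * (u 0 * v 1 - u 1 * v 0) := by
      simp only [hR, hu, hv, Pi.sub_apply]; ring
    linarith
  -- the equation `e` in the new coordinates
  have heq : ∀ {x y : ℂ}, x ≠ 0 → y ≠ 0 →
      (SumEq (pt χ ζ (phi u v ε x y)) e ↔ (FF N κ0 κ1).evalEval x y = 0) := by
    intro x y hx hy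
    have hc : ζ e.2.2 ≠ 0 := hζ _
    have hx' : x ^ P (χ e.1) ≠ 0 := zpow_ne_zero _ hx
    have hy' : y ^ R (χ e.1) ≠ 0 := zpow_ne_zero _ hy
    have h1 : pt χ ζ (phi u v ε x y) e.1 + pt χ ζ (phi u v ε x y) e.2.1 -
        pt χ ζ (phi u v ε x y) e.2.2 =
        -(ζ e.2.2 * x ^ P (χ e.1) * y ^ R (χ e.1)) * (FF N κ0 κ1).evalEval x y := by
      rw [hpt _ hx hy, hpt _ hx hy, hpt _ hx hy, hPb, hPc, hRb, hRc, zpow_add₀ hx, zpow_add₀ hy,
        zpow_natCast, zpow_natCast, evalEval_FF, hκ0, hκ1]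
      field_simp
      ring
    unfold SumEq
    rw [← sub_eq_zero, h1]
    constructor
    · intro h2
      rcases mul_eq_zero.1 h2 with h3 | h3
      · exact absurd (neg_eq_zero.1 h3) (mul_ne_zero (mul_ne_zero hc hx') hy')
      · exact h3
    · intro h2
      rw [h2, mul_zero]
  -- the other equations as polynomials
  obtain ⟨M, hM⟩ : ∃ M : ℕ, ∀ j, 0 ≤ P (χ j) + M ∧ 0 ≤ R (χ j) + M := by
    have hf1 : (Set.range fun j => P (χ j)).Finite := Set.finite_range _
    have hf2 : (Set.range fun j => R (χ j)).Finite := Set.finite_range _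
    obtain ⟨b1, hb1⟩ := hf1.bddBelow
    obtain ⟨b2, hb2⟩ := hf2.bddBelow
    refine ⟨b1.natAbs + b2.natAbs, fun j => ?_⟩
    have h1 : b1 ≤ P (χ j) := hb1 ⟨j, rfl⟩
    have h2 : b2 ≤ R (χ j) := hb2 ⟨j, rfl⟩
    push_cast
    constructor
    · have := neg_abs_le b1
      have h3 := abs_nonneg b2
      linarith
    · have := neg_abs_le b2
      have h3 := abs_nonneg b1
      linarith
  set t : J → Polynomial (Polynomial ℂ) := fun j =>
    Polynomial.C (Polynomial.C (ζ j) * Polynomial.X ^ (P (χ j) + M).toNat) *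
      Polynomial.X ^ (R (χ j) + M).toNat with ht
  have htev : ∀ (j : J) {x y : ℂ}, x ≠ 0 → y ≠ 0 →
      (t j).evalEval x y = (x ^ M * y ^ M) * pt χ ζ (phi u v ε x y) j := by
    intro j x y hx hy
    rw [hpt j hx hy, ht]
    have h1 : x ^ (P (χ j) + M).toNat = x ^ P (χ j) * x ^ M := by
      rw [← zpow_natCast, Int.toNat_of_nonneg (hM j).1, zpow_add₀ hx, zpow_natCast]
    have h2 : y ^ (R (χ j) + M).toNat = y ^ R (χ j) * y ^ M := by
      rw [← zpow_natCast, Int.toNat_of_nonneg (hM j).2, zpow_add₀ hy, zpow_natCast]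
    simp only [Polynomial.evalEval, Polynomial.eval_mul, Polynomial.eval_C, Polynomial.eval_pow,
      Polynomial.eval_X]
    rw [h1, h2]
    ring
  set G : J × J × J → Polynomial (Polynomial ℂ) := fun e' => t e'.1 + t e'.2.1 - t e'.2.2 with hG
  have hGev : ∀ (e' : J × J × J) {x y : ℂ}, x ≠ 0 → y ≠ 0 →
      (SumEq (pt χ ζ (phi u v ε x y)) e' ↔ (G e').evalEval x y = 0) := by
    intro e' x y hx hy
    have hxy : x ^ M * y ^ M ≠ 0 := mul_ne_zero (pow_ne_zero _ hx) (pow_ne_zero _ hy)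
    have h1 : (G e').evalEval x y = (x ^ M * y ^ M) * (pt χ ζ (phi u v ε x y) e'.1 +
        pt χ ζ (phi u v ε x y) e'.2.1 - pt χ ζ (phi u v ε x y) e'.2.2) := by
      rw [hG]
      simp only [Polynomial.evalEval_sub, Polynomial.evalEval_add, htev _ hx hy]
      ring
    unfold SumEq
    rw [h1, ← sub_eq_zero]
    constructor
    · intro h2; rw [h2, mul_zero]
    · intro h2
      rcases mul_eq_zero.1 h2 with h3 | h3
      · exact absurd h3 hxy
      · exact h3
  by_contra hcon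
  push Not at hcon
  -- the Fermat polynomial divides all of them
  have hdvd : ∀ e' ∈ E, FF N κ0 κ1 ∣ G e' := by
    intro e' he'
    by_contra hnd
    refine hcon e' he' ?_
    refine ((finite_common hNpos hκ0' hκ1' (G e') hnd).image
      fun z => phi u v ε z.1 z.2).subset ?_
    rintro σ ⟨hσ0, hσ⟩
    obtain ⟨x, y, hx, hy, rfl⟩ := phi_surj u v ε hNpos hεD σ hσ0
    exact ⟨(x, y), ⟨(heq hx hy).1 (hσ e (Set.mem_insert _ _)),
      (hGev e' hx hy).1 (hσ e' (Set.mem_insert_of_mem _ rfl))⟩, rfl⟩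
  -- infinitely many zeros
  have hzero : ∀ {x y : ℂ}, x ≠ 0 → y ≠ 0 → (FF N κ0 κ1).evalEval x y = 0 →
      phi u v ε x y ∈ zeroSet χ ζ E := by
    intro x y hx hy h
    refine ⟨phi_ne_zero u v ε hx hy, fun e' he' => ?_⟩
    rw [hGev e' hx hy]
    obtain ⟨q, hq⟩ := hdvd e' he'
    rw [hq, Polynomial.evalEval_mul, h, zero_mul]
  have hinf : ({0, -κ0 / κ1} : Set ℂ)ᶜ.Infinite :=
    (Set.toFinite ({0, -κ0 / κ1} : Set ℂ)).infinite_compl
  refine hinf ((hfin.image fun σ => ∏ i, σ i ^ u i).subset ?_)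
  intro w hw
  simp only [Set.mem_compl_iff, Set.mem_insert_iff, Set.mem_singleton_iff, not_or] at hw
  obtain ⟨hw0, hw1⟩ := hw
  obtain ⟨x, hx⟩ := IsAlgClosed.exists_pow_nat_eq w hNpos
  have hx0 : x ≠ 0 := by
    rintro rfl
    rw [zero_pow hNpos.ne'] at hx
    exact hw0 hx.symm
  have hne : κ0 + κ1 * w ≠ 0 := by
    intro h
    apply hw1
    field_simp
    linear_combination h
  obtain ⟨y, hy⟩ := IsAlgClosed.exists_pow_nat_eq (-(κ0 + κ1 * w)) hNpos
  have hy0 : y ≠ 0 := by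
    rintro rfl
    rw [zero_pow hNpos.ne'] at hy
    exact hne (neg_eq_zero.1 hy.symm)
  refine ⟨phi u v ε x y, hzero hx0 hy0 ?_, ?_⟩
  · rw [evalEval_FF, hy, hx]; ring
  · simp only
    rw [prod_phi u v u ε hx0 hy0]
    have e1 : ε * (v 1 * u 0 - v 0 * u 1) = N := by rw [← hεD]; ring
    have e2 : ε * (u 0 * u 1 - u 1 * u 0) = 0 := by ring
    rw [e1, e2, zpow_zero, mul_one, zpow_natCast, hx]

end Pool.Agent.W_MP_78a2de_al
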