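import Pool.Agent.W_MP_78a2de_al.TwoDimCore

namespace Pool.Agent.W_MP_78a2de_al

open MvPolynomial Filter

namespace TwoDim

lemma totient_two_mul_le (T : ℕ) (hT : 0 < T) : (2 * T).totient ≤ T := by
  induction T using Nat.strong_induction_on with
  | _ T ih =>
    rcases Nat.even_or_odd T with h | h
    · rw [Nat.totient_two_mul_of_even h]
      obtain ⟨S, hS⟩ := h
      have := ih S (by omega) (by omega)
      rw [show T = 2 * S by omega]
      omega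
    · rw [Nat.totient_two_mul_of_odd h]
      exact Nat.totient_le T

/-- minimum of three integers -/
def mn (a : Fin 3 → ℤ) : ℤ := min (a 0) (min (a 1) (a 2))

/-- maximum of three integers -/
def mx (a : Fin 3 → ℤ) : ℤ := max (a 0) (max (a 1) (a 2))

/-- width -/
def wd (a : Fin 3 → ℤ) : ℕ := (mx a - mn a).toNat

/-- shifted sequence -/
def sh (a : Fin 3 → ℤ) (i : Fin 3) : ℕ := (a i - mn a).toNat

lemma mn_le (a : Fin 3 → ℤ) (i : Fin 3) : mn a ≤ a i := by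
  unfold mn; fin_cases i <;> simp

lemma le_mx (a : Fin 3 → ℤ) (i : Fin 3) : a i ≤ mx a := by
  unfold mx; fin_cases i <;> simp

lemma sh_cast (a : Fin 3 → ℤ) (i : Fin 3) : (sh a i : ℤ) = a i - mn a := by
  rw [sh, Int.toNat_of_nonneg]; have := mn_le a i; omega

lemma wd_cast (a : Fin 3 → ℤ) : (wd a : ℤ) = mx a - mn a := by
  rw [wd, Int.toNat_of_nonneg]; have := mn_le a 0; have := le_mx a 0; omega

lemma exists_mn (a : Fin 3 → ℤ) : ∃ i, a i = mn a := by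
  unfold mn
  rcases min_choice (a 0) (min (a 1) (a 2)) with h | h
  · exact ⟨0, h.symm⟩
  · rw [h]
    rcases min_choice (a 1) (a 2) with h | h
    · exact ⟨1, h.symm⟩
    · exact ⟨2, h.symm⟩

lemma exists_mx (a : Fin 3 → ℤ) : ∃ i, a i = mx a := by
  unfold mx
  rcases max_choice (a 0) (max (a 1) (a 2)) with h | h
  · exact ⟨0, h.symm⟩
  · rw [h]
    rcases max_choice (a 1) (a 2) with h | h
    · exact ⟨1, h.symm⟩
    · exact ⟨2, h.symm⟩

lemma sh_le (a : Fin 3 → ℤ) (i : Fin 3) : sh a i ≤ wd a := by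
  have h1 := sh_cast a i
  have h2 := wd_cast a
  have h3 := le_mx a i
  omega

lemma exists_sh_zero (a : Fin 3 → ℤ) : ∃ i, sh a i = 0 := by
  obtain ⟨i, hi⟩ := exists_mn a
  refine ⟨i, ?_⟩
  have h1 := sh_cast a i
  omega

lemma exists_sh_wd (a : Fin 3 → ℤ) : ∃ i, sh a i = wd a := by
  obtain ⟨i, hi⟩ := exists_mx a
  refine ⟨i, ?_⟩
  have h1 := sh_cast a i
  have h2 := wd_cast a
  omega

lemma exists_wd (a : Fin 3 → ℤ) : ∃ i j, a i - a j = wd a := by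
  obtain ⟨i, hi⟩ := exists_mx a
  obtain ⟨j, hj⟩ := exists_mn a
  refine ⟨i, j, ?_⟩
  have h2 := wd_cast a
  omega

/-- The indices of an equation. -/
def idx {J : Type} (e : J × J × J) : Fin 3 → J := ![e.1, e.2.1, e.2.2]

/-- The signs of an equation. -/
def sg : Fin 3 → ℤ := ![1, 1, -1]

lemma abs_sg (i : Fin 3) : |sg i| = 1 := by
  fin_cases i <;> simp [sg]

lemma tv_eq {J : Type} (u w : J → ℤ) (ζ : J → ℂ) (k : J → ℕ) (ω : ℂ) (hk : ∀ j, ω ^ k j = ζ j)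
    (e : J × J × J) {z θ : ℂ} (hz : z ≠ 0) (hθ : θ ≠ 0) :
    z ^ mn (u ∘ idx e) * θ ^ mn (w ∘ idx e) *
      tv (sh (w ∘ idx e)) (sh (u ∘ idx e)) (fun i => sg i * ω ^ k (idx e i)) z θ =
      ζ e.1 * z ^ u e.1 * θ ^ w e.1 + ζ e.2.1 * z ^ u e.2.1 * θ ^ w e.2.1 -
        ζ e.2.2 * z ^ u e.2.2 * θ ^ w e.2.2 := by
  have h : ∀ i, z ^ mn (u ∘ idx e) * θ ^ mn (w ∘ idx e) *
      (((sg i : ℤ) : ℂ) * ω ^ k (idx e i) * z ^ sh (u ∘ idx e) i * θ ^ sh (w ∘ idx e) i) =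
      ((sg i : ℤ) : ℂ) * (ζ (idx e i) * z ^ u (idx e i) * θ ^ w (idx e i)) := by
    intro i
    rw [hk, ← zpow_natCast z, ← zpow_natCast θ, sh_cast, sh_cast]
    rw [show z ^ u (idx e i) = z ^ mn (u ∘ idx e) * z ^ ((u ∘ idx e) i - mn (u ∘ idx e)) by
      rw [← zpow_add₀ hz]; congr 1; simp]
    rw [show θ ^ w (idx e i) = θ ^ mn (w ∘ idx e) * θ ^ ((w ∘ idx e) i - mn (w ∘ idx e)) by
      rw [← zpow_add₀ hθ]; congr 1; simp]
    ring
  rw [tv, Finset.mul_sum, Finset.sum_congr rfl fun i _ => h i, Fin.sum_univ_three]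
  simp [sg, idx]
  ring

/-- change of coordinates on the torus -/
noncomputable def cc (p q r s : ℤ) (z : ℂ × ℂ) : Fin 2 → ℂ :=
  ![z.1 ^ s * z.2 ^ (-q), z.1 ^ (-r) * z.2 ^ p]

lemma pt_cc {J : Type} (χ : J → Fin 2 → ℤ) (ζ : J → ℂ) (p q r s : ℤ) {z θ : ℂ} (hz : z ≠ 0)
    (hθ : θ ≠ 0) (j : J) :
    pt χ ζ (cc p q r s (z, θ)) j =
      ζ j * z ^ (s * χ j 0 - r * χ j 1) * θ ^ (p * χ j 1 - q * χ j 0) := by
  rw [pt, Fin.prod_univ_two]
  simp only [cc, Matrix.cons_val_zero, Matrix.cons_val_one, mul_zpow]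
  rw [← zpow_mul, ← zpow_mul, ← zpow_mul, ← zpow_mul, zpow_sub₀ hz, zpow_sub₀ hθ, neg_mul, neg_mul,
    zpow_neg, zpow_neg, div_eq_mul_inv, div_eq_mul_inv]
  ring

lemma sumEq_iff {J : Type} (χ : J → Fin 2 → ℤ) (ζ : J → ℂ) (p q r s : ℤ) {z θ : ℂ} (hz : z ≠ 0)
    (hθ : θ ≠ 0) (k : J → ℕ) (ω : ℂ) (hk : ∀ j, ω ^ k j = ζ j) (e : J × J × J) :
    SumEq (pt χ ζ (cc p q r s (z, θ))) e ↔
      tv (sh ((fun j => p * χ j 1 - q * χ j 0) ∘ idx e))
        (sh ((fun j => s * χ j 0 - r * χ j 1) ∘ idx e)) (fun i => sg i * ω ^ k (idx e i)) z θ = 0 := by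
  rw [SumEq, pt_cc χ ζ p q r s hz hθ, pt_cc χ ζ p q r s hz hθ, pt_cc χ ζ p q r s hz hθ, ← sub_eq_zero,
    ← tv_eq (fun j => s * χ j 0 - r * χ j 1) (fun j => p * χ j 1 - q * χ j 0) ζ k ω hk e hz hθ]
  rw [mul_eq_zero, or_iff_right]
  exact mul_ne_zero (zpow_ne_zero _ hz) (zpow_ne_zero _ hθ)

lemma cc_inv (p q r s : ℤ) (h : p * s - q * r = 1) (τ : Fin 2 → ℂ) (hτ : ∀ i, τ i ≠ 0) :
    cc p q r s (τ 0 ^ p * τ 1 ^ q, τ 0 ^ r * τ 1 ^ s) = τ := by
  funext i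
  fin_cases i
  · simp only [cc, mul_zpow, Fin.zero_eta, Matrix.cons_val_zero]
    rw [← zpow_mul, ← zpow_mul, ← zpow_mul, ← zpow_mul]
    rw [show τ 0 ^ (p * s) * τ 1 ^ (q * s) * (τ 0 ^ (r * -q) * τ 1 ^ (s * -q)) =
      (τ 0 ^ (p * s) * τ 0 ^ (r * -q)) * (τ 1 ^ (q * s) * τ 1 ^ (s * -q)) by ring]
    rw [← zpow_add₀ (hτ 0), ← zpow_add₀ (hτ 1), show p * s + r * -q = 1 by linarith,
      show q * s + s * -q = 0 by ring, zpow_one, zpow_zero, mul_one]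
  · simp only [cc, mul_zpow, Fin.mk_one, Matrix.cons_val_one, Matrix.cons_val_fin_one]
    rw [← zpow_mul, ← zpow_mul, ← zpow_mul, ← zpow_mul]
    rw [show τ 0 ^ (p * -r) * τ 1 ^ (q * -r) * (τ 0 ^ (r * p) * τ 1 ^ (s * p)) =
      (τ 0 ^ (p * -r) * τ 0 ^ (r * p)) * (τ 1 ^ (q * -r) * τ 1 ^ (s * p)) by ring]
    rw [← zpow_add₀ (hτ 0), ← zpow_add₀ (hτ 1), show q * -r + s * p = 1 by linarith,
      show p * -r + r * p = 0 by ring, zpow_one, zpow_zero, one_mul]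

lemma cc_inj (p q r s : ℤ) (h : p * s - q * r = 1) {z z' : ℂ × ℂ} (hz : z.1 ≠ 0) (hθ : z.2 ≠ 0)
    (hz' : z'.1 ≠ 0) (hθ' : z'.2 ≠ 0) (hcc : cc p q r s z = cc p q r s z') : z = z' := by
  have key : ∀ y : ℂ × ℂ, y.1 ≠ 0 → y.2 ≠ 0 →
      y = (cc p q r s y 0 ^ p * cc p q r s y 1 ^ q, cc p q r s y 0 ^ r * cc p q r s y 1 ^ s) := by
    rintro ⟨z, θ⟩ hz hθ
    simp only at hz hθ
    simp only [cc, mul_zpow, Matrix.cons_val_zero, Matrix.cons_val_one, Matrix.cons_val_fin_one]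
    simp only [← zpow_mul]
    ext
    · simp only
      rw [show z ^ (s * p) * θ ^ (-q * p) * (z ^ (-r * q) * θ ^ (p * q)) =
        (z ^ (s * p) * z ^ (-r * q)) * (θ ^ (-q * p) * θ ^ (p * q)) by ring]
      rw [← zpow_add₀ hz, ← zpow_add₀ hθ, show s * p + -r * q = 1 by linarith,
        show -q * p + p * q = 0 by ring, zpow_one, zpow_zero, mul_one]
    · simp only
      rw [show z ^ (s * r) * θ ^ (-q * r) * (z ^ (-r * s) * θ ^ (p * s)) =
        (z ^ (s * r) * z ^ (-r * s)) * (θ ^ (-q * r) * θ ^ (p * s)) by ring]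
      rw [← zpow_add₀ hz, ← zpow_add₀ hθ, show -q * r + p * s = 1 by linarith,
        show s * r + -r * s = 0 by ring, zpow_one, zpow_zero, one_mul]
  rw [key z hz hθ, key z' hz' hθ', hcc]

lemma cc_ne_zero (p q r s : ℤ) {z : ℂ × ℂ} (hz : z.1 ≠ 0) (hθ : z.2 ≠ 0) (i : Fin 2) :
    cc p q r s z i ≠ 0 := by
  fin_cases i
  · exact mul_ne_zero (zpow_ne_zero _ hz) (zpow_ne_zero _ hθ)
  · exact mul_ne_zero (zpow_ne_zero _ hz) (zpow_ne_zero _ hθ)

lemma nonCol_inj {J : Type} (χ : J → Fin 2 → ℤ) (e : J × J × J) (hnc : NonCol χ e) (i j : Fin 3)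
    (h0 : χ (idx e i) 0 = χ (idx e j) 0) (h1 : χ (idx e i) 1 = χ (idx e j) 1) : i = j := by
  have h : χ (idx e i) = χ (idx e j) := by
    funext t; fin_cases t
    · exact h0
    · exact h1
  unfold NonCol at hnc
  rw [LinearIndependent.pair_iff] at hnc
  have a1 : χ e.2.1 ≠ χ e.1 := fun h => by
    have := hnc 1 0 (by rw [h]; simp)
    exact absurd this.1 one_ne_zero
  have a2 : χ e.2.2 ≠ χ e.1 := fun h => by
    have := hnc 0 1 (by rw [h]; simp)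
    exact absurd this.2 one_ne_zero
  have a3 : χ e.2.2 ≠ χ e.2.1 := fun h => by
    have := hnc 1 (-1) (by rw [h]; simp)
    exact absurd this.1 one_ne_zero
  clear hnc h0 h1
  match i, j, h with
  | 0, 0, _ => rfl
  | 1, 1, _ => rfl
  | 2, 2, _ => rfl
  | 0, 1, h => exact absurd h.symm a1
  | 1, 0, h => exact absurd h a1
  | 0, 2, h => exact absurd h.symm a2
  | 2, 0, h => exact absurd h a2
  | 1, 2, h => exact absurd h.symm a3
  | 2, 1, h => exact absurd h a3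

lemma nonCol_width {J : Type} (χ : J → Fin 2 → ℤ) (e : J × J × J) (hnc : NonCol χ e)
    (p q r s : ℤ) (hpq : p * s - q * r = 1)
    (h : ∀ i j : Fin 3, p * χ (idx e i) 1 - q * χ (idx e i) 0 = p * χ (idx e j) 1 - q * χ (idx e j) 0) :
    False := by
  have hinj := nonCol_inj χ e hnc
  unfold NonCol at hnc
  rw [LinearIndependent.pair_iff] at hnc
  have h10 := h 1 0
  have h20 := h 2 0
  simp only [idx, Matrix.cons_val_zero, Matrix.cons_val_one, Matrix.cons_val] at h10 h20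
  -- differences are multiples of `(p, q)`
  set b0 := χ e.2.1 0 - χ e.1 0 with hb0
  set b1 := χ e.2.1 1 - χ e.1 1 with hb1
  set c0 := χ e.2.2 0 - χ e.1 0 with hc0
  set c1 := χ e.2.2 1 - χ e.1 1 with hc1
  have e1 : p * b1 = q * b0 := by rw [hb0, hb1]; linarith
  have e2 : p * c1 = q * c0 := by rw [hc0, hc1]; linarith
  -- `b = β (p, q)` with `β = s b0 - r b1`
  have hbp : b0 = p * (s * b0 - r * b1) := by
    calc b0 = (p * s - q * r) * b0 := by rw [hpq, one_mul]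
      _ = p * (s * b0) - r * (q * b0) := by ring
      _ = _ := by rw [← e1]; ring
  have hbq : b1 = q * (s * b0 - r * b1) := by
    calc b1 = (p * s - q * r) * b1 := by rw [hpq, one_mul]
      _ = s * (p * b1) - q * (r * b1) := by ring
      _ = _ := by rw [e1]; ring
  have hcp : c0 = p * (s * c0 - r * c1) := by
    calc c0 = (p * s - q * r) * c0 := by rw [hpq, one_mul]
      _ = p * (s * c0) - r * (q * c0) := by ring
      _ = _ := by rw [← e2]; ring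
  have hcq : c1 = q * (s * c0 - r * c1) := by
    calc c1 = (p * s - q * r) * c1 := by rw [hpq, one_mul]
      _ = s * (p * c1) - q * (r * c1) := by ring
      _ = _ := by rw [e2]; ring
  have := hnc (s * c0 - r * c1) (-(s * b0 - r * b1)) (by
    funext t
    fin_cases t
    · simp only [Fin.zero_eta, Pi.add_apply, Pi.smul_apply, Pi.sub_apply, smul_eq_mul, Pi.zero_apply,
        ← hb0, ← hc0]
      calc (s * c0 - r * c1) * b0 + -(s * b0 - r * b1) * c0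
          = (s * c0 - r * c1) * (p * (s * b0 - r * b1)) +
            -(s * b0 - r * b1) * (p * (s * c0 - r * c1)) := by rw [← hbp, ← hcp]
        _ = 0 := by ring
    · simp only [Fin.mk_one, Pi.add_apply, Pi.smul_apply, Pi.sub_apply, smul_eq_mul, Pi.zero_apply,
        ← hb1, ← hc1]
      calc (s * c0 - r * c1) * b1 + -(s * b0 - r * b1) * c1
          = (s * c0 - r * c1) * (q * (s * b0 - r * b1)) +
            -(s * b0 - r * b1) * (q * (s * c0 - r * c1)) := by rw [← hbq, ← hcq]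
        _ = 0 := by ring)
  have h3 : c0 = 0 := by rw [hcp, this.1, mul_zero]
  have h4 : c1 = 0 := by rw [hcq, this.1, mul_zero]
  have h5 := hinj 2 0 (by simp only [idx, Matrix.cons_val_zero, Matrix.cons_val]; omega)
    (by simp only [idx, Matrix.cons_val_zero, Matrix.cons_val]; omega)
  exact absurd h5 (by decide)

/-- The main estimate in coordinates. -/
theorem main (mahler_det : MahlerStmt) {J : Type} [Finite J] (χ : J → Fin 2 → ℤ) (ζ : J → ℂ) {T : ℕ} (hT : 0 < T)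
    (hζ : ∀ j, ζ j ^ (2 * T) = 1) (e e' : J × J × J) (τ : Fin 2 → ℂ)
    (hτ : τ ∈ zeroSet χ ζ {e, e'}) (hfin : (zeroSet χ ζ {e, e'}).Finite) (hnc : NonCol χ e)
    (p q r s : ℤ) (hpq : p * s - q * r = 1) :
    ∃ (m n : ℕ) (c : ℝ), (∃ i j, (m : ℤ) = (p * χ i 1 - q * χ i 0) - (p * χ j 1 - q * χ j 0)) ∧
      (∃ i j, (n : ℤ) = (p * χ i 1 - q * χ i 0) - (p * χ j 1 - q * χ j 0)) ∧
      (1 ≤ c ∧ (c = 5 ∨ (c = 9 ∧ n = 0))) ∧
      Real.log ‖τ 0 ^ p * τ 1 ^ q‖ ≤ T / 2 * (m * Real.log c + n * Real.log 3) := by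
  have : NeZero (2 * T) := ⟨by omega⟩
  set ω := Complex.exp (2 * Real.pi * Complex.I / (2 * T : ℕ)) with hω
  have hprim : IsPrimitiveRoot ω (2 * T) := Complex.isPrimitiveRoot_exp (2 * T) (by omega)
  choose k _ hk using fun j => hprim.eq_pow_of_pow_eq_one (hζ j)
  set W : J → ℤ := fun j => p * χ j 1 - q * χ j 0 with hW
  set U : J → ℤ := fun j => s * χ j 0 - r * χ j 1 with hU
  have hUW : ∀ i j, W i = W j → U i = U j → χ i 0 = χ j 0 ∧ χ i 1 = χ j 1 := by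
    intro i j h1 h2
    simp only [hW, hU] at h1 h2
    constructor
    · calc χ i 0 = (p * s - q * r) * χ i 0 := by rw [hpq, one_mul]
        _ = p * (s * χ i 0 - r * χ i 1) + r * (p * χ i 1 - q * χ i 0) := by ring
        _ = p * (s * χ j 0 - r * χ j 1) + r * (p * χ j 1 - q * χ j 0) := by rw [h1, h2]
        _ = (p * s - q * r) * χ j 0 := by ring
        _ = χ j 0 := by rw [hpq, one_mul]
    · calc χ i 1 = (p * s - q * r) * χ i 1 := by rw [hpq, one_mul]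
        _ = q * (s * χ i 0 - r * χ i 1) + s * (p * χ i 1 - q * χ i 0) := by ring
        _ = q * (s * χ j 0 - r * χ j 1) + s * (p * χ j 1 - q * χ j 0) := by rw [h1, h2]
        _ = (p * s - q * r) * χ j 1 := by ring
        _ = χ j 1 := by rw [hpq, one_mul]
  have hinj : ∀ i j, sh (W ∘ idx e) i = sh (W ∘ idx e) j → sh (U ∘ idx e) i = sh (U ∘ idx e) j →
      i = j := by
    intro i j h1 h2
    have h3 := sh_cast (W ∘ idx e) i
    have h4 := sh_cast (W ∘ idx e) j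
    have h5 := sh_cast (U ∘ idx e) i
    have h6 := sh_cast (U ∘ idx e) j
    have h7 : (W ∘ idx e) i = (W ∘ idx e) j := by omega
    have h8 : (U ∘ idx e) i = (U ∘ idx e) j := by omega
    obtain ⟨h9, h10⟩ := hUW _ _ h7 h8
    exact nonCol_inj χ e hnc i j h9 h10
  obtain ⟨i0, hi0⟩ := exists_sh_zero (W ∘ idx e)
  obtain ⟨i1, hi1⟩ := exists_sh_wd (W ∘ idx e)
  have hm : 0 < wd (W ∘ idx e) := by
    by_contra h0
    refine nonCol_width χ e hnc p q r s hpq fun i j => ?_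
    have h1 := wd_cast (W ∘ idx e)
    have h2 := le_mx (W ∘ idx e) i
    have h3 := le_mx (W ∘ idx e) j
    have h4 := mn_le (W ∘ idx e) i
    have h5 := mn_le (W ∘ idx e) j
    have : (W ∘ idx e) i = (W ∘ idx e) j := by omega
    exact this
  have hmem : ∀ y : ℂ × ℂ, y.1 ≠ 0 → y.2 ≠ 0 → (cc p q r s y ∈ zeroSet χ ζ {e, e'} ↔
      (tv (sh (W ∘ idx e)) (sh (U ∘ idx e)) (fun i => sg i * ω ^ k (idx e i)) y.1 y.2 = 0 ∧
       tv (sh (W ∘ idx e')) (sh (U ∘ idx e')) (fun i => sg i * ω ^ k (idx e' i)) y.1 y.2 = 0)) := by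
    rintro ⟨z, θ⟩ hz hθ
    have h1 := sumEq_iff χ ζ p q r s hz hθ k ω hk e
    have h2 := sumEq_iff χ ζ p q r s hz hθ k ω hk e'
    constructor
    · rintro ⟨-, h⟩
      exact ⟨h1.1 (h e (by simp)), h2.1 (h e' (by simp))⟩
    · rintro ⟨h3, h4⟩
      refine ⟨fun i => cc_ne_zero p q r s hz hθ i, ?_⟩
      intro f hf
      rcases hf with rfl | hf
      · exact h1.2 h3
      · rw [Set.mem_singleton_iff] at hf
        rw [hf]
        exact h2.2 h4
  have hfin' : {y : ℂ × ℂ | y.1 ≠ 0 ∧ y.2 ≠ 0 ∧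
      tv (sh (W ∘ idx e)) (sh (U ∘ idx e)) (fun i => sg i * ω ^ k (idx e i)) y.1 y.2 = 0 ∧
      tv (sh (W ∘ idx e')) (sh (U ∘ idx e')) (fun i => sg i * ω ^ k (idx e' i)) y.1 y.2 = 0}.Finite := by
    refine Set.Finite.of_finite_image (f := cc p q r s) (hfin.subset ?_) ?_
    · rintro _ ⟨y, ⟨hy1, hy2, hy3, hy4⟩, rfl⟩
      exact (hmem y hy1 hy2).2 ⟨hy3, hy4⟩
    · rintro y ⟨hy1, hy2, -, -⟩ y' ⟨hy1', hy2', -, -⟩ h
      exact cc_inj p q r s hpq hy1 hy2 hy1' hy2' h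
  have hz0 : τ 0 ^ p * τ 1 ^ q ≠ 0 := mul_ne_zero (zpow_ne_zero _ (hτ.1 0)) (zpow_ne_zero _ (hτ.1 1))
  have hθ0 : τ 0 ^ r * τ 1 ^ s ≠ 0 := mul_ne_zero (zpow_ne_zero _ (hτ.1 0)) (zpow_ne_zero _ (hτ.1 1))
  have hcom := (hmem (τ 0 ^ p * τ 1 ^ q, τ 0 ^ r * τ 1 ^ s) hz0 hθ0).1
    (by rw [cc_inv p q r s hpq τ hτ.1]; exact hτ)
  obtain ⟨c, hc1, hcoin, hcc⟩ : ∃ c : ℝ, 1 ≤ c ∧ coin (sh (W ∘ idx e')) (sh (U ∘ idx e')) ≤ c ∧
      (c = 5 ∨ (c = 9 ∧ wd (W ∘ idx e') = 0)) := by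
    by_cases h : ∀ i j, sh (W ∘ idx e') i = sh (W ∘ idx e') j
    · refine ⟨9, by norm_num, coin_le_nine _ _, Or.inr ⟨rfl, ?_⟩⟩
      obtain ⟨i0, hi0⟩ := exists_sh_zero (W ∘ idx e')
      obtain ⟨i1, hi1⟩ := exists_sh_wd (W ∘ idx e')
      rw [← hi1, h i1 i0, hi0]
    · exact ⟨5, by norm_num, coin_le_five _ _ h, Or.inl rfl⟩
  have key := core mahler_det (N := 2 * T) (by omega) (sh (W ∘ idx e)) (sh (U ∘ idx e)) (fun i => k (idx e i))
    (sh (W ∘ idx e')) (sh (U ∘ idx e')) (fun i => k (idx e' i)) sg sg abs_sg (fun i => (abs_sg i).le)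
    hinj i0 hi0 hm i1 hi1 (sh_le _) (sh_le (W ∘ idx e')) ω hprim hfin' hc1 hcoin _ _ hcom.1 hcom.2
  refine ⟨wd (W ∘ idx e), wd (W ∘ idx e'), c, ?_, ?_, ⟨hc1, hcc⟩, ?_⟩
  · obtain ⟨i, j, hij⟩ := exists_wd (W ∘ idx e)
    exact ⟨idx e i, idx e j, hij.symm⟩
  · obtain ⟨i, j, hij⟩ := exists_wd (W ∘ idx e')
    exact ⟨idx e' i, idx e' j, hij.symm⟩
  · refine key.trans ?_
    refine mul_le_mul_of_nonneg_right ?_ ?_
    · have : ((2 * T).totient : ℝ) ≤ T := by exact_mod_cast totient_two_mul_le T hT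
      linarith
    · have := Real.log_nonneg hc1
      positivity

end TwoDim

theorem two_dim_of (mahler_det : TwoDim.MahlerStmt) (finite_pair : TwoDim.PairStmt)
    {J : Type} [Finite J] (χ : J → Fin 2 → ℤ) (ζ : J → ℂ) {T : ℕ} (hT : 0 < T)
    (hζ : ∀ j, ζ j ^ (2 * T) = 1) (E : Set (J × J × J)) (τ : Fin 2 → ℂ) (hτ : τ ∈ zeroSet χ ζ E)
    (hfin : (zeroSet χ ζ E).Finite) {B : ℕ}
    (hdet : ∀ p q : Fin 2 → J, (T : ℤ) * |(Matrix.of fun i => χ (p i) - χ (q i)).det| ≤ B)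
    (e : J × J × J) (he : e ∈ E) (hnc : NonCol χ e) (l l0 : J) :
    Real.log ‖pt χ ζ τ l / pt χ ζ τ l0‖ ≤ B * ((Real.log 3 + Real.log 5) / 2) := by
  have hnormζ : ∀ j, ‖ζ j‖ = 1 := fun j =>
    Complex.norm_eq_one_of_pow_eq_one (hζ j) (by omega)
  have hζ0 : ∀ j, ζ j ≠ 0 := fun j h => by
    have := hnormζ j
    rw [h, norm_zero] at this
    exact zero_ne_one this
  have hlog3 : 0 ≤ Real.log 3 := Real.log_nonneg (by norm_num)
  have hlog5 : 0 ≤ Real.log 5 := Real.log_nonneg (by norm_num)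
  obtain ⟨e', he', hpair⟩ := finite_pair χ ζ hζ0 E hfin e he hnc
  have hτ' : τ ∈ zeroSet χ ζ {e, e'} := by
    refine ⟨hτ.1, ?_⟩
    intro f hf
    rcases hf with rfl | hf
    · exact hτ.2 _ he
    · rw [Set.mem_singleton_iff] at hf
      rw [hf]
      exact hτ.2 _ he'
  have hratio : ‖pt χ ζ τ l / pt χ ζ τ l0‖ =
      ‖τ 0 ^ (χ l 0 - χ l0 0) * τ 1 ^ (χ l 1 - χ l0 1)‖ := by
    rw [norm_div, pt, pt, norm_mul, norm_mul, hnormζ, hnormζ, one_mul, one_mul, Fin.prod_univ_two,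
      Fin.prod_univ_two, ← norm_div, zpow_sub₀ (hτ.1 0), zpow_sub₀ (hτ.1 1), mul_div_mul_comm]
  rw [hratio]
  by_cases hη : χ l 0 - χ l0 0 = 0 ∧ χ l 1 - χ l0 1 = 0
  · rw [hη.1, hη.2]
    simp only [zpow_zero, mul_one, norm_one, Real.log_one]
    positivity
  have hg : 0 < Int.gcd (χ l 0 - χ l0 0) (χ l 1 - χ l0 1) := by
    rw [Int.gcd_pos_iff]
    by_contra h
    push Not at h
    exact hη h
  obtain ⟨p, q, hpq, hp, hq⟩ := Int.exists_gcd_one hg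
  set g := Int.gcd (χ l 0 - χ l0 0) (χ l 1 - χ l0 1) with hgdef
  obtain ⟨s, r', hsr⟩ := Int.isCoprime_iff_gcd_eq_one.2 hpq
  obtain ⟨m, n, c, ⟨i, j, hm⟩, ⟨i', j', hn⟩, ⟨hc1, hcc⟩, hlog⟩ := TwoDim.main mahler_det χ ζ hT hζ e e' τ hτ' hpair
    hnc p q (-r') s (by linarith)
  have hpow : τ 0 ^ (χ l 0 - χ l0 0) * τ 1 ^ (χ l 1 - χ l0 1) = (τ 0 ^ p * τ 1 ^ q) ^ g := by
    rw [mul_pow, ← zpow_natCast, ← zpow_natCast, ← zpow_mul, ← zpow_mul, ← hp, ← hq]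
  have hB : ∀ (t : ℕ) (a b : J), (t : ℤ) = (p * χ a 1 - q * χ a 0) - (p * χ b 1 - q * χ b 0) →
      T * g * t ≤ B := by
    intro t a b ht
    have h1 := hdet ![l, a] ![l0, b]
    have h2 : (Matrix.of fun i => χ ((![l, a] : Fin 2 → J) i) - χ ((![l0, b] : Fin 2 → J) i)).det =
        (g : ℤ) * t := by
      rw [Matrix.det_fin_two]
      simp only [Matrix.of_apply, Matrix.cons_val_zero, Matrix.cons_val_one, Matrix.cons_val_fin_one,
        Pi.sub_apply]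
      rw [hp, hq, ht]
      ring
    rw [h2, abs_of_nonneg (by positivity)] at h1
    have : ((T * g * t : ℕ) : ℤ) ≤ (B : ℤ) := by push_cast; linarith
    exact_mod_cast this
  have hBm := hB m i j hm
  have hBn := hB n i' j' hn
  rw [hpow, norm_pow, Real.log_pow]
  have h1 : (g : ℝ) * Real.log ‖τ 0 ^ p * τ 1 ^ q‖ ≤
      (T * g * m : ℕ) * (Real.log c / 2) + (T * g * n : ℕ) * (Real.log 3 / 2) := by
    refine (mul_le_mul_of_nonneg_left hlog (Nat.cast_nonneg g)).trans (le_of_eq ?_)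
    push_cast
    ring
  refine h1.trans ?_
  have hBm' : ((T * g * m : ℕ) : ℝ) ≤ B := by exact_mod_cast hBm
  have hBn' : ((T * g * n : ℕ) : ℝ) ≤ B := by exact_mod_cast hBn
  rcases hcc with rfl | ⟨rfl, hn0⟩
  · have h2 := mul_le_mul_of_nonneg_right hBm' (show 0 ≤ Real.log 5 / 2 by positivity)
    have h3 := mul_le_mul_of_nonneg_right hBn' (show 0 ≤ Real.log 3 / 2 by positivity)
    linarith
  · rw [hn0, mul_zero, Nat.cast_zero, zero_mul, add_zero]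
    have h9 : Real.log 9 ≤ Real.log 3 + Real.log 5 := by
      rw [← Real.log_mul (by norm_num) (by norm_num)]
      exact Real.log_le_log (by norm_num) (by norm_num)
    have h4 : 0 ≤ Real.log 9 := Real.log_nonneg (by norm_num)
    have h2 := mul_le_mul_of_nonneg_right hBm' (show 0 ≤ Real.log 9 / 2 by positivity)
    have h5 := mul_le_mul_of_nonneg_left (show Real.log 9 / 2 ≤ (Real.log 3 + Real.log 5) / 2 by linarith)
      (Nat.cast_nonneg (α := ℝ) B)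
    linarith

end Pool.Agent.W_MP_78a2de_al
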