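import Pool.Agent.W_MP_78a2de_al.Mahler
import Pool.Agent.W_MP_78a2de_al.Pair
import Pool.Agent.W_MP_78a2de_al.TwoDimMain

namespace Pool.Agent.W_MP_78a2de_al

theorem two_dim {J : Type} [Finite J] (χ : J → Fin 2 → ℤ) (ζ : J → ℂ) {T : ℕ} (hT : 0 < T)
    (hζ : ∀ j, ζ j ^ (2 * T) = 1) (E : Set (J × J × J)) (τ : Fin 2 → ℂ) (hτ : τ ∈ zeroSet χ ζ E)
    (hfin : (zeroSet χ ζ E).Finite) {B : ℕ}
    (hdet : ∀ p q : Fin 2 → J, (T : ℤ) * |(Matrix.of fun i => χ (p i) - χ (q i)).det| ≤ B)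
    (e : J × J × J) (he : e ∈ E) (hnc : NonCol χ e) (l l0 : J) :
    Real.log ‖pt χ ζ τ l / pt χ ζ τ l0‖ ≤ B * ((Real.log 3 + Real.log 5) / 2) :=
  two_dim_of (fun hN M c hc hrow ω hω hdet z hz => mahler_det hN M c hc hrow ω hω hdet z hz)
    (fun χ ζ hζ E hfin e he hnc => finite_pair χ ζ hζ E hfin e he hnc) χ ζ hT hζ E τ hτ hfin hdet e he
    hnc l l0

end Pool.Agent.W_MP_78a2de_al
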