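import Pool.Agent.W_MP_78a2de_al.Torus
import Pool.Agent.W_MP_78a2de_al.Step
import Pool.Agent.W_MP_78a2de_al.Start
import Pool.Agent.W_MP_78a2de_al.EndBound
import Pool.Agent.W_MP_78a2de_al.Chain
import Pool.Agent.W_MP_78a2de_al.FirstCut
import Pool.Agent.W_MP_78a2de_al.TwoDim
import Pool.Agent.W_MP_78a2de_al.Cramer

/-!
Assembly of the proof of the modulus bound, for systems of sum and product equations on nonzero
coordinates.
-/

namespace Pool.Agent.W_MP_78a2de_al

open MvPolynomial Filter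


theorem sform_homog {J : Type} (e : J × J × J) : (sform e).IsHomogeneous 1 := by
  unfold sform
  exact ((isHomogeneous_X _ _).add (isHomogeneous_X _ _)).sub (isHomogeneous_X _ _)

theorem l1_sub_le {J : Type} (p q : MvPolynomial J ℤ) {a b : ℤ}
    (hp : ∑ v ∈ p.support, |coeff v p| ≤ a) (hq : ∑ v ∈ q.support, |coeff v q| ≤ b) :
    ∑ v ∈ (p - q).support, |coeff v (p - q)| ≤ a + b := by
  classical
  have h1 : ∑ v ∈ (p - q).support, |coeff v (p - q)| ≤
      ∑ v ∈ p.support ∪ q.support, |coeff v (p - q)| :=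
    Finset.sum_le_sum_of_subset_of_nonneg (support_sub J p q) fun _ _ _ => abs_nonneg _
  have h2 : ∑ v ∈ p.support ∪ q.support, |coeff v p| = ∑ v ∈ p.support, |coeff v p| := by
    symm
    apply Finset.sum_subset Finset.subset_union_left
    intro v _ hv
    rw [notMem_support_iff.1 hv, abs_zero]
  have h3 : ∑ v ∈ p.support ∪ q.support, |coeff v q| = ∑ v ∈ q.support, |coeff v q| := by
    symm
    apply Finset.sum_subset Finset.subset_union_right
    intro v _ hv
    rw [notMem_support_iff.1 hv, abs_zero]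
  calc ∑ v ∈ (p - q).support, |coeff v (p - q)|
      ≤ ∑ v ∈ p.support ∪ q.support, |coeff v (p - q)| := h1
    _ ≤ ∑ v ∈ p.support ∪ q.support, (|coeff v p| + |coeff v q|) := by
        apply Finset.sum_le_sum
        intro v _
        rw [coeff_sub]
        exact abs_sub _ _
    _ = ∑ v ∈ p.support, |coeff v p| + ∑ v ∈ q.support, |coeff v q| := by
        rw [Finset.sum_add_distrib, h2, h3]
    _ ≤ a + b := add_le_add hp hq

theorem l1_X {J : Type} (j : J) :
    ∑ v ∈ (X j : MvPolynomial J ℤ).support, |coeff v (X j : MvPolynomial J ℤ)| ≤ 1 := by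
  classical
  rw [support_X, Finset.sum_singleton, coeff_X, if_pos rfl]
  simp

theorem l1_neg {J : Type} (p : MvPolynomial J ℤ) {a : ℤ}
    (hp : ∑ v ∈ p.support, |coeff v p| ≤ a) : ∑ v ∈ (-p).support, |coeff v (-p)| ≤ a := by
  rw [support_neg]
  simpa using hp

theorem sform_norm {J : Type} (e : J × J × J) :
    ∑ v ∈ (sform e).support, |coeff v (sform e)| ≤ ((3 : ℕ) : ℤ) := by
  unfold sform
  have h1 : ∑ v ∈ (X e.1 + X e.2.1 : MvPolynomial J ℤ).support,
      |coeff v (X e.1 + X e.2.1 : MvPolynomial J ℤ)| ≤ 1 + 1 := by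
    have := l1_sub_le (X e.1) (-X e.2.1) (l1_X e.1) (l1_neg _ (l1_X e.2.1))
    rwa [sub_neg_eq_add] at this
  exact l1_sub_le _ _ h1 (l1_X e.2.2)

theorem NonCol.distinct {J : Type} {d : ℕ} {χ : J → Fin d → ℤ} {e : J × J × J}
    (h : NonCol χ e) : χ e.1 ≠ χ e.2.1 ∧ χ e.1 ≠ χ e.2.2 ∧ χ e.2.1 ≠ χ e.2.2 := by
  unfold NonCol at h
  refine ⟨fun h1 => ?_, fun h1 => ?_, fun h1 => ?_⟩
  · have := h.ne_zero 0
    simp [h1] at this
  · have := h.ne_zero 1
    simp [h1] at this
  · have := h.injective (a₁ := 0) (a₂ := 1) (by simp [h1])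
    simp at this

theorem sform_ne {J : Type} {d : ℕ} (χ : J → Fin d → ℤ) (ζ : J → ℂ) (hζ : ∀ j, ζ j ≠ 0) (κ : ℤ)
    (hκ : ∀ j i, 0 ≤ χ j i + κ) (e : J × J × J) (h1 : χ e.1 ≠ χ e.2.1) (h2 : χ e.1 ≠ χ e.2.2) :
    aeval (toric χ ζ κ) (sform e) ≠ 0 := by
  classical
  intro h
  have key : ∀ j j', χ j ≠ χ j' →
      (Finsupp.equivFunOnFinite.symm fun i => (χ j' i + κ).toNat : Fin d →₀ ℕ) ≠
        Finsupp.equivFunOnFinite.symm fun i => (χ j i + κ).toNat := by
    intro j j' hj heq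
    apply hj
    funext i
    have := DFunLike.congr_fun heq i
    simp only [Finsupp.equivFunOnFinite_symm_apply_apply] at this
    have h3 := hκ j i
    have h4 := hκ j' i
    omega
  have h3 := congrArg (coeff (Finsupp.equivFunOnFinite.symm fun i => (χ e.1 i + κ).toNat)) h
  unfold sform toric at h3
  simp only [map_sub, map_add, aeval_X, coeff_sub, coeff_add, coeff_monomial, coeff_zero,
    if_true, if_neg (key _ _ h1), if_neg (key _ _ h2)] at h3
  apply hζ e.1
  simpa using h3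

theorem ineq_pow {d : ℕ} (hd : 3 ≤ d) :
    Real.log 3 / 2 < 2 ^ (d - 1) * Real.log 2 - (d - 1) * Real.log 3 := by
  have h1 : 5 * Real.log 3 < 8 * Real.log 2 := by
    have : Real.log (3 ^ 5) < Real.log (2 ^ 8) := by
      apply Real.log_lt_log <;> norm_num
    rw [Real.log_pow, Real.log_pow] at this
    push_cast at this
    exact this
  have h2 : 0 < Real.log 2 := Real.log_pos (by norm_num)
  induction d, hd using Nat.le_induction with
  | base =>
    norm_num
    linarith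
  | succ n hn ih =>
    obtain ⟨k, rfl⟩ := Nat.exists_eq_add_of_le hn
    have e1 : 3 + k + 1 - 1 = (3 + k - 1) + 1 := by omega
    rw [e1, pow_succ]
    push_cast at ih ⊢
    have h3 : (4 : ℝ) ≤ 2 ^ (3 + k - 1) := by
      calc (4 : ℝ) = 2 ^ 2 := by norm_num
        _ ≤ 2 ^ (3 + k - 1) := by
          apply pow_le_pow_right₀ (by norm_num)
          omega
    nlinarith

theorem high_dim {J : Type} [Fintype J] {d a m : ℕ} (hd : 1 ≤ d) (ham : a + d = m)
    (χ : J → Fin d → ℤ) (ζ : J → ℂ) {T : ℕ} (hT : 0 < T) (hζ : ∀ j, ζ j ^ (2 * T) = 1)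
    (E : Set (J × J × J)) (τ : Fin d → ℂ) (hτ : τ ∈ zeroSet χ ζ E)
    (hfin : (zeroSet χ ζ E).Finite) {B : ℝ} (hB : 0 ≤ B)
    (hg : ∀ N, Sg a (fun k => ((clSet χ ζ k).ncard : ℝ)) N ≤ B * ((N + m).choose m : ℝ))
    (e : J × J × J) (he : e ∈ E) (hnc : NonCol χ e) {c : ℝ} (hc : Real.log 3 / 2 < c) (l l0 : J) :
    Real.log ‖pt χ ζ τ l / pt χ ζ τ l0‖ ≤ B * (c + (d - 1) * Real.log 3) := by
  have hζ0 : ∀ j, ζ j ≠ 0 := by
    intro j h
    have := hζ j
    rw [h, zero_pow (by omega)] at this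
    exact zero_ne_one this
  obtain ⟨κ, hκ⟩ : ∃ κ : ℤ, ∀ j i, 0 ≤ χ j i + κ := by
    refine ⟨∑ j, ∑ i, |χ j i|, fun j i => ?_⟩
    have h1 : |χ j i| ≤ ∑ i, |χ j i| :=
      Finset.single_le_sum (f := fun i => |χ j i|) (fun _ _ => abs_nonneg _) (Finset.mem_univ i)
    have h2 : ∑ i, |χ j i| ≤ ∑ j, ∑ i, |χ j i| :=
      Finset.single_le_sum (f := fun j => ∑ i, |χ j i|)
        (fun _ _ => Finset.sum_nonneg fun _ _ => abs_nonneg _) (Finset.mem_univ j)
    have h3 := neg_abs_le (χ j i)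
    linarith
  obtain ⟨hA0, hR0⟩ := toric_start χ ζ κ hκ hg
  have hval : ∀ j, aeval τ (toric χ ζ κ j) = (∏ i, τ i ^ κ) * pt χ ζ τ j := by
    intro j
    unfold toric pt
    rw [aeval_monomial]
    have h1 : ((Finsupp.equivFunOnFinite.symm fun i => (χ j i + κ).toNat : Fin d →₀ ℕ).prod
        fun i k => τ i ^ k) = ∏ i, τ i ^ (χ j i + κ) := by
      rw [Finsupp.prod_fintype _ _ (by simp)]
      apply Finset.prod_congr rfl
      intro i _
      simp only [Finsupp.equivFunOnFinite_symm_apply_apply]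
      rw [← zpow_natCast, Int.toNat_of_nonneg (hκ j i)]
    rw [h1]
    have h2 : ∏ i, τ i ^ (χ j i + κ) = (∏ i, τ i ^ χ j i) * ∏ i, τ i ^ κ := by
      rw [← Finset.prod_mul_distrib]
      exact Finset.prod_congr rfl fun i _ => zpow_add₀ (hτ.1 i) _ _
    rw [h2]
    simp only [Algebra.algebraMap_self, RingHom.id_apply]
    ring
  have hκτ : (∏ i, τ i ^ κ) ≠ 0 :=
    Finset.prod_ne_zero_iff.2 fun i _ => zpow_ne_zero _ (hτ.1 i)
  obtain ⟨hd1, hd2, hd3⟩ := hnc.distinct
  have hne : aeval (toric χ ζ κ) (sform e) ≠ 0 := sform_ne χ ζ hζ0 κ hκ e hd1 hd2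
  obtain ⟨q, hq0, hqd, hq1, hqp, hq⟩ := toric_chain χ ζ hζ0 κ hκ E τ hτ hfin e he hne
  have hqle : ∀ i ≤ d, q i ≤ q d := by
    intro i hi
    induction hi using Nat.decreasingInduction with
    | self => exact le_rfl
    | of_succ k hk ih => exact (hq k hk).1.trans ih
  have hX1 : ∀ i, X i ∉ q 1 := by
    intro i hi
    have := hqle 1 hd hi
    rw [hqd, RingHom.mem_ker, aeval_X] at this
    exact hτ.1 i this
  set y := toric χ ζ κ with hy
  have key : ∀ i, 1 ≤ i → i ≤ d →
      Bd (fun j => Ideal.Quotient.mk (q i) (y j)) (a + i) m (B * (c + (i - 1) * Real.log 3)) ∧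
      Rk (fun j => Ideal.Quotient.mk (q i) (y j)) (a + i) m B := by
    intro i hi
    induction i, hi using Nat.le_induction with
    | base =>
      intro h1d
      constructor
      · have hb := first_cut χ ζ hζ0 κ hκ e hd1 hd2 hd3 (q 1) (hqp 1 h1d) hX1 hq1 hA0 hR0 hc
        simpa using hb
      · have hs := step y (Ideal.Quotient.mkₐ ℚ (q 1)) (sform e) (L := 1) (Φ := 3) le_rfl
          (sform_homog e) (sform_norm e) hne
          (by
            rw [Ideal.Quotient.mkₐ_eq_mk, Ideal.Quotient.eq_zero_iff_mem]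
            exact hq1) hA0 hR0
        simpa using hs.2
    | succ i hi ih =>
      intro hid
      obtain ⟨hA, hR⟩ := ih (by omega)
      obtain ⟨hle, e', he', hn, hm⟩ := hq i (by omega)
      have := hqp i (by omega)
      have hs := step (fun j => Ideal.Quotient.mk (q i) (y j))
        (Ideal.Quotient.factorₐ ℚ hle) (sform e') (L := 1) (Φ := 3) le_rfl
        (sform_homog e') (sform_norm e')
        (by
          intro h0
          apply hn
          rw [← Ideal.Quotient.eq_zero_iff_mem, ← h0]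
          simp [sform])
        (by
          have : Ideal.Quotient.mk (q (i + 1)) (aeval y (sform e')) = 0 :=
            Ideal.Quotient.eq_zero_iff_mem.2 hm
          rw [← this]
          simp [sform]) hA hR
      constructor
      · have := hs.1
        have e1 : (1 : ℕ) * (B * (c + (i - 1) * Real.log 3)) + B * Real.log (3 : ℕ)
            = B * (c + (((i + 1 : ℕ) : ℝ) - 1) * Real.log 3) := by
          push_cast
          ring
        rw [e1] at this
        simpa [add_assoc] using this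
      · simpa [add_assoc] using hs.2
  obtain ⟨hA, -⟩ := key d hd le_rfl
  have hlift : Bd (fun j => aeval τ (y j)) m m (B * (c + (d - 1) * Real.log 3)) := by
    have h1 := Bd.map _ (Ideal.Quotient.lift (q d) (aeval τ : MvPolynomial (Fin d) ℂ →ₐ[ℂ] ℂ).toRingHom
      (by
        intro z hz
        rw [hqd] at hz
        exact hz)) hA
    subst ham
    simpa using h1
  have h0 : pt χ ζ τ l0 ≠ 0 := by
    unfold pt
    exact mul_ne_zero (hζ0 _) (Finset.prod_ne_zero_iff.2 fun i _ => zpow_ne_zero _ (hτ.1 i))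
  have hlog3 : 0 < Real.log 3 := Real.log_pos (by norm_num)
  have hd1 : (1 : ℝ) ≤ d := by exact_mod_cast hd
  have := end_bound (by
    apply mul_nonneg hB
    have : 0 ≤ (d - 1 : ℝ) * Real.log 3 := mul_nonneg (by linarith) hlog3.le
    linarith) _ hlift l l0 (by rw [hval]; exact mul_ne_zero hκτ h0)
  rwa [hval, hval, mul_div_mul_left _ _ hκτ] at this

theorem main_torus {m d : ℕ} (hm : 1 ≤ m) (hdm : d ≤ m) (χ : Option (Fin m) → Fin d → ℤ)
    (ζ : Option (Fin m) → ℂ) {T : ℕ} (hT : 0 < T) (hζ : ∀ j, ζ j ^ (2 * T) = 1)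
    (E : Set (Option (Fin m) × Option (Fin m) × Option (Fin m))) (τ : Fin d → ℂ)
    (hτ : τ ∈ zeroSet χ ζ E) (hfin : (zeroSet χ ζ E).Finite)
    (hdet : ∀ p q : Fin d → Option (Fin m),
        (T : ℤ) * |(Matrix.of fun i => χ (p i) - χ (q i)).det| ≤ ((2 ^ (m - d) : ℕ) : ℤ))
    (hg : ∀ N, Sg (m - d) (fun k => ((clSet χ ζ k).ncard : ℝ)) N
        ≤ 2 ^ (m - d) * ((N + m).choose m : ℝ)) (l l0 : Option (Fin m)) :
    Real.log ‖pt χ ζ τ l / pt χ ζ τ l0‖ ≤ 2 ^ (m - 1) * Real.log 2 := by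
  have hlog2 : 0 < Real.log 2 := Real.log_pos (by norm_num)
  by_cases hcol : ∀ e ∈ E, ¬ NonCol χ e
  · refine (cramer_case χ ζ hT hζ E τ hτ hfin hdet hcol l l0).trans ?_
    apply mul_le_mul_of_nonneg_right _ hlog2.le
    have : d * 2 ^ (m - d) ≤ 2 ^ (m - 1) := by
      rcases Nat.eq_zero_or_pos d with rfl | hd
      · simp
      · have h1 : d ≤ 2 ^ (d - 1) := by
          have := Nat.lt_two_pow_self (n := d - 1)
          omega
        calc d * 2 ^ (m - d) ≤ 2 ^ (d - 1) * 2 ^ (m - d) := Nat.mul_le_mul_right _ h1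
          _ = 2 ^ (m - 1) := by
            rw [← pow_add]
            congr 1
            omega
    exact_mod_cast this
  · push Not at hcol
    obtain ⟨e, he, hnc⟩ := hcol
    have hd2 : 2 ≤ d := by
      unfold NonCol at hnc
      have := hnc.fintype_card_le_finrank
      simpa using this
    rcases Nat.eq_or_lt_of_le hd2 with h2 | h3
    · subst h2
      refine (two_dim χ ζ hT hζ E τ hτ hfin hdet e he hnc l l0).trans ?_
      have e1 : (2 : ℝ) ^ (m - 1) = 2 ^ (m - 2) * 2 := by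
        rw [← pow_succ]
        congr 1
        omega
      have h15 : Real.log 3 + Real.log 5 ≤ 4 * Real.log 2 := by
        rw [← Real.log_mul (by norm_num) (by norm_num)]
        have : Real.log (3 * 5) ≤ Real.log (2 ^ 4) := Real.log_le_log (by norm_num) (by norm_num)
        rw [Real.log_pow] at this
        exact_mod_cast this
      rw [e1]
      push_cast
      have : (0 : ℝ) < 2 ^ (m - 2) := by positivity
      nlinarith
    · have hc := ineq_pow (d := d) h3
      have := high_dim (d := d) (a := m - d) (m := m) (by omega) (by omega) χ ζ hT hζ E τ hτ hfin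
        (B := 2 ^ (m - d)) (by positivity) hg e he hnc hc l l0
      refine this.trans (le_of_eq ?_)
      have e1 : (2 : ℝ) ^ (m - 1) = 2 ^ (m - d) * 2 ^ (d - 1) := by
        rw [← pow_add]
        congr 1
        omega
      rw [e1]
      ring

/-- System on nonzero coordinates. -/
theorem main_nonzero {m : ℕ} (hm : 1 ≤ m)
    (mulE : Set (Option (Fin m) × Option (Fin m) × Option (Fin m) × ℤˣ))
    (E : Set (Option (Fin m) × Option (Fin m) × Option (Fin m)))
    (x : Option (Fin m) → ℂ) (hx0 : x none = 1) (hx : ∀ i, x i ≠ 0)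
    (hmul : ∀ e ∈ mulE, x e.1 * x e.2.1 = ((e.2.2.2 : ℤ) : ℂ) * x e.2.2.1)
    (hadd : ∀ e ∈ E, SumEq x e)
    (hfin : {x : Option (Fin m) → ℂ | x none = 1 ∧ (∀ i, x i ≠ 0) ∧
      (∀ e ∈ mulE, x e.1 * x e.2.1 = ((e.2.2.2 : ℤ) : ℂ) * x e.2.2.1) ∧
      ∀ e ∈ E, SumEq x e}.Finite) (l : Option (Fin m)) :
    ‖x l‖ ≤ (2 : ℝ) ^ (2 ^ (m - 1)) := by
  obtain ⟨d, T, χ, ζ, τ, hdm, hT, hζ, hχ0, hζ0, hτ0, hpt, hmulpt, hinj, hdet, hg⟩ :=
    exists_torus mulE x hx0 hx hmul
  have hζne : ∀ j, ζ j ≠ 0 := by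
    intro j h
    have := hζ j
    rw [h, zero_pow (by omega)] at this
    exact zero_ne_one this
  have hτ : τ ∈ zeroSet χ ζ E := by
    refine ⟨hτ0, fun e he => ?_⟩
    have := hadd e he
    unfold SumEq at this ⊢
    rw [hpt, hpt, hpt]
    exact this
  have hfin' : (zeroSet χ ζ E).Finite := by
    apply Set.Finite.of_finite_image (f := fun σ => pt χ ζ σ) (hfin.subset _)
    · intro σ hσ σ' hσ' h
      exact hinj σ σ' hσ.1 hσ'.1 fun j => congrFun h j
    · rintro _ ⟨σ, hσ, rfl⟩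
      refine ⟨?_, ?_, hmulpt σ hσ.1, hσ.2⟩
      · simp [pt, hχ0, hζ0]
      · intro i
        unfold pt
        exact mul_ne_zero (hζne _) (Finset.prod_ne_zero_iff.2 fun i _ => zpow_ne_zero _ (hσ.1 i))
  have hmain := main_torus hm hdm χ ζ hT hζ E τ hτ hfin' hdet hg l none
  rw [hpt, hpt, hx0, div_one] at hmain
  have hpos : 0 < ‖x l‖ := norm_pos_iff.2 (hx l)
  rw [← Real.exp_log hpos]
  calc Real.exp (Real.log ‖x l‖) ≤ Real.exp (2 ^ (m - 1) * Real.log 2) := Real.exp_le_exp.2 hmain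
    _ = 2 ^ (2 ^ (m - 1)) := by
      have : (2 : ℝ) ^ (m - 1) * Real.log 2 = ((2 ^ (m - 1) : ℕ) : ℝ) * Real.log 2 := by push_cast; ring
      rw [this, ← Real.log_pow, Real.exp_log (by positivity)]

end Pool.Agent.W_MP_78a2de_al
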