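import Pool.Agent.W_MP_78a2de_al.Defs
import Pool.Agent.W_MP_78a2de_al.DetRows
import Pool.Agent.W_MP_78a2de_al.Growth
import Pool.Agent.W_MP_78a2de_al.Lattice

/-! Parametrisation of the torus coset of a multiplicative system (helper13). -/

namespace Pool.Agent.W_MP_78a2de_al

open MvPolynomial Filter

namespace TorusAux

/-- The Laurent monomial with exponent `w` at `y`. -/
noncomputable def mo {r : ℕ} (y : Fin r → ℂ) (w : Fin r → ℤ) : ℂ := ∏ i, y i ^ w i

section mo
variable {r : ℕ} {y : Fin r → ℂ}

theorem mo_ne_zero (hy : ∀ i, y i ≠ 0) (w : Fin r → ℤ) : mo y w ≠ 0 :=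
  Finset.prod_ne_zero_iff.2 fun i _ => zpow_ne_zero _ (hy i)

theorem mo_zero : mo y 0 = 1 := by simp [mo]

theorem mo_add (hy : ∀ i, y i ≠ 0) (w w' : Fin r → ℤ) : mo y (w + w') = mo y w * mo y w' := by
  unfold mo
  rw [← Finset.prod_mul_distrib]
  exact Finset.prod_congr rfl fun i _ => by rw [Pi.add_apply, zpow_add₀ (hy i)]

theorem mo_neg (w : Fin r → ℤ) : mo y (-w) = (mo y w)⁻¹ := by
  unfold mo
  rw [← Finset.prod_inv_distrib]
  exact Finset.prod_congr rfl fun i _ => by rw [Pi.neg_apply, zpow_neg]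

theorem mo_sub (hy : ∀ i, y i ≠ 0) (w w' : Fin r → ℤ) : mo y (w - w') = mo y w / mo y w' := by
  rw [sub_eq_add_neg, mo_add hy, mo_neg, div_eq_mul_inv]

theorem mo_zsmul (a : ℤ) (w : Fin r → ℤ) : mo y (a • w) = mo y w ^ a := by
  unfold mo
  rw [← Finset.prod_zpow]
  exact Finset.prod_congr rfl fun i _ => by
    rw [Pi.smul_apply, smul_eq_mul, mul_comm, zpow_mul]

theorem mo_sum (hy : ∀ i, y i ≠ 0) {ι : Type} (S : Finset ι) (f : ι → Fin r → ℤ) :
    mo y (∑ i ∈ S, f i) = ∏ i ∈ S, mo y (f i) := by
  classical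
  induction S using Finset.induction_on with
  | empty => simp [mo_zero]
  | insert a S ha ih => rw [Finset.sum_insert ha, Finset.prod_insert ha, mo_add hy, ih]

theorem mo_single (i : Fin r) : mo y (Pi.single i 1) = y i := by
  classical
  unfold mo
  rw [Finset.prod_eq_single i]
  · simp
  · intro j _ hj
    simp [Pi.single_eq_of_ne hj]
  · intro h; exact absurd (Finset.mem_univ i) h

theorem sum_single (w : Fin r → ℤ) : ∑ i, w i • (Pi.single i 1 : Fin r → ℤ) = w := by
  classical
  ext j
  rw [Finset.sum_apply, Finset.sum_eq_single j]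
  · simp
  · intro i _ hi
    simp [Pi.single_eq_of_ne hi.symm]
  · intro h; exact absurd (Finset.mem_univ j) h

end mo

/-- The coordinate vector attached to an index. -/
def evN {m : ℕ} : Option (Fin m) → Fin m → ℕ
  | none => 0
  | some i => Pi.single i 1

/-- Integral version. -/
def ev {m : ℕ} (j : Option (Fin m)) : Fin m → ℤ := fun i => (evN j i : ℤ)

theorem ev_none {m : ℕ} : ev (none : Option (Fin m)) = 0 := by
  ext i; simp [ev, evN]

theorem ev_some {m : ℕ} (i : Fin m) : ev (some i) = Pi.single i 1 := by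
  ext j
  by_cases h : j = i
  · subst h; simp [ev, evN]
  · simp [ev, evN, Pi.single_eq_of_ne h]

theorem sum_evN {m : ℕ} (j : Option (Fin m)) : ∑ i, evN j i ≤ 1 := by
  classical
  cases j with
  | none => simp [evN]
  | some i => simp [evN]

theorem ev_nonneg {m : ℕ} (j : Option (Fin m)) (i : Fin m) : 0 ≤ ev j i := by
  unfold ev; positivity

theorem sum_ev {m : ℕ} (j : Option (Fin m)) : ∑ i, ev j i ≤ 1 := by
  unfold ev
  rw [← Nat.cast_sum]
  exact_mod_cast sum_evN j

/-- The row of a multiplicative relation. -/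
def row {m : ℕ} (e : Option (Fin m) × Option (Fin m) × Option (Fin m) × ℤˣ) : Fin m → ℤ :=
  fun j => ((evN e.1 j + evN e.2.1 j : ℕ) : ℤ) - (evN e.2.2.1 j : ℤ)

theorem row_eq {m : ℕ} (e : Option (Fin m) × Option (Fin m) × Option (Fin m) × ℤˣ) :
    row e = ev e.1 + ev e.2.1 - ev e.2.2.1 := by
  ext j; simp [row, ev]

theorem exists_max {m : ℕ} {E : Type} (S : Set E) (f : E → Fin m → ℤ) :
    ∃ (n : ℕ) (g : Fin n → E), (∀ i, g i ∈ S) ∧ LinearIndependent ℤ (fun i => f (g i)) ∧
      ∀ e ∈ S, ∃ c : ℤ, c ≠ 0 ∧ c • f e ∈ Submodule.span ℤ (Set.range fun i => f (g i)) := by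
  classical
  let P : ℕ → Prop := fun n => ∃ g : Fin n → E, (∀ i, g i ∈ S) ∧
    LinearIndependent ℤ (fun i => f (g i))
  have h0 : P 0 := ⟨Fin.elim0, fun i => i.elim0, linearIndependent_empty_type⟩
  have hb : ∀ n, P n → n ≤ m := by
    rintro n ⟨g, _, hg⟩
    have := hg.fintype_card_le_finrank
    simpa using this
  set n := Nat.findGreatest P m with hn
  have hP : P n := Nat.findGreatest_spec (Nat.zero_le m) h0
  obtain ⟨g, hg1, hg2⟩ := hP
  refine ⟨n, g, hg1, hg2, ?_⟩
  intro e he
  by_contra hcon
  push Not at hcon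
  have hli : LinearIndependent ℤ (Fin.cons (f e) (fun i => f (g i)) : Fin (n+1) → Fin m → ℤ) := by
    apply LinearIndependent.finCons' _ _ hg2
    intro c y hy h
    by_contra hc
    apply hcon c hc
    have : c • f e = -y := eq_neg_of_add_eq_zero_left h
    rw [this]
    exact Submodule.neg_mem _ hy
  have hP' : P (n + 1) := by
    refine ⟨Fin.cons e g, ?_, ?_⟩
    · intro i
      refine Fin.cases ?_ ?_ i
      · simpa using he
      · intro i; simpa using hg1 i
    · have : (fun i => f ((Fin.cons e g : Fin (n+1) → E) i)) =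
          (Fin.cons (f e) (fun i => f (g i)) : Fin (n+1) → Fin m → ℤ) := by
        ext i
        refine Fin.cases ?_ ?_ i
        · simp
        · intro i; simp
      rw [this]; exact hli
  have := hb _ hP'
  have h2 := Nat.le_findGreatest this hP'
  omega

end TorusAux

open TorusAux

theorem exists_torus {m : ℕ}
    (mulE : Set (Option (Fin m) × Option (Fin m) × Option (Fin m) × ℤˣ))
    (x : Option (Fin m) → ℂ) (hx0 : x none = 1) (hx : ∀ i, x i ≠ 0)
    (hmul : ∀ e ∈ mulE, x e.1 * x e.2.1 = ((e.2.2.2 : ℤ) : ℂ) * x e.2.2.1) :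
    ∃ (d T : ℕ) (χ : Option (Fin m) → Fin d → ℤ) (ζ : Option (Fin m) → ℂ) (τ : Fin d → ℂ),
      d ≤ m ∧ 0 < T ∧ (∀ j, ζ j ^ (2 * T) = 1) ∧ χ none = 0 ∧ ζ none = 1 ∧
      (∀ i, τ i ≠ 0) ∧ (∀ j, pt χ ζ τ j = x j) ∧
      (∀ σ : Fin d → ℂ, (∀ i, σ i ≠ 0) → ∀ e ∈ mulE,
        pt χ ζ σ e.1 * pt χ ζ σ e.2.1 = ((e.2.2.2 : ℤ) : ℂ) * pt χ ζ σ e.2.2.1) ∧
      (∀ σ σ' : Fin d → ℂ, (∀ i, σ i ≠ 0) → (∀ i, σ' i ≠ 0) →
        (∀ j, pt χ ζ σ j = pt χ ζ σ' j) → σ = σ') ∧
      (∀ p q : Fin d → Option (Fin m),
        (T : ℤ) * |(Matrix.of fun i => χ (p i) - χ (q i)).det| ≤ ((2 ^ (m - d) : ℕ) : ℤ)) ∧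
      (∀ N, Sg (m - d) (fun k => ((clSet χ ζ k).ncard : ℝ)) N
        ≤ 2 ^ (m - d) * ((N + m).choose m : ℝ)) := by
  classical
  obtain ⟨n, g, hgS, hli, hmax⟩ := exists_max mulE (row (m := m))
  obtain ⟨d, T, π, s, hnd, hT, hπs, hπlam, hspan, e, hdet⟩ := lattice_split _ hli
  have hmd : m - d = n := by omega
  set x' : Fin m → ℂ := fun i => x (some i) with hx'
  have hx'0 : ∀ i, x' i ≠ 0 := fun i => hx _
  have hmox : ∀ j, mo x' (ev j) = x j := by
    intro j
    cases j with
    | none => rw [ev_none, mo_zero, hx0]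
    | some i => rw [ev_some, mo_single]
  have hrow : ∀ e ∈ mulE, mo x' (row e) = ((e.2.2.2 : ℤ) : ℂ) := by
    intro e he
    rw [row_eq, mo_sub hx'0, mo_add hx'0, hmox, hmox, hmox, hmul e he, mul_div_assoc,
      div_self (hx _), mul_one]
  have hsq1 : ∀ u : ℤˣ, (((u : ℤ) : ℂ)) ^ 2 = 1 := by
    intro u
    rcases Int.units_eq_one_or u with rfl | rfl <;> simp
  have hsq : ∀ w ∈ Submodule.span ℤ (Set.range fun i => row (g i)), mo x' w ^ 2 = 1 := by
    intro w hw
    induction hw using Submodule.span_induction with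
    | mem w hw =>
      obtain ⟨i, rfl⟩ := hw
      show mo x' (row (g i)) ^ 2 = 1
      rw [hrow _ (hgS i), hsq1]
    | zero => rw [mo_zero, one_pow]
    | add a b _ _ ha hb => rw [mo_add hx'0, mul_pow, ha, hb, one_mul]
    | smul c a _ ha =>
      rw [mo_zsmul, ← zpow_natCast, ← zpow_mul, mul_comm, zpow_mul, zpow_natCast, ha, one_zpow]
  have hπrow : ∀ e ∈ mulE, π (row e) = 0 := by
    intro e he
    obtain ⟨c, hc, hmem⟩ := hmax e he
    have h1 : π (c • row e) = 0 := by
      have : Submodule.span ℤ (Set.range fun i => row (g i)) ≤ LinearMap.ker π := by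
        rw [Submodule.span_le]
        rintro _ ⟨i, rfl⟩
        exact hπlam i
      exact this hmem
    rw [map_smul] at h1
    exact (smul_eq_zero.1 h1).resolve_left hc
  set χ : Option (Fin m) → Fin d → ℤ := fun j => π (ev j) with hχ
  set ζ : Option (Fin m) → ℂ := fun j => mo x' (ev j - s (π (ev j))) with hζ
  set τ : Fin d → ℂ := fun i => mo x' (s (Pi.single i 1)) with hτ
  have hτ0 : ∀ i, τ i ≠ 0 := fun i => mo_ne_zero hx'0 _
  have hζ0 : ∀ j, ζ j ≠ 0 := fun j => mo_ne_zero hx'0 _
  have hτw : ∀ w : Fin d → ℤ, mo τ w = mo x' (s w) := by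
    intro w
    conv_rhs => rw [← sum_single w]
    rw [map_sum, mo_sum hx'0]
    unfold mo
    refine Finset.prod_congr rfl fun i _ => ?_
    rw [map_smul]
    exact (mo_zsmul _ _).symm
  have hpt : ∀ σ j, pt χ ζ σ j = mo x' (ev j - s (π (ev j))) * mo σ (π (ev j)) := fun σ j => rfl
  refine ⟨d, T, χ, ζ, τ, by omega, hT, ?_, ?_, ?_, hτ0, ?_, ?_, ?_, ?_, ?_⟩
  · intro j
    have h1 : (T : ℤ) • (ev j - s (π (ev j))) ∈ Submodule.span ℤ (Set.range fun i => row (g i)) := by
      apply hspan
      rw [map_sub, hπs, sub_self]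
    have h2 := hsq _ h1
    rw [mo_zsmul, zpow_natCast, ← pow_mul, mul_comm] at h2
    exact h2
  · show π (ev none) = 0
    rw [ev_none, map_zero]
  · show mo x' (ev none - s (π (ev none))) = 1
    rw [ev_none, map_zero, map_zero, sub_zero, mo_zero]
  · intro j
    rw [hpt, hτw, ← mo_add hx'0, sub_add_cancel, hmox]
  · intro σ hσ e he
    have h1 : mo x' (row e - s (π (row e))) * mo σ (π (row e)) = ((e.2.2.2 : ℤ) : ℂ) := by
      rw [hπrow e he, map_zero, sub_zero, mo_zero, mul_one, hrow e he]
    have h2 : mo x' (row e - s (π (row e))) * mo σ (π (row e)) =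
        pt χ ζ σ e.1 * pt χ ζ σ e.2.1 / pt χ ζ σ e.2.2.1 := by
      rw [hpt, hpt, hpt, row_eq]
      simp only [map_sub, map_add]
      rw [show ev e.1 + ev e.2.1 - ev e.2.2.1 - (s (π (ev e.1)) + s (π (ev e.2.1)) -
          s (π (ev e.2.2.1))) = (ev e.1 - s (π (ev e.1))) + (ev e.2.1 - s (π (ev e.2.1))) -
          (ev e.2.2.1 - s (π (ev e.2.2.1))) by abel]
      rw [mo_sub hx'0, mo_add hx'0, mo_sub hσ, mo_add hσ]
      have ha := mo_ne_zero hx'0 (ev e.2.2.1 - s (π (ev e.2.2.1)))
      have hb := mo_ne_zero hσ (π (ev e.2.2.1))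
      field_simp
    have h3 : pt χ ζ σ e.2.2.1 ≠ 0 := by
      rw [hpt]
      exact mul_ne_zero (mo_ne_zero hx'0 _) (mo_ne_zero hσ _)
    rw [h2, div_eq_iff h3] at h1
    exact h1
  · intro σ σ' hσ hσ' hj
    have h1 : ∀ j, mo σ (π (ev j)) = mo σ' (π (ev j)) := by
      intro j
      have := hj j
      rw [hpt, hpt] at this
      exact mul_left_cancel₀ (mo_ne_zero hx'0 _) this
    have h2 : ∀ w : Fin m → ℤ, mo σ (π w) = mo σ' (π w) := by
      intro w
      rw [← sum_single w, map_sum, mo_sum hσ, mo_sum hσ']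
      refine Finset.prod_congr rfl fun i _ => ?_
      rw [map_smul, mo_zsmul, mo_zsmul, ← ev_some, h1]
    ext i
    have := h2 (s (Pi.single i 1))
    rw [hπs, mo_single, mo_single] at this
    exact this
  · intro p q
    have h1 : (Matrix.of fun i => χ (p i) - χ (q i)) =
        Matrix.of fun i => π (ev (p i) - ev (q i)) := by
      ext i j
      simp [hχ]
    rw [h1, hdet (fun i => ev (p i) - ev (q i)), hmd]
    set r : Fin d → Fin m → ℤ := fun i => ev (p i) - ev (q i) with hr
    set M : Matrix (Fin m) (Fin m) ℤ :=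
      Matrix.of fun i => Sum.elim (fun i => row (g i)) r (e.symm i) with hM
    have h2 : |((M.map (Int.cast : ℤ → ℝ)).det)| ≤
        ∏ i, (Sum.elim (fun _ => (2:ℝ)) (fun _ => 1) (e.symm i)) := by
      apply det_le_of_rows
      · intro i
        simp only [Matrix.map_apply, hM, Matrix.of_apply]
        rcases e.symm i with a | b
        · simp only [Sum.elim_inl]
          have h3 : ∀ j, max (((row (g a) j : ℤ) : ℝ)) 0 ≤
              ((ev (g a).1 j + ev (g a).2.1 j : ℤ) : ℝ) := by
            intro j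
            rw [row_eq]
            apply max_le
            · have := ev_nonneg (g a).2.2.1 j
              simp only [Pi.sub_apply, Pi.add_apply]
              exact_mod_cast (by omega)
            · have := ev_nonneg (g a).1 j
              have := ev_nonneg (g a).2.1 j
              exact_mod_cast (by omega)
          refine (Finset.sum_le_sum fun j _ => h3 j).trans ?_
          rw [← Int.cast_sum, Finset.sum_add_distrib]
          have := sum_ev (g a).1
          have := sum_ev (g a).2.1
          exact_mod_cast (by omega)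
        · simp only [Sum.elim_inr]
          have h3 : ∀ j, max (((r b j : ℤ) : ℝ)) 0 ≤ ((ev (p b) j : ℤ) : ℝ) := by
            intro j
            apply max_le
            · have := ev_nonneg (q b) j
              simp only [hr, Pi.sub_apply]
              exact_mod_cast (by omega)
            · have := ev_nonneg (p b) j
              exact_mod_cast (by omega)
          refine (Finset.sum_le_sum fun j _ => h3 j).trans ?_
          rw [← Int.cast_sum]
          exact_mod_cast sum_ev (p b)
      · intro i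
        simp only [Matrix.map_apply, hM, Matrix.of_apply]
        rcases e.symm i with a | b
        · simp only [Sum.elim_inl]
          have h3 : ∀ j, max (-((row (g a) j : ℤ) : ℝ)) 0 ≤
              ((ev (g a).2.2.1 j : ℤ) : ℝ) := by
            intro j
            rw [row_eq]
            apply max_le
            · have := ev_nonneg (g a).1 j
              have := ev_nonneg (g a).2.1 j
              simp only [Pi.sub_apply, Pi.add_apply]
              exact_mod_cast (by omega)
            · have := ev_nonneg (g a).2.2.1 j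
              exact_mod_cast (by omega)
          refine (Finset.sum_le_sum fun j _ => h3 j).trans ?_
          rw [← Int.cast_sum]
          have := sum_ev (g a).2.2.1
          exact_mod_cast (by omega)
        · simp only [Sum.elim_inr]
          have h3 : ∀ j, max (-((r b j : ℤ) : ℝ)) 0 ≤ ((ev (q b) j : ℤ) : ℝ) := by
            intro j
            apply max_le
            · have := ev_nonneg (p b) j
              simp only [hr, Pi.sub_apply]
              exact_mod_cast (by omega)
            · have := ev_nonneg (q b) j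
              exact_mod_cast (by omega)
          refine (Finset.sum_le_sum fun j _ => h3 j).trans ?_
          rw [← Int.cast_sum]
          exact_mod_cast sum_ev (q b)
    rw [Equiv.prod_comp e.symm (Sum.elim (fun _ => (2:ℝ)) (fun _ => 1)), Fintype.prod_sum_type]
      at h2
    simp only [Sum.elim_inl, Sum.elim_inr, Finset.prod_const, Finset.card_univ, Fintype.card_fin,
      one_pow, mul_one] at h2
    have h4 : (M.map (Int.cast : ℤ → ℝ)).det = ((M.det : ℤ) : ℝ) := by
      rw [Int.cast_det]
    rw [h4] at h2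
    have h5 : ((|M.det| : ℤ) : ℝ) ≤ (((2 ^ n : ℕ) : ℤ) : ℝ) := by
      rw [Int.cast_abs]
      refine h2.trans (le_of_eq ?_)
      push_cast
      rfl
    exact Int.cast_le.1 h5
  · intro N
    rw [hmd]
    let c : (Fin m → ℤ) → (Fin d → ℤ) × ℂ := fun w => (π w, (mo x' (w - s (π w))) ^ 2)
    have hcl : ∀ k, clSet χ ζ k = (fun w : Fin m → ℕ => c (fun j => (w j : ℤ))) ''
        {w | ∑ j, w j ≤ k} := by
      intro k
      have hval : ∀ v : Option (Fin m) → ℕ, (∑ j, v j • χ j, (∏ j, ζ j ^ v j) ^ 2) =
          c (fun j => (v (some j) : ℤ)) := by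
        intro v
        have hw : (fun j => (v (some j) : ℤ)) = ∑ j, v j • ev j := by
          rw [Fintype.sum_option, ev_none, smul_zero, zero_add]
          rw [← sum_single (fun j => (v (some j) : ℤ))]
          refine Finset.sum_congr rfl fun i _ => ?_
          rw [ev_some, natCast_zsmul]
        have h1 : ∑ j, v j • χ j = π (fun j => (v (some j) : ℤ)) := by
          rw [hw, map_sum]
          refine Finset.sum_congr rfl fun j _ => ?_
          rw [map_nsmul]
        have h2 : ∏ j, ζ j ^ v j = mo x' ((fun j => (v (some j) : ℤ)) -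
            s (π (fun j => (v (some j) : ℤ)))) := by
          rw [hw, map_sum, map_sum, ← Finset.sum_sub_distrib, mo_sum hx'0]
          refine Finset.prod_congr rfl fun j _ => ?_
          rw [map_nsmul, map_nsmul, ← smul_sub, ← natCast_zsmul, mo_zsmul, zpow_natCast]
        rw [h1, h2]
      ext z
      constructor
      · rintro ⟨v, hv, rfl⟩
        refine ⟨fun j => v (some j), ?_, ?_⟩
        · show ∑ j, v (some j) ≤ k
          have : ∑ j, v j = k := hv
          rw [Fintype.sum_option] at this
          omega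
        · exact (hval v).symm
      · rintro ⟨w, hw, rfl⟩
        refine ⟨fun j => j.elim (k - ∑ i, w i) w, ?_, ?_⟩
        · show ∑ j : Option (Fin m), j.elim (k - ∑ i, w i) w = k
          have : ∑ j, w j ≤ k := hw
          rw [Fintype.sum_option]
          simp only [Option.elim_none, Option.elim_some]
          omega
        · exact hval _
    have := growth (m := m) (n := n) (fun i j => evN (g i).1 j + evN (g i).2.1 j)
      (fun i j => evN (g i).2.2.1 j) ?_ ?_ ?_ c ?_ N
    · simp only [hcl]
      exact this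
    · intro i
      rw [Finset.sum_add_distrib]
      have := sum_evN (g i).1
      have := sum_evN (g i).2.1
      omega
    · intro i
      have := sum_evN (g i).2.2.1
      omega
    · exact hli
    · intro w i
      have h0 : (fun j => ((evN (g i).1 j + evN (g i).2.1 j : ℕ) : ℤ) - (evN (g i).2.2.1 j : ℤ)) =
          row (g i) := rfl
      rw [h0]
      show (π (w + row (g i)), (mo x' (w + row (g i) - s (π (w + row (g i))))) ^ 2) =
        (π w, (mo x' (w - s (π w))) ^ 2)
      rw [map_add, hπrow _ (hgS i), add_zero, add_sub_right_comm, mo_add hx'0, mul_pow,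
        hrow _ (hgS i), hsq1, mul_one]

end Pool.Agent.W_MP_78a2de_al
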