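import Pool.Agent.W_MP_78a2de_al.Defs

namespace Pool.Agent.W_MP_78a2de_al

open Polynomial Matrix

namespace TwoDim

/-- Evaluation `ℤ[W] → ℂ`, `W ↦ ω`. -/
noncomputable def ev0 (ω : ℂ) : Polynomial ℤ →+* ℂ :=
  Polynomial.eval₂RingHom (Int.castRingHom ℂ) ω

/-- The statement of `mahler_det`. -/
def MahlerStmt : Prop :=
  ∀ {n N : ℕ} (_ : 0 < N) (M : Matrix (Fin n) (Fin n) (Polynomial (Polynomial ℤ)))
    (c : Fin n → ℝ) (_ : ∀ i, 1 ≤ c i)
    (_ : ∀ ω : ℂ, IsPrimitiveRoot ω N → ∀ i,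
      ∑ j, (((M i j).map (ev0 ω)).sum fun _ a => ‖a‖ ^ 2) ≤ c i)
    (ω : ℂ) (_ : IsPrimitiveRoot ω N) (_ : M.det.map (ev0 ω) ≠ 0) (z : ℂ)
    (_ : (M.det.map (ev0 ω)).eval z = 0),
    Real.log ‖z‖ ≤ N.totient / 2 * ∑ i, Real.log (c i)

/-- The statement of `finite_pair`. -/
def PairStmt : Prop :=
  ∀ {J : Type} [Finite J] (χ : J → Fin 2 → ℤ) (ζ : J → ℂ) (_ : ∀ j, ζ j ≠ 0)
    (E : Set (J × J × J)) (_ : (zeroSet χ ζ E).Finite) (e : J × J × J) (_ : e ∈ E)
    (_ : NonCol χ e), ∃ e' ∈ E, (zeroSet χ ζ {e, e'}).Finite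

/-- A trinomial in `θ` over `ℤ[W][z]`. -/
noncomputable def TP (w u k : Fin 3 → ℕ) (ε : Fin 3 → ℤ) :
    Polynomial (Polynomial (Polynomial ℤ)) :=
  ∑ i, monomial (w i) (monomial (u i) (monomial (k i) (ε i)))

/-- A trinomial in `θ` over `ℂ[z]`. -/
noncomputable def TC (w u : Fin 3 → ℕ) (c : Fin 3 → ℂ) : Polynomial (Polynomial ℂ) :=
  ∑ i, monomial (w i) (monomial (u i) (c i))

/-- The value of a trinomial. -/
noncomputable def tv (w u : Fin 3 → ℕ) (c : Fin 3 → ℂ) (z θ : ℂ) : ℂ :=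
  ∑ i, c i * z ^ u i * θ ^ w i

lemma TP_map (w u k : Fin 3 → ℕ) (ε : Fin 3 → ℤ) (ω : ℂ) :
    (TP w u k ε).map (mapRingHom (ev0 ω)) = TC w u (fun i => ε i * ω ^ k i) := by
  simp [TP, TC, Polynomial.map_sum, ev0, eval₂_monomial]

lemma TC_eval (w u : Fin 3 → ℕ) (c : Fin 3 → ℂ) (z θ : ℂ) :
    ((TC w u c).map (evalRingHom z)).eval θ = tv w u c z θ := by
  simp [TC, tv, Polynomial.map_sum, eval_finsetSum, eval_monomial]

lemma TC_coeff (w u : Fin 3 → ℕ) (c : Fin 3 → ℂ) (t s : ℕ) :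
    ((TC w u c).coeff t).coeff s = ∑ i, if w i = t ∧ u i = s then c i else 0 := by
  simp only [TC, finsetSum_coeff, coeff_monomial]
  refine Finset.sum_congr rfl fun i _ => ?_
  by_cases h : w i = t
  · by_cases h' : u i = s <;> simp [h, h', coeff_monomial]
  · simp [h]

lemma TC_natDegree_le (w u : Fin 3 → ℕ) (c : Fin 3 → ℂ) {m : ℕ} (h : ∀ i, w i ≤ m) :
    (TC w u c).natDegree ≤ m :=
  natDegree_sum_le_of_forall_le _ _ fun i _ => (natDegree_monomial_le _).trans (h i)

lemma TP_natDegree_le (w u k : Fin 3 → ℕ) (ε : Fin 3 → ℤ) {m : ℕ} (h : ∀ i, w i ≤ m) :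
    (TP w u k ε).natDegree ≤ m :=
  natDegree_sum_le_of_forall_le _ _ fun i _ => (natDegree_monomial_le _).trans (h i)

/-- The number of ordered pairs of coinciding exponents. -/
noncomputable def coin (w u : Fin 3 → ℕ) : ℝ :=
  ∑ i : Fin 3, ∑ j : Fin 3, if (w i = w j ∧ u i = u j) then (1:ℝ) else 0

lemma row_bound (w u : Fin 3 → ℕ) (c : Fin 3 → ℂ) (hc : ∀ i, ‖c i‖ ≤ 1) (n : ℕ) :
    ∑ t ∈ Finset.range (n + 1), (((TC w u c).coeff t).sum fun _ a => ‖a‖ ^ 2) ≤ coin w u := by
  set U := ∑ i, u i with hU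
  have hdeg : ∀ t, ((TC w u c).coeff t).natDegree < U + 1 := by
    intro t
    refine Nat.lt_succ_of_le (natDegree_le_iff_coeff_eq_zero.2 fun s hs => ?_)
    rw [TC_coeff]
    refine Finset.sum_eq_zero fun i _ => ?_
    rw [if_neg]
    rintro ⟨_, h2⟩
    have : u i ≤ U := Finset.single_le_sum (f := u) (fun _ _ => Nat.zero_le _) (Finset.mem_univ i)
    omega
  have h1 : ∀ t, (((TC w u c).coeff t).sum fun _ a => ‖a‖ ^ 2) =
      ∑ s ∈ Finset.range (U + 1), ‖((TC w u c).coeff t).coeff s‖ ^ 2 := by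
    intro t
    rw [sum_over_range' _ (by simp) _ (hdeg t)]
  have h2 : ∀ t s, ‖((TC w u c).coeff t).coeff s‖ ^ 2 ≤
      ∑ i : Fin 3, ∑ j : Fin 3, if ((w i = w j ∧ u i = u j) ∧ t = w i) ∧ s = u i then (1:ℝ) else 0 := by
    intro t s
    rw [TC_coeff]
    calc ‖∑ i, if w i = t ∧ u i = s then c i else 0‖ ^ 2
        ≤ (∑ i, if w i = t ∧ u i = s then (1:ℝ) else 0) ^ 2 := by
          refine pow_le_pow_left₀ (norm_nonneg _) ((norm_sum_le _ _).trans ?_) 2
          refine Finset.sum_le_sum fun i _ => ?_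
          split_ifs
          · exact hc i
          · simp
      _ = ∑ i : Fin 3, ∑ j : Fin 3, (if w i = t ∧ u i = s then (1:ℝ) else 0) *
            (if w j = t ∧ u j = s then (1:ℝ) else 0) := by
          rw [pow_two, Finset.sum_mul_sum]
      _ ≤ _ := by
          refine Finset.sum_le_sum fun i _ => Finset.sum_le_sum fun j _ => ?_
          by_cases h1 : w i = t ∧ u i = s
          · by_cases h2 : w j = t ∧ u j = s
            · rw [if_pos h1, if_pos h2, if_pos]
              · norm_num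
              · exact ⟨⟨⟨h1.1.trans h2.1.symm, h1.2.trans h2.2.symm⟩, h1.1.symm⟩, h1.2.symm⟩
            · rw [if_neg h2, mul_zero]
              split_ifs <;> norm_num
          · rw [if_neg h1, zero_mul]
            split_ifs <;> norm_num
  have h3 : ∀ i j : Fin 3, ∑ t ∈ Finset.range (n + 1), ∑ s ∈ Finset.range (U + 1),
      (if ((w i = w j ∧ u i = u j) ∧ t = w i) ∧ s = u i then (1:ℝ) else 0) ≤
      if (w i = w j ∧ u i = u j) then (1:ℝ) else 0 := by
    intro i j
    have e1 : ∀ t, ∑ s ∈ Finset.range (U + 1),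
        (if ((w i = w j ∧ u i = u j) ∧ t = w i) ∧ s = u i then (1:ℝ) else 0) ≤
        if (w i = w j ∧ u i = u j) ∧ t = w i then (1:ℝ) else 0 := by
      intro t
      by_cases h : (w i = w j ∧ u i = u j) ∧ t = w i
      · simp only [h, true_and, if_true]
        rw [Finset.sum_ite_eq']
        split_ifs <;> norm_num
      · simp only [h, false_and, if_false]
        simp
    refine (Finset.sum_le_sum fun t _ => e1 t).trans ?_
    by_cases h : (w i = w j ∧ u i = u j)
    · simp only [h, true_and, if_true, and_self]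
      rw [Finset.sum_ite_eq']
      split_ifs <;> norm_num
    · simp only [h, false_and, if_false]
      simp
  calc ∑ t ∈ Finset.range (n + 1), (((TC w u c).coeff t).sum fun _ a => ‖a‖ ^ 2)
      = ∑ t ∈ Finset.range (n + 1), ∑ s ∈ Finset.range (U + 1),
          ‖((TC w u c).coeff t).coeff s‖ ^ 2 := Finset.sum_congr rfl fun t _ => h1 t
    _ ≤ ∑ t ∈ Finset.range (n + 1), ∑ s ∈ Finset.range (U + 1), ∑ i : Fin 3, ∑ j : Fin 3,
          (if ((w i = w j ∧ u i = u j) ∧ t = w i) ∧ s = u i then (1:ℝ) else 0) :=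
        Finset.sum_le_sum fun t _ => Finset.sum_le_sum fun s _ => h2 t s
    _ = ∑ i : Fin 3, ∑ j : Fin 3, ∑ t ∈ Finset.range (n + 1), ∑ s ∈ Finset.range (U + 1),
          (if ((w i = w j ∧ u i = u j) ∧ t = w i) ∧ s = u i then (1:ℝ) else 0) := by
        rw [Finset.sum_congr rfl fun t _ => Finset.sum_comm, Finset.sum_comm]
        refine Finset.sum_congr rfl fun i _ => ?_
        rw [Finset.sum_congr rfl fun t _ => Finset.sum_comm, Finset.sum_comm]
    _ ≤ _ := Finset.sum_le_sum fun i _ => Finset.sum_le_sum fun j _ => h3 i j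

lemma coin_le_nine (w u : Fin 3 → ℕ) : coin w u ≤ 9 := by
  unfold coin
  calc _ ≤ ∑ i : Fin 3, ∑ j : Fin 3, (1:ℝ) := by
        refine Finset.sum_le_sum fun i _ => Finset.sum_le_sum fun j _ => ?_
        split_ifs <;> norm_num
    _ = 9 := by simp; norm_num

lemma coin_inj (w u : Fin 3 → ℕ) (h : ∀ i j, w i = w j → u i = u j → i = j) : coin w u = 3 := by
  unfold coin
  have : ∀ i j : Fin 3, (w i = w j ∧ u i = u j) ↔ i = j :=
    fun i j => ⟨fun hh => h i j hh.1 hh.2, fun hh => by rw [hh]; exact ⟨rfl, rfl⟩⟩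
  simp only [this]
  simp

lemma coin_le_five (w u : Fin 3 → ℕ) (h : ¬ ∀ i j, w i = w j) : coin w u ≤ 5 := by
  unfold coin
  simp only [Fin.sum_univ_three]
  have : ¬ (w 0 = w 1 ∧ w 0 = w 2) := by
    rintro ⟨h1, h2⟩
    apply h
    intro i j
    fin_cases i <;> fin_cases j <;> simp <;> omega
  by_cases h01 : w 0 = w 1
  · have h02 : ¬ w 0 = w 2 := fun h => this ⟨h01, h⟩
    have h12 : ¬ w 1 = w 2 := fun h => this ⟨h01, h01.trans h⟩
    have h20 : ¬ w 2 = w 0 := fun h => h02 h.symm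
    have h21 : ¬ w 2 = w 1 := fun h => h12 h.symm
    simp only [h02, h12, h20, h21, false_and, if_false, true_and, if_true]
    split_ifs <;> norm_num
  · by_cases h02 : w 0 = w 2
    · have h12 : ¬ w 1 = w 2 := fun h => h01 (h02.trans h.symm)
      have h10 : ¬ w 1 = w 0 := fun h => h01 h.symm
      have h21 : ¬ w 2 = w 1 := fun h => h12 h.symm
      simp only [h01, h12, h10, h21, false_and, if_false, true_and, if_true]
      split_ifs <;> norm_num
    · have h10 : ¬ w 1 = w 0 := fun h => h01 h.symm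
      have h20 : ¬ w 2 = w 0 := fun h => h02 h.symm
      simp only [h01, h10, h02, h20, false_and, if_false, true_and, if_true]
      split_ifs <;> norm_num

/-- Sum of the squares of the absolute values of the coefficients. -/
noncomputable def nn (ω : ℂ) (p : Polynomial (Polynomial ℤ)) : ℝ :=
  (p.map (ev0 ω)).sum fun _ a => ‖a‖ ^ 2

lemma nn_zero (ω : ℂ) : nn ω 0 = 0 := by simp [nn]

lemma sum_shift (f : ℕ → ℝ) (a n N : ℕ) (h : a + n < N) :
    ∑ j : Fin N, (if (j : ℕ) ∈ Set.Icc a (a + n) then f (j - a) else 0) =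
      ∑ t ∈ Finset.range (n + 1), f t := by
  rw [Fin.sum_univ_eq_sum_range (fun j : ℕ => if j ∈ Set.Icc a (a + n) then f (j - a) else 0) N,
    ← Finset.sum_filter]
  refine (Finset.sum_nbij' (fun t => t + a) (fun t => t - a) ?_ ?_ ?_ ?_ ?_).symm
  · intro t ht
    simp only [Finset.mem_filter, Finset.mem_range, Set.mem_Icc] at ht ⊢
    omega
  · intro t ht
    simp only [Finset.mem_filter, Finset.mem_range, Set.mem_Icc] at ht ⊢
    omega
  · intro t _; simp
  · intro t ht
    simp only [Finset.mem_filter, Finset.mem_range, Set.mem_Icc] at ht ⊢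
    omega
  · intro t _; simp

lemma syl_row_left (F G : Polynomial (Polynomial (Polynomial ℤ))) (m n : ℕ) (ω : ℂ) (i : Fin m) :
    ∑ j, nn ω ((sylvester F G m n) j (Fin.castAdd n i)) =
      ∑ t ∈ Finset.range (n + 1), nn ω (G.coeff t) := by
  rw [← sum_shift (fun t => nn ω (G.coeff t)) i n (m + n) (by omega)]
  refine Finset.sum_congr rfl fun j _ => ?_
  simp only [sylvester, Matrix.of_apply, Fin.addCases_left]
  split_ifs
  · rfl
  · exact nn_zero ω

lemma syl_row_right (F G : Polynomial (Polynomial (Polynomial ℤ))) (m n : ℕ) (ω : ℂ) (i : Fin n) :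
    ∑ j, nn ω ((sylvester F G m n) j (Fin.natAdd m i)) =
      ∑ t ∈ Finset.range (m + 1), nn ω (F.coeff t) := by
  rw [← sum_shift (fun t => nn ω (F.coeff t)) i m (m + n) (by omega)]
  refine Finset.sum_congr rfl fun j _ => ?_
  simp only [sylvester, Matrix.of_apply, Fin.addCases_right]
  split_ifs
  · rfl
  · exact nn_zero ω

lemma sum_nn_TP (w u k : Fin 3 → ℕ) (ε : Fin 3 → ℤ) (hε : ∀ i, |ε i| ≤ 1) (ω : ℂ)
    (hω : ‖ω‖ = 1) (n : ℕ) :
    ∑ t ∈ Finset.range (n + 1), nn ω ((TP w u k ε).coeff t) ≤ coin w u := by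
  have : ∀ t, nn ω ((TP w u k ε).coeff t) =
      (((TC w u (fun i => ε i * ω ^ k i)).coeff t).sum fun _ a => ‖a‖ ^ 2) := by
    intro t
    rw [nn, ← TP_map, coeff_map]
    rfl
  simp only [this]
  refine row_bound w u _ (fun i => ?_) n
  rw [norm_mul, norm_pow, hω, one_pow, mul_one, Complex.norm_intCast]
  exact_mod_cast hε i

theorem core (mahler_det : MahlerStmt) {N : ℕ} (hN : 0 < N) (w u k w' u' k' : Fin 3 → ℕ) (ε ε' : Fin 3 → ℤ)
    (hε : ∀ i, |ε i| = 1) (hε' : ∀ i, |ε' i| ≤ 1)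
    (hinj : ∀ i j, w i = w j → u i = u j → i = j)
    (i0 : Fin 3) (hi0 : w i0 = 0) {m : ℕ} (hm : 0 < m) (i1 : Fin 3) (hi1 : w i1 = m)
    (hle : ∀ i, w i ≤ m) {n : ℕ} (hle' : ∀ i, w' i ≤ n)
    (ω : ℂ) (hω : IsPrimitiveRoot ω N)
    (hfin : {p : ℂ × ℂ | p.1 ≠ 0 ∧ p.2 ≠ 0 ∧ tv w u (fun i => ε i * ω ^ k i) p.1 p.2 = 0 ∧
      tv w' u' (fun i => ε' i * ω ^ k' i) p.1 p.2 = 0}.Finite)
    {c : ℝ} (hc1 : 1 ≤ c) (hc : coin w' u' ≤ c)
    (z θ : ℂ) (h1 : tv w u (fun i => ε i * ω ^ k i) z θ = 0)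
    (h2 : tv w' u' (fun i => ε' i * ω ^ k' i) z θ = 0) :
    Real.log ‖z‖ ≤ N.totient / 2 * (m * Real.log c + n * Real.log 3) := by
  set F := TP w u k ε with hF
  set G := TP w' u' k' ε' with hG
  set Fc := TC w u (fun i => ε i * ω ^ k i) with hFc
  set Gc := TC w' u' (fun i => ε' i * ω ^ k' i) with hGc
  have hdet0 : ((sylvester F G m n)ᵀ).det.map (ev0 ω) = resultant Fc Gc m n := by
    rw [Matrix.det_transpose, ← resultant, hFc, hGc, ← TP_map, ← TP_map, resultant_map_map]
    rfl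
  have hnorm : ∀ ω' : ℂ, IsPrimitiveRoot ω' N → ‖ω'‖ = 1 := fun ω' h =>
    Complex.norm_eq_one_of_pow_eq_one h.pow_eq_one hN.ne'
  have hresz : ∀ y : ℂ, resultant (Fc.map (evalRingHom y)) (Gc.map (evalRingHom y)) m n =
      (resultant Fc Gc m n).eval y := by
    intro y
    rw [resultant_map_map]
    rfl
  have key := mahler_det hN ((sylvester F G m n)ᵀ)
    (Fin.addCases (fun _ => c) (fun _ => 3)) (by
      intro i
      refine Fin.addCases (fun i => ?_) (fun i => ?_) i
      · rw [Fin.addCases_left]; exact hc1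
      · rw [Fin.addCases_right]; norm_num) (by
      intro ω' hω' i
      refine Fin.addCases (fun i => ?_) (fun i => ?_) i
      · rw [Fin.addCases_left]
        refine le_trans (le_of_eq ?_) ((sum_nn_TP w' u' k' ε' hε' ω' (hnorm ω' hω') n).trans hc)
        exact syl_row_left F G m n ω' i
      · rw [Fin.addCases_right]
        refine le_trans (le_of_eq ?_) ((sum_nn_TP w u k ε (fun i => (hε i).le) ω'
          (hnorm ω' hω') m).trans (coin_inj w u hinj).le)
        exact syl_row_right F G m n ω' i) ω hω ?_ z ?_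
  · refine key.trans (le_of_eq ?_)
    rw [Fin.sum_univ_add]
    simp
  · rw [hdet0]
    intro h0
    -- common zeros for almost all `z`
    have hcne : ∀ i, (ε i : ℂ) * ω ^ k i ≠ 0 := by
      intro i h
      have := congrArg norm h
      rw [norm_mul, norm_pow, hnorm ω hω, one_pow, mul_one, Complex.norm_intCast, norm_zero] at this
      have h3 := hε i
      have : |ε i| = 0 := by exact_mod_cast this
      omega
    have hcoef : ∀ i, Fc.coeff (w i) ≠ 0 := by
      intro i h
      have h4 := TC_coeff w u (fun i => ε i * ω ^ k i) (w i) (u i)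
      rw [← hFc, h, coeff_zero, Finset.sum_eq_single i] at h4
      · rw [if_pos ⟨rfl, rfl⟩] at h4
        exact hcne i h4.symm
      · intro j _ hj
        rw [if_neg]
        rintro ⟨h5, h6⟩
        exact hj (hinj _ _ h5 h6)
      · intro h; exact absurd (Finset.mem_univ _) h
    set D := Polynomial.X * Fc.coeff m * Fc.coeff 0 with hD
    have hD0 : D ≠ 0 := by
      refine mul_ne_zero (mul_ne_zero X_ne_zero ?_) ?_
      · rw [← hi1]; exact hcoef i1
      · rw [← hi0]; exact hcoef i0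
    have hinf : {y : ℂ | D.eval y ≠ 0}.Infinite := by
      have h5 : {y : ℂ | D.eval y = 0}.Finite := by
        refine (D.roots.toFinset.finite_toSet).subset fun y hy => ?_
        simp only [Finset.mem_coe, Multiset.mem_toFinset]
        exact (mem_roots hD0).2 hy
      have h6 := h5.infinite_compl
      exact h6.mono fun y hy => hy
    refine hinf ?_
    refine (hfin.image Prod.fst).subset ?_
    intro y hy
    simp only [Set.mem_ofPred_eq, hD, eval_mul, eval_X, mul_ne_zero_iff] at hy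
    obtain ⟨⟨hy0, hym⟩, hyc⟩ := hy
    set f := Fc.map (evalRingHom y) with hf
    set g := Gc.map (evalRingHom y) with hg
    have hfdeg : f.natDegree = m := by
      refine le_antisymm (natDegree_map_le.trans (TC_natDegree_le w u _ hle)) ?_
      refine le_natDegree_of_ne_zero ?_
      rw [hf, coeff_map]
      exact hym
    have hf0 : f ≠ 0 := by
      intro h
      rw [h, natDegree_zero] at hfdeg
      omega
    have hres : resultant f g f.natDegree n = 0 := by
      rw [hfdeg, hf, hg, hresz, h0, eval_zero]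
    rw [resultant_eq_prod_eval f g n (natDegree_map_le.trans (TC_natDegree_le w' u' _ hle'))
      (IsAlgClosed.splits f)] at hres
    have h7 : (f.roots.map g.eval).prod = 0 := by
      refine (mul_eq_zero.1 hres).resolve_left ?_
      exact pow_ne_zero _ (leadingCoeff_ne_zero.2 hf0)
    rw [Multiset.prod_eq_zero_iff, Multiset.mem_map] at h7
    obtain ⟨θ', hθ', h8⟩ := h7
    have h9 : f.eval θ' = 0 := (mem_roots hf0).1 hθ'
    refine ⟨(y, θ'), ⟨hy0, ?_, ?_, ?_⟩, rfl⟩
    · rintro rfl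
      apply hyc
      rw [← coeff_zero_eq_eval_zero, hf, coeff_map] at h9
      exact h9
    · rw [← TC_eval]; exact h9
    · rw [← TC_eval]; exact h8
  · rw [hdet0, ← hresz]
    obtain ⟨p, q, -, -, h⟩ := exists_mul_add_mul_eq_C_resultant (m := m) (n := n) (Fc.map (evalRingHom z))
      (Gc.map (evalRingHom z)) (natDegree_map_le.trans (TC_natDegree_le w u _ hle))
      (natDegree_map_le.trans (TC_natDegree_le w' u' _ hle')) (Or.inl hm.ne')
    have := congrArg (eval θ) h
    rw [eval_add, eval_mul, eval_mul, TC_eval, TC_eval, h1, h2, eval_C] at this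
    rw [← this]; ring

end TwoDim

end Pool.Agent.W_MP_78a2de_al
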